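import Mathlib

/-!
A character of finite order on which a linear map acts as a Galois conjugation.
-/

namespace Pool.Agent.P.MP_406085_lc

open Polynomial
open scoped Classical

namespace Alg

variable {c : ℕ} (Θ : (Fin c → ℤ) →ₗ[ℤ] (Fin c → ℤ))

/-- The sum of the absolute values of the coordinates. -/
def nr (v : Fin c → ℤ) : ℤ := ∑ i, |v i|

theorem nr_nonneg (v : Fin c → ℤ) : 0 ≤ nr v := Finset.sum_nonneg fun _ _ => abs_nonneg _

theorem nr_add (v w : Fin c → ℤ) : nr (v + w) ≤ nr v + nr w := by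
  unfold nr
  rw [← Finset.sum_add_distrib]
  exact Finset.sum_le_sum fun i _ => abs_add_le _ _

theorem nr_smul (q : ℤ) (v : Fin c → ℤ) : nr (q • v) = |q| * nr v := by
  unfold nr
  rw [Finset.mul_sum]
  exact Finset.sum_congr rfl fun i _ => by simp [abs_mul]

theorem nr_pos {v : Fin c → ℤ} (hv : v ≠ 0) : 1 ≤ nr v := by
  obtain ⟨i, hi⟩ : ∃ i, v i ≠ 0 := by
    by_contra h
    push Not at h
    exact hv (funext h)
  exact (Int.one_le_abs hi).trans
    (Finset.single_le_sum (f := fun i => |v i|) (fun _ _ => abs_nonneg _) (Finset.mem_univ i))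

theorem nr_sum {ι : Type} (s : Finset ι) (f : ι → Fin c → ℤ) :
    nr (∑ i ∈ s, f i) ≤ ∑ i ∈ s, nr (f i) := by
  induction s using Finset.induction_on with
  | empty => simp [nr]
  | insert a s ha ih =>
    rw [Finset.sum_insert ha, Finset.sum_insert ha]
    exact (nr_add _ _).trans (by linarith)

theorem exists_bound : ∃ K : ℤ, 0 ≤ K ∧ ∀ v, nr (Θ v) ≤ K * nr v := by
  refine ⟨∑ i, nr (Θ (Pi.single i 1)), Finset.sum_nonneg fun _ _ => nr_nonneg _, fun v => ?_⟩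
  have e : Θ v = ∑ i, v i • Θ (Pi.single i 1) := by
    conv_lhs => rw [pi_eq_sum_univ' v]
    rw [map_sum]
    exact Finset.sum_congr rfl fun i _ => by rw [map_smul]
  rw [e]
  refine (nr_sum _ _).trans ?_
  rw [Finset.sum_mul]
  refine Finset.sum_le_sum fun i _ => ?_
  rw [nr_smul, mul_comm]
  refine mul_le_mul_of_nonneg_left ?_ (nr_nonneg _)
  exact Finset.single_le_sum (f := fun i => |v i|) (fun _ _ => abs_nonneg _) (Finset.mem_univ i)

/-- The image of `Θ - q`. -/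
def HQ (q : ℤ) : Submodule ℤ (Fin c → ℤ) := LinearMap.range (Θ - q • LinearMap.id)

theorem eval_mem (q : ℤ) (F : ℤ[X]) (v : Fin c → ℤ) :
    aeval (Θ : Module.End ℤ (Fin c → ℤ)) F v - F.eval q • v ∈ HQ Θ q := by
  obtain ⟨G, hG⟩ : X - C q ∣ F - C (F.eval q) := X_sub_C_dvd_sub_C_eval
  have h := congrArg (fun p => aeval (Θ : Module.End ℤ (Fin c → ℤ)) p v) hG
  simp only [map_sub, map_mul, aeval_X, aeval_C, LinearMap.sub_apply, Module.End.mul_apply,
    Module.algebraMap_end_apply] at h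
  refine ⟨aeval (Θ : Module.End ℤ (Fin c → ℤ)) G v, ?_⟩
  rw [h]
  simp

theorem not_mem_HQ {K : ℤ} (hK : ∀ v, nr (Θ v) ≤ K * nr v) {q : ℤ} {x : Fin c → ℤ} (hx : x ≠ 0)
    (hK0 : 0 ≤ K) (hq : K + nr x < q) : x ∉ HQ Θ q := by
  rintro ⟨v, hv⟩
  have hv0 : v ≠ 0 := by
    rintro rfl
    exact hx (by rw [← hv, map_zero])
  have e : q • v = Θ v + (-1 : ℤ) • x := by
    rw [← hv]
    simp
  have h1 := nr_pos hv0
  have h2 := nr_nonneg x
  have h3 : nr (q • v) ≤ K * nr v + nr x := by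
    rw [e]
    refine (nr_add _ _).trans ?_
    rw [nr_smul]
    have := hK v
    simp only [abs_neg, abs_one, one_mul]
    linarith
  rw [nr_smul, abs_of_nonneg (by linarith)] at h3
  nlinarith

theorem galois_ne {ι : Type} (S : Finset ι) (d : ι → ℤ) (z : ι → ℂ) {M q : ℕ} (hM : 0 < M)
    (hz : ∀ v, z v ^ M = 1) (hq : q.Coprime M) (h : ∑ v ∈ S, (d v : ℂ) * z v ≠ 0) :
    ∑ v ∈ S, (d v : ℂ) * z v ^ q ≠ 0 := by
  have : NeZero M := ⟨hM.ne'⟩
  obtain ⟨ζ, hζ⟩ : ∃ ζ : ℂ, IsPrimitiveRoot ζ M := ⟨_, Complex.isPrimitiveRoot_exp M hM.ne'⟩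
  choose e _ he using fun v => hζ.eq_pow_of_pow_eq_one (hz v)
  let f : ℚ[X] := ∑ v ∈ S, C (d v : ℚ) * X ^ e v
  have hf : ∀ w : ℂ, aeval w f = ∑ v ∈ S, (d v : ℂ) * w ^ e v := by
    intro w
    simp [f]
  intro h0
  have h1 : aeval (ζ ^ q) f = 0 := by
    rw [hf, ← h0]
    exact Finset.sum_congr rfl fun v _ => by rw [← he v, ← pow_mul, ← pow_mul, mul_comm q]
  have h2 : minpoly ℚ ζ ∣ f := by
    rw [← cyclotomic_eq_minpoly_rat hζ hM, cyclotomic_eq_minpoly_rat (hζ.pow_of_coprime q hq) hM]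
    exact minpoly.dvd ℚ _ h1
  obtain ⟨g, hg⟩ := h2
  apply h
  have h3 : aeval ζ f = 0 := by rw [hg, map_mul, minpoly.aeval, zero_mul]
  rw [hf] at h3
  rw [← h3]
  exact Finset.sum_congr rfl fun v _ => by rw [he v]

theorem exists_char_ne {G : Type} [AddCommGroup G] [Finite G] {ι : Type} (S : Finset ι)
    (d : ι → ℂ) (π : ι → G) {v0 : ι} (hv0 : v0 ∈ S) (hd : d v0 ≠ 0)
    (hπ : ∀ v ∈ S, π v = π v0 → v = v0) : ∃ ψ : AddChar G ℂ, ∑ v ∈ S, d v * ψ (π v) ≠ 0 := by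
  cases nonempty_fintype G
  by_contra h
  push Not at h
  have h1 : ∑ ψ : AddChar G ℂ, (∑ v ∈ S, d v * ψ (π v)) * ψ (-π v0) = 0 := by simp [h]
  have h2 : ∑ ψ : AddChar G ℂ, (∑ v ∈ S, d v * ψ (π v)) * ψ (-π v0) =
      ∑ v ∈ S, d v * ∑ ψ : AddChar G ℂ, ψ (π v - π v0) := by
    simp only [Finset.sum_mul, Finset.mul_sum]
    rw [Finset.sum_comm]
    refine Finset.sum_congr rfl fun v _ => Finset.sum_congr rfl fun ψ _ => ?_
    rw [sub_eq_add_neg, AddChar.map_add_eq_mul, mul_assoc]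
  rw [h2, Finset.sum_eq_single v0] at h1
  · rw [AddChar.sum_apply_eq_ite, if_pos (sub_self _)] at h1
    exact mul_ne_zero hd (Nat.cast_ne_zero.2 Fintype.card_ne_zero) h1
  · intro v hv hne
    rw [AddChar.sum_apply_eq_ite, if_neg fun e => hne (hπ v hv (sub_eq_zero.mp e)), mul_zero]
  · exact fun h => (h hv0).elim

theorem exists_poly : ∃ (a : ℕ) (P : ℤ[X]), P.eval 0 ≠ 0 ∧
    aeval (Θ : Module.End ℤ (Fin c → ℤ)) (X ^ a * P) = 0 := by
  obtain ⟨Q, hQ, h0⟩ := LinearMap.exists_monic_and_aeval_eq_zero ℤ (Θ : Module.End ℤ (Fin c → ℤ))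
  obtain ⟨P, hP, hn⟩ := exists_eq_pow_rootMultiplicity_mul_and_not_dvd Q hQ.ne_zero 0
  refine ⟨rootMultiplicity 0 Q, P, fun e => hn (dvd_iff_isRoot.mpr e), ?_⟩
  rw [C_0, sub_zero] at hP
  rw [← hP, h0]

theorem exists_char {a : ℕ} {P : ℤ[X]} (hP0 : P.eval 0 ≠ 0)
    (hP : aeval (Θ : Module.End ℤ (Fin c → ℤ)) (X ^ a * P) = 0) (S : Finset (Fin c → ℤ))
    (hS : ∀ v ∈ S, ∃ u, v = (Θ ^ a) u) (d : (Fin c → ℤ) → ℤ) {v0 : Fin c → ℤ} (hv0 : v0 ∈ S)
    (hd : d v0 ≠ 0) : ∃ χ : AddChar (Fin c → ℤ) ℂ, ∃ M q : ℕ, 0 < M ∧ (∀ v, χ v ^ M = 1) ∧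
      (∀ v, χ (Θ v) = χ v ^ q) ∧ ∀ m, ∑ v ∈ S, (d v : ℂ) * χ v ^ q ^ m ≠ 0 := by
  obtain ⟨K, hK0, hK⟩ := exists_bound Θ
  -- the choice of `q`
  obtain ⟨t, ht⟩ : ∃ t : ℕ, 0 < t ∧ ∀ v ∈ S, K + nr (v - v0) < t := by
    refine ⟨(K + ∑ v ∈ S, nr (v - v0)).toNat + 1, by omega, fun v hv => ?_⟩
    have := Finset.single_le_sum (f := fun v => nr (v - v0)) (fun _ _ => nr_nonneg _) hv
    have h2 := Int.self_le_toNat (K + ∑ v ∈ S, nr (v - v0))
    push_cast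
    linarith
  set q : ℕ := (P.eval 0).natAbs * t + 1 with hq
  have hpos : 1 ≤ (P.eval 0).natAbs := Int.natAbs_pos.mpr hP0
  have hqt : t < q := by nlinarith
  have hco : IsCoprime (q : ℤ) (P.eval q) := by
    obtain ⟨w, hw⟩ := sub_dvd_eval_sub (q : ℤ) 0 P
    have e : P.eval (q : ℤ) = P.eval 0 + q * w := by rw [sub_zero] at hw; linarith
    rw [e]
    refine IsCoprime.add_mul_left_right ?_ w
    rw [Int.isCoprime_iff_gcd_eq_one, Int.gcd_eq_natAbs, Int.natAbs_natCast, hq]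
    exact (Nat.coprime_mul_left_add_left 1 _ t).mpr (Nat.coprime_one_left _)
  set M : ℕ := (P.eval (q : ℤ)).natAbs with hM
  have hcoN : q.Coprime M := by
    have := Int.isCoprime_iff_gcd_eq_one.mp hco
    rwa [Int.gcd_eq_natAbs, Int.natAbs_natCast] at this
  have hM0 : 0 < M := by
    rcases Nat.eq_zero_or_pos M with h | h
    · rw [h, Nat.coprime_zero_right] at hcoN
      omega
    · exact h
  let H : Submodule ℤ (Fin c → ℤ) :=
    HQ Θ q ⊔ LinearMap.range (P.eval (q : ℤ) • (LinearMap.id : (Fin c → ℤ) →ₗ[ℤ] (Fin c → ℤ)))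
  have hH1 : ∀ v, P.eval (q : ℤ) • v ∈ H := fun v => Submodule.mem_sup_right ⟨v, rfl⟩
  have hH2 : ∀ v, Θ v - (q : ℤ) • v ∈ H := fun v => Submodule.mem_sup_left ⟨v, rfl⟩
  have hfin : Finite ((Fin c → ℤ) ⧸ H) := by
    refine Module.finite_of_fg_torsion _ fun x => ?_
    obtain ⟨v, rfl⟩ := H.mkQ_surjective x
    refine ⟨⟨P.eval (q : ℤ), mem_nonZeroDivisors_of_ne_zero (Int.natAbs_pos.mp hM0)⟩, ?_⟩
    change P.eval (q : ℤ) • H.mkQ v = 0
    rw [← map_smul, Submodule.mkQ_apply, Submodule.Quotient.mk_eq_zero]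
    exact hH1 v
  have hsep : ∀ v ∈ S, H.mkQ v = H.mkQ v0 → v = v0 := by
    intro v hv e
    by_contra hne
    have hx : v - v0 ≠ 0 := sub_ne_zero.mpr hne
    refine not_mem_HQ Θ hK hx hK0 (q := q) ((ht.2 v hv).trans (by exact_mod_cast hqt)) ?_
    have e1 : v - v0 ∈ H := (Submodule.Quotient.eq H).mp e
    obtain ⟨h, hh, _, ⟨w, rfl⟩, e2⟩ := Submodule.mem_sup.mp e1
    obtain ⟨u, hu⟩ := hS v hv
    obtain ⟨u0, hu0⟩ := hS v0 hv0
    have f1 : P.eval (q : ℤ) • (v - v0) ∈ HQ Θ q := by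
      have h1 := eval_mem Θ q P (v - v0)
      have h2 : aeval (Θ : Module.End ℤ (Fin c → ℤ)) P (v - v0) = 0 := by
        have h3 := congrArg (fun f : Module.End ℤ (Fin c → ℤ) => f (u - u0)) hP
        simp only [mul_comm (X ^ a) P, map_mul, map_pow, aeval_X, Module.End.mul_apply,
          LinearMap.zero_apply] at h3
        rw [hu, hu0, ← map_sub]
        exact h3
      rw [h2, zero_sub] at h1
      exact neg_mem_iff.mp h1
    have f2 : (q : ℤ) ^ a • (v - v0) ∈ HQ Θ q := by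
      have h1 := eval_mem Θ q (X ^ a * P) w
      rw [hP, LinearMap.zero_apply, zero_sub] at h1
      have h2 := neg_mem_iff.mp h1
      rw [← e2, smul_add]
      refine add_mem (Submodule.smul_mem _ _ hh) ?_
      simpa [mul_smul] using h2
    obtain ⟨α, β, hαβ⟩ := hco.pow_left (m := a)
    have f3 := add_mem (Submodule.smul_mem _ α f2) (Submodule.smul_mem _ β f1)
    rwa [smul_smul, smul_smul, ← add_smul, hαβ, one_smul] at f3
  obtain ⟨ψ, hψ⟩ := exists_char_ne S (fun v => (d v : ℂ)) H.mkQ hv0 (by exact_mod_cast hd) hsep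
  let χ : AddChar (Fin c → ℤ) ℂ := ψ.compAddMonoidHom H.mkQ.toAddMonoidHom
  have hχ : ∀ v, χ v = ψ (H.mkQ v) := fun v => rfl
  have hχM : ∀ v, χ v ^ M = 1 := by
    intro v
    rw [← AddChar.map_nsmul_eq_pow, hχ]
    have : H.mkQ (M • v) = 0 := by
      rw [Submodule.mkQ_apply, Submodule.Quotient.mk_eq_zero, ← natCast_zsmul, hM]
      rcases Int.natAbs_eq (P.eval (q : ℤ)) with h | h
      · rw [← h]; exact hH1 v
      · rw [show (((P.eval (q : ℤ)).natAbs : ℕ) : ℤ) = -P.eval (q : ℤ) by omega, neg_smul]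
        exact neg_mem (hH1 v)
    rw [this, AddChar.map_zero_eq_one]
  refine ⟨χ, M, q, hM0, hχM, fun v => ?_, fun m => ?_⟩
  · rw [← AddChar.map_nsmul_eq_pow, hχ, hχ]
    congr 1
    refine (Submodule.Quotient.eq H).mpr ?_
    rw [← natCast_zsmul]
    exact hH2 v
  · exact galois_ne S d (fun v => χ v) hM0 hχM (hcoN.pow_left m) hψ

end Alg

end Pool.Agent.P.MP_406085_lc
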