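import Pool.Agent.P.MP_406085_lc.AlgA
import Pool.Agent.P.MP_406085_lc.AlgB

/-!
A character of finite order along which all cocycles are invertible.
-/

namespace Pool.Agent.P.MP_406085_lc

open Filter PowerSeries
open scoped Classical

namespace Alg

open Matrix

variable {c : ℕ} (Θ : (Fin c → ℤ) →ₗ[ℤ] (Fin c → ℤ)) (lam : (Fin c → ℤ) →ₗ[ℤ] ℤ)

/-- The group ring of the lattice. -/
abbrev GR (c : ℕ) := AddMonoidAlgebra ℤ (Fin c → ℤ)

/-- The endomorphism of the group ring. -/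
noncomputable def sg : GR c →+* GR c := AddMonoidAlgebra.mapDomainRingHom ℤ Θ.toAddMonoidHom

theorem sg_pow (k : ℕ) (x : GR c) : (sg Θ ^ k) x = AddMonoidAlgebra.mapDomain (Θ ^ k) x := by
  induction x using AddMonoidAlgebra.induction_linear with
  | zero => simp
  | add x y hx hy => rw [map_add, hx, hy, AddMonoidAlgebra.mapDomain_add]
  | single v n =>
    rw [AddMonoidAlgebra.mapDomain_single]
    induction k with
    | zero => rfl
    | succ k ih =>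
      rw [pow_succ', RingHom.coe_mul, Function.comp_apply, ih, pow_succ', Module.End.mul_apply]
      exact AddMonoidAlgebra.mapDomain_single

/-- The series attached to a lattice point. -/
noncomputable def mh (χ : AddChar (Fin c → ℤ) ℂ) : Multiplicative (Fin c → ℤ) →* ℂ⟦X⟧ where
  toFun v := C (χ v.toAdd) * ex (lam v.toAdd : ℤ)
  map_one' := by simp [ex_zero]
  map_mul' v w := by
    rw [toAdd_mul, AddChar.map_add_eq_mul, map_add, Int.cast_add, ex_add, map_mul]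
    ring

/-- The evaluation of the group ring at time `m`. -/
noncomputable def Ps (χ : AddChar (Fin c → ℤ) ℂ) (m : ℕ) : GR c →+* ℂ⟦X⟧ :=
  (AddMonoidAlgebra.lift ℤ ℂ⟦X⟧ (Fin c → ℤ) (mh lam χ)).toRingHom.comp (sg Θ ^ m)

theorem Ps_sg (χ : AddChar (Fin c → ℤ) ℂ) (m : ℕ) (x : GR c) :
    Ps Θ lam χ m (sg Θ x) = Ps Θ lam χ (m + 1) x := by
  simp only [Ps, RingHom.comp_apply, pow_succ, RingHom.coe_mul, Function.comp_apply]

theorem Ps_single (χ : AddChar (Fin c → ℤ) ℂ) (m : ℕ) (v : Fin c → ℤ) (n : ℤ) :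
    Ps Θ lam χ m (AddMonoidAlgebra.single v n) =
      (n : ℂ⟦X⟧) * (C (χ ((Θ ^ m) v)) * ex (lam ((Θ ^ m) v) : ℤ)) := by
  simp only [Ps, RingHom.comp_apply]
  rw [sg_pow, AddMonoidAlgebra.mapDomain_single]
  change AddMonoidAlgebra.lift ℤ ℂ⟦X⟧ (Fin c → ℤ) (mh lam χ) _ = _
  rw [AddMonoidAlgebra.lift_single, Algebra.smul_def, eq_intCast]
  rfl

theorem cc_Ps (χ : AddChar (Fin c → ℤ) ℂ) (m : ℕ) (x : GR c) :
    constantCoeff (Ps Θ lam χ m x) = x.coeff.sum fun v n => (n : ℂ) * χ ((Θ ^ m) v) := by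
  induction x using AddMonoidAlgebra.induction_linear with
  | zero => simp
  | add x y hx hy =>
    rw [map_add, map_add, hx, hy, AddMonoidAlgebra.coeff_add, Finsupp.sum_add_index']
    · simp
    · intro a b b'
      push_cast
      ring
  | single v n =>
    rw [Ps_single, AddMonoidAlgebra.coeff_single, Finsupp.sum_single_index (by simp)]
    simp [constantCoeff_ex]

theorem chi_pow {χ : AddChar (Fin c → ℤ) ℂ} {q : ℕ} (h : ∀ v, χ (Θ v) = χ v ^ q) (m : ℕ)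
    (v : Fin c → ℤ) : χ ((Θ ^ m) v) = χ v ^ q ^ m := by
  induction m with
  | zero => simp
  | succ m ih => rw [pow_succ', Module.End.mul_apply, h, ih, ← pow_mul, ← pow_succ]

theorem chi_ep {χ : AddChar (Fin c → ℤ) ℂ} {M q : ℕ} (hM : 0 < M) (h1 : ∀ v, χ v ^ M = 1)
    (h : ∀ v, χ (Θ v) = χ v ^ q) (v : Fin c → ℤ) : EP fun m => χ ((Θ ^ m) v) := by
  refine ep_of_det ?_ fun n m e => ?_
  · refine (Polynomial.nthRoots M (1 : ℂ)).toFinset.finite_toSet.subset ?_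
    rintro _ ⟨m, rfl⟩
    simpa [Polynomial.mem_nthRoots hM] using h1 _
  · simp only [pow_succ', Module.End.mul_apply, h] at e ⊢
    rw [e]

theorem lam_inC (v : Fin c → ℤ) : InC fun m => ((lam ((Θ ^ m) v) : ℤ) : ℂ) := by
  obtain ⟨Q, hQ, h0⟩ := LinearMap.exists_monic_and_aeval_eq_zero ℤ (Θ : Module.End ℤ (Fin c → ℤ))
  refine inC_of_rec (P := Q.map (Int.castRingHom ℂ)) (hQ.map _) fun n => ?_
  rw [hQ.natDegree_map]
  have h1 := congrArg (fun f : Module.End ℤ (Fin c → ℤ) => ((lam ((Θ ^ n) (f v)) : ℤ) : ℂ)) h0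
  simp only [Polynomial.aeval_eq_sum_range, LinearMap.sum_apply, LinearMap.smul_apply, map_sum,
    map_smul, LinearMap.zero_apply, map_zero, smul_eq_mul] at h1
  push_cast at h1
  rw [← h1]
  refine Finset.sum_congr rfl fun i _ => ?_
  rw [Polynomial.coeff_map, pow_add, Module.End.mul_apply]
  rfl

theorem Ps_inR {χ : AddChar (Fin c → ℤ) ℂ} {M q : ℕ} (hM : 0 < M) (h1 : ∀ v, χ v ^ M = 1)
    (h : ∀ v, χ (Θ v) = χ v ^ q) (x : GR c) :
    (InR fun m => Ps Θ lam χ m x) ∧ EP fun m => constantCoeff (Ps Θ lam χ m x) := by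
  induction x using AddMonoidAlgebra.induction_linear with
  | zero => simpa using ⟨inR_const 0, ep_const 0⟩
  | add x y hx hy =>
    simp only [map_add]
    exact ⟨hx.1.add hy.1, hx.2.comp₂ hy.2 (· + ·)⟩
  | single v n =>
    have hu := inU_mk (chi_ep Θ hM h1 h v) (fun m e => by
      have := h1 ((Θ ^ m) v)
      rw [e, zero_pow hM.ne'] at this
      exact zero_ne_one this) (lam_inC Θ lam v)
    simp only [Ps_single, map_mul (constantCoeff (R := ℂ)) (n : ℂ⟦X⟧)]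
    exact ⟨(inR_const _).mul hu.1, hu.2.1.comp fun z => constantCoeff (n : ℂ⟦X⟧) * z⟩

theorem exists_chi {a : ℕ} {P : Polynomial ℤ} (hP0 : P.eval 0 ≠ 0)
    (hP : Polynomial.aeval (Θ : Module.End ℤ (Fin c → ℤ)) (Polynomial.X ^ a * P) = 0)
    {δ : GR c} (hδ : δ ∈ (sg Θ ^ a).range) (h0 : δ ≠ 0) :
    ∃ χ : AddChar (Fin c → ℤ) ℂ, ∃ M q : ℕ, 0 < M ∧ (∀ v, χ v ^ M = 1) ∧
      (∀ v, χ (Θ v) = χ v ^ q) ∧ ∀ m, constantCoeff (Ps Θ lam χ m δ) ≠ 0 := by
  obtain ⟨v0, hv0⟩ : δ.coeff.support.Nonempty := by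
    rw [Finsupp.support_nonempty_iff]
    exact fun e => h0 (AddMonoidAlgebra.coeff_eq_zero.mp e)
  obtain ⟨χ, M, q, hM, h1, h2, h3⟩ := exists_char Θ hP0 hP δ.coeff.support (fun v hv => by
    obtain ⟨x, rfl⟩ := hδ
    rw [sg_pow] at hv
    obtain ⟨u, _, hu⟩ := Finset.mem_image.mp (Finsupp.mapDomain_support hv)
    exact ⟨u, hu.symm⟩) δ.coeff hv0 (Finsupp.mem_support_iff.mp hv0)
  refine ⟨χ, M, q, hM, h1, h2, fun m => ?_⟩
  rw [cc_Ps, Finsupp.sum]
  simp only [chi_pow Θ h2]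
  exact h3 m

/-- The restriction of the endomorphism to the stable range. -/
noncomputable def sr (a : ℕ) : (sg Θ ^ a).range →+* (sg Θ ^ a).range :=
  (sg Θ).restrict _ _ (by
    rintro _ ⟨x, rfl⟩
    refine ⟨sg Θ x, ?_⟩
    change (sg Θ ^ a * sg Θ) x = (sg Θ * sg Θ ^ a) x
    rw [← pow_succ, ← pow_succ'])

section Step

variable {N : Type} [Fintype N]

/-- The matrix of one step. -/
noncomputable def Bm (O : N → List (N × (Fin c → ℤ))) : Matrix N N (GR c) := fun a b =>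
  ((O a).map fun o => if o.1 = b then AddMonoidAlgebra.single o.2 (1 : ℤ) else 0).sum

theorem Bm_mulVec (O : N → List (N × (Fin c → ℤ))) (f : GR c →+* ℂ⟦X⟧) (z : N → ℂ⟦X⟧) (a : N) :
    ((Bm O).map f *ᵥ z) a = ((O a).map fun o => f (AddMonoidAlgebra.single o.2 1) * z o.1).sum := by
  change ∑ b, f (Bm O a b) * z b = _
  unfold Bm
  induction O a with
  | nil => simp
  | cons o l ih =>
    simp only [List.map_cons, List.sum_cons, map_add, add_mul, Finset.sum_add_distrib, ih]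
    congr 1
    rw [Finset.sum_eq_single o.1]
    · simp
    · intro b _ hb
      simp [Ne.symm hb]
    · simp

/-- The matrix of the first `ρ` steps of a period. -/
noncomputable def Pm (O : ℕ → N → List (N × (Fin c → ℤ))) : ℕ → Matrix N N (GR c)
  | 0 => 1
  | ρ + 1 => Bm (O ρ) * Pm O ρ

theorem period {Ψ : ℕ → GR c →+* ℂ⟦X⟧} (hR : ∀ x, InR fun m => Ψ m x) {Δ : ℕ}
    (O : ℕ → N → List (N × (Fin c → ℤ))) {y r : N → ℕ → ℂ⟦X⟧} (hr : ∀ a, InR (r a))
    (h : ∀ m ρ, ρ < Δ → ∀ a, y a (m * Δ + ρ + 1) =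
      ((Bm (O ρ)).map (Ψ m) *ᵥ fun b => y b (m * Δ + ρ)) a + r a (m * Δ + ρ)) (ρ : ℕ)
    (hρ : ρ ≤ Δ) : ∃ r' : ℕ → N → ℂ⟦X⟧, (∀ a, InR fun m => r' m a) ∧
      ∀ m, (fun a => y a (m * Δ + ρ)) = (Pm O ρ).map (Ψ m) *ᵥ (fun a => y a (m * Δ)) + r' m := by
  induction ρ with
  | zero =>
    refine ⟨fun _ _ => 0, fun _ => inR_const 0, fun m => ?_⟩
    rw [Pm, Matrix.map_one _ (map_zero _) (map_one _), Matrix.one_mulVec]
    ext a : 1
    simp
  | succ ρ ih =>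
    obtain ⟨r', h1, h2⟩ := ih (by omega)
    refine ⟨fun m => (Bm (O ρ)).map (Ψ m) *ᵥ r' m + fun a => r a (m * Δ + ρ), fun a => ?_,
      fun m => ?_⟩
    · refine (inR_mulVec (fun m => (Bm (O ρ)).map (Ψ m)) r' (fun a b => hR _) h1 a).add ?_
      have := InR.subseq (hr a) ρ Δ
      simpa only [add_comm ρ, mul_comm Δ] using this
    · funext a
      rw [← add_assoc, h m ρ (by omega), h2, Pm, Matrix.map_mul, Matrix.mulVec_add,
        Matrix.mulVec_mulVec, ← add_assoc]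
      rfl

end Step

end Alg

open Alg Matrix in
theorem alg {c : ℕ} (Θ : (Fin c → ℤ) →ₗ[ℤ] (Fin c → ℤ)) (lam : (Fin c → ℤ) →ₗ[ℤ] ℤ)
    {I N : Type} [Finite I] [Finite N] (Δ : I → ℕ) (hΔ : ∀ i, 0 < Δ i)
    (O : I → ℕ → N → List (N × (Fin c → ℤ))) :
    ∃ χ : AddChar (Fin c → ℤ) ℂ, (∃ M, 0 < M ∧ ∀ v, χ v ^ M = 1) ∧
      ∀ (i : I) (y r : N → ℕ → ℂ⟦X⟧), (∀ a, InR (r a)) →
        (∀ m ρ, ρ < Δ i → ∀ a, y a (m * Δ i + ρ + 1) =
          ((O i ρ a).map fun o => C (χ ((Θ ^ m) o.2)) * ex (lam ((Θ ^ m) o.2) : ℤ) *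
            y o.1 (m * Δ i + ρ)).sum + r a (m * Δ i + ρ)) →
        ∀ a, InR (y a) := by
  cases nonempty_fintype I
  cases nonempty_fintype N
  obtain ⟨a, P, hP0, hP⟩ := exists_poly Θ
  have hinj : Function.Injective (sr Θ a) := by
    rw [injective_iff_map_eq_zero]
    intro x hx
    by_contra h0
    obtain ⟨χ, _, _, _, _, _, h⟩ := exists_chi Θ lam hP0 hP x.2 fun e => h0 (Subtype.ext e)
    apply h 1
    rw [← Ps_sg]
    have : sg Θ x = 0 := congrArg Subtype.val hx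
    rw [this, map_zero, map_zero]
  choose k j hk δ L R1 hδ hf hC using fun i =>
    fac (sr Θ a) ((Pm (O i) (Δ i)).map (sg Θ ^ a).rangeRestrict) hinj
  let δ' : (sg Θ ^ a).range := ∏ i, δ i * ((R1 i).map (sr Θ a ^ k i) * L i).det
  have hδ' : δ' ≠ 0 := Finset.prod_ne_zero_iff.mpr fun i _ => mul_ne_zero (hδ i) (hC i)
  obtain ⟨χ, M, q, hM, h1, h2, h3⟩ := exists_chi Θ lam hP0 hP δ'.2 fun e => hδ' (Subtype.ext e)
  refine ⟨χ, ⟨M, hM, h1⟩, fun i y r hr h => ?_⟩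
  have hR := Ps_inR Θ lam hM h1 h2
  let Ψ : ℕ → (sg Θ ^ a).range →+* ℂ⟦X⟧ := fun m => (Ps Θ lam χ m).comp (Subring.subtype _)
  have h4 : ∀ m, constantCoeff (Ψ m (δ i)) ≠ 0 ∧
      constantCoeff (Ψ m ((R1 i).map (sr Θ a ^ k i) * L i).det) ≠ 0 := by
    intro m
    have e : constantCoeff (Ψ m δ') ≠ 0 := h3 m
    simp only [δ', map_prod, map_mul] at e
    exact mul_ne_zero_iff.mp (Finset.prod_ne_zero_iff.mp e i (Finset.mem_univ i))
  have hstep : ∀ m ρ, ρ < Δ i → ∀ b, y b (m * Δ i + ρ + 1) =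
      ((Bm (O i ρ)).map (Ps Θ lam χ m) *ᵥ fun b => y b (m * Δ i + ρ)) b + r b (m * Δ i + ρ) := by
    intro m ρ hρ b
    rw [h m ρ hρ, Bm_mulVec]
    simp only [Ps_single, Int.cast_one, one_mul]
  have hper := period (fun x => (hR x).1) (O i) hr hstep
  have hZ : ∀ b, InR fun m => y b (m * Δ i) := by
    obtain ⟨r', hr', e⟩ := hper (Δ i) le_rfl
    intro b
    refine (inR_shift (y := fun m => y b (m * Δ i)) a).mp ?_
    refine lin (σ := sr Θ a) (Ψ := Ψ) (fun m x => Ps_sg Θ lam χ m x) (fun x => (hR x).1)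
      (fun x => (hR x).2) (hk i) (hf i) (fun m => (h4 m).1) (fun m => (h4 m).2)
      (Z := fun m b => y b ((m + a) * Δ i)) (r := fun m => r' (m + a))
      (fun b => (inR_shift (y := fun m => r' m b) a).mpr (hr' b)) (fun m => ?_) b
    have e1 : ((Pm (O i) (Δ i)).map (sg Θ ^ a).rangeRestrict).map (Ψ m) =
        (Pm (O i) (Δ i)).map (Ps Θ lam χ (m + a)) :=
      Matrix.ext fun b b' => psi_pow (Ps_sg Θ lam χ) a m _
    rw [e1, ← e (m + a)]
    funext b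
    congr 1
    ring
  intro b
  refine inR_interleave (q := 0) (hΔ i) fun ρ hρ => ?_
  obtain ⟨r', hr', e⟩ := hper ρ hρ.le
  have := (inR_mulVec (fun m => (Pm (O i) ρ).map (Ps Θ lam χ m)) (fun m b => y b (m * Δ i))
    (fun b b' => (hR _).1) hZ b).add (hr' b)
  refine this.congr (Eventually.of_forall fun m => ?_)
  have e2 := congrFun (e m) b
  rw [show 0 + ρ + Δ i * m = m * Δ i + ρ by ring, e2]
  rfl

end Pool.Agent.P.MP_406085_lc
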