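import Pool.Agent.P.MP_406085_lc.Ring2

/-!
Cocycles of matrices over a domain with an injective endomorphism: a factorization through an
invertible core, and the resulting closure of `InR` under linear recursions.
-/

namespace Pool.Agent.P.MP_406085_lc

open Filter PowerSeries Matrix
open scoped Classical

namespace Alg

section Fac

variable {R : Type} [CommRing R] (σ : R →+* R) {N : Type} [Fintype N] (B : Matrix N N R)

/-- The cocycle product. -/
noncomputable def MM : ℕ → Matrix N N R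
  | 0 => 1
  | k + 1 => B.map (σ ^ k) * MM k

theorem MM_add (k l : ℕ) : MM σ B (k + l) = (MM σ B l).map (σ ^ k) * MM σ B k := by
  induction l with
  | zero => simp [MM]
  | succ l ih =>
    rw [← add_assoc, MM, ih, MM, Matrix.map_mul, Matrix.map_map, Matrix.mul_assoc, pow_add]
    rfl

/-- A factorization of a cocycle product through `Fin j`. -/
def Fa (j : ℕ) : Prop :=
  ∃ k, 0 < k ∧ ∃ δ : R, δ ≠ 0 ∧ ∃ (L : Matrix N (Fin j) R) (R1 : Matrix (Fin j) N R),
    δ • MM σ B k = L * R1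

theorem pow_inj (hσ : Function.Injective σ) (k : ℕ) : Function.Injective (σ ^ k) := by
  rw [RingHom.coe_pow]
  exact hσ.iterate k

theorem map_smul_eq {A A' : Type} [CommRing A] [CommRing A'] (f : A →+* A') {P Q : Type}
    (δ : A) (M : Matrix P Q A) : (δ • M).map f = f δ • M.map f := by
  ext a b
  simp

theorem drop_col {j : ℕ} (C : Matrix (Fin (j + 1)) (Fin (j + 1)) R) (v : Fin (j + 1) → R)
    (hv : C *ᵥ v = 0) (j0 : Fin (j + 1)) :
    ∃ (C' : Matrix (Fin (j + 1)) (Fin j) R) (T : Matrix (Fin j) (Fin (j + 1)) R),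
      v j0 • C = C' * T := by
  let T0 : Matrix (Fin (j + 1)) (Fin (j + 1)) R := fun y b =>
    (if y = b then v j0 else 0) - if b = j0 then v y else 0
  refine ⟨C.submatrix id j0.succAbove, T0.submatrix j0.succAbove id, ?_⟩
  ext a b
  have h1 : ∑ y, C a y * T0 y b = v j0 * C a b := by
    have h2 : ∑ y, C a y * v y = 0 := congrFun hv a
    simp only [T0, mul_sub, Finset.sum_sub_distrib, mul_ite, mul_zero]
    rw [Finset.sum_ite_eq']
    by_cases hb : b = j0
    · simp [hb, h2, mul_comm]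
    · simp [hb, mul_comm]
  have h3 : T0 j0 b = 0 := by
    by_cases hb : b = j0
    · simp [T0, hb]
    · simp [T0, hb, Ne.symm hb]
  rw [Fin.sum_univ_succAbove _ j0, h3, mul_zero, zero_add] at h1
  simp only [Matrix.smul_apply, smul_eq_mul, Matrix.mul_apply, Matrix.submatrix_apply, id]
  exact h1.symm

theorem fac [IsDomain R] (hσ : Function.Injective σ) :
    ∃ k j, 0 < k ∧ ∃ (δ : R) (L : Matrix N (Fin j) R) (R1 : Matrix (Fin j) N R), δ ≠ 0 ∧
      δ • MM σ B k = L * R1 ∧ (R1.map (σ ^ k) * L).det ≠ 0 := by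
  have hex : ∃ j, Fa σ B j := by
    let e := (Fintype.equivFin N).symm
    refine ⟨Fintype.card N, 1, one_pos, 1, one_ne_zero, (MM σ B 1).submatrix id e,
      (1 : Matrix N N R).submatrix e id, ?_⟩
    rw [Matrix.submatrix_mul_equiv]
    simp
  obtain ⟨j, ⟨k, hk, δ, hδ, L, R1, hf⟩, hmin⟩ : ∃ j, Fa σ B j ∧ ∀ j' < j, ¬ Fa σ B j' :=
    ⟨Nat.find hex, Nat.find_spec hex, fun j' h => Nat.find_min hex h⟩
  refine ⟨k, j, hk, δ, L, R1, hδ, hf, fun hdet => ?_⟩
  obtain ⟨v, hv0, hv⟩ := Matrix.exists_mulVec_eq_zero_iff.mpr hdet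
  obtain ⟨j0, hj0⟩ : ∃ j0, v j0 ≠ 0 := by
    by_contra h
    push Not at h
    exact hv0 (funext h)
  cases j with
  | zero => exact j0.elim0
  | succ j =>
    obtain ⟨C', T, hC⟩ := drop_col _ v hv j0
    refine hmin j (Nat.lt_succ_self j) ⟨k + k, by omega, (σ ^ k) δ * δ * v j0, ?_,
      L.map (σ ^ k) * C', T * R1, ?_⟩
    · refine mul_ne_zero (mul_ne_zero (fun h => hδ ?_) hδ) hj0
      exact pow_inj σ hσ k (by rw [h, map_zero])
    · have h1 : (σ ^ k) δ • (MM σ B k).map (σ ^ k) = L.map (σ ^ k) * R1.map (σ ^ k) := by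
        rw [← map_smul_eq, hf, Matrix.map_mul]
      calc ((σ ^ k) δ * δ * v j0) • MM σ B (k + k)
          = v j0 • (((σ ^ k) δ • (MM σ B k).map (σ ^ k)) * (δ • MM σ B k)) := by
            rw [MM_add, Matrix.smul_mul, Matrix.mul_smul, smul_smul, smul_smul]
            congr 1
            ring
        _ = L.map (σ ^ k) * (v j0 • (R1.map (σ ^ k) * L)) * R1 := by
            rw [h1, hf, Matrix.mul_smul, Matrix.smul_mul]
            simp only [Matrix.mul_assoc]
        _ = _ := by rw [hC]; simp only [Matrix.mul_assoc]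

end Fac

theorem inR_mulVec {P J : Type} [Fintype J] (A : ℕ → Matrix P J ℂ⟦X⟧) (z : ℕ → J → ℂ⟦X⟧)
    (hA : ∀ a b, InR fun n => A n a b) (hz : ∀ b, InR fun n => z n b) (a : P) :
    InR fun n => (A n *ᵥ z n) a :=
  inR_sum Finset.univ (y := fun b n => A n a b * z n b) fun b _ => (hA a b).mul (hz b)

section Lin

variable {R : Type} [CommRing R] {σ : R →+* R} {N : Type} [Fintype N] {B : Matrix N N R}
  {Ψ : ℕ → R →+* ℂ⟦X⟧}

theorem psi_pow (hΨ : ∀ m x, Ψ m (σ x) = Ψ (m + 1) x) (k : ℕ) :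
    ∀ m x, Ψ m ((σ ^ k) x) = Ψ (m + k) x := by
  induction k with
  | zero => intro m x; rfl
  | succ k ih =>
    intro m x
    rw [pow_succ, RingHom.coe_mul, Function.comp_apply, ih, hΨ, add_assoc]

theorem map_psi_pow (hΨ : ∀ m x, Ψ m (σ x) = Ψ (m + 1) x) (k m : ℕ) {P Q : Type}
    (A : Matrix P Q R) : (A.map (σ ^ k)).map (Ψ m) = A.map (Ψ (m + k)) := by
  exact Matrix.ext fun a b => psi_pow hΨ k m (A a b)

theorem kstep (hΨ : ∀ m x, Ψ m (σ x) = Ψ (m + 1) x) (hR : ∀ x, InR fun m => Ψ m x)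
    {Z r : ℕ → N → ℂ⟦X⟧} (hr : ∀ a, InR fun m => r m a)
    (hZ : ∀ m, Z (m + 1) = B.map (Ψ m) *ᵥ Z m + r m) (k : ℕ) :
    ∃ rk : ℕ → N → ℂ⟦X⟧, (∀ a, InR fun m => rk m a) ∧
      ∀ m, Z (m + k) = (MM σ B k).map (Ψ m) *ᵥ Z m + rk m := by
  induction k with
  | zero =>
    refine ⟨fun _ _ => 0, fun _ => inR_const 0, fun m => ?_⟩
    rw [MM, Matrix.map_one _ (map_zero _) (map_one _), Matrix.one_mulVec]
    ext a : 1
    simp
  | succ k ih =>
    obtain ⟨rk, h1, h2⟩ := ih
    refine ⟨fun m => B.map (Ψ (m + k)) *ᵥ rk m + r (m + k), fun a => ?_, fun m => ?_⟩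
    · exact (inR_mulVec (fun m => B.map (Ψ (m + k))) rk
        (fun a b => (inR_shift (y := fun m => Ψ m (B a b)) k).mpr (hR _)) h1 a).add
        ((inR_shift (y := fun m => r m a) k).mpr (hr a))
    · rw [← add_assoc, hZ, h2, MM, Matrix.map_mul, map_psi_pow hΨ, Matrix.mulVec_add,
        Matrix.mulVec_mulVec, add_assoc]

theorem lin (hΨ : ∀ m x, Ψ m (σ x) = Ψ (m + 1) x) (hR : ∀ x, InR fun m => Ψ m x)
    (hE : ∀ x, EP fun m => constantCoeff (Ψ m x)) {k j : ℕ} (hk : 0 < k) {δ : R}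
    {L : Matrix N (Fin j) R} {R1 : Matrix (Fin j) N R} (hf : δ • MM σ B k = L * R1)
    (hδ : ∀ m, constantCoeff (Ψ m δ) ≠ 0)
    (hC : ∀ m, constantCoeff (Ψ m (R1.map (σ ^ k) * L).det) ≠ 0)
    {Z r : ℕ → N → ℂ⟦X⟧} (hr : ∀ a, InR fun m => r m a)
    (hZ : ∀ m, Z (m + 1) = B.map (Ψ m) *ᵥ Z m + r m) (a : N) : InR fun m => Z m a := by
  obtain ⟨rk, h1, h2⟩ := kstep hΨ hR hr hZ k
  obtain ⟨v, hv, huv⟩ := InU.inv (u := fun m => Ψ m δ) ⟨hR δ, hE δ, hδ⟩
  have hM : ∀ m, (MM σ B k).map (Ψ m) = v m • (L.map (Ψ m) * R1.map (Ψ m)) := by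
    intro m
    rw [← Matrix.map_mul, ← hf, map_smul_eq, smul_smul, mul_comm, huv, one_smul]
  set C := R1.map (σ ^ k) * L with hCdef
  let w : ℕ → Fin j → ℂ⟦X⟧ := fun m => R1.map (Ψ m) *ᵥ Z m
  let r' : ℕ → Fin j → ℂ⟦X⟧ := fun m => R1.map (Ψ (m + k)) *ᵥ rk m
  let A : ℕ → Matrix (Fin j) (Fin j) ℂ⟦X⟧ := fun m => v m • C.map (Ψ m)
  have hr' : ∀ b, InR fun m => r' m b :=
    inR_mulVec (fun m => R1.map (Ψ (m + k))) rk
      (fun a b => (inR_shift (y := fun m => Ψ m (R1 a b)) k).mpr (hR _)) h1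
  have hw : ∀ m, w (m + k) = A m *ᵥ w m + r' m := by
    intro m
    simp only [w, r', A, hCdef]
    rw [h2, hM, Matrix.mulVec_add, Matrix.mulVec_mulVec, Matrix.mulVec_mulVec, Matrix.map_mul,
      map_psi_pow hΨ, Matrix.mul_smul, Matrix.smul_mul, Matrix.mul_assoc]
  have hA : ∀ b b', InR fun m => A m b b' := fun b b' => hv.1.mul (hR (C b b'))
  have hAE : EP fun m => (A m).map constantCoeff := by
    refine ep_pi (s := fun b m b' => constantCoeff (A m b b')) fun b => ?_
    refine ep_pi (s := fun b' m => constantCoeff (A m b b')) fun b' => ?_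
    have := hv.2.1.comp₂ (hE (C b b')) (· * ·)
    simpa [A] using this
  have hAd : ∀ m, ((A m).map constantCoeff).det ≠ 0 := by
    intro m
    have e1 : ((A m).map constantCoeff).det = constantCoeff (A m).det :=
      (RingHom.map_det (constantCoeff (R := ℂ)) (A m)).symm
    have e2 : (C.map (Ψ m)).det = Ψ m C.det := (RingHom.map_det (Ψ m) C).symm
    rw [e1]
    simp only [A]
    rw [Matrix.det_smul, e2, map_mul, map_pow]
    exact mul_ne_zero (pow_ne_zero _ (hv.2.2 m)) (hC m)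
  have hwR : ∀ b, InR fun m => w m b := by
    intro b
    refine inR_interleave (y := fun m => w m b) (q := 0) hk fun a _ => ?_
    have e1 : ∀ i i', InR fun n => A (0 + a + k * n) i i' := fun i i' =>
      InR.subseq (y := fun m => A m i i') (hA i i') (0 + a) k
    have e2 : EP fun n => (A (0 + a + k * n)).map constantCoeff :=
      EP.sub (s := fun m => (A m).map constantCoeff) hAE (0 + a) k
    have e3 : ∀ i, InR fun n => r' (0 + a + k * n) i := fun i =>
      InR.subseq (y := fun m => r' m i) (hr' i) (0 + a) k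
    have e4 : ∀ n i, w (0 + a + k * (n + 1)) i =
        ∑ i', A (0 + a + k * n) i i' * w (0 + a + k * n) i' + r' (0 + a + k * n) i := by
      intro n i
      rw [show 0 + a + k * (n + 1) = 0 + a + k * n + k by ring, hw]
      rfl
    have e5 := @inR_lin (Fin j) _ (fun n => A (0 + a + k * n)) (fun i n => r' (0 + a + k * n) i)
      (fun i n => w (0 + a + k * n) i) e1 e2
      (fun n => by
        rw [Subsingleton.elim (fun a b => Classical.propDecidable (a = b)) (instDecidableEqFin j)]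
        exact hAd (0 + a + k * n)) e3 e4 b
    exact e5
  refine (inR_shift (y := fun m => Z m a) k).mp ?_
  have h3 : InR fun m => ((v m • L.map (Ψ m)) *ᵥ w m) a + rk m a :=
    (inR_mulVec (fun m => v m • L.map (Ψ m)) w (fun b b' => hv.1.mul (hR (L b b'))) hwR a).add
      (h1 a)
  refine h3.congr (Eventually.of_forall fun m => ?_)
  simp only [w]
  rw [h2, hM, Matrix.mulVec_mulVec, Matrix.smul_mul]
  rfl

end Lin

end Alg

end Pool.Agent.P.MP_406085_lc
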