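import Pool.Agent.P.MP_406085_lc.Defs

/-!
Eventually periodic sequences.
-/

namespace Pool.Agent.P.MP_406085_lc

open Filter
open scoped Classical

variable {K K' : Type} {s : ℕ → K}

theorem EP.period (h : EP s) : ∃ p q, 0 < p ∧ ∀ n, q ≤ n → ∀ j, s (n + p * j) = s n := by
  obtain ⟨p, q, hp, h⟩ := h
  refine ⟨p, q, hp, fun n hn j => ?_⟩
  induction j with
  | zero => simp
  | succ j ih => rw [Nat.mul_succ, ← add_assoc, h _ (by omega), ih]

theorem ep_const (a : K) : EP fun _ : ℕ => a := ⟨1, 0, one_pos, fun _ _ => rfl⟩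

theorem EP.comp (h : EP s) (g : K → K') : EP fun n => g (s n) := by
  obtain ⟨p, q, hp, h⟩ := h
  exact ⟨p, q, hp, fun n hn => by beta_reduce; rw [h n hn]⟩

theorem EP.prod {s' : ℕ → K'} (h : EP s) (h' : EP s') : EP fun n => (s n, s' n) := by
  obtain ⟨p, q, hp, h⟩ := h.period
  obtain ⟨p', q', hp', h'⟩ := h'.period
  refine ⟨p * p', max q q', Nat.mul_pos hp hp', fun n hn => ?_⟩
  beta_reduce
  rw [h n (le_of_max_le_left hn), mul_comm, h' n (le_of_max_le_right hn)]

theorem EP.comp₂ {K'' : Type} {s' : ℕ → K'} (h : EP s) (h' : EP s') (g : K → K' → K'') :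
    EP fun n => g (s n) (s' n) := (h.prod h').comp fun x => g x.1 x.2

theorem EP.congr {s' : ℕ → K} (h : EP s) (e : ∀ᶠ n in atTop, s n = s' n) : EP s' := by
  obtain ⟨p, q, hp, h⟩ := h
  obtain ⟨q', e⟩ := eventually_atTop.mp e
  refine ⟨p, max q q', hp, fun n hn => ?_⟩
  have h1 := le_of_max_le_left hn
  have h2 := le_of_max_le_right hn
  rw [← e n h2, ← e _ (by omega), h n h1]

theorem ep_of_eventually {a : K} (e : ∀ᶠ n in atTop, s n = a) : EP s :=
  (ep_const a).congr (e.mono fun _ h => h.symm)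

theorem EP.sub (h : EP s) (a b : ℕ) : EP fun n => s (a + b * n) := by
  obtain ⟨p, q, hp, h⟩ := h.period
  rcases Nat.eq_zero_or_pos b with rfl | hb
  · simpa using ep_const (s a)
  refine ⟨p, q, hp, fun n hn => ?_⟩
  beta_reduce
  rw [mul_add, ← add_assoc, mul_comm b p, h _ (by nlinarith)]

theorem ep_shift (k : ℕ) : (EP fun n => s (n + k)) ↔ EP s := by
  constructor
  · rintro ⟨p, q, hp, h⟩
    refine ⟨p, q + k, hp, fun n hn => ?_⟩
    have := h (n - k) (by omega)
    beta_reduce at this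
    rwa [show n - k + p + k = n + p by omega, show n - k + k = n by omega] at this
  · rintro ⟨p, q, hp, h⟩
    refine ⟨p, q, hp, fun n hn => ?_⟩
    beta_reduce
    rw [add_right_comm, h _ (by omega)]

theorem ep_pi {I : Type} [Finite I] {s : I → ℕ → K} (h : ∀ i, EP (s i)) :
    EP fun n i => s i n := by
  have := Fintype.ofFinite I
  choose p q hp h using fun i => (h i).period
  refine ⟨∏ i, p i, ∑ i, q i, Finset.prod_pos fun i _ => hp i, fun n hn => funext fun i => ?_⟩
  obtain ⟨c, hc⟩ := Finset.dvd_prod_of_mem p (Finset.mem_univ i)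
  rw [hc]
  exact h i n (le_trans (Finset.single_le_sum (fun _ _ => Nat.zero_le _) (Finset.mem_univ i)) hn) c

theorem EP.finite_range (h : EP s) : (Set.range s).Finite := by
  obtain ⟨p, q, hp, h⟩ := h
  refine ((Set.finite_lt_nat (q + p)).image s).subset ?_
  rintro _ ⟨n, rfl⟩
  induction n using Nat.strong_induction_on with
  | _ n ih =>
    by_cases hn : n < q + p
    · exact ⟨n, hn, rfl⟩
    · have := h (n - p) (by omega)
      rw [show n - p + p = n by omega] at this
      rw [this]
      exact ih _ (by omega)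

theorem EP.select {ψ : ℕ → K'} (hψ : EP ψ) {s : K' → ℕ → K} (h : ∀ i, EP (s i)) :
    EP fun n => s (ψ n) n := by
  have := hψ.finite_range.to_subtype
  have h1 := ep_pi fun i : Set.range ψ => h i
  have h2 : EP fun n => (⟨ψ n, n, rfl⟩ : Set.range ψ) := by
    obtain ⟨p, q, hp, h⟩ := hψ
    exact ⟨p, q, hp, fun n hn => Subtype.ext (h n hn)⟩
  exact h1.comp₂ h2 fun f i => f i

theorem ep_of_det (hfin : (Set.range s).Finite)
    (h : ∀ n m, s n = s m → s (n + 1) = s (m + 1)) : EP s := by
  have := hfin.to_subtype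
  obtain ⟨a, b, hab, e⟩ : ∃ a b, a ≠ b ∧ s a = s b := by
    obtain ⟨a, b, hab, e⟩ := Finite.exists_ne_map_eq_of_infinite
      fun n => (⟨s n, n, rfl⟩ : Set.range s)
    exact ⟨a, b, hab, congrArg Subtype.val e⟩
  wlog hlt : a < b generalizing a b
  · exact this b a hab.symm e.symm (by omega)
  refine ⟨b - a, a, by omega, fun n hn => ?_⟩
  induction n, hn using Nat.le_induction with
  | base => rw [show a + (b - a) = b by omega, e]
  | succ n hn ih => rw [add_right_comm]; exact h _ _ ih

theorem ep_interleave {p q : ℕ} (hp : 0 < p) (h : ∀ a < p, EP fun n => s (q + a + p * n)) :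
    EP s := by
  obtain ⟨p', q', hp', h⟩ := ep_pi (I := Fin p) fun a => h a a.2
  refine ⟨p * p', q + p * q', Nat.mul_pos hp hp', fun n hn => ?_⟩
  have h1 := Nat.mod_add_div (n - q) p
  have h2 : q' ≤ (n - q) / p := (Nat.le_div_iff_mul_le hp).mpr (by rw [mul_comm]; omega)
  have := congrFun (h _ h2) ⟨(n - q) % p, Nat.mod_lt _ hp⟩
  simp only [mul_add] at this
  rwa [← add_assoc, show q + (n - q) % p + p * ((n - q) / p) = n by omega] at this

end Pool.Agent.P.MP_406085_lc
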