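import Pool.Agent.P.MP_406085_lc.Test

/-!
Closure properties of HD0L sequences and good maps.
-/

namespace Pool.Agent.P.MP_406085_lc

open Filter PowerSeries
open scoped Classical

variable {E E' E'' K K' : Type} {W V : ℕ → List E}

theorem HD.exists_sys (h : HD W) : ∃ (S : Type) (_ : Fintype S) (σ : S → List S)
    (U : S → ℕ → List E) (a : S), U a = W ∧
      ∀ s n, U s (n + 1) = (σ s).flatMap fun b => U b n := by
  obtain ⟨S, hS, hW, hl⟩ := h
  choose l hl1 hl2 using hl
  refine ⟨S, hS.fintype, fun s => (l s.1 s.2).attachWith (· ∈ S) (hl1 s.1 s.2), fun s => s.1,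
    ⟨W, hW⟩, rfl, fun s n => ?_⟩
  beta_reduce
  rw [hl2 s.1 s.2 n]
  conv_lhs => rw [← List.attachWith_map_subtype_val (p := (· ∈ S)) (hl1 s.1 s.2)]
  rw [List.flatMap_map]

theorem hd_of_sys {S : Type} [Finite S] (σ : S → List S) (U : S → ℕ → List E)
    (h : ∀ s n, U s (n + 1) = (σ s).flatMap fun b => U b n) (a : S) : HD (U a) := by
  refine ⟨Set.range U, Set.finite_range U, ⟨a, rfl⟩, ?_⟩
  rintro _ ⟨s, rfl⟩
  refine ⟨(σ s).map U, fun X hX => ?_, fun n => ?_⟩
  · obtain ⟨b, _, rfl⟩ := List.mem_map.mp hX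
    exact ⟨b, rfl⟩
  · rw [h, List.flatMap_map]

theorem hd_const (w : List E) : HD fun _ => w :=
  hd_of_sys (S := Unit) (fun _ => [()]) (fun _ _ => w) (fun _ _ => by simp) ()

theorem HD.append (h : HD W) (h' : HD V) : HD fun n => W n ++ V n := by
  obtain ⟨S, hS, hW, hl⟩ := h
  obtain ⟨S', hS', hV, hl'⟩ := h'
  refine ⟨insert (fun n => W n ++ V n) (S ∪ S'), (hS.union hS').insert _, Set.mem_insert _ _, ?_⟩
  rintro X (rfl | hX | hX)
  · obtain ⟨l, h1, h2⟩ := hl W hW
    obtain ⟨l', h1', h2'⟩ := hl' V hV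
    refine ⟨l ++ l', fun U hU => ?_, fun n => by
      beta_reduce
      rw [h2, h2', List.flatMap_append]⟩
    rcases List.mem_append.mp hU with hU | hU
    · exact Or.inr (Or.inl (h1 U hU))
    · exact Or.inr (Or.inr (h1' U hU))
  · obtain ⟨l, h1, h2⟩ := hl X hX
    exact ⟨l, fun U hU => Or.inr (Or.inl (h1 U hU)), h2⟩
  · obtain ⟨l, h1, h2⟩ := hl' X hX
    exact ⟨l, fun U hU => Or.inr (Or.inr (h1 U hU)), h2⟩

theorem bim_sys_iter {S : Type} {σ : S → List S} {U : S → ℕ → List E}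
    (h : ∀ s n, U s (n + 1) = (σ s).flatMap fun b => U b n) (j : ℕ) :
    ∃ τ : S → List S, ∀ s n, U s (n + j) = (τ s).flatMap fun b => U b n := by
  induction j with
  | zero => exact ⟨fun s => [s], fun s n => by simp⟩
  | succ j ih =>
    obtain ⟨τ, hτ⟩ := ih
    refine ⟨fun s => (σ s).flatMap τ, fun s n => ?_⟩
    rw [← add_assoc, h, List.flatMap_assoc]
    simp only [hτ]

theorem bim_sys_sub {S : Type} {σ : S → List S} {U : S → ℕ → List E}
    (h : ∀ s n, U s (n + 1) = (σ s).flatMap fun b => U b n) (a k : ℕ) :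
    ∃ τ : S → List S, ∀ s n, U s (a + k * (n + 1)) = (τ s).flatMap fun b => U b (a + k * n) := by
  obtain ⟨τ, hτ⟩ := bim_sys_iter h k
  exact ⟨τ, fun s n => by rw [mul_add, mul_one, ← add_assoc, hτ]⟩

theorem HD.sub (h : HD W) (a k : ℕ) : HD fun n => W (a + k * n) := by
  obtain ⟨S, _, σ, U, s, rfl, hU⟩ := h.exists_sys
  obtain ⟨τ, hτ⟩ := bim_sys_sub hU a k
  exact hd_of_sys τ (fun s n => U s (a + k * n)) hτ s

theorem HD.hh (h : HD W) : HH W := ⟨1, 0, one_pos, fun a _ => h.sub a 1⟩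

theorem hh_const (w : List E) : HH fun _ => w := (hd_const w).hh

theorem bim_hd_mul {p q P a : ℕ} (h : ∀ a, q ≤ a → HD fun n => W (a + p * n)) (hP : p ∣ P)
    (ha : q ≤ a) : HD fun n => W (a + P * n) := by
  obtain ⟨k, rfl⟩ := hP
  simpa only [zero_add, mul_assoc] using (h a ha).sub 0 k

theorem HH.append (h : HH W) (h' : HH V) : HH fun n => W n ++ V n := by
  obtain ⟨p, q, hp, h⟩ := h
  obtain ⟨p', q', hp', h'⟩ := h'
  exact ⟨p * p', max q q', Nat.mul_pos hp hp', fun a ha =>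
    (bim_hd_mul h (dvd_mul_right _ _) (le_of_max_le_left ha)).append
      (bim_hd_mul h' (dvd_mul_left _ _) (le_of_max_le_right ha))⟩

theorem HH.congr (h : HH W) (e : ∀ᶠ n in atTop, W n = V n) : HH V := by
  obtain ⟨p, q, hp, h⟩ := h
  obtain ⟨q', e⟩ := eventually_atTop.mp e
  refine ⟨p, max q q', hp, fun a ha => ?_⟩
  have h2 := le_of_max_le_right ha
  have : (fun n => V (a + p * n)) = fun n => W (a + p * n) :=
    funext fun n => (e _ (by omega)).symm
  rw [this]
  exact h a (le_of_max_le_left ha)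

theorem hh_shift (k : ℕ) : (HH fun n => W (n + k)) ↔ HH W := by
  constructor
  · rintro ⟨p, q, hp, h⟩
    refine ⟨p, q + k, hp, fun a ha => ?_⟩
    have : (fun n => W (a + p * n)) = fun n => W (a - k + p * n + k) :=
      funext fun n => congrArg W (by omega)
    rw [this]
    exact h (a - k) (by omega)
  · rintro ⟨p, q, hp, h⟩
    refine ⟨p, q, hp, fun a ha => ?_⟩
    have : (fun n => W (a + p * n + k)) = fun n => W (a + k + p * n) :=
      funext fun n => congrArg W (by omega)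
    beta_reduce
    rw [this]
    exact h (a + k) (by omega)

theorem HH.sub (h : HH W) (a k : ℕ) : HH fun n => W (a + k * n) := by
  rcases Nat.eq_zero_or_pos k with rfl | hk
  · simpa using hh_const (W a)
  obtain ⟨p, q, hp, h⟩ := h
  refine ⟨p, q, hp, fun b hb => ?_⟩
  have : (fun n => W (a + k * (b + p * n))) = fun n => W (a + k * b + p * k * n) :=
    funext fun n => congrArg W (by ring)
  beta_reduce
  rw [this]
  exact bim_hd_mul h (dvd_mul_right _ _) (by nlinarith)

theorem hh_interleave {p q : ℕ} (hp : 0 < p) (h : ∀ a < p, HH fun n => W (q + a + p * n)) :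
    HH W := by
  choose P Q hP h using fun a : Fin p => h a a.2
  refine ⟨p * ∏ i, P i, q + p * ∑ i, Q i, Nat.mul_pos hp (Finset.prod_pos fun i _ => hP i),
    fun b hb => ?_⟩
  have h1 := Nat.mod_add_div (b - q) p
  have h2 : ∑ i, Q i ≤ (b - q) / p := (Nat.le_div_iff_mul_le hp).mpr (by rw [mul_comm]; omega)
  set r : Fin p := ⟨(b - q) % p, Nat.mod_lt _ hp⟩ with hr
  have h3 : Q r ≤ (b - q) / p :=
    le_trans (Finset.single_le_sum (fun _ _ => Nat.zero_le _) (Finset.mem_univ r)) h2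
  have h4 := bim_hd_mul (W := fun n => W (q + r + p * n)) (h r)
    (Finset.dvd_prod_of_mem P (Finset.mem_univ r)) h3
  have : (fun n => W (b + (p * ∏ i, P i) * n)) =
      fun n => W (q + r + p * ((b - q) / p + (∏ i, P i) * n)) := by
    refine funext fun n => congrArg W ?_
    rw [mul_add, mul_assoc, ← add_assoc]
    congr 1
    simp only [hr]
    omega
  rw [this]
  exact h4

theorem HH.select {ψ : ℕ → K} (hψ : EP ψ) {U : K → ℕ → List E} (h : ∀ i, HH (U i)) :
    HH fun n => U (ψ n) n := by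
  obtain ⟨p, q, hp, hψ⟩ := hψ.period
  refine hh_interleave (q := q) hp fun a _ => ?_
  simp only [hψ (q + a) (Nat.le_add_right _ _)]
  exact (h _).sub _ _

theorem FC.bim_flatMap (c : FC E) {S : Type} {g g' : S → List E} (h : ∀ b, c.r (g b) (g' b))
    (l : List S) : c.r (l.flatMap g) (l.flatMap g') := by
  induction l with
  | nil => exact c.refl _
  | cons b l ih =>
    rw [List.flatMap_cons, List.flatMap_cons]
    exact c.app (h b) ih

theorem FC.bim_of_rep (c : FC E) {ρ : List E → List E} (h1 : ∀ u, c.r u (ρ u)) {u v : List E}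
    (e : ρ u = ρ v) : c.r u v :=
  c.trans (h1 u) (e ▸ c.symm (h1 v))

theorem bim_sys_ep {S : Type} [Finite S] {σ : S → List S} {U : S → ℕ → List E}
    (h : ∀ s n, U s (n + 1) = (σ s).flatMap fun b => U b n) (c : FC E) {ρ : List E → List E}
    (hfin : (Set.range ρ).Finite) (h1 : ∀ u, c.r u (ρ u)) (h2 : ∀ u v, c.r u v → ρ u = ρ v) :
    EP fun n s => ρ (U s n) := by
  refine ep_of_det ((Set.Finite.pi' fun _ : S => hfin).subset ?_) fun n m e => funext fun s => ?_
  · rintro _ ⟨n, rfl⟩ s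
    exact ⟨_, rfl⟩
  · rw [h, h]
    exact h2 _ _ (c.bim_flatMap (fun b => c.bim_of_rep h1 (congrFun e b)) _)

theorem HH.ep (h : HH W) {f : List E → K} (hf : Rec f) : EP fun n => f (W n) := by
  obtain ⟨p, q, hp, h⟩ := h
  obtain ⟨c, hc⟩ := hf
  obtain ⟨ρ, hfin, h1, h2⟩ := c.exists_rep
  refine ep_interleave (q := q) hp fun a _ => ?_
  obtain ⟨S, _, σ, U, s, e, hU⟩ := (h (q + a) (Nat.le_add_right _ _)).exists_sys
  have : (fun n => f (W (q + a + p * n))) = fun n => f (ρ (U s n)) :=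
    funext fun n => by rw [← hc _ _ (h1 _), e]
  rw [this]
  exact (bim_sys_ep hU c hfin h1 h2).comp fun g => f (g s)

theorem bim_append (o : List E → E → List E → List E') (x u w y : List E) :
    bim o x (u ++ w) y = bim o x u (w ++ y) ++ bim o (x ++ u) w y := by
  induction u generalizing x with
  | nil => simp [bim]
  | cons a u ih => simp [bim, ih]

theorem bim_congr {c : FC E} {o : List E → E → List E → List E'}
    (h : ∀ x x' a y y', c.r x x' → c.r y y' → o x a y = o x' a y') (w : List E)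
    {x x' y y' : List E} (hx : c.r x x') (hy : c.r y y') : bim o x w y = bim o x' w y' := by
  induction w generalizing x x' with
  | nil => rfl
  | cons a w ih =>
    rw [bim, bim, h x x' a _ _ hx (c.app (c.refl w) hy), ih (c.app hx (c.refl [a]))]

theorem bim_deg_sum {A I : Type} [AddCommGroup A] {c : FC E} {d : ℕ} (s : Finset I)
    {F : I → List E → A} (h : ∀ i, Deg c d (F i)) : Deg c d fun w => ∑ i ∈ s, F i w := by
  induction s using Finset.induction_on with
  | empty => simpa using deg_zero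
  | insert i s hi ih =>
    simp only [Finset.sum_insert hi]
    exact (h i).add ih

theorem bim_fc (c : FC E) {o : List E → E → List E → List E'}
    (h : ∀ x x' a y y', c.r x x' → c.r y y' → o x a y = o x' a y') (c₁ : FC E') :
    ∃ c' : FC E, ∀ u v, c'.r u v ↔ c.r u v ∧ ∀ x y, c₁.r (bim o x u y) (bim o x v y) := by
  obtain ⟨ρ, hfin, h1, h2⟩ := c.exists_rep
  obtain ⟨ρ₁, hfin₁, h1₁, h2₁⟩ := c₁.exists_rep
  have := hfin.to_subtype
  refine fc_of_fun _ (fun u => ⟨c.refl u, fun _ _ => c₁.refl _⟩)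
    (fun u v e => ⟨c.symm e.1, fun x y => c₁.symm (e.2 x y)⟩)
    (fun u v w e e' => ⟨c.trans e.1 e'.1, fun x y => c₁.trans (e.2 x y) (e'.2 x y)⟩)
    (fun u v u' v' e e' => ⟨c.app e.1 e'.1, fun x y => ?_⟩)
    (fun u => (ρ u, fun z : Set.range ρ × Set.range ρ => ρ₁ (bim o z.1.1 u z.2.1)))
    ((hfin.prod (Set.Finite.pi' fun _ => hfin₁)).subset ?_) fun u v e => ?_
  · rw [bim_append, bim_append,
      bim_congr h v (c.refl x) (c.app (c.symm e'.1) (c.refl y)),
      bim_congr h v' (c.app (c.refl x) (c.symm e.1)) (c.refl y)]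
    exact c₁.app (e.2 _ _) (e'.2 _ _)
  · rintro _ ⟨u, rfl⟩
    exact ⟨⟨u, rfl⟩, fun _ => ⟨_, rfl⟩⟩
  · refine ⟨c.bim_of_rep h1 (congrArg Prod.fst e), fun x y => ?_⟩
    rw [bim_congr h u (h1 x) (h1 y), bim_congr h v (h1 x) (h1 y)]
    exact c₁.bim_of_rep h1₁ (congrFun (congrArg Prod.snd e) (⟨ρ x, x, rfl⟩, ⟨ρ y, y, rfl⟩))

theorem bim_deg {c c' : FC E} {o : List E → E → List E → List E'}
    (h : ∀ x x' a y y', c.r x x' → c.r y y' → o x a y = o x' a y') {c₁ : FC E'}
    (hc : ∀ u v, c'.r u v ↔ c.r u v ∧ ∀ x y, c₁.r (bim o x u y) (bim o x v y)) (d : ℕ)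
    (F : List E' → ℂ) (x y : List E) (hF : Deg c₁ d F) : Deg c' d fun w => F (bim o x w y) := by
  obtain ⟨ρ, hfin, h1, h2⟩ := c.exists_rep
  induction d generalizing F x y with
  | zero => exact fun w => hF _
  | succ d ih =>
    intro u v huv
    obtain ⟨e, e'⟩ := (hc u v).mp huv
    have key : (fun w => F (bim o x (u ++ w) y) - F (bim o x (v ++ w) y)) =
        fun w => ∑ m ∈ hfin.toFinset, (if ρ w = m then (1 : ℂ) else 0) *
          (F (bim o x u (m ++ y) ++ bim o (x ++ u) w y) -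
            F (bim o x v (m ++ y) ++ bim o (x ++ u) w y)) := by
      funext w
      simp only [ite_mul, one_mul, zero_mul]
      rw [Finset.sum_ite_eq, if_pos (hfin.mem_toFinset.mpr ⟨w, rfl⟩), bim_append, bim_append,
        bim_congr h u (c.refl x) (c.app (h1 w) (c.refl y)),
        bim_congr h v (c.refl x) (c.app (h1 w) (c.refl y)),
        bim_congr h w (c.app (c.refl x) (c.symm e)) (c.refl y)]
    beta_reduce
    rw [key]
    refine bim_deg_sum _ fun m => Deg.mul_inv (G := fun w => if ρ w = m then (1 : ℂ) else 0)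
      (ih (fun z => F (bim o x u (m ++ y) ++ z) - F (bim o x v (m ++ y) ++ z)) (x ++ u) y
        (hF _ _ (e' _ _))) fun a b hab => ?_
    rw [h2 a b ((hc a b).mp hab).1]

theorem bim_hd (c : FC E) {o : List E → E → List E → List E'}
    (h : ∀ x x' a y y', c.r x x' → c.r y y' → o x a y = o x' a y') (hW : HD W) :
    HH fun n => bim o [] (W n) [] := by
  obtain ⟨ρ, hfin, h1, h2⟩ := c.exists_rep
  have := hfin.to_subtype
  obtain ⟨S, _, σ, U, s, rfl, hU⟩ := hW.exists_sys
  obtain ⟨p, q, hp, hper⟩ := (bim_sys_ep hU c hfin h1 h2).period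
  refine ⟨p, q, hp, fun a ha => ?_⟩
  obtain ⟨τ, hτ⟩ := bim_sys_sub hU a p
  have hR : ∀ b n, c.r (U b (a + p * n)) (U b a) := fun b n =>
    c.bim_of_rep h1 (congrFun (hper a ha n) b)
  let Z : Set.range ρ × S × Set.range ρ → ℕ → List E' := fun z n =>
    bim o z.1.1 (U z.2.1 (a + p * n)) z.2.2.1
  have key : ∀ (l : List S) (x y : List E), ∃ L : List (Set.range ρ × S × Set.range ρ), ∀ n,
      bim o x (l.flatMap fun b => U b (a + p * n)) y = L.flatMap fun z => Z z n := by
    intro l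
    induction l with
    | nil => exact fun x y => ⟨[], fun n => rfl⟩
    | cons b l ih =>
      intro x y
      obtain ⟨L, hL⟩ := ih (x ++ U b a) y
      refine ⟨(⟨ρ x, _, rfl⟩, b, ⟨ρ ((l.flatMap fun b => U b a) ++ y), _, rfl⟩) :: L, fun n => ?_⟩
      rw [List.flatMap_cons, List.flatMap_cons, bim_append, ← hL,
        bim_congr h (l.flatMap fun b => U b (a + p * n)) (c.app (c.refl x) (hR b n)) (c.refl y)]
      congr 1
      exact bim_congr h _ (h1 x)
        (c.trans (c.app (c.bim_flatMap (fun b => hR b n) l) (c.refl y)) (h1 _))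
  choose L hL using key
  have hZ := hd_of_sys (fun z => L (τ z.2.1) z.1.1 z.2.2.1) Z
    (fun z n => by rw [← hL, ← hτ]) (⟨ρ [], _, rfl⟩, s, ⟨ρ [], _, rfl⟩)
  have e : (fun n => bim o [] (U s (a + p * n)) []) = Z (⟨ρ [], _, rfl⟩, s, ⟨ρ [], _, rfl⟩) :=
    funext fun n => bim_congr h _ (h1 _) (h1 _)
  beta_reduce
  rw [e]
  exact hZ

theorem gm_bim (c : FC E) (o : List E → E → List E → List E')
    (h : ∀ x x' a y y', c.r x x' → c.r y y' → o x a y = o x' a y') :
    GM fun w => bim o [] w [] := by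
  refine ⟨fun F hF => ?_, fun W hW => ?_⟩
  · obtain ⟨c₁, d, hF⟩ := hF
    obtain ⟨c', hc⟩ := bim_fc c h c₁
    exact ⟨c', d, bim_deg h hc d F [] [] hF⟩
  · obtain ⟨p, q, hp, hW⟩ := hW
    exact hh_interleave (q := q) hp fun a _ => bim_hd c h (hW (q + a) (Nat.le_add_right _ _))

theorem gm_bim' {f : List E → K} {g : List E → K'} (hf : Rec f) (hg : Rec g)
    (o : K → E → K' → List E') : GM fun w => bim (fun x a y => o (f x) a (g y)) [] w [] := by
  obtain ⟨c₁, h₁⟩ := hf
  obtain ⟨c₂, h₂⟩ := hg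
  obtain ⟨c, hc⟩ := c₁.exists_inter c₂
  exact gm_bim c _ fun x x' a y y' hx hy => by
    rw [h₁ _ _ ((hc _ _).mp hx).1, h₂ _ _ ((hc _ _).mp hy).2]

theorem GM.comp {φ : List E → List E'} {ψ : List E' → List E''} (hψ : GM ψ) (hφ : GM φ) :
    GM fun w => ψ (φ w) :=
  ⟨fun F hF => hφ.1 _ (hψ.1 F hF), fun W hW => hψ.2 _ (hφ.2 W hW)⟩

theorem gm_flatMap (g : E → List E') : GM fun w : List E => w.flatMap g := by
  refine ⟨fun F hF => hF.comap g, fun W hW => ?_⟩
  obtain ⟨p, q, hp, hW⟩ := hW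
  refine ⟨p, q, hp, fun a ha => ?_⟩
  obtain ⟨S, _, σ, U, s, e, hU⟩ := (hW a ha).exists_sys
  have := hd_of_sys σ (fun s n => (U s n).flatMap g)
    (fun s n => by rw [hU, List.flatMap_assoc]) s
  rw [e] at this
  exact this

theorem gm_left (x : List E) : GM fun w => x ++ w :=
  ⟨fun _ hF => hF.left x, fun _ hW => (hh_const x).append hW⟩

end Pool.Agent.P.MP_406085_lc
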