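import Pool.Agent.P.MP_406085_lc.Ring1

/-!
Linear recursions over sequences of power series.
-/

namespace Pool.Agent.P.MP_406085_lc

open Filter PowerSeries
open scoped Classical

theorem InU.inv {u : ℕ → ℂ⟦X⟧} (h : InU u) : ∃ v, InU v ∧ ∀ n, u n * v n = 1 := by
  obtain ⟨hR, hE, h0⟩ := h
  have hE' : EP fun n => (constantCoeff (u n))⁻¹ := hE.comp fun z : ℂ => z⁻¹
  refine ⟨fun n => (u n)⁻¹, ⟨?_, ?_, fun n => ?_⟩, fun n => PowerSeries.mul_inv_cancel _ (h0 n)⟩
  · have hc : InR fun n => C (constantCoeff (u n))⁻¹ := hE'.inC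
    obtain ⟨S, hS, hS0, q, hq⟩ := inR_common (I := Bool)
      (y := fun b => if b then u else fun n => C (constantCoeff (u n))⁻¹)
      (fun b => by cases b <;> simpa)
    refine ⟨S, hS, hS0, q, fun d => ?_⟩
    have h1 : ∀ d, (fun n => coeff d (u (q + n))) ∈ RS S := fun d => by
      simpa using hq q le_rfl true d
    have h2 : (fun n => (constantCoeff (u (q + n)))⁻¹) ∈ RS S := by
      simpa using hq q le_rfl false 0
    induction d using Nat.strong_induction_on with
    | _ d ih =>
      by_cases hd : d = 0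
      · subst hd
        simpa [PowerSeries.coeff_inv] using h2
      · have e : (fun n => coeff d (u (q + n))⁻¹) =
            -(fun n => (constantCoeff (u (q + n)))⁻¹) *
              ∑ x ∈ Finset.HasAntidiagonal.antidiagonal d,
              if x.2 < d then (fun n => coeff x.1 (u (q + n))) * fun n => coeff x.2 (u (q + n))⁻¹
              else 0 := by
          funext n
          rw [PowerSeries.coeff_inv, if_neg hd]
          simp only [Pi.mul_apply, Pi.neg_apply, Finset.sum_apply]
          congr 1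
          refine Finset.sum_congr rfl fun x _ => ?_
          split_ifs <;> simp
        rw [e]
        refine mul_mem (neg_mem h2) (sum_mem fun x _ => ?_)
        split_ifs with hx
        · exact mul_mem (h1 _) (ih _ hx)
        · exact zero_mem _
  · simpa using hE'
  · simpa using h0 n

/-- A vector recursion with a constant invertible matrix can be solved in `RS S`. -/
theorem r2_vec {I : Type} [Fintype I] {S : Set ℂ} (h0 : 0 ∉ S) (B : Matrix I I ℂ)
    (hB : ∀ a, B.charpoly.IsRoot a → a ∈ S) (z : ℕ → I → ℂ)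
    (hz : ∀ i, (fun n => z (n + 1) i - ∑ j, B i j * z n j) ∈ RS S) (i : I) :
    (fun n => z n i) ∈ RS S := by
  have key : ∀ k i, (fun n => z (n + k) i - ((B ^ k).mulVec (z n)) i) ∈ RS S := by
    intro k
    induction k with
    | zero =>
      intro i
      simp only [add_zero, pow_zero, Matrix.one_mulVec, sub_self]
      exact (RS S).zero_mem
    | succ k ih =>
      intro i
      have e : (fun n => z (n + (k + 1)) i - ((B ^ (k + 1)).mulVec (z n)) i) =
          (fun n => z (n + k + 1) i - ∑ j, B i j * z (n + k) j) +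
            ∑ j, B i j • fun n => z (n + k) j - ((B ^ k).mulVec (z n)) j := by
        funext n
        rw [pow_succ', ← Matrix.mulVec_mulVec]
        simp only [Pi.add_apply, Finset.sum_apply, Pi.smul_apply, smul_eq_mul, mul_sub,
          Finset.sum_sub_distrib, ← add_assoc]
        rw [show (B.mulVec ((B ^ k).mulVec (z n))) i = ∑ j, B i j * (B ^ k).mulVec (z n) j from rfl]
        ring
      rw [e]
      exact add_mem (rs_shift (hz i) k) (sum_mem fun j _ => (RS S).smul_mem (ih j) _)
  refine rs_solve_poly h0 B.charpoly_monic hB ?_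
  have hCH : ∑ k ∈ Finset.range (B.charpoly.natDegree + 1), B.charpoly.coeff k • B ^ k = 0 := by
    rw [← Polynomial.aeval_eq_sum_range]
    exact B.aeval_self_charpoly
  have e : (fun n => ∑ k ∈ Finset.range (B.charpoly.natDegree + 1),
      B.charpoly.coeff k * z (n + k) i) = ∑ k ∈ Finset.range (B.charpoly.natDegree + 1),
        B.charpoly.coeff k • fun n => z (n + k) i - ((B ^ k).mulVec (z n)) i := by
    funext n
    have h1 := congrFun (congrArg (fun M => Matrix.mulVec M (z n)) hCH) i
    simp only [Matrix.sum_mulVec, Matrix.smul_mulVec, Finset.sum_apply, Pi.smul_apply,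
      smul_eq_mul, Matrix.zero_mulVec, Pi.zero_apply] at h1
    simp only [Finset.sum_apply, Pi.smul_apply, smul_eq_mul, mul_sub, Finset.sum_sub_distrib, h1,
      sub_zero]
  rw [e]
  exact sum_mem fun k _ => (RS S).smul_mem (key k i) _

/-- The case of a constant matrix of constant terms. -/
theorem r2_const {I : Type} [Fintype I] (A : ℕ → Matrix I I ℂ⟦X⟧) (r y : I → ℕ → ℂ⟦X⟧)
    (hA : ∀ i j, InR fun n => A n i j) (B : Matrix I I ℂ)
    (hE : ∀ n, (A n).map constantCoeff = B) (hdet : B.det ≠ 0) (hr : ∀ i, InR (r i))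
    (h : ∀ n i, y i (n + 1) = ∑ j, A n i j * y j n + r i n) (i : I) : InR (y i) := by
  obtain ⟨S, hS, hS0, q, hq⟩ := inR_common (I := (I × I) ⊕ I)
    (y := Sum.elim (fun p n => A n p.1 p.2) r) (by rintro (p | i); exacts [hA _ _, hr i])
  have hP : B.charpoly ≠ 0 := B.charpoly_monic.ne_zero
  set S' : Set ℂ := S ∪ {a | B.charpoly.IsRoot a} with hS'
  have hfin : S'.Finite := hS.union (Polynomial.finite_setOfPred_isRoot hP)
  have h0 : 0 ∉ S' := by
    rintro (h1 | h1)
    · exact hS0 h1
    · apply hdet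
      rw [Matrix.det_eq_sign_charpoly_coeff, Polynomial.coeff_zero_eq_eval_zero]
      rw [show Polynomial.eval 0 B.charpoly = 0 from h1, mul_zero]
  have hm : RS S ≤ RS S' := rs_mono Set.subset_union_left
  have h1 : ∀ i j d, (fun n => coeff d (A (q + n) i j)) ∈ RS S' := fun i j d =>
    hm (hq q le_rfl (Sum.inl (i, j)) d)
  have h2 : ∀ i d, (fun n => coeff d (r i (q + n))) ∈ RS S' := fun i d =>
    hm (hq q le_rfl (Sum.inr i) d)
  refine ⟨S', hfin, h0, q, fun d => ?_⟩
  induction d using Nat.strong_induction_on generalizing i with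
  | _ d ih =>
    refine r2_vec h0 B (fun a ha => Or.inr ha) (fun n i => coeff d (y i (q + n))) (fun i => ?_) i
    have e : (fun n => coeff d (y i (q + (n + 1))) - ∑ j, B i j * coeff d (y j (q + n))) =
        (∑ j, ∑ x ∈ (Finset.HasAntidiagonal.antidiagonal d).erase (0, d),
          (fun n => coeff x.1 (A (q + n) i j)) * fun n => coeff x.2 (y j (q + n))) +
            fun n => coeff d (r i (q + n)) := by
      funext n
      rw [← add_assoc, h]
      simp only [map_add, map_sum, Pi.add_apply, Finset.sum_apply, Pi.mul_apply, coeff_mul]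
      rw [sub_eq_iff_eq_add, add_right_comm, ← Finset.sum_add_distrib]
      congr 1
      refine Finset.sum_congr rfl fun j _ => ?_
      rw [← Finset.sum_erase_add _ _ (show (0, d) ∈ Finset.HasAntidiagonal.antidiagonal d by simp),
        ← hE (q + n)]
      simp
    rw [e]
    refine add_mem (sum_mem fun j _ => sum_mem fun x hx => mul_mem (h1 _ _ _) (ih _ ?_ j)) (h2 _ _)
    obtain ⟨hx1, hx2⟩ := Finset.mem_erase.mp hx
    rw [Finset.HasAntidiagonal.mem_antidiagonal] at hx2
    by_contra hlt
    apply hx1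
    ext <;> simp <;> omega

/-- The recursion iterated `k` times. -/
theorem r2_iter {I : Type} [Fintype I] (A : ℕ → Matrix I I ℂ⟦X⟧) (r y : I → ℕ → ℂ⟦X⟧)
    (hA : ∀ i j, InR fun n => A n i j)
    (hdet : ∀ n, ((A n).map constantCoeff).det ≠ 0) (hr : ∀ i, InR (r i))
    (h : ∀ n i, y i (n + 1) = ∑ j, A n i j * y j n + r i n) (k : ℕ) :
    ∃ (A' : ℕ → Matrix I I ℂ⟦X⟧) (r' : I → ℕ → ℂ⟦X⟧), (∀ i j, InR fun n => A' n i j) ∧
      (∀ i, InR (r' i)) ∧ (∀ n, ((A' n).map constantCoeff).det ≠ 0) ∧
      (∀ n m, (∀ t, (A (n + t)).map constantCoeff = (A (m + t)).map constantCoeff) →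
        (A' n).map constantCoeff = (A' m).map constantCoeff) ∧
      ∀ n i, y i (n + k) = ∑ j, A' n i j * y j n + r' i n := by
  induction k with
  | zero =>
    refine ⟨fun _ => 1, fun _ _ => 0, fun i j => inR_const _, fun i => inR_const _, fun n => ?_,
      fun _ _ _ => rfl, fun n i => ?_⟩
    · rw [Matrix.map_one _ (map_zero _) (map_one _), Matrix.det_one]
      exact one_ne_zero
    · simp [Matrix.one_apply]
  | succ k ih =>
    obtain ⟨A', r', h1, h2, h3, h4, h5⟩ := ih
    have hA' : ∀ i j, InR fun n => A (n + k) i j := fun i j =>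
      (inR_shift (y := fun n => A n i j) k).mpr (hA i j)
    refine ⟨fun n => A (n + k) * A' n, fun i n => ∑ j, A (n + k) i j * r' j n + r i (n + k),
      fun i j => ?_, fun i => ?_, fun n => ?_, fun n m e => ?_, fun n i => ?_⟩
    · simp only [Matrix.mul_apply]
      exact inR_sum _ fun l _ => (hA' i l).mul (h1 l j)
    · exact (inR_sum _ fun l _ => (hA' i l).mul (h2 l)).add ((inR_shift k).mpr (hr i))
    · rw [Matrix.map_mul, Matrix.det_mul]
      exact mul_ne_zero (hdet _) (h3 n)
    · rw [Matrix.map_mul, Matrix.map_mul, e k, h4 n m e]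
    · rw [← add_assoc, h]
      simp only [h5, Matrix.mul_apply, mul_add, Finset.sum_add_distrib, Finset.mul_sum,
        Finset.sum_mul, mul_assoc]
      rw [Finset.sum_comm, add_assoc]

theorem inR_lin {I : Type} [Fintype I] (A : ℕ → Matrix I I ℂ⟦X⟧) (r y : I → ℕ → ℂ⟦X⟧)
    (hA : ∀ i j, InR fun n => A n i j) (hE : EP fun n => (A n).map constantCoeff)
    (hdet : ∀ n, ((A n).map constantCoeff).det ≠ 0) (hr : ∀ i, InR (r i))
    (h : ∀ n i, y i (n + 1) = ∑ j, A n i j * y j n + r i n) (i : I) : InR (y i) := by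
  obtain ⟨p, q, hp, hper⟩ := hE.period
  obtain ⟨A', r', h1, h2, h3, h4, h5⟩ := r2_iter A r y hA hdet hr h p
  refine inR_interleave (q := q) hp fun a _ => ?_
  refine r2_const (fun n => A' (q + a + p * n)) (fun i n => r' i (q + a + p * n))
    (fun i n => y i (q + a + p * n)) (fun i j => (h1 i j).subseq (q + a) p)
    ((A' (q + a)).map constantCoeff) (fun n => h4 _ _ fun t => ?_) (h3 _)
    (fun i => (h2 i).subseq (q + a) p) (fun n i => ?_) i
  · rw [add_right_comm]
    exact hper _ (by omega) n
  · rw [mul_add, mul_one, ← add_assoc, h5]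

/-- The composite of `k` pointers. -/
def r2cp {I : Type} (ψ : ℕ → I → Option I) (n : ℕ) : ℕ → Option I → Option I
  | 0, o => o
  | k + 1, o => r2cp ψ n k (o.bind (ψ (n + k)))

theorem r2cp_none {I : Type} (ψ : ℕ → I → Option I) (n k : ℕ) : r2cp ψ n k none = none := by
  induction k with
  | zero => rfl
  | succ k ih => simpa [r2cp] using ih

theorem r2cp_congr {I : Type} (ψ : ℕ → I → Option I) {n m : ℕ} (e : ∀ t, ψ (n + t) = ψ (m + t))
    (k : ℕ) (o : Option I) : r2cp ψ n k o = r2cp ψ m k o := by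
  induction k generalizing o with
  | zero => rfl
  | succ k ih => simp only [r2cp, e k, ih]

theorem r2cp_const {I : Type} (Φ : I → Option I) (n k : ℕ) (o : Option I) :
    r2cp (fun _ => Φ) n k o = (fun o : Option I => o.bind Φ)^[k] o := by
  induction k generalizing o with
  | zero => rfl
  | succ k ih => simp only [r2cp, ih, Function.iterate_succ_apply]

theorem r2_inU_one : InU fun _ => (1 : ℂ⟦X⟧) :=
  ⟨inR_const _, ep_const _, fun _ => by simp⟩

theorem r2_inU_shift {u : ℕ → ℂ⟦X⟧} (h : InU u) (k : ℕ) : InU fun n => u (n + k) := by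
  simpa [add_comm] using h.subseq k 1

/-- The pointer recursion iterated `k` times. -/
theorem r2_piter {I : Type} (ψ : ℕ → I → Option I) (hψ : EP ψ) (u r y : I → ℕ → ℂ⟦X⟧)
    (hu : ∀ i, InU (u i)) (hr : ∀ i, InR (r i)) (q : ℕ)
    (h : ∀ n, q ≤ n → ∀ i, y i (n + 1) = r i n + (ψ n i).elim 0 fun j => u i n * y j n) (k : ℕ) :
    ∃ u' r' : I → ℕ → ℂ⟦X⟧, (∀ i, InU (u' i)) ∧ (∀ i, InR (r' i)) ∧ ∀ n, q ≤ n → ∀ i,
      y i (n + k) = r' i n + (r2cp ψ n k (some i)).elim 0 fun j => u' i n * y j n := by
  induction k with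
  | zero =>
    exact ⟨fun _ _ => 1, fun _ _ => 0, fun _ => r2_inU_one, fun _ => inR_const _,
      fun n _ i => by simp [r2cp]⟩
  | succ k ih =>
    obtain ⟨u', r', h1, h2, h3⟩ := ih
    have hψ' : ∀ i, EP fun n => ψ (n + k) i := fun i =>
      ((ep_shift k).mpr hψ).comp fun f => f i
    refine ⟨fun i n => u i (n + k) * (ψ (n + k) i).elim 1 fun j => u' j n,
      fun i n => r i (n + k) + u i (n + k) * (ψ (n + k) i).elim 0 fun j => r' j n,
      fun i => ?_, fun i => ?_, fun n hn i => ?_⟩
    · refine (r2_inU_shift (hu i) k).mul ?_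
      refine InU.select (hψ' i) (u := fun o n => o.elim 1 fun j => u' j n) ?_
      rintro (_ | j)
      · exact r2_inU_one
      · exact h1 j
    · refine ((inR_shift k).mpr (hr i)).add ((r2_inU_shift (hu i) k).1.mul ?_)
      refine InR.select (hψ' i) (y := fun o n => o.elim 0 fun j => r' j n) ?_
      rintro (_ | j)
      · exact inR_const _
      · exact h2 j
    · rw [← add_assoc, h _ (by omega)]
      simp only [r2cp, Option.bind_some]
      cases hc : ψ (n + k) i with
      | none => simp [r2cp_none]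
      | some j =>
        simp only [Option.elim_some, h3 n hn j]
        cases r2cp ψ n k (some j) with
        | none => simp
        | some l => simp only [Option.elim_some]; ring

/-- Idempotent pointers. -/
theorem r2_idem {I : Type} (G : Option I → Option I) (hG : ∀ o, G (G o) = G o)
    (u r y : I → ℕ → ℂ⟦X⟧) (hu : ∀ i, InU (u i)) (hr : ∀ i, InR (r i))
    (h : ∀ n i, y i (n + 1) = r i n + (G (some i)).elim 0 fun j => u i n * y j n) (i : I) :
    InR (y i) := by
  refine (inR_shift 1).mp ?_
  cases hc : G (some i) with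
  | none => simpa [h, hc] using hr i
  | some j =>
    have hj : G (some j) = some j := by rw [← hc, hG]
    have h1 : InR (y j) := by
      refine inR_lin (I := Unit) (fun n _ _ => u j n) (fun _ => r j) (fun _ => y j)
        (fun _ _ => (hu j).1) ?_ (fun n => ?_) (fun _ => hr j) (fun n _ => ?_) ()
      · exact (hu j).2.1.comp fun (z : ℂ) (_ _ : Unit) => z
      · rw [@Matrix.det_unique _ _ _ _ (_)]
        exact (hu j).2.2 n
      · simp [h, hj, add_comm]
    simpa [h, hc] using (hr i).add ((hu i).1.mul h1)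

/-- Constant pointers. -/
theorem r2_pconst {I : Type} [Finite I] (Φ : I → Option I) (u r y : I → ℕ → ℂ⟦X⟧)
    (hu : ∀ i, InU (u i)) (hr : ∀ i, InR (r i))
    (h : ∀ n i, y i (n + 1) = r i n + (Φ i).elim 0 fun j => u i n * y j n) (i : I) :
    InR (y i) := by
  set F : Option I → Option I := fun o => o.bind Φ with hF
  have hE : EP fun n => F^[n] :=
    ep_of_det (Set.toFinite _) fun n m e => by
      simp only [Function.iterate_succ] at e ⊢
      rw [e]
  obtain ⟨p, q, hp, hper⟩ := hE.period
  have hk : 0 < p * (q + 1) := Nat.mul_pos hp q.succ_pos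
  have hid : ∀ o, F^[p * (q + 1)] (F^[p * (q + 1)] o) = F^[p * (q + 1)] o := fun o => by
    rw [← Function.iterate_add_apply]
    exact congrFun (hper _ (by nlinarith) (q + 1)) o
  obtain ⟨u', r', h1, h2, h3⟩ := r2_piter (fun _ => Φ) (ep_const _) u r y hu hr 0
    (fun n _ => h n) (p * (q + 1))
  refine inR_interleave (q := 0) hk fun a _ => ?_
  refine r2_idem _ hid (fun i n => u' i (0 + a + p * (q + 1) * n))
    (fun i n => r' i (0 + a + p * (q + 1) * n)) (fun i n => y i (0 + a + p * (q + 1) * n))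
    (fun i => (h1 i).subseq _ _) (fun i => (h2 i).subseq _ _) (fun n i => ?_) i
  rw [mul_add, mul_one, ← add_assoc, h3 _ (Nat.zero_le _), r2cp_const]

theorem inR_ptr {I : Type} [Finite I] (ψ : ℕ → I → Option I) (hψ : EP ψ) (u r y : I → ℕ → ℂ⟦X⟧)
    (hu : ∀ i, InU (u i)) (hr : ∀ i, InR (r i))
    (h : ∀ᶠ n in atTop, ∀ i, y i (n + 1) = r i n + (ψ n i).elim 0 fun j => u i n * y j n)
    (i : I) : InR (y i) := by
  obtain ⟨q₀, h⟩ := eventually_atTop.mp h
  obtain ⟨p, q, hp, hper⟩ := hψ.period
  obtain ⟨u', r', h1, h2, h3⟩ := r2_piter ψ hψ u r y hu hr q₀ h p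
  refine inR_interleave (q := q + q₀) hp fun a _ => ?_
  refine r2_pconst (fun i => r2cp ψ (q + q₀ + a) p (some i))
    (fun i n => u' i (q + q₀ + a + p * n)) (fun i n => r' i (q + q₀ + a + p * n))
    (fun i n => y i (q + q₀ + a + p * n))
    (fun i => (h1 i).subseq _ _) (fun i => (h2 i).subseq _ _) (fun n i => ?_) i
  rw [mul_add, mul_one, ← add_assoc, h3 _ (by omega),
    r2cp_congr ψ (m := q + q₀ + a) fun t => ?_]
  rw [add_right_comm]
  exact hper _ (by omega) n

end Pool.Agent.P.MP_406085_lc
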