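import Pool.Agent.P.MP_406085_lc.Tok1
import Pool.Agent.P.MP_406085_lc.Ring2

/-!
Closure properties of sequences without transient.
-/

namespace Pool.Agent.P.MP_406085_lc

open Filter PowerSeries
open scoped Classical

variable {D : Type} {κ : Coc D} {F : List D → ℂ} {z z' : Sq D}

theorem exists_coc : Nonempty (Coc D) :=
  ⟨⟨fun _ => 1, 0, fun _ => one_ne_zero, ⟨fun _ => 1, rec_const _, fun _ => rfl⟩,
    fun _ _ _ _ => rfl⟩⟩

theorem j1_ep (κ : Coc D) (h : HT z) : EP fun n => κ.c (z n) := by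
  obtain ⟨f, hf, e⟩ := κ.rc
  simpa only [e] using HH.ep h hf

theorem j1_ind (h : HT z) (i : ℕ) {y : ℕ → ℂ⟦X⟧} (hy : InR y) :
    InR fun n => if i < (z n).length then y n else 0 := by
  have hE : EP fun n => decide (i < (z n).length) := by
    refine ((h.ep_len (i + 1)).comp fun k => decide (i < k)).congr
      (Eventually.of_forall fun n => ?_)
    simp
  have := InR.select hE (y := fun b n => if b = true then y n else 0) fun b => by
    cases b
    · simpa using inR_const 0
    · simpa using hy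
  simpa using this

theorem j1_term (hF : Test F) (h : HT z) (i : ℕ) {a : ℕ → ℂ} (ha : EP a) :
    InR fun n => (C (a n * F ((z n).getD i [])) : ℂ⟦X⟧) := by
  have h1 : InR fun n => (C (a n) : ℂ⟦X⟧) := ha.inC
  have h2 : InR fun n => (C (F ((z n).getD i [])) : ℂ⟦X⟧) := (h.getD i).inC hF
  simpa only [map_mul] using h1.mul h2

theorem j1_sum {M : Type} [AddCommMonoid M] (t : ℕ → M) (L r : ℕ)
    (h : ∀ i, r ≤ i → i < L → t i = 0) :
    ∑ i ∈ Finset.range L, t i = ∑ i ∈ Finset.range r, if i < L then t i else 0 := by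
  rw [← Finset.sum_filter]
  symm
  refine Finset.sum_subset (fun i hi => ?_) fun i hi hi' => ?_
  · exact Finset.mem_range.2 (Finset.mem_filter.1 hi).2
  · rw [Finset.mem_range] at hi
    refine h i ?_ hi
    by_contra hc
    exact hi' (Finset.mem_filter.2 ⟨Finset.mem_range.2 (by omega), hi⟩)

theorem uu_inU (κ : Coc D) (h : HT z) (h' : HT z') : InU fun n => uu κ (z n) (z' n) :=
  inU_mk (c := fun n => κ.c (z n ++ z' n) / κ.c (z' n)) (s := fun n => ((z n).length : ℂ))
    ((j1_ep κ (h.append h')).comp₂ (j1_ep κ h') fun a b => a / b)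
    (fun _ => div_ne_zero (κ.ne _) (κ.ne _)) h.len

/-- The correction term at position `i`. -/
noncomputable def j1T (κ : Coc D) (F : List D → ℂ) (u w : List (List D)) (i : ℕ) : ℂ⟦X⟧ :=
  C ((κ.c (u ++ w.take i) - κ.c (u ++ w) / κ.c w * κ.c (w.take i)) * F (w.getD i [])) *
    (ex u.length * ex i)

theorem j1T_zero (κ : Coc D) (F : List D → ℂ) (u w : List (List D)) {i : ℕ} (hr : κ.r ≤ i)
    (hi : i < w.length) : j1T κ F u w i = 0 := by
  have h := κ.loc u (w.take i) (w.drop i) (by rw [List.length_take]; omega)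
  rw [List.append_assoc, List.take_append_drop] at h
  have e : κ.c (u ++ w.take i) - κ.c (u ++ w) / κ.c w * κ.c (w.take i) = 0 := by
    have := κ.ne w
    field_simp
    linear_combination -h
  rw [j1T, e, zero_mul, map_zero, zero_mul]

theorem j1_split (κ : Coc D) (F : List D → ℂ) (u w : List (List D)) :
    Pz κ F (u ++ w) = Pz κ F u + uu κ u w * Pz κ F w +
      ∑ i ∈ Finset.range κ.r, if i < w.length then j1T κ F u w i else 0 := by
  rw [← j1_sum _ _ _ fun i hr hi => j1T_zero κ F u w hr hi]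
  unfold Pz
  rw [List.length_append, Finset.sum_range_add, add_assoc, Finset.mul_sum,
    ← Finset.sum_add_distrib]
  congr 1
  · refine Finset.sum_congr rfl fun i hi => ?_
    rw [Finset.mem_range] at hi
    rw [List.take_append_of_le_length hi.le, List.getD_append _ _ _ _ hi]
  · refine Finset.sum_congr rfl fun i _ => ?_
    rw [List.take_length_add_append, List.getD_append_right _ _ _ _ (Nat.le_add_right _ _),
      Nat.add_sub_cancel_left, Nat.cast_add, ex_add, uu, j1T]
    simp only [map_mul, map_sub]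
    ring

theorem pz_append (κ : Coc D) (hF : Test F) (h : HT z) (h' : HT z') : ∃ r, InR r ∧ ∀ n,
    Pz κ F (z n ++ z' n) = Pz κ F (z n) + uu κ (z n) (z' n) * Pz κ F (z' n) + r n := by
  refine ⟨_, ?_, fun n => j1_split κ F (z n) (z' n)⟩
  refine inR_sum _ fun i _ => j1_ind h' i ?_
  have hE : EP fun n => κ.c (z n ++ (z' n).take i) -
      κ.c (z n ++ z' n) / κ.c (z' n) * κ.c ((z' n).take i) :=
    (j1_ep κ (h.append (h'.take i))).comp₂
      (((j1_ep κ (h.append h')).comp₂ (j1_ep κ h') fun a b => a / b).comp₂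
        (j1_ep κ (h'.take i)) fun a b => a * b) fun a b => a - b
  exact (j1_term hF h' i hE).mul (h.len.ex.mul (inR_const _))

theorem Gp.jj (κ : Coc D) (hF : Test F) (h : Gp z) : JJ κ F z := by
  obtain ⟨h, B, hB⟩ := h
  refine ⟨h, ?_⟩
  have e : (fun n => Pz κ F (z n)) = fun n => ∑ i ∈ Finset.range B,
      if i < (z n).length then
        C (κ.c ((z n).take i) * F ((z n).getD i [])) * ex i else 0 :=
    funext fun n => j1_sum _ _ _ fun i h1 h2 => absurd (hB n) (by beta_reduce; omega)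
  rw [e]
  exact inR_sum _ fun i _ => j1_ind h i
    ((j1_term hF h i (j1_ep κ (h.take i))).mul (inR_const _))

theorem JJ.append (hF : Test F) (h : JJ κ F z) (h' : JJ κ F z') :
    JJ κ F fun n => z n ++ z' n := by
  obtain ⟨r, hr, e⟩ := pz_append κ hF h.1 h'.1
  refine ⟨h.1.append h'.1, ?_⟩
  simp only [e]
  exact (h.2.add ((uu_inU κ h.1 h'.1).1.mul h'.2)).add hr

theorem JJ.cancel_left (hF : Test F) (h : JJ κ F z) (h' : HT z')
    (h'' : JJ κ F fun n => z n ++ z' n) : JJ κ F z' := by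
  obtain ⟨r, hr, e⟩ := pz_append κ hF h.1 h'
  obtain ⟨v, hv, ev⟩ := (uu_inU κ h.1 h').inv
  refine ⟨h', (hv.1.mul ((h''.2.sub h.2).sub hr)).congr (Eventually.of_forall fun n => ?_)⟩
  have := ev n
  beta_reduce at this ⊢
  rw [e]
  linear_combination Pz κ F (z' n) * this

theorem JJ.cancel_right (hF : Test F) (h : HT z) (h' : JJ κ F z')
    (h'' : JJ κ F fun n => z n ++ z' n) : JJ κ F z := by
  obtain ⟨r, hr, e⟩ := pz_append κ hF h h'.1
  refine ⟨h, ((h''.2.sub ((uu_inU κ h h'.1).1.mul h'.2)).sub hr).congr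
    (Eventually.of_forall fun n => ?_)⟩
  beta_reduce
  rw [e]
  ring

theorem JJ.congr (h : JJ κ F z) (e : ∀ᶠ n in atTop, z n = z' n) : JJ κ F z' :=
  ⟨h.1.congr e, h.2.congr (e.mono fun _ hn => congrArg (Pz κ F) hn)⟩

theorem jj_shift (k : ℕ) : (JJ κ F fun n => z (n + k)) ↔ JJ κ F z :=
  and_congr (ht_shift k) (inR_shift (y := fun n => Pz κ F (z n)) k)

theorem JJ.sub (h : JJ κ F z) (a k : ℕ) : JJ κ F fun n => z (a + k * n) :=
  ⟨h.1.sub a k, h.2.subseq a k⟩

theorem jj_interleave {p q : ℕ} (hp : 0 < p) (h : ∀ a < p, JJ κ F fun n => z (q + a + p * n)) :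
    JJ κ F z :=
  ⟨ht_interleave hp fun a ha => (h a ha).1,
    inR_interleave (y := fun n => Pz κ F (z n)) hp fun a ha => (h a ha).2⟩

theorem JJ.select {K : Type} {ψ : ℕ → K} (hψ : EP ψ) {y : K → Sq D} (h : ∀ i, JJ κ F (y i)) :
    JJ κ F fun n => y (ψ n) n :=
  ⟨HT.select hψ fun i => (h i).1,
    InR.select hψ (y := fun i n => Pz κ F (y i n)) fun i => (h i).2⟩

theorem jj_ptr (hF : Test F) {I : Type} [Finite I] (ψ : ℕ → I → Option I) (hψ : EP ψ)
    (a b y : I → Sq D) (ha : ∀ i, JJ κ F (a i)) (hb : ∀ i, JJ κ F (b i)) (hy : ∀ i, HT (y i))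
    (h : ∀ᶠ n in atTop, ∀ i, y i (n + 1) = a i n ++ (ψ n i).elim [] (fun j => y j n) ++ b i n)
    (i : I) : JJ κ F (y i) := by
  refine ⟨hy i, ?_⟩
  have hy' : ∀ i, HT fun n => (ψ n i).elim [] fun j => y j n := fun i =>
    HT.select (hψ.comp fun f => f i) (y := fun o n => o.elim [] fun j => y j n) fun o => by
      cases o
      · exact ht_const []
      · exact hy _
  choose r₁ hr₁ e₁ using fun i => pz_append κ hF (ha i).1 (hy' i)
  choose r₂ hr₂ e₂ using fun i => pz_append κ hF ((ha i).1.append (hy' i)) (hb i).1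
  refine inR_ptr ψ hψ (fun i n => uu κ (a i n) ((ψ n i).elim [] fun j => y j n))
    (fun i n => Pz κ F (a i n) + r₁ i n +
      uu κ (a i n ++ (ψ n i).elim [] fun j => y j n) (b i n) * Pz κ F (b i n) + r₂ i n)
    (fun i n => Pz κ F (y i n)) (fun i => uu_inU κ (ha i).1 (hy' i))
    (fun i => (((ha i).2.add (hr₁ i)).add
      ((uu_inU κ ((ha i).1.append (hy' i)) (hb i).1).1.mul (hb i).2)).add (hr₂ i))
    (h.mono fun n hn i => ?_) i
  rw [hn i, e₂ i n, e₁ i n]
  cases ψ n i with
  | none =>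
    have : Pz κ F [] = 0 := by simp [Pz]
    simp only [Option.elim, this]
    ring
  | some j =>
    simp only [Option.elim]
    ring

end Pool.Agent.P.MP_406085_lc
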