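import Pool.Agent.P.MP_406085_lc.Basic

/-!
Cutting lists of tokens by a local rule.
-/

namespace Pool.Agent.P.MP_406085_lc

open Filter PowerSeries
open scoped Classical

namespace Rule

variable {D : Type} (ρ : Rule D) {u u' v w w' z T : List (List D)} {a b : List D}

@[simp] theorem sp_nil (u : List (List D)) : ρ.sp u [] = ([], []) := by
  simp [sp]

theorem sp_cons (u : List (List D)) (a : List D) (w : List (List D)) : ρ.sp u (a :: w) =
    if ρ.bad u a then ([], (a :: (ρ.sp (u ++ [a]) w).1) :: (ρ.sp (u ++ [a]) w).2)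
    else (a :: (ρ.sp (u ++ [a]) w).1, (ρ.sp (u ++ [a]) w).2) := by
  rw [sp]

@[simp] theorem cnt_nil (u : List (List D)) : ρ.cnt u [] = 0 := by
  simp [cnt]

theorem cnt_cons (u : List (List D)) (a : List D) (w : List (List D)) : ρ.cnt u (a :: w) =
    (if ρ.bad u a then 1 else 0) + ρ.cnt (u ++ [a]) w := by
  simp only [cnt]
  rw [sp_cons]
  split_ifs <;> simp [add_comm]

theorem length_st (u : List (List D)) : (ρ.st u).length = min u.length ρ.r := by
  simp only [st, List.length_map, List.length_drop]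
  omega

theorem spl_flatten (u w : List (List D)) : (ρ.spl u w).flatten = w := by
  induction w generalizing u with
  | nil => simp [spl]
  | cons a w ih =>
    have := ih (u ++ [a])
    simp only [spl, List.flatten_cons] at this ⊢
    rw [sp_cons]
    split_ifs <;> simp [this]

theorem length_spl (u w : List (List D)) : (ρ.spl u w).length = ρ.cnt u w + 1 := by
  simp [spl, cnt]

theorem st_finite [Finite D] : (Set.range ρ.st).Finite := by
  have hf : (Set.range (res ρ.t : List D → Option (List D))).Finite := by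
    refine ((List.finite_length_le D ρ.t).image some).insert none |>.subset ?_
    rintro _ ⟨τ, rfl⟩
    unfold res
    split_ifs with h
    · exact Or.inr ⟨τ, h, rfl⟩
    · exact Or.inl rfl
  have := hf.to_subtype
  refine ((List.finite_length_le (Set.range (res ρ.t : List D → Option (List D))) ρ.r).image
    (List.map Subtype.val)).subset ?_
  rintro _ ⟨u, rfl⟩
  refine ⟨(u.drop (u.length - ρ.r)).map fun τ => ⟨res ρ.t τ, τ, rfl⟩, ?_, ?_⟩
  · simp only [Set.mem_ofPred_eq, List.length_map, List.length_drop]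
    omega
  · simp [st, List.map_map, Function.comp_def]

theorem st_app_eq (u w : List (List D)) : ρ.st (u ++ w) =
    (ρ.st u ++ w.map (res ρ.t)).drop ((ρ.st u).length + w.length - ρ.r) := by
  rw [length_st]
  unfold st
  rw [← List.map_append, ← List.map_drop, ← List.drop_append_of_le_length (by omega),
    List.drop_drop, List.length_append]
  congr 2
  omega

theorem st_snoc (h : ρ.st u = ρ.st u') (e : res ρ.t a = res ρ.t b) :
    ρ.st (u ++ [a]) = ρ.st (u' ++ [b]) := by
  rw [st_app_eq, st_app_eq, h]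
  simp [e]

theorem st_append (h : ρ.st u = ρ.st u') (w : List (List D)) :
    ρ.st (u ++ w) = ρ.st (u' ++ w) := by
  rw [st_app_eq, st_app_eq, h]

theorem st_long (h : ρ.r ≤ v.length) (u : List (List D)) : ρ.st (u ++ v) = ρ.st v := by
  unfold st
  have : (u ++ v).length - ρ.r = u.length + (v.length - ρ.r) := by
    rw [List.length_append]; omega
  rw [this, List.drop_length_add_append]

theorem bad_congr (h : ρ.st u = ρ.st u') (e : res ρ.t a = res ρ.t b) :
    ρ.bad u a ↔ ρ.bad u' b := by
  have h1 := ρ.length_st u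
  have h2 := ρ.length_st u'
  rw [h] at h1
  unfold bad
  rw [h, e]
  constructor <;> rintro ⟨h3, h4⟩ <;> exact ⟨by omega, h4⟩

theorem sp_congr (h : ρ.st u = ρ.st u') (w : List (List D)) : ρ.sp u w = ρ.sp u' w := by
  induction w generalizing u u' with
  | nil => simp
  | cons a w ih =>
    rw [sp_cons, sp_cons, ih (ρ.st_append h [a])]
    simp only [ρ.bad_congr h (rfl : res ρ.t a = res ρ.t a)]

theorem sp_append (u w w' : List (List D)) : ρ.sp u (w ++ w') =
    if ρ.cnt u w = 0 then (w ++ (ρ.sp (u ++ w) w').1, (ρ.sp (u ++ w) w').2)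
    else ((ρ.sp u w).1, (ρ.sp u w).2.dropLast ++
      ((ρ.sp u w).2.getLastD [] ++ (ρ.sp (u ++ w) w').1) :: (ρ.sp (u ++ w) w').2) := by
  induction w generalizing u with
  | nil => simp
  | cons a w ih =>
    rw [List.cons_append, sp_cons, ih (u ++ [a]), cnt_cons, sp_cons]
    by_cases hb : ρ.bad u a
    · by_cases hc : ρ.cnt (u ++ [a]) w = 0
      · have h2 : (ρ.sp (u ++ [a]) w).2 = [] := List.length_eq_zero_iff.1 hc
        have h1 : (ρ.sp (u ++ [a]) w).1 = w := by
          have := ρ.spl_flatten (u ++ [a]) w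
          simpa [spl, h2] using this
        simp [hb, hc, h1, h2]
      · obtain ⟨x, l, h2⟩ : ∃ x l, (ρ.sp (u ++ [a]) w).2 = x :: l :=
          List.exists_cons_of_ne_nil fun h => hc (by simp [cnt, h])
        simp [hb, hc, h2]
    · by_cases hc : ρ.cnt (u ++ [a]) w = 0 <;> simp [hb, hc]

theorem cnt_append (u w w' : List (List D)) :
    ρ.cnt u (w ++ w') = ρ.cnt u w + ρ.cnt (u ++ w) w' := by
  by_cases hc : ρ.cnt u w = 0
  · have := ρ.sp_append u w w'
    rw [if_pos hc] at this
    rw [hc, zero_add]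
    unfold cnt
    rw [this]
  · have := ρ.sp_append u w w'
    rw [if_neg hc] at this
    simp only [cnt] at hc ⊢
    rw [this]
    simp only [List.length_append, List.length_dropLast, List.length_cons]
    omega

theorem cnt_le_length (u w : List (List D)) : ρ.cnt u w ≤ w.length := by
  induction w generalizing u with
  | nil => simp
  | cons a w ih =>
    have := ih (u ++ [a])
    rw [cnt_cons, List.length_cons]
    split_ifs <;> omega

theorem bad_long (h : ρ.r ≤ v.length) (u : List (List D)) : ρ.bad (u ++ v) a ↔ ρ.bad v a :=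
  ρ.bad_congr (ρ.st_long h u) rfl

theorem cnt_congr (h : ρ.st u = ρ.st u') (w : List (List D)) : ρ.cnt u w = ρ.cnt u' w := by
  unfold cnt
  rw [ρ.sp_congr h]

theorem cnt_le_ctx (u v w : List (List D)) : ρ.cnt v w ≤ ρ.cnt (u ++ v) w := by
  induction w generalizing v with
  | nil => simp
  | cons a w ih =>
    have := ih (v ++ [a])
    rw [cnt_cons, cnt_cons, List.append_assoc]
    by_cases hb : ρ.bad v a
    · rw [if_pos hb, if_pos ((ρ.bad_long hb.1 u).2 hb)]
      omega
    · rw [if_neg hb]
      omega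

theorem cnt_le_add (u w : List (List D)) : ρ.cnt u w ≤ ρ.cnt [] w + ρ.r := by
  by_cases h : w.length ≤ ρ.r
  · have := ρ.cnt_le_length u w
    omega
  · have hl : (w.take ρ.r).length = ρ.r := by
      rw [List.length_take]; omega
    have h1 := ρ.cnt_append u (w.take ρ.r) (w.drop ρ.r)
    have h2 := ρ.cnt_append [] (w.take ρ.r) (w.drop ρ.r)
    rw [List.take_append_drop] at h1 h2
    rw [List.nil_append] at h2
    rw [ρ.cnt_congr (ρ.st_long hl.ge u)] at h1
    have h3 := ρ.cnt_le_length u (w.take ρ.r)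
    omega

theorem cnt_sub (h : z <:+: w) : ρ.cnt [] z ≤ ρ.cnt [] w := by
  obtain ⟨p, s, rfl⟩ := h
  have := ρ.cnt_le_ctx p [] z
  rw [cnt_append, cnt_append]
  simp only [List.append_nil, List.nil_append] at this ⊢
  omega

theorem cnt_eq_zero : ρ.cnt u w = 0 ↔ ∀ w₁ a w₂, w = w₁ ++ a :: w₂ → ¬ ρ.bad (u ++ w₁) a := by
  induction w generalizing u with
  | nil => simp
  | cons b w ih =>
    rw [cnt_cons]
    constructor
    · intro h w₁ a w₂ e
      have hb : ¬ ρ.bad u b := fun hb => by simp [hb] at h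
      have hc : ρ.cnt (u ++ [b]) w = 0 := by omega
      cases w₁ with
      | nil =>
        simp only [List.nil_append, List.cons.injEq] at e
        simpa [← e.1] using hb
      | cons c w₁ =>
        simp only [List.cons_append, List.cons.injEq] at e
        have := ih.1 hc w₁ a w₂ e.2
        simpa [← e.1] using this
    · intro h
      have hb : ¬ ρ.bad u b := by simpa using h [] b w rfl
      rw [if_neg hb, zero_add]
      refine ih.2 fun w₁ a w₂ e => ?_
      have := h (b :: w₁) a w₂ (by simp [e])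
      simpa using this

theorem bad_window (h : z.length = ρ.r) : ρ.bad z a ↔ (z ++ [a]).map (res ρ.t) ∉ ρ.G := by
  simp [bad, st, h]

/-- A word has no cut if and only if all its windows of length `r + 1` are good. -/
theorem cnt_nil_eq_zero : ρ.cnt [] w = 0 ↔
    ∀ z, z <:+: w → z.length = ρ.r + 1 → z.map (res ρ.t) ∈ ρ.G := by
  rw [cnt_eq_zero]
  constructor
  · rintro h z ⟨p, s, rfl⟩ hl
    rcases List.eq_nil_or_concat z with rfl | ⟨z', a, rfl⟩
    · simp at hl
    · rw [List.concat_eq_append] at hl h ⊢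
      have hl' : z'.length = ρ.r := by simpa using hl
      have := h (p ++ z') a s (by simp)
      rw [List.nil_append, ρ.bad_long hl'.ge, ρ.bad_window hl'] at this
      exact not_not.1 this
  · rintro h w₁ a w₂ rfl hb
    rw [List.nil_append] at hb
    have h1 := hb.1
    refine hb.2 ?_
    have := h (w₁.drop (w₁.length - ρ.r) ++ [a]) ⟨w₁.take (w₁.length - ρ.r), w₂, by
      rw [← List.append_assoc, List.take_append_drop]; simp⟩ (by
      simp only [List.length_append, List.length_drop, List.length_singleton]; omega)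
    simpa [st] using this

theorem spl_ne_nil (u w : List (List D)) : ρ.spl u w ≠ [] := by
  simp [spl]

theorem spl_append_ctx (v u w : List (List D)) : ρ.spl v (u ++ w) = (ρ.spl v u).dropLast ++
    ((ρ.spl v u).getLastD [] ++ (ρ.sp (v ++ u) w).1) :: (ρ.sp (v ++ u) w).2 := by
  unfold spl
  rw [sp_append]
  by_cases hc : ρ.cnt v u = 0
  · have h2 : (ρ.sp v u).2 = [] := List.length_eq_zero_iff.1 hc
    have h1 : (ρ.sp v u).1 = u := by
      have := ρ.spl_flatten v u
      simpa [spl, h2] using this
    simp [hc, h1, h2]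
  · obtain ⟨x, l, h2⟩ : ∃ x l, (ρ.sp v u).2 = x :: l :=
      List.exists_cons_of_ne_nil fun h => hc (by simp [cnt, h])
    simp [hc, h2]

theorem gap_eq' (u w : List (List D)) :
    ρ.gap u w = (ρ.lastp u ++ (ρ.sp u w).1) :: (ρ.sp u w).2 := by
  unfold gap
  rw [spl_append_ctx, List.nil_append, List.drop_left' (by simp [length_spl])]
  rfl

theorem spl_append (u w : List (List D)) :
    ρ.spl [] (u ++ w) = (ρ.spl [] u).dropLast ++ ρ.gap u w := by
  rw [gap_eq', spl_append_ctx, List.nil_append]
  rfl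

theorem gap_eq (u w : List (List D)) :
    ρ.gap u w = (ρ.lastp u ++ (ρ.sp u w).1) :: (ρ.sp u w).2 := ρ.gap_eq' u w

theorem gap_nil (w : List (List D)) : ρ.gap [] w = ρ.spl [] w := by
  simp [gap]

theorem lastp_nil : ρ.lastp [] = [] := by
  simp [lastp, spl]

theorem dropLast_getLastD {α : Type} {L : List (List α)} (h : L ≠ []) :
    L.dropLast ++ [L.getLastD []] = L := by
  rcases List.eq_nil_or_concat L with rfl | ⟨L', x, rfl⟩
  · exact absurd rfl h
  · simp

theorem cnt_fst (u w : List (List D)) : ρ.cnt u (ρ.sp u w).1 = 0 := by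
  induction w generalizing u with
  | nil => simp
  | cons a w ih =>
    rw [sp_cons]
    split_ifs with hb
    · simp
    · simp [cnt_cons, hb, ih]

theorem sp_rest (u w : List (List D)) :
    ρ.sp (u ++ (ρ.sp u w).1) (ρ.sp u w).2.flatten = ([], (ρ.sp u w).2) := by
  induction w generalizing u with
  | nil => simp
  | cons a w ih =>
    by_cases hb : ρ.bad u a
    · have := ρ.spl_flatten (u ++ [a]) w
      simp only [spl, List.flatten_cons] at this
      rw [sp_cons, if_pos hb]
      simp only [List.append_nil, List.flatten_cons, List.cons_append, this]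
      rw [sp_cons, if_pos hb]
    · rw [sp_cons, if_neg hb]
      simpa using ih (u ++ [a])

theorem r_le_fst (h : (ρ.sp u w).2 ≠ []) : ρ.r ≤ (u ++ (ρ.sp u w).1).length := by
  induction w generalizing u with
  | nil => simp at h
  | cons a w ih =>
    rw [sp_cons] at h ⊢
    by_cases hb : ρ.bad u a
    · simpa [hb] using hb.1
    · rw [if_neg hb] at h ⊢
      simpa using ih h

theorem gap_step (h : 1 ≤ ρ.cnt [] T) (u w v : List (List D)) :
    ρ.gap u (w ++ T ++ v) = ρ.gap u (w ++ ρ.hd T) ++ ρ.mid T ++ ρ.gap T v := by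
  have hS : (ρ.sp [] T).2 ≠ [] := fun e => by simp [cnt, e] at h
  have h1 := ρ.sp_rest [] T
  have h2 := ρ.r_le_fst hS
  have h3 : T = ρ.hd T ++ (ρ.sp [] T).2.flatten := (ρ.spl_flatten [] T).symm
  rw [List.nil_append] at h1 h2
  change ρ.r ≤ (ρ.hd T).length at h2
  change ρ.sp (ρ.hd T) _ = _ at h1
  have h4 : ρ.sp (ρ.hd T) ((ρ.sp [] T).2.flatten ++ v) = ([], ρ.mid T ++ ρ.gap T v) := by
    have hc : ρ.cnt (ρ.hd T) (ρ.sp [] T).2.flatten ≠ 0 := by
      unfold cnt
      rw [h1]
      simpa using hS
    rw [sp_append, if_neg hc, h1, ← h3, gap_eq]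
    obtain ⟨x, l, e⟩ := List.exists_cons_of_ne_nil hS
    simp [mid, lastp, spl, e]
  have h5 : ρ.spl [] (u ++ (w ++ T ++ v)) =
      ρ.spl [] (u ++ (w ++ ρ.hd T)) ++ (ρ.mid T ++ ρ.gap T v) := by
    have e : u ++ (w ++ T ++ v) = (u ++ (w ++ ρ.hd T)) ++ ((ρ.sp [] T).2.flatten ++ v) := by
      conv_lhs => rw [h3]
      simp
    rw [e, spl_append_ctx, List.nil_append, ← List.append_assoc u w,
      ρ.sp_congr (ρ.st_long h2 (u ++ w)), h4]
    have := dropLast_getLastD (ρ.spl_ne_nil [] (u ++ w ++ ρ.hd T))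
    conv_rhs => rw [← this]
    simp
  have h6 : ρ.cnt [] u ≤ (ρ.spl [] (u ++ (w ++ ρ.hd T))).length := by
    rw [length_spl, cnt_append]
    omega
  rw [List.append_assoc (ρ.gap u _)]
  conv_lhs => unfold gap
  rw [h5, List.drop_append_of_le_length h6]
  rfl

theorem cnt_hd (u w T : List (List D)) : ρ.cnt u (w ++ ρ.hd T) ≤ ρ.cnt u w + ρ.r := by
  have h1 := ρ.cnt_le_add (u ++ w) (ρ.hd T)
  have h2 : ρ.cnt [] (ρ.hd T) = 0 := ρ.cnt_fst [] T
  rw [cnt_append]
  omega

theorem cnt_nil_hd (T : List (List D)) : ρ.cnt [] (ρ.hd T) = 0 := ρ.cnt_fst [] T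

theorem hd_isPrefix (T : List (List D)) : ρ.hd T <+: T := ⟨_, ρ.spl_flatten [] T⟩

theorem lastp_isSuffix (T : List (List D)) : ρ.lastp T <:+ T := by
  refine ⟨(ρ.spl [] T).dropLast.flatten, ?_⟩
  conv_rhs => rw [← ρ.spl_flatten [] T, ← dropLast_getLastD (ρ.spl_ne_nil [] T)]
  simp [lastp]

theorem lastp_append (h : 1 ≤ ρ.cnt [] T) (v w : List (List D)) :
    ρ.lastp (v ++ T ++ w) = (ρ.gap T w).getLastD [] := by
  unfold lastp
  rw [← gap_nil, ρ.gap_step h, gap_eq ρ T w]
  simp [List.getLastD_eq_getLast?, List.getLast?_append, List.getLast?_cons]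

theorem pref_append (k : ℕ) (u w w' : List (List D)) : ρ.pref k u (w ++ w') =
    if k ≤ ρ.cnt u w then ρ.pref k u w else w ++ ρ.pref (k - ρ.cnt u w) (u ++ w) w' := by
  unfold pref
  have hl : (ρ.spl u w).dropLast.length = ρ.cnt u w := by simp [length_spl]
  have h0 := dropLast_getLastD (ρ.spl_ne_nil u w)
  rw [spl_append_ctx]
  split_ifs with h
  · rw [List.take_append_of_le_length (by omega)]
    conv_rhs => rw [← h0, List.take_append_of_le_length (by omega)]
  · obtain ⟨j, rfl⟩ : ∃ j, k = ρ.cnt u w + (j + 1) := ⟨k - ρ.cnt u w - 1, by omega⟩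
    rw [Nat.add_sub_cancel_left, ← hl, List.take_length_add_append]
    have h1 : (ρ.spl u w).dropLast.flatten ++ (ρ.spl u w).getLastD [] = w := by
      have := congrArg List.flatten h0
      rwa [spl_flatten, List.flatten_append, List.flatten_singleton] at this
    rw [List.flatten_append, List.take_succ_cons, List.flatten_cons, ← List.append_assoc,
      ← List.append_assoc, h1]
    simp [spl]

theorem pref_succ (k : ℕ) (u w : List (List D)) :
    ρ.pref (k + 1) u w = ρ.pref k u w ++ (ρ.spl u w).getD k [] := by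
  unfold pref
  rw [List.take_add_one, List.flatten_append, List.getD_eq_getElem?_getD]
  cases (ρ.spl u w)[k]? <;> simp

theorem pref_of_lt {k : ℕ} (h : ρ.cnt u w < k) : ρ.pref k u w = w := by
  unfold pref
  rw [List.take_of_length_le (by rw [length_spl]; omega), spl_flatten]

theorem pref_isPrefix (k : ℕ) (u w : List (List D)) : ρ.pref k u w <+: w := by
  refine ⟨((ρ.spl u w).drop k).flatten, ?_⟩
  unfold pref
  rw [← List.flatten_append, List.take_append_drop, spl_flatten]

theorem mem_spl (h : z ∈ ρ.spl u w) : z <:+: w := by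
  rw [← ρ.spl_flatten u w]
  exact List.infix_of_mem_flatten h

theorem mem_snd_good (hr : 1 ≤ ρ.r) (h : z ∈ (ρ.sp u w).2) {z₁ z₂ : List (List D)}
    (e : z = z₁ ++ a :: z₂) (hl : ρ.r ≤ z₁.length) : ¬ ρ.bad z₁ a := by
  induction w generalizing u with
  | nil => simp at h
  | cons b w ih =>
    rw [sp_cons] at h
    split_ifs at h with hb
    · rcases List.mem_cons.1 h with h | h
      · cases z₁ with
        | nil => simp at hl; omega
        | cons c z₁ =>
          rw [h] at e
          simp only [List.cons_append, List.cons.injEq] at e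
          have := ρ.cnt_eq_zero.1 (ρ.cnt_fst (u ++ [b]) w) z₁ a z₂ e.2
          rw [← ρ.bad_long hl u, ← e.1]
          simpa using this
      · exact ih h
    · exact ih h

theorem mem_spl_good (hr : 1 ≤ ρ.r) (h : z ∈ ρ.spl [] w) {z₁ z₂ : List (List D)}
    (e : z = z₁ ++ a :: z₂) (hl : ρ.r ≤ z₁.length) : ¬ ρ.bad z₁ a := by
  rcases List.mem_cons.1 h with h | h
  · have := ρ.cnt_eq_zero.1 (ρ.cnt_fst [] w) z₁ a z₂ (h ▸ e)
    simpa using this
  · exact ρ.mem_snd_good hr h e hl

end Rule

end Pool.Agent.P.MP_406085_lc
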