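import Pool.Agent.P.MP_406085_lc.Om
import Pool.Agent.P.MP_406085_lc.Alg
import Pool.Agent.P.MP_406085_lc.Jet1
import Pool.Agent.P.MP_406085_lc.Split

/-!
Branching letters of the class have no transient.
-/

namespace Pool.Agent.P.MP_406085_lc

open Filter PowerSeries
open scoped Classical

namespace BrA

variable {N D : Type} {P : PS N D} {b : N} (d : Desc P b)

/-- The vector of pattern counts. -/
noncomputable def W (u v : List (Option (List D))) : Fin d.c → ℤ :=
  fun j => (stt (d.pat j) u v : ℤ)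

theorem W_append (u v w : List (Option (List D))) :
    W d (u ++ v) w = W d u (v ++ w) + W d v w := by
  funext j
  simp only [W, Pi.add_apply, stt_append, Nat.cast_add]

theorem W_long {v : List (Option (List D))} (h : d.r ≤ v.length)
    (u w : List (Option (List D))) : W d u (v ++ w) = W d u v := by
  funext j
  simp only [W]
  rw [stt_long (by rw [d.hpat]; exact h)]

theorem W_nil (v : List (Option (List D))) : W d [] v = 0 := by
  funext j
  simp [W, stt]

theorem W_snoc (u : List (Option (List D))) (x : Option (List D)) :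
    W d (u ++ [x]) [] = W d u [] +
      (W d (u.drop (u.length - d.r) ++ [x]) [] - W d (u.drop (u.length - d.r)) []) := by
  by_cases h : u.length ≤ d.r
  · rw [Nat.sub_eq_zero_of_le h, List.drop_zero]; abel
  · have hl : d.r ≤ (u.drop (u.length - d.r)).length := by rw [List.length_drop]; omega
    generalize hv : u.drop (u.length - d.r) = v at hl
    have e : u = u.take (u.length - d.r) ++ v := by rw [← hv, List.take_append_drop]
    generalize u.take (u.length - d.r) = u0 at e
    subst e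
    rw [List.append_assoc, W_append d u0 (v ++ [x]), W_append d u0 v, List.append_assoc,
      W_long d hl, W_long d hl]
    abel

theorem chi_ne {c : ℕ} {χ : AddChar (Fin c → ℤ) ℂ} {M : ℕ} (hM : 0 < M) (h : ∀ v, χ v ^ M = 1)
    (v : Fin c → ℤ) : χ v ≠ 0 := by
  intro e
  have := h v
  rw [e, zero_pow hM.ne'] at this
  exact zero_ne_one this

theorem coc [Finite D] {χ : AddChar (Fin d.c → ℤ) ℂ} {M : ℕ} (hM : 0 < M)
    (h : ∀ v, χ v ^ M = 1) : ∃ κ : Coc D, ∀ w, κ.c w = χ (W d (w.map (res d.t)) []) := by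
  let ρ : Rule D := ⟨d.r, d.t, ∅⟩
  have hst : ∀ w : List (List D), ρ.st w =
      (w.map (res d.t)).drop ((w.map (res d.t)).length - d.r) := by
    intro w
    simp only [Rule.st, ρ, List.length_map, List.map_drop]
  have hfin : (Set.range fun w : List (List D) =>
      (ρ.st w, χ (W d (w.map (res d.t)) []))).Finite := by
    refine (ρ.st_finite.prod (Polynomial.nthRoots M (1 : ℂ)).toFinset.finite_toSet).subset ?_
    rintro _ ⟨w, rfl⟩
    refine ⟨⟨w, rfl⟩, ?_⟩
    simp only [Finset.mem_coe, Multiset.mem_toFinset, Polynomial.mem_nthRoots hM]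
    exact h _
  obtain ⟨f, hf, hf'⟩ := rec_tok d.t _ hfin (by
    intro u v x y e1 e2
    have e3 : ρ.st u = ρ.st v := congrArg Prod.fst e1
    have e4 : χ (W d (u.map (res d.t)) []) = χ (W d (v.map (res d.t)) []) := congrArg Prod.snd e1
    refine Prod.ext (ρ.st_snoc e3 e2) ?_
    simp only [List.map_append, List.map_singleton]
    rw [W_snoc, W_snoc d (v.map _), AddChar.map_add_eq_mul, AddChar.map_add_eq_mul, e4, ← hst,
      ← hst, e3, e2])
  refine ⟨⟨fun w => χ (W d (w.map (res d.t)) []), d.r, fun w => chi_ne hM h _,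
    ⟨fun w => (f w).2, hf.comp Prod.snd, fun z => by simp only [hf']⟩, ?_⟩, fun w => rfl⟩
  intro z z' z'' hz
  have hl : d.r ≤ (z'.map (res d.t)).length := by rwa [List.length_map]
  simp only [List.map_append]
  rw [← AddChar.map_add_eq_mul, ← AddChar.map_add_eq_mul, List.append_assoc, W_append d (z.map _),
    W_append d (z.map _), List.append_assoc, W_long d hl, W_long d hl]
  congr 1
  abel

/-- The count vector of a path. -/
noncomputable def V (n : ℕ) (π : Pth N D) : Fin d.c → ℤ :=
  fun j => (P.om (d.pat j) d.t n π : ℤ)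

/-- The length of the word of a path before its last block. -/
def Ln (n : ℕ) (π : Pth N D) : ℤ := ((P.pre d.t n π.1 π.2).length : ℤ)

/-- The unit attached to a path. -/
noncomputable def U (χ : AddChar (Fin d.c → ℤ) ℂ) (n : ℕ) (π : Pth N D) : ℂ⟦X⟧ :=
  C (χ (V d n π)) * ex (Ln d n π : ℤ)

variable {a : N}

theorem long (ha : P.Cl b a) {y : N} (hy : y ∈ P.ch a) {n : ℕ} (hn : d.k a ≤ n)
    (j : Fin d.c) : (d.pat j).length ≤ P.len y n := by
  rw [d.hpat]
  exact (d.long a ha y hy).trans (P.len_mono y hn)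

theorem V_succ (ha : P.Cl b a) {π : Pth N D} (hπ : P.Adm a π) {n : ℕ} (hn : d.k a ≤ n) :
    V d (n + 1) π = V d n (P.subP π) := by
  funext j
  simp only [V]
  rw [P.om_succ ((d.big a ha).mono P le_rfl hn) hπ fun y hy => long d ha hy hn j]

theorem Ln_succ (ha : P.Cl b a) {π : Pth N D} (hπ : P.Adm a π) {n : ℕ} (hn : d.k a ≤ n) :
    Ln d (n + 1) π = Ln d n (P.subP π) := by
  simp only [Ln]
  rw [P.pre_succ ((d.big a ha).mono P le_rfl hn) hπ]

theorem U_succ (χ : AddChar (Fin d.c → ℤ) ℂ) (ha : P.Cl b a) {π : Pth N D} (hπ : P.Adm a π)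
    {n : ℕ} (hn : d.k a ≤ n) : U d χ (n + 1) π = U d χ n (P.subP π) := by
  simp only [U]
  rw [V_succ d ha hπ hn, Ln_succ d ha hπ hn]

theorem U_append (χ : AddChar (Fin d.c → ℤ) ℂ) (ha : P.Cl b a) {x : N}
    {l : List (List (Option (List D)) × N)} (hx : lastL (x, l) ∈ P.ch a)
    (l' : List (List (Option (List D)) × N)) {n : ℕ} (hn : d.k a ≤ n) :
    U d χ n (x, l ++ l') = U d χ n (x, l) * U d χ n (lastL (x, l), l') := by
  have e1 : V d n (x, l ++ l') = V d n (x, l) + V d n (lastL (x, l), l') := by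
    funext j
    simp only [V, Pi.add_apply]
    rw [P.om_append (long d ha hx hn j), Nat.cast_add]
  have e2 : Ln d n (x, l ++ l') = Ln d n (x, l) + Ln d n (lastL (x, l), l') := by
    simp only [Ln]
    rw [P.pre_append, List.length_append, Nat.cast_add]
  simp only [U]
  rw [e1, e2, AddChar.map_add_eq_mul, map_mul, Int.cast_add, ex_add]
  ring

/-- Parallel admissible paths. -/
def Par (P : PS N D) (a : N) (π π' : Pth N D) : Prop :=
  P.Adm a π ∧ P.Adm a π' ∧ π.1 = π'.1 ∧ lastL π = lastL π'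

theorem Par.subP {π π' : Pth N D} (h : Par P a π π') : Par P a (P.subP π) (P.subP π') :=
  ⟨h.1.subP P, h.2.1.subP P, congrArg P.f h.2.2.1, by
    rw [P.lastL_subP, P.lastL_subP, h.2.2.2]⟩

theorem Par.lam (ha : P.Cl b a) (n : ℕ) : ∀ {π π' : Pth N D}, Par P a π π' →
    Ln d (d.k a + n) π - Ln d (d.k a + n) π' =
      d.lam (V d (d.k a + n) π - V d (d.k a + n) π') := by
  induction n with
  | zero =>
    intro π π' h
    have e1 := d.hlam a ha π h.1
    have e2 := d.hlam a ha π' h.2.1
    rw [h.2.2.1, h.2.2.2] at e1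
    rw [map_sub]
    simp only [Ln, Nat.add_zero]
    rw [h.2.2.1, e1, e2]
    unfold V
    ring
  | succ n ih =>
    intro π π' h
    have hn : d.k a ≤ d.k a + n := Nat.le_add_right _ _
    rw [← add_assoc, Ln_succ d ha h.1 hn, Ln_succ d ha h.2.1 hn, V_succ d ha h.1 hn,
      V_succ d ha h.2.1 hn]
    exact ih h.subP

theorem Par.theta (ha : P.Cl b a) (n : ℕ) : ∀ {π π' : Pth N D}, Par P a π π' →
    V d (d.k a + d.Δ a + n) π - V d (d.k a + d.Δ a + n) π' =
      d.Θ (V d (d.k a + n) π - V d (d.k a + n) π') := by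
  induction n with
  | zero =>
    intro π π' h
    have e1 := d.hΘ a ha π h.1
    have e2 := d.hΘ a ha π' h.2.1
    rw [h.2.2.1, h.2.2.2] at e1
    rw [map_sub]
    simp only [Nat.add_zero]
    unfold V
    rw [e1, e2]
    abel
  | succ n ih =>
    intro π π' h
    have hn : d.k a ≤ d.k a + n := Nat.le_add_right _ _
    have hn' : d.k a ≤ d.k a + d.Δ a + n := by omega
    rw [← add_assoc, ← add_assoc, V_succ d ha h.1 hn, V_succ d ha h.2.1 hn, V_succ d ha h.1 hn',
      V_succ d ha h.2.1 hn']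
    exact ih h.subP

theorem Par.pow (ha : P.Cl b a) {π π' : Pth N D} (h : Par P a π π') (ρ m : ℕ) :
    V d (d.k a + (m * d.Δ a + ρ)) π - V d (d.k a + (m * d.Δ a + ρ)) π' =
      (d.Θ ^ m) (V d (d.k a + ρ) π - V d (d.k a + ρ) π') := by
  induction m with
  | zero => simp
  | succ m ih =>
    rw [show d.k a + ((m + 1) * d.Δ a + ρ) = d.k a + d.Δ a + (m * d.Δ a + ρ) by ring,
      Par.theta d ha _ h, ih, pow_succ', Module.End.mul_apply]

theorem Par.U (χ : AddChar (Fin d.c → ℤ) ℂ) (ha : P.Cl b a) {π π' : Pth N D}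
    (h : Par P a π π') (ρ m : ℕ) :
    U d χ (d.k a + (m * d.Δ a + ρ)) π =
      C (χ ((d.Θ ^ m) (V d (d.k a + ρ) π - V d (d.k a + ρ) π'))) *
        ex (d.lam ((d.Θ ^ m) (V d (d.k a + ρ) π - V d (d.k a + ρ) π')) : ℤ) *
          BrA.U d χ (d.k a + (m * d.Δ a + ρ)) π' := by
  rw [← Par.pow d ha h, ← Par.lam d ha _ h]
  simp only [BrA.U]
  generalize d.k a + (m * d.Δ a + ρ) = n
  have e1 : V d n π = (V d n π - V d n π') + V d n π' := by abel
  have e2 : Ln d n π = (Ln d n π - Ln d n π') + Ln d n π' := by abel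
  conv_lhs => rw [e1, e2]
  rw [AddChar.map_add_eq_mul, map_mul, Int.cast_add, ex_add]
  ring

theorem uu_eq {χ : AddChar (Fin d.c → ℤ) ℂ} (h0 : ∀ v, χ v ≠ 0) {κ : Coc D}
    (hκ : ∀ w, κ.c w = χ (W d (w.map (res d.t)) [])) {π : Pth N D} {n : ℕ}
    {z : List (List D)} (hz : z.map (res d.t) = P.pre d.t n π.1 π.2) :
    uu κ z (P.T (lastL π) n) = U d χ n π := by
  simp only [uu, U, Ln]
  rw [hκ, hκ, List.map_append, W_append, AddChar.map_add_eq_mul, mul_div_assoc, div_self (h0 _),
    mul_one, List.append_nil, ← hz, List.length_map, Int.cast_natCast, hz]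
  rfl

theorem gp_gap {g : List (ℕ → List D)} (h : ∀ γ ∈ g, HH γ) : Gp fun n => g.map (· n) := by
  induction g with
  | nil => exact gp_const []
  | cons γ g ih =>
    have h1 : Gp fun n => [γ n] := ⟨(h γ (by simp)).single, 1, fun n => le_rfl⟩
    exact h1.append (ih fun γ' h' => h γ' (List.mem_cons_of_mem _ h'))

/-- The sequence `z` is an exact form of the word of the path `π`. -/
def Rep (a : N) (π : Pth N D) (z : Sq D) : Prop :=
  HT z ∧ ∀ n, d.k a ≤ n → (z n).map (res d.t) = P.pre d.t n π.1 π.2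

/-- The limit form of an entry of a rule. -/
noncomputable def lb (e : List (ℕ → List D) × N) : List (Option (List D)) × N := (e.1.map lim, e.2)

theorem lastL_snoc (x : N) (l : List (List (Option (List D)) × N))
    (e : List (Option (List D)) × N) : lastL (x, l ++ [e]) = e.2 := by
  simp [lastL]

theorem Rep.step (ha : P.Cl b a) {a' : N} (ha' : a' ∈ P.ch a) {e : List (ℕ → List D) × N}
    (he : e ∈ P.rest a') {x : N} {l : List (List (Option (List D)) × N)} {z : Sq D}
    (h : Rep d a (x, l) z) :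
    Rep d a (x, l ++ [lb e]) fun n => z n ++ P.T (lastL (x, l)) n ++ e.1.map (· n) := by
  refine ⟨(h.1.append (P.hT _)).append (gp_gap (P.hh a' e he)).1, fun n hn => ?_⟩
  have e1 := h.2 n hn
  simp only at e1
  simp only [List.map_append, P.pre_append, e1]
  rw [P.map_res_gap ((d.big a ha).mono P le_rfl hn) ha' he]
  simp [PS.pre, PS.rT, lb]

theorem rep_inits (ha : P.Cl b a) {a' : N} (ha' : a' ∈ P.ch a) (x : N)
    (L : List (List (ℕ → List D) × N)) : (∀ e ∈ L, e ∈ P.rest a') →
      ∀ l0 z0, Rep d a (x, l0) z0 → ∀ l, l <+: L.map lb → ∃ z, Rep d a (x, l0 ++ l) z := by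
  induction L with
  | nil =>
    intro _ l0 z0 h l hl
    rw [List.map_nil, List.prefix_nil] at hl
    subst hl
    exact ⟨z0, by rwa [List.append_nil]⟩
  | cons e L ih =>
    intro hL l0 z0 h l hl
    rw [List.map_cons, List.prefix_cons_iff] at hl
    rcases hl with rfl | ⟨l', rfl, hl⟩
    · exact ⟨z0, by rwa [List.append_nil]⟩
    · obtain ⟨z, hz⟩ := ih (fun e' he' => hL e' (List.mem_cons_of_mem _ he')) _ _
        (h.step d ha ha' (hL e (by simp))) l' hl
      exact ⟨z, by rwa [List.append_assoc] at hz⟩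

theorem rep_nil (a x : N) : Rep d a (x, []) fun _ => [] := ⟨ht_const [], fun _ _ => rfl⟩

theorem U_inU {χ : AddChar (Fin d.c → ℤ) ℂ} (h0 : ∀ v, χ v ≠ 0) {κ : Coc D}
    (hκ : ∀ w, κ.c w = χ (W d (w.map (res d.t)) [])) (ha : P.Cl b a) {a' : N}
    (ha' : a' ∈ P.ch a) {l : List (List (Option (List D)) × N)} (hl : l <+: P.bar a')
    {q : ℕ} (hq : d.k a ≤ q) : InU fun n => U d χ (q + n) (P.f a', l) := by
  obtain ⟨z, hz⟩ := rep_inits d ha ha' (P.f a') (P.rest a') (fun _ h => h) [] _
    (rep_nil d a _) l hl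
  rw [List.nil_append] at hz
  have h1 := (uu_inU κ hz.1 (P.hT (lastL (P.f a', l)))).subseq q 1
  have e : (fun n => U d χ (q + n) (P.f a', l)) =
      fun n => uu κ (z (q + 1 * n)) (P.T (lastL (P.f a', l)) (q + 1 * n)) := by
    funext n
    rw [one_mul, uu_eq d h0 hκ (hz.2 _ (by omega))]
  rw [e]
  exact h1

theorem expand {χ : AddChar (Fin d.c → ℤ) ℂ} (h0 : ∀ v, χ v ≠ 0) {κ : Coc D}
    (hκ : ∀ w, κ.c w = χ (W d (w.map (res d.t)) [])) {F : List D → ℂ} (hF : Test F)
    (ha : P.Cl b a) {a' : N} (ha' : a' ∈ P.ch a) (x : N)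
    (L : List (List (ℕ → List D) × N)) : (∀ e ∈ L, e ∈ P.rest a') →
      ∀ l0 z0, Rep d a (x, l0) z0 → ∃ r, InR r ∧ ∀ n, d.k a ≤ n →
        Pz κ F (z0 n ++ P.T (lastL (x, l0)) n ++ L.flatMap fun e => e.1.map (· n) ++ P.T e.2 n) =
          Pz κ F (z0 n) + ((L.map lb).inits.map fun l => U d χ n (x, l0 ++ l) *
            Pz κ F (P.T (lastL (x, l0 ++ l)) n)).sum + r n := by
  induction L with
  | nil =>
    intro _ l0 z0 h
    obtain ⟨r, hr, e⟩ := pz_append κ hF h.1 (P.hT (lastL (x, l0)))
    refine ⟨r, hr, fun n hn => ?_⟩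
    simp only [List.flatMap_nil, List.append_nil, List.map_nil, List.inits, List.map_cons,
      List.sum_cons, List.sum_nil, add_zero]
    rw [e, uu_eq d h0 hκ (h.2 n hn)]
  | cons e L ih =>
    intro hL l0 z0 h
    have he := hL e (by simp)
    have hg := gp_gap (P.hh a' e he)
    obtain ⟨r1, hr1, e1⟩ := pz_append κ hF h.1 (P.hT (lastL (x, l0)))
    obtain ⟨r2, hr2, e2⟩ := pz_append κ hF (h.1.append (P.hT (lastL (x, l0)))) hg.1
    obtain ⟨r3, hr3, e3⟩ := ih (fun e' he' => hL e' (List.mem_cons_of_mem _ he')) _ _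
      (h.step d ha ha' he)
    have hr4 := ((uu_inU κ (h.1.append (P.hT (lastL (x, l0)))) hg.1).1).mul (hg.jj κ hF).2
    refine ⟨_, ((hr1.add hr2).add hr3).add hr4, fun n hn => ?_⟩
    have e4 := e3 n hn
    rw [lastL_snoc, e2, e1, uu_eq d h0 hκ (h.2 n hn)] at e4
    simp only [List.append_assoc, List.singleton_append] at e4
    simp only [List.flatMap_cons, List.map_cons, List.inits_cons, List.sum_cons, List.map_map,
      List.append_nil, List.append_assoc, Function.comp_def]
    simp only [lb] at e4 ⊢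
    rw [e4]
    ring

theorem exists_init {y : N} (l : List (List (Option (List D)) × N)) : ∀ x : N,
    y ∈ x :: l.map Prod.snd → ∃ l', l' <+: l ∧ lastL (x, l') = y := by
  induction l with
  | nil =>
    intro x h
    exact ⟨[], List.nil_prefix, by simpa [lastL, eq_comm] using h⟩
  | cons e l ih =>
    intro x h
    rcases List.mem_cons.1 h with rfl | h
    · exact ⟨[], List.nil_prefix, rfl⟩
    · obtain ⟨l', h1, h2⟩ := ih e.2 h
      refine ⟨e :: l', (List.cons_prefix_cons).2 ⟨rfl, h1⟩, ?_⟩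
      rw [← h2]
      exact lastL_append x [e] l'

theorem adm_init {a' : N} (ha' : a' ∈ P.ch a) {l : List (List (Option (List D)) × N)}
    (hl : l <+: P.bar a') : P.Adm a (P.f a', l) := by
  obtain ⟨l', e⟩ := hl
  have h := P.adm_bar ha'
  rw [← e] at h
  exact (P.adm_append.1 h).1

theorem exists_ent (P : PS N D) : ∃ E : N → N → List (List (Option (List D)) × N), ∀ a y,
    y ∈ P.ch a → E a y <+: P.bar a ∧ lastL (P.f a, E a y) = y := by
  have h : ∀ a y, ∃ l, y ∈ P.ch a → l <+: P.bar a ∧ lastL (P.f a, l) = y := by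
    intro a y
    by_cases hy : y ∈ P.ch a
    · obtain ⟨l, h⟩ := exists_init (y := y) (P.bar a) (P.f a) (by
        simpa only [PS.ch, PS.bar, List.map_map, Function.comp_def] using hy)
      exact ⟨l, fun _ => h⟩
    · exact ⟨[], fun h => absurd h hy⟩
  choose E hE using h
  exact ⟨E, hE⟩

end BrA

variable {N D : Type} [Finite N] [Finite D] (P : PS N D) {b : N}

open BrA in
theorem PS.br (d : Desc P b) : ∃ κ : Coc D, ∀ F, Test F → ∀ a, P.Cl b a →
    (∀ y ∈ P.ch a, a ∉ P.ch y → JJ κ F (P.T y)) → JJ κ F (P.T a) := by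
  obtain ⟨E, hE⟩ := exists_ent P
  let cls : N → N → Prop := fun a y => y ∈ P.ch a ∧ a ∈ P.ch y
  let p1 : N → N → List (List (Option (List D)) × N) → Pth N D := fun a a' l =>
    (P.f (P.f a), P.sub' (P.f a) (E a a') ++ l)
  obtain ⟨χ, ⟨M, hM, hχ⟩, halg⟩ := alg d.Θ d.lam (I := {a // P.Cl b a}) (N := N)
    (fun i => d.Δ i.1) (fun i => d.hΔ i.1) fun i ρ a' => if cls i.1 a' then
      (P.bar a').inits.map fun l => (lastL (P.f a', l), V d (d.k i.1 + ρ) (p1 i.1 a' l) -
        V d (d.k i.1 + ρ) (P.f i.1, E i.1 (lastL (P.f a', l)))) else []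
  have h0 := chi_ne hM hχ
  obtain ⟨κ, hκ⟩ := coc d hM hχ
  refine ⟨κ, fun F hF a ha hlow => ⟨P.hT a, ?_⟩⟩
  have haa := ha.mem P
  have hex : ∀ a', ∃ r, InR r ∧ (a' ∈ P.ch a → ∀ n, d.k a ≤ n → Pz κ F (P.T a' (n + 1)) =
      ((P.bar a').inits.map fun l => U d χ n (P.f a', l) *
        Pz κ F (P.T (lastL (P.f a', l)) n)).sum + r n) := by
    intro a'
    by_cases ha' : a' ∈ P.ch a
    · obtain ⟨r, hr, e⟩ := expand d h0 hκ hF ha ha' (P.f a') (P.rest a') (fun _ h => h) [] _
        (rep_nil d a _)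
      refine ⟨r, hr, fun _ n hn => ?_⟩
      have e1 := e n hn
      have e2 : Pz κ F [] = 0 := by simp [Pz]
      simp only [List.nil_append, e2, zero_add] at e1
      rw [P.step]
      exact e1
    · exact ⟨_, inR_const 0, fun h => absurd h ha'⟩
  choose r0 hr0 hex using hex
  have key := halg ⟨a, ha⟩
    (fun a' n => if cls a a' then U d χ (d.k a + n) (P.f a, E a a') *
      Pz κ F (P.T a' (d.k a + n)) else 0)
    (fun a' n => if cls a a' then U d χ (d.k a + 1 + n) (P.f a, E a a') *
      (((P.bar a').inits.map fun l => if cls a (lastL (P.f a', l)) then 0 else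
        U d χ (d.k a + n) (P.f a', l) * Pz κ F (P.T (lastL (P.f a', l)) (d.k a + n))).sum +
          r0 a' (d.k a + n)) else 0) ?_ ?_ a
  · simp only [if_pos (show cls a a from ⟨haa, haa⟩)] at key
    obtain ⟨v, hv, e⟩ := (U_inU d h0 hκ ha haa (hE a a haa).1 le_rfl).inv
    refine (inR_shift (d.k a)).1 ((hv.1.mul key).congr (Eventually.of_forall fun n => ?_))
    rw [← mul_assoc, mul_comm (v n), e n, one_mul, add_comm]
  · intro a'
    by_cases h : cls a a'
    · simp only [if_pos h]
      refine (U_inU d h0 hκ ha haa (hE a a' h.1).1 (Nat.le_succ _)).1.mul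
        ((inR_list_sum _ fun l hl => ?_).add ?_)
      · rw [List.mem_inits] at hl
        by_cases h' : cls a (lastL (P.f a', l))
        · simp only [if_pos h']
          exact inR_const 0
        · simp only [if_neg h']
          have h1 := (adm_init h.1 hl).last P
          refine (U_inU d h0 hκ ha h.1 hl le_rfl).1.mul ?_
          simpa only [one_mul] using (hlow _ h1 fun h2 => h' ⟨h1, h2⟩).2.subseq (d.k a) 1
      · simpa only [one_mul] using (hr0 a').subseq (d.k a) 1
    · simp only [if_neg h]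
      exact inR_const 0
  · intro m ρ _ a'
    by_cases h : cls a a'
    · simp only [if_pos h, List.map_map, Function.comp_def]
      have hn : d.k a ≤ d.k a + (m * d.Δ a + ρ) := Nat.le_add_right _ _
      have hA := adm_init haa (hE a a' h.1).1
      rw [← add_assoc (d.k a), hex a' h.1 _ hn, add_right_comm (d.k a) 1, U_succ d χ ha hA hn,
        mul_add, mul_add, ← List.sum_map_mul_left, ← List.sum_map_mul_left]
      refine Eq.trans ?_ (add_assoc _ _ _)
      rw [← List.sum_map_add]
      congr 2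
      refine List.map_congr_left fun l hl => ?_
      rw [List.mem_inits] at hl
      by_cases h' : cls a (lastL (P.f a', l))
      · simp only [if_pos h', mul_zero, add_zero]
        have hl1 : lastL (P.f (P.f a), P.sub' (P.f a) (E a a')) = P.f a' := by
          have := P.lastL_subP (P.f a, E a a')
          rwa [(hE a a' h.1).2] at this
        have hpar : Par P a (p1 a a' l) (P.f a, E a (lastL (P.f a', l))) := by
          refine ⟨P.adm_append.2 ⟨hA.subP P, ?_⟩, adm_init haa (hE a _ h'.1).1, P.ff a, ?_⟩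
          · rw [hl1]; exact adm_init h.1 hl
          · rw [(hE a _ h'.1).2]
            exact (lastL_append _ _ _).trans (by rw [hl1])
        rw [← mul_assoc, ← mul_assoc, ← Par.U d χ ha hpar]
        congr 1
        have := U_append d χ ha (x := P.f (P.f a)) (l := P.sub' (P.f a) (E a a'))
          (by rw [hl1]; exact P.ch_trans h.1 (P.f_mem a')) l hn
        rw [hl1] at this
        exact this.symm
      · simp only [if_neg h', mul_zero, zero_add]
    · simp only [if_neg h, List.map_nil, List.sum_nil, add_zero]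

end Pool.Agent.P.MP_406085_lc
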