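import Pool.Agent.P.MP_406085_lc.SDefs

/-!
Certificates: integer matrices with intertwining relations.
-/

namespace Pool.Agent.P.MP_406085_lc

abbrev Inst := List ℕ × List (List ℕ) × List (List ℕ) × List (List ℕ)

abbrev SkI := List ℤ × List (List ℤ) × List ℤ

abbrev Mat := List (List ℤ)

/-- Dimension, alphabet bound, `R`, `R'`, and the matrices `H, Γ, Γ', E, Ψ`. -/
abbrev Cert := (ℕ × ℕ) × (List Mat × List Mat) × Mat × Mat × Mat × Mat × Mat

def ent (A : Mat) (i j : ℕ) : ℤ := (A.getD i []).getD j 0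

def mm (m : ℕ) (A B : Mat) : Mat := (List.range m).map fun i => (List.range m).map fun j =>
  ((List.range m).map fun k => ent A i k * ent B k j).sum

def idm (m : ℕ) : Mat := (List.range m).map fun i => (List.range m).map fun j =>
  if i = j then 1 else 0

def prodm (m : ℕ) (R : List Mat) (w : List ℕ) : Mat :=
  w.foldr (fun c X => mm m (R.getD c []) X) (idm m)

def chk (p : Inst) (k : Cert) : Bool :=
  p.1.all (fun a => decide (a < k.1.2)) &&
  p.2.1.all (fun u => u.all fun a => decide (a < k.1.2)) &&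
  (List.range k.1.2).all (fun c =>
    decide (mm k.1.1 k.2.2.1 (prodm k.1.1 k.2.1.1 (p.2.1.getD c [])) =
      mm k.1.1 (k.2.1.1.getD c []) k.2.2.1) &&
    decide (mm k.1.1 k.2.2.2.1 (prodm k.1.1 k.2.1.2 (p.2.2.1.getD c [])) =
      mm k.1.1 (k.2.1.1.getD c []) k.2.2.2.1) &&
    decide (mm k.1.1 k.2.2.2.2.1 (prodm k.1.1 k.2.1.2 (p.2.2.2.getD c [])) =
      mm k.1.1 (k.2.1.1.getD c []) k.2.2.2.2.1)) &&
  decide (mm k.1.1 k.2.2.2.2.2.1 k.2.2.1 = mm k.1.1 k.2.2.2.2.2.1 (idm k.1.1)) &&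
  decide (mm k.1.1 k.2.2.2.2.2.1 k.2.2.2.1 = mm k.1.1 k.2.2.2.2.2.1 k.2.2.2.2.1)

/-- The instance of the Skolem problem given by a certificate. -/
def ins (p : Inst) (k : Cert) : SkI :=
  bif chk p k then
    ((mm k.1.1 k.2.2.2.2.2.1 (prodm k.1.1 k.2.1.1 p.1)).getD 0 [], mm k.1.1 k.2.2.1 (idm k.1.1),
      (List.range k.1.1).map fun i => ent (mm k.1.1 k.2.2.2.1 k.2.2.2.2.2.2) i 0 -
        ent (mm k.1.1 k.2.2.2.2.1 k.2.2.2.2.2.2) i 0)
  else ([], [], [])

/-- The `n`-th term of an instance of the Skolem problem. -/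
def val (q : SkI) (n : ℕ) : ℤ := dot q.1 ((mulV q.2.1)^[n] q.2.2)

/-- Equality at time `n`. -/
def Eqn (p : Inst) (n : ℕ) : Prop :=
  mor p.2.2.1 ((mor p.2.1)^[n] p.1) = mor p.2.2.2 ((mor p.2.1)^[n] p.1)

end Pool.Agent.P.MP_406085_lc
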