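import Pool.Agent.P.MP_406085_lc.Basic

/-!
Sequences of power series whose coefficients are exponential polynomials.
-/

namespace Pool.Agent.P.MP_406085_lc

open Filter PowerSeries
open scoped Classical

variable {y y' u u' : ℕ → ℂ⟦X⟧}

namespace R1

/-- Precomposition. -/
def pre {A B : Type} (g : A → B) : (B → ℂ) →ₐ[ℂ] (A → ℂ) where
  toFun f a := f (g a)
  map_one' := rfl
  map_mul' _ _ := rfl
  map_zero' := rfl
  map_add' _ _ := rfl
  commutes' _ := rfl

@[simp] theorem pre_apply {A B : Type} (g : A → B) (f : B → ℂ) (a : A) : pre g f a = f (g a) := rfl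

theorem mem_of {S : Set ℂ} {s t : ℕ → ℂ} (h : s ∈ RS S) (e : ∀ n, s n = t n) : t ∈ RS S :=
  funext e ▸ h

theorem id_mem (S : Set ℂ) : (fun n : ℕ => (n : ℂ)) ∈ RS S :=
  Algebra.subset_adjoin (Set.mem_insert _ _)

theorem pow_mem {S : Set ℂ} {a : ℂ} (ha : a ∈ S) : (fun n : ℕ => a ^ n) ∈ RS S :=
  Algebra.subset_adjoin (Set.mem_insert_of_mem _ ⟨a, ha, rfl⟩)

theorem const_mem (S : Set ℂ) (c : ℂ) : (fun _ : ℕ => c) ∈ RS S := (RS S).algebraMap_mem c

theorem le_of {S : Set ℂ} {B : Subalgebra ℂ (ℕ → ℂ)} (h1 : (fun n : ℕ => (n : ℂ)) ∈ B)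
    (h2 : ∀ a ∈ S, (fun n : ℕ => a ^ n) ∈ B) : RS S ≤ B :=
  Algebra.adjoin_le (by
    rintro _ (rfl | ⟨a, ha, rfl⟩)
    exacts [h1, h2 a ha])

theorem sub_mem' {S : Set ℂ} {s : ℕ → ℂ} (h : s ∈ RS S) (a k : ℕ) :
    (fun n => s (a + k * n)) ∈ RS ((· ^ k) '' S) := by
  refine le_of (B := (RS ((· ^ k) '' S)).comap (pre fun n => a + k * n)) ?_ (fun b hb => ?_) h
  · exact mem_of (add_mem (const_mem ((· ^ k) '' S) a) (mul_mem (const_mem _ k) (id_mem _)))
      fun n => by simp
  · exact mem_of (mul_mem (const_mem ((· ^ k) '' S) (b ^ a)) (pow_mem ⟨b, hb, rfl⟩))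
      fun n => by simp [pow_add, pow_mul]

theorem mono_mem {S : Set ℂ} {μ : ℂ} (h : μ ∈ Submonoid.closure S) (k : ℕ) :
    (fun n : ℕ => (n : ℂ) ^ k * μ ^ n) ∈ RS S := by
  refine mul_mem (Subalgebra.pow_mem _ (id_mem S) k) (show (fun n : ℕ => μ ^ n) ∈ RS S from ?_)
  induction h using Submonoid.closure_induction with
  | mem a ha => exact pow_mem ha
  | one => simpa using const_mem S 1
  | mul a b _ _ ha hb => exact mem_of (mul_mem ha hb) fun n => by simp [mul_pow]

/-- The shift. -/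
def sh : Module.End ℂ (ℕ → ℂ) := (pre (· + 1)).toLinearMap

theorem sh_pow (k : ℕ) (s : ℕ → ℂ) (n : ℕ) : (sh ^ k) s n = s (n + k) := by
  induction k generalizing n with
  | zero => rfl
  | succ k ih => rw [pow_succ', Module.End.mul_apply, show n + (k + 1) = n + 1 + k by omega, ← ih]; rfl

theorem aeval_sh (P : Polynomial ℂ) (s : ℕ → ℂ) : Polynomial.aeval sh P s =
    fun n => ∑ i ∈ Finset.range (P.natDegree + 1), P.coeff i * s (n + i) := by
  funext n
  rw [Polynomial.aeval_eq_sum_range, LinearMap.sum_apply, Finset.sum_apply]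
  simp [sh_pow]

theorem surj {S : Set ℂ} (h0 : 0 ∉ S) {a : ℂ} (ha : a ∈ S) {t : ℕ → ℂ} (ht : t ∈ RS S) :
    t ∈ (RS S).toSubmodule.map (sh - a • 1) := by
  have key : ∀ μ ∈ Submonoid.closure S, ∀ k : ℕ,
      (fun n : ℕ => (n : ℂ) ^ k * μ ^ n) ∈ (RS S).toSubmodule.map (sh - a • 1) := by
    intro μ hμ k
    induction k using Nat.strong_induction_on with
    | _ k ih =>
      have low : ∀ c : ℕ → ℂ, (∑ j ∈ Finset.range k, c j • fun n : ℕ => (n : ℂ) ^ j * μ ^ n) ∈
          (RS S).toSubmodule.map (sh - a • 1) := fun c =>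
        Submodule.sum_mem _ fun j hj => Submodule.smul_mem _ _ (ih j (Finset.mem_range.mp hj))
      by_cases e : μ = a
      · subst e
        have ha0 : μ ≠ 0 := fun h => h0 (h ▸ ha)
        have h1 := Submodule.smul_mem _ ((k + 1 : ℂ) * μ)⁻¹ (sub_mem
          (Submodule.mem_map_of_mem (f := sh - μ • 1) (mono_mem hμ (k + 1)))
          (low fun j => μ * (k + 1).choose j))
        convert h1 using 1
        funext n
        have hk : (k + 1 : ℂ) ≠ 0 := by exact_mod_cast k.succ_ne_zero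
        have h2 := add_pow (n : ℂ) 1 (k + 1)
        rw [Finset.sum_range_succ, Finset.sum_range_succ] at h2
        simp only [Pi.smul_apply, Pi.sub_apply, LinearMap.sub_apply, LinearMap.smul_apply,
          Module.End.one_apply, Finset.sum_apply, smul_eq_mul, sh, AlgHom.toLinearMap_apply,
          pre_apply, Nat.cast_add,
          Nat.cast_one, h2, one_pow, mul_one, Nat.choose_self, Nat.choose_succ_self_right]
        have h3 : ∑ j ∈ Finset.range k, μ * ((k + 1).choose j : ℂ) * ((n : ℂ) ^ j * μ ^ n) =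
            (∑ j ∈ Finset.range k, (n : ℂ) ^ j * ((k + 1).choose j : ℂ)) * μ ^ (n + 1) := by
          rw [Finset.sum_mul]
          exact Finset.sum_congr rfl fun j _ => by ring
        rw [h3]
        field_simp
        ring
      · have h1 := Submodule.smul_mem _ (μ - a)⁻¹ (sub_mem
          (Submodule.mem_map_of_mem (f := sh - a • 1) (mono_mem hμ k))
          (low fun j => μ * k.choose j))
        convert h1 using 1
        funext n
        have hk : μ - a ≠ 0 := sub_ne_zero.mpr e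
        have h2 := add_pow (n : ℂ) 1 k
        rw [Finset.sum_range_succ] at h2
        simp only [Pi.smul_apply, Pi.sub_apply, LinearMap.sub_apply, LinearMap.smul_apply,
          Module.End.one_apply, Finset.sum_apply, smul_eq_mul, sh, AlgHom.toLinearMap_apply,
          pre_apply, Nat.cast_add,
          Nat.cast_one, h2, one_pow, mul_one, Nat.choose_self]
        have h3 : ∑ j ∈ Finset.range k, μ * (k.choose j : ℂ) * ((n : ℂ) ^ j * μ ^ n) =
            (∑ j ∈ Finset.range k, (n : ℂ) ^ j * (k.choose j : ℂ)) * μ ^ (n + 1) := by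
          rw [Finset.sum_mul]
          exact Finset.sum_congr rfl fun j _ => by ring
        rw [h3]
        field_simp
        ring
  have h1 : t ∈ (RS S).toSubmodule := ht
  rw [RS, Algebra.adjoin_eq_span] at h1
  refine Submodule.span_le.mpr (fun f hf => ?_) h1
  obtain ⟨μ, hμ, k, rfl⟩ : ∃ μ ∈ Submonoid.closure S, ∃ k : ℕ,
      f = fun n : ℕ => (n : ℂ) ^ k * μ ^ n := by
    induction hf using Submonoid.closure_induction with
    | mem f hf =>
      rcases hf with rfl | ⟨b, hb, rfl⟩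
      · exact ⟨1, one_mem _, 1, by simp⟩
      · exact ⟨b, Submonoid.subset_closure hb, 0, by simp⟩
    | one => exact ⟨1, one_mem _, 0, by funext n; simp⟩
    | mul f g _ _ hf hg =>
      obtain ⟨μ, hμ, k, rfl⟩ := hf
      obtain ⟨ν, hν, l, rfl⟩ := hg
      exact ⟨μ * ν, mul_mem hμ hν, k + l, by funext n; simp only [Pi.mul_apply]; ring⟩
  exact key μ hμ k

end R1

open R1

theorem rs_mono {S S' : Set ℂ} (h : S ⊆ S') : RS S ≤ RS S' :=
  le_of (id_mem _) fun _ ha => pow_mem (h ha)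

theorem rs_shift {S : Set ℂ} {s : ℕ → ℂ} (h : s ∈ RS S) (k : ℕ) :
    (fun n => s (n + k)) ∈ RS S := by
  simpa [add_comm k] using sub_mem' h k 1

theorem rs_solve {S : Set ℂ} (h0 : 0 ∉ S) {a : ℂ} (ha : a ∈ S) {s : ℕ → ℂ}
    (h : (fun n => s (n + 1) - a * s n) ∈ RS S) : s ∈ RS S := by
  obtain ⟨s', hs', e⟩ := surj h0 ha h
  have h1 : ∀ n, s n = s' n + (s 0 - s' 0) * a ^ n := by
    intro n
    induction n with
    | zero => simp
    | succ n ih =>
      have : s' (n + 1) - a * s' n = s (n + 1) - a * s n := congrFun e n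
      rw [pow_succ]
      linear_combination a * ih - this
  rw [funext h1]
  exact add_mem hs' (mul_mem (const_mem S _) (pow_mem ha))

theorem R1.solve {S : Set ℂ} (h0 : 0 ∉ S) {P : Polynomial ℂ} (hP : P.Monic)
    (hr : ∀ a, P.IsRoot a → a ∈ S) {s : ℕ → ℂ} (h : Polynomial.aeval sh P s ∈ RS S) :
    s ∈ RS S := by
  induction hd : P.natDegree generalizing P with
  | zero =>
    rw [hP.natDegree_eq_zero] at hd
    simpa [hd] using h
  | succ d ih =>
    obtain ⟨a, ha⟩ := IsAlgClosed.exists_root P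
      (by rw [Polynomial.degree_eq_natDegree hP.ne_zero, hd]; exact_mod_cast d.succ_ne_zero)
    obtain ⟨Q, rfl⟩ := Polynomial.dvd_iff_isRoot.mpr ha
    have hQ : Q.Monic := (Polynomial.monic_X_sub_C a).of_mul_monic_left hP
    rw [(Polynomial.monic_X_sub_C a).natDegree_mul hQ, Polynomial.natDegree_X_sub_C] at hd
    refine ih hQ (fun b hb => hr b ?_) (rs_solve h0 (hr a ha) ?_) (by omega)
    · simp [Polynomial.IsRoot.def, show Polynomial.eval b Q = 0 from hb]
    · rw [map_mul, map_sub, Polynomial.aeval_X, Polynomial.aeval_C] at h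
      exact h

/-- A sequence killed modulo `RS S` by a monic polynomial whose roots lie in `S`. -/
theorem rs_solve_poly {S : Set ℂ} (h0 : 0 ∉ S) {P : Polynomial ℂ} (hP : P.Monic)
    (hr : ∀ a, P.IsRoot a → a ∈ S) {s : ℕ → ℂ}
    (h : (fun n => ∑ i ∈ Finset.range (P.natDegree + 1), P.coeff i * s (n + i)) ∈ RS S) :
    s ∈ RS S := R1.solve h0 hP hr (aeval_sh P s ▸ h)

theorem R1.per {S : Set ℂ} (h0 : 0 ∉ S) {p : ℕ} (hp : 0 < p) (hS : ∀ z : ℂ, z ^ p = 1 → z ∈ S)
    {s : ℕ → ℂ} (h : ∀ n, s (n + p) = s n) : s ∈ RS S := by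
  refine R1.solve h0 (Polynomial.monic_X_pow_sub_C 1 hp.ne') (fun a ha => hS a ?_) ?_
  · simpa [sub_eq_zero] using ha
  · convert zero_mem (RS S)
    funext n
    simp [sh_pow, h]

theorem inR_common {I : Type} [Finite I] {y : I → ℕ → ℂ⟦X⟧} (h : ∀ i, InR (y i)) :
    ∃ S : Set ℂ, S.Finite ∧ 0 ∉ S ∧ ∃ q₀, ∀ q, q₀ ≤ q → ∀ i d,
      (fun n => coeff d (y i (q + n))) ∈ RS S := by
  choose S hS h0 q h using h
  obtain ⟨q₀, hq⟩ := (Set.finite_range q).bddAbove
  refine ⟨⋃ i, S i, Set.finite_iUnion hS, by simpa using h0, q₀, fun q' hq' i d => ?_⟩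
  have h1 : q i ≤ q' := (hq ⟨i, rfl⟩).trans hq'
  have := rs_shift (rs_mono (Set.subset_iUnion S i) (h i d)) (q' - q i)
  simpa only [show ∀ n, q i + (n + (q' - q i)) = q' + n from fun n => by omega] using this

theorem R1.two (h : InR y) (h' : InR y') : ∃ S : Set ℂ, S.Finite ∧ 0 ∉ S ∧ ∃ q,
    (∀ d, (fun n => coeff d (y (q + n))) ∈ RS S) ∧ ∀ d, (fun n => coeff d (y' (q + n))) ∈ RS S := by
  obtain ⟨S, hS, h0, q, H⟩ := inR_common (y := fun b : Bool => bif b then y else y')
    (by rintro (_ | _); exacts [h', h])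
  exact ⟨S, hS, h0, q, H q le_rfl true, H q le_rfl false⟩

theorem inR_const (a : ℂ⟦X⟧) : InR fun _ => a :=
  ⟨∅, Set.finite_empty, id, 0, fun _ => const_mem _ _⟩

theorem InR.add (h : InR y) (h' : InR y') : InR fun n => y n + y' n := by
  obtain ⟨S, hS, h0, q, h1, h2⟩ := R1.two h h'
  exact ⟨S, hS, h0, q, fun d => mem_of (add_mem (h1 d) (h2 d)) fun n => by simp⟩

theorem InR.sub (h : InR y) (h' : InR y') : InR fun n => y n - y' n := by
  obtain ⟨S, hS, h0, q, h1, h2⟩ := R1.two h h'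
  exact ⟨S, hS, h0, q, fun d => mem_of (sub_mem (h1 d) (h2 d)) fun n => by simp⟩

theorem InR.mul (h : InR y) (h' : InR y') : InR fun n => y n * y' n := by
  obtain ⟨S, hS, h0, q, h1, h2⟩ := R1.two h h'
  refine ⟨S, hS, h0, q, fun d => ?_⟩
  have := Subalgebra.sum_mem (RS S) (t := Finset.HasAntidiagonal.antidiagonal d)
    fun x _ => mul_mem (h1 x.1) (h2 x.2)
  convert this using 1
  funext n
  simp [coeff_mul]

theorem inR_sum {I : Type} (s : Finset I) {y : I → ℕ → ℂ⟦X⟧} (h : ∀ i ∈ s, InR (y i)) :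
    InR fun n => ∑ i ∈ s, y i n := by
  induction s using Finset.induction_on with
  | empty => simpa using inR_const 0
  | insert a s ha ih =>
    simpa only [Finset.sum_insert ha] using (h a (by simp)).add (ih fun i hi => h i (by simp [hi]))

theorem inR_list_sum {I : Type} (l : List I) {y : I → ℕ → ℂ⟦X⟧} (h : ∀ i ∈ l, InR (y i)) :
    InR fun n => (l.map fun i => y i n).sum := by
  induction l with
  | nil => simpa using inR_const 0
  | cons a l ih =>
    simpa only [List.map_cons, List.sum_cons] using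
      (h a (by simp)).add (ih fun i hi => h i (by simp [hi]))

theorem InR.congr (h : InR y) (e : ∀ᶠ n in atTop, y n = y' n) : InR y' := by
  obtain ⟨S, hS, h0, q, H⟩ := inR_common (I := Unit) fun _ => h
  obtain ⟨q', e⟩ := eventually_atTop.mp e
  refine ⟨S, hS, h0, q + q', fun d => ?_⟩
  exact mem_of (H (q + q') (by omega) () d) fun n => by rw [e _ (by omega)]

theorem inR_shift (k : ℕ) : (InR fun n => y (n + k)) ↔ InR y := by
  constructor
  · rintro ⟨S, hS, h0, q, H⟩
    exact ⟨S, hS, h0, q + k, fun d => by simpa only [add_right_comm q k] using H d⟩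
  · rintro ⟨S, hS, h0, q, H⟩
    exact ⟨S, hS, h0, q, fun d => by simpa only [add_assoc] using rs_shift (H d) k⟩

theorem InR.subseq (h : InR y) (a k : ℕ) : InR fun n => y (a + k * n) := by
  rcases Nat.eq_zero_or_pos k with rfl | hk
  · simpa using inR_const (y a)
  obtain ⟨S, hS, h0, q, H⟩ := h
  refine ⟨_, hS.image (· ^ k), ?_, q, fun d => ?_⟩
  · rintro ⟨b, hb, e⟩
    exact h0 (pow_eq_zero_iff hk.ne' |>.mp e ▸ hb)
  · have h1 := Nat.le_mul_of_pos_left q hk
    have := sub_mem' (H d) (a + k * q - q) k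
    simpa only [show ∀ n, q + (a + k * q - q + k * n) = a + k * (q + n) from
      fun n => by rw [mul_add]; omega] using this

theorem inR_interleave {p q : ℕ} (hp : 0 < p) (h : ∀ a < p, InR fun n => y (q + a + p * n)) :
    InR y := by
  obtain ⟨S, hS, h0, q₀, H⟩ := inR_common (I := Fin p) fun a => h a a.2
  let S' : Set ℂ := {z | z ^ p ∈ insert 1 S}
  have hS' : S'.Finite := by
    refine ((hS.insert 1).biUnion fun c _ => (Polynomial.nthRoots p c).toFinset.finite_toSet).subset ?_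
    intro z hz
    exact Set.mem_biUnion hz (by simp [Polynomial.mem_nthRoots hp])
  have h0' : 0 ∉ S' := by simpa [S', hp.ne'] using h0
  have hle : ∀ a : ℕ, RS S ≤ (RS S').map (pre fun n => a + p * n) := by
    intro a
    have hp' : (p : ℂ) ≠ 0 := by exact_mod_cast hp.ne'
    refine le_of ⟨_, mul_mem ((RS S').sub_mem (id_mem S') (const_mem _ a)) (const_mem _ (p : ℂ)⁻¹), ?_⟩
      fun b hb => ?_
    · funext n
      simp [mul_comm (p : ℂ), hp']
    · obtain ⟨z, hz⟩ := IsAlgClosed.exists_pow_nat_eq b hp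
      have hz' : z ∈ S' := Set.mem_insert_of_mem _ (hz ▸ hb)
      have hz0 : z ≠ 0 := fun e => h0' (e ▸ hz')
      refine ⟨_, mul_mem (const_mem _ (z ^ a)⁻¹) (pow_mem hz'), ?_⟩
      funext n
      simp [pow_add, pow_mul, hz, hz0]
  refine ⟨S', hS', h0', q + p * q₀, fun d => ?_⟩
  choose s hs e using fun a : Fin p => hle a (H q₀ le_rfl a d)
  have := Subalgebra.sum_mem (RS S') (t := Finset.univ) fun (a : Fin p) _ => mul_mem
    (R1.per h0' hp (fun z hz => Set.mem_insert_iff.mpr (Or.inl hz))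
      (s := fun n => if n % p = a then 1 else 0) fun n => by simp) (hs a)
  convert this using 1
  funext n
  rw [Finset.sum_apply, Finset.sum_eq_single ⟨n % p, Nat.mod_lt _ hp⟩]
  · have h1 : s ⟨n % p, Nat.mod_lt _ hp⟩ (n % p + p * (n / p)) = _ :=
      congrFun (e ⟨n % p, Nat.mod_lt _ hp⟩) (n / p)
    have h2 := Nat.mod_add_div n p
    rw [h2] at h1
    simp only [Pi.mul_apply, if_true, one_mul, h1]
    congr 2
    rw [mul_add]
    omega
  · intro a _ ha
    simp only [Pi.mul_apply]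
    rw [if_neg fun e => ha (Fin.ext e.symm), zero_mul]
  · simp

theorem R1.inC {S : Set ℂ} (hS : S.Finite) (h0 : 0 ∉ S) {s : ℕ → ℂ} {q : ℕ}
    (h : (fun n => s (q + n)) ∈ RS S) : InC s := by
  refine ⟨S, hS, h0, q, fun d => ?_⟩
  simp only [coeff_C]
  split_ifs
  exacts [h, const_mem _ 0]

theorem EP.inC {s : ℕ → ℂ} (h : EP s) : InC s := by
  obtain ⟨p, q, hp, h⟩ := h
  refine R1.inC (S := {z | z ^ p = 1}) (q := q)
    ((Polynomial.nthRoots p (1 : ℂ)).toFinset.finite_toSet.subset fun z hz => ?_)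
    (by simp [hp.ne']) (R1.per (S := {z | z ^ p = 1}) (by simp [hp.ne']) hp (fun _ h => h) fun n => ?_)
  · simpa [Polynomial.mem_nthRoots hp] using hz
  · rw [← add_assoc, h _ (by omega)]

theorem InR.select {K : Type} {ψ : ℕ → K} (hψ : EP ψ) {y : K → ℕ → ℂ⟦X⟧} (h : ∀ i, InR (y i)) :
    InR fun n => y (ψ n) n := by
  have := inR_sum hψ.finite_range.toFinset
    (y := fun i n => C (if ψ n = i then (1 : ℂ) else 0) * y i n)
    fun i _ => InR.mul (hψ.comp fun k => if k = i then (1 : ℂ) else 0).inC (h i)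
  refine this.congr (Eventually.of_forall fun n => ?_)
  rw [Finset.sum_eq_single (ψ n)]
  · simp
  · intro i _ hi
    simp [hi.symm]
  · simp

theorem inC_of_rec {s : ℕ → ℂ} {P : Polynomial ℂ} (hP : P.Monic)
    (h : ∀ n, ∑ i ∈ Finset.range (P.natDegree + 1), P.coeff i * s (n + i) = 0) : InC s := by
  have h1 : Polynomial.aeval sh P s = 0 := (aeval_sh P s).trans (funext h)
  obtain ⟨Q, hQ, hX⟩ := Polynomial.exists_eq_pow_rootMultiplicity_mul_and_not_dvd P hP.ne_zero 0
  generalize Polynomial.rootMultiplicity 0 P = k at hQ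
  have hm : Q.Monic := ((Polynomial.monic_X_sub_C 0).pow k).of_mul_monic_left (hQ ▸ hP)
  have h0 : (0 : ℂ) ∉ {a | Q.IsRoot a} := fun h => hX (Polynomial.dvd_iff_isRoot.mpr h)
  refine R1.inC (q := k) (Q.finite_setOfPred_isRoot hm.ne_zero) h0 (R1.solve h0 hm (fun _ h => h) ?_)
  rw [hQ, mul_comm, map_mul, map_zero, sub_zero, map_pow, Polynomial.aeval_X,
    Module.End.mul_apply] at h1
  rw [show (fun n => s (k + n)) = (sh ^ k) s from funext fun n => by rw [sh_pow, add_comm], h1]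
  exact zero_mem _

theorem ex_add (a b : ℂ) : ex (a + b) = ex a * ex b := by
  have : ∀ z : ℂ, ex z = rescale z (exp ℂ) := fun z => by
    ext d
    simp [ex, coeff_rescale, coeff_exp, div_eq_mul_inv]
  rw [this, this, this, exp_mul_exp_eq_exp_add]

theorem ex_zero : ex 0 = 1 := by
  ext d
  cases d <;> simp [ex, coeff_one]

theorem constantCoeff_ex (a : ℂ) : constantCoeff (ex a) = 1 := by
  rw [← coeff_zero_eq_constantCoeff_apply]
  simp [ex]

theorem InC.ex {s : ℕ → ℂ} (h : InC s) : InR fun n => ex (s n) := by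
  obtain ⟨S, hS, h0, q, H⟩ := h
  refine ⟨S, hS, h0, q, fun d => ?_⟩
  have h1 : (fun n => s (q + n)) ∈ RS S := by simpa using H 0
  have := mul_mem (Subalgebra.pow_mem _ h1 d) (const_mem S (d.factorial : ℂ)⁻¹)
  convert this using 1
  funext n
  simp [Pool.Agent.P.MP_406085_lc.ex, div_eq_mul_inv]

theorem inU_mk {c s : ℕ → ℂ} (hc : EP c) (h0 : ∀ n, c n ≠ 0) (hs : InC s) :
    InU fun n => C (c n) * ex (s n) :=
  ⟨InR.mul hc.inC hs.ex, by simpa [constantCoeff_ex] using hc,
    by simpa [constantCoeff_ex] using h0⟩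

theorem InU.mul (h : InU u) (h' : InU u') : InU fun n => u n * u' n :=
  ⟨h.1.mul h'.1, by simpa only [map_mul] using h.2.1.comp₂ h'.2.1 (· * ·),
    fun n => by rw [map_mul]; exact mul_ne_zero (h.2.2 n) (h'.2.2 n)⟩

theorem InU.subseq (h : InU u) (a k : ℕ) : InU fun n => u (a + k * n) :=
  ⟨h.1.subseq a k, h.2.1.sub a k, fun _ => h.2.2 _⟩

theorem InU.select {K : Type} {ψ : ℕ → K} (hψ : EP ψ) {u : K → ℕ → ℂ⟦X⟧} (h : ∀ i, InU (u i)) :
    InU fun n => u (ψ n) n :=
  ⟨InR.select hψ fun i => (h i).1,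
    hψ.select (s := fun i n => constantCoeff (u i n)) fun i => (h i).2.1, fun n => (h _).2.2 n⟩

/-- Noetherian argument: finitely many coefficients decide equality. -/
theorem InR.noe (h : InR y) (h' : InR y') : ∃ q d₀, ∀ n m, q ≤ n → q ≤ m →
    (∀ d ≤ d₀, coeff d (y n) = coeff d (y' m)) → y n = y' m := by
  obtain ⟨S, hS, -, q, h1, h2⟩ := R1.two h h'
  let G : Set (ℕ → ℂ) := insert (fun n : ℕ => (n : ℂ)) ((fun (s : ℂ) (n : ℕ) => s ^ n) '' S)
  have hG : G.Finite := (hS.image _).insert _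
  let A : Subalgebra ℂ (ℕ × ℕ → ℂ) := Algebra.adjoin ℂ (pre Prod.fst '' G ∪ pre Prod.snd '' G)
  have : IsNoetherianRing A :=
    isNoetherianRing_of_fg (Subalgebra.fg_def.mpr ⟨_, (hG.image _).union (hG.image _), rfl⟩)
  have m1 : RS S ≤ A.comap (pre Prod.fst) :=
    Algebra.adjoin_le fun f hf => Algebra.subset_adjoin (Or.inl ⟨f, hf, rfl⟩)
  have m2 : RS S ≤ A.comap (pre Prod.snd) :=
    Algebra.adjoin_le fun f hf => Algebra.subset_adjoin (Or.inr ⟨f, hf, rfl⟩)
  let δ : ℕ → A := fun d => ⟨_, sub_mem (m1 (h1 d)) (m2 (h2 d))⟩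
  obtain ⟨d₀, hd⟩ := monotone_stabilizes_iff_noetherian.mpr (inferInstance : IsNoetherian A A)
    ⟨fun D => Ideal.span (δ '' Set.Iic D), fun _ _ h =>
      Ideal.span_mono (Set.image_mono (Set.Iic_subset_Iic.mpr h))⟩
  refine ⟨q, d₀, fun n m hn hm e => ?_⟩
  obtain ⟨n, rfl⟩ := Nat.exists_eq_add_of_le hn
  obtain ⟨m, rfl⟩ := Nat.exists_eq_add_of_le hm
  let ev : A →+* ℂ := (Pi.evalRingHom (fun _ => ℂ) (n, m)).comp A.val.toRingHom
  have h3 : Ideal.span (δ '' Set.Iic d₀) ≤ RingHom.ker ev := Ideal.span_le.mpr (by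
    rintro _ ⟨d, hd, rfl⟩
    exact sub_eq_zero.mpr (e d hd))
  ext d
  have h4 : δ d ∈ Ideal.span (δ '' Set.Iic (max d d₀)) :=
    Ideal.subset_span ⟨d, Set.mem_Iic.mpr (le_max_left _ _), rfl⟩
  have h5 : Ideal.span (δ '' Set.Iic d₀) = Ideal.span (δ '' Set.Iic (max d d₀)) :=
    hd _ (le_max_right _ _)
  exact sub_eq_zero.mp (h3 (h5 ▸ h4))

end Pool.Agent.P.MP_406085_lc
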