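import Pool.Agent.P.MP_406085_lc.Bim
import Pool.Agent.P.MP_406085_lc.Ring1

/-!
Finite generation of spaces of tests, and its consequences.
-/

namespace Pool.Agent.P.MP_406085_lc

open Filter PowerSeries
open scoped Classical

variable {E : Type}

/-- Telescoping along representatives. -/
theorem fin_tele {A : Type} [AddCommGroup A] {ρ : List E → List E} (M : AddSubgroup A)
    {F : List E → A} (h0 : ∀ x, F (ρ x) ∈ M) (h1 : ∀ w, F ([] ++ w) - F (ρ [] ++ w) ∈ M)
    (h2 : ∀ x a w, F ((ρ x ++ [a]) ++ w) - F (ρ (ρ x ++ [a]) ++ w) ∈ M) (w : List E) :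
    F w ∈ M := by
  have key : ∀ w x, F (ρ x ++ w) ∈ M := by
    intro w
    induction w with
    | nil => intro x; simpa using h0 x
    | cons a w ih =>
      intro x
      have := M.add_mem (h2 x a w) (ih (ρ x ++ [a]))
      simpa using this
  have := M.add_mem (h1 w) (key w [])
  simpa using this

/-- The module of functions of degree below `d`. -/
def finV (R : Type) [CommRing R] (c : FC E) (d : ℕ) : Submodule R (List E → R) where
  carrier := {F | Deg c d F}
  zero_mem' := deg_zero
  add_mem' := fun h h' => Deg.add h h'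
  smul_mem' := fun r _ h => Deg.map h (AddMonoidHom.mulLeft r)

/-- The discrete derivative as a linear map. -/
def finD (R : Type) [CommRing R] (c : FC E) (d : ℕ) {u v : List E} (h : c.r u v) :
    finV R c (d + 1) →ₗ[R] finV R c d :=
  (LinearMap.funLeft R R (fun w => u ++ w) - LinearMap.funLeft R R fun w => v ++ w).restrict
    fun _ hF => hF u v h

theorem finD_apply (R : Type) [CommRing R] (c : FC E) (d : ℕ) {u v : List E} (h : c.r u v)
    (F : finV R c (d + 1)) (w : List E) :
    (finD R c d h F).1 w = F.1 (u ++ w) - F.1 (v ++ w) := rfl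

theorem finV_finite (R : Type) [CommRing R] [IsNoetherianRing R] [Finite E] (c : FC E) (d : ℕ) :
    Module.Finite R (finV R c d) := by
  obtain ⟨ρ, hfin, h1, -⟩ := c.exists_rep
  have := hfin.to_subtype
  induction d with
  | zero =>
    have : Subsingleton (finV R c 0) :=
      ⟨fun F G => Subtype.ext (funext fun w => (F.2 w).trans (G.2 w).symm)⟩
    infer_instance
  | succ d ih =>
    let Φ : finV R c (d + 1) →ₗ[R]
        (Set.range ρ → R) × finV R c d × (Set.range ρ × E → finV R c d) :=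
      (LinearMap.pi fun y : Set.range ρ =>
        (LinearMap.proj y.1).comp (finV R c (d + 1)).subtype).prod
        ((finD R c d (h1 [])).prod
          (LinearMap.pi fun p : Set.range ρ × E => finD R c d (h1 (p.1.1 ++ [p.2]))))
    refine Module.Finite.of_injective Φ ((injective_iff_map_eq_zero Φ).2 fun F hF => ?_)
    refine Subtype.ext (funext fun w => ?_)
    refine AddSubgroup.mem_bot.1 (fin_tele (ρ := ρ) ⊥ (fun x => ?_) (fun w => ?_)
      (fun x a w => ?_) w) <;> rw [AddSubgroup.mem_bot]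
    · exact congrFun (congrArg Prod.fst hF) ⟨ρ x, x, rfl⟩
    · exact congrFun (congrArg (fun z => z.2.1.1) hF) w
    · exact congrFun (congrArg (fun z => (z.2.2 (⟨ρ x, x, rfl⟩, a)).1) hF) w

theorem deg_fg (R : Type) [CommRing R] [IsNoetherianRing R] [Finite E] (c : FC E) (d : ℕ) :
    ∃ V : Submodule R (List E → R), V.FG ∧ ∀ F, F ∈ V ↔ Deg c d F :=
  ⟨finV R c d, Module.Finite.iff_fg.1 (finV_finite R c d), fun _ => Iff.rfl⟩

theorem fin_iter (h : E → List E) (k : ℕ) (u : List E) :
    (fun u : List E => u.flatMap h)^[k] u =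
      u.flatMap fun a => (fun u : List E => u.flatMap h)^[k] [a] := by
  induction k generalizing u with
  | zero => simp
  | succ k ih =>
    rw [Function.iterate_succ_apply', ih, List.flatMap_assoc]
    simp only [Function.iterate_succ_apply']

theorem fc_inv [Finite E] (h : E → List E) (c : FC E) : ∃ c' : FC E,
    (∀ u v, c'.r u v → c.r u v) ∧ ∀ u v, c'.r u v → c'.r (u.flatMap h) (v.flatMap h) := by
  obtain ⟨ρ, hfin, h1, -⟩ := c.exists_rep
  have := hfin.to_subtype
  obtain ⟨c', hc'⟩ := fc_of_fun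
    (fun u v => ∀ k, c.r ((fun u : List E => u.flatMap h)^[k] u)
      ((fun u : List E => u.flatMap h)^[k] v))
    (fun _ _ => c.refl _) (fun _ _ e k => c.symm (e k)) (fun _ _ _ e e' k => c.trans (e k) (e' k))
    (fun u v u' v' e e' k => by
      have := c.app (e k) (e' k)
      rw [fin_iter h k u, fin_iter h k v, fin_iter h k u', fin_iter h k v'] at this
      rw [fin_iter h k (u ++ u'), fin_iter h k (v ++ v'), List.flatMap_append,
        List.flatMap_append]
      exact this)
    (fun u (m : E → Set.range ρ) => ρ (u.flatMap fun a => (m a).1))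
    ((Set.Finite.pi' fun _ : E → Set.range ρ => hfin).subset (by
      rintro _ ⟨u, rfl⟩ m
      exact ⟨_, rfl⟩))
    (fun u v e k => by
      have e1 := congrFun e fun a => ⟨ρ ((fun u : List E => u.flatMap h)^[k] [a]), _, rfl⟩
      rw [fin_iter h k u, fin_iter h k v]
      exact c.trans (c.bim_flatMap (fun a => h1 _) u)
        (c.trans (c.bim_of_rep h1 e1) (c.symm (c.bim_flatMap (fun a => h1 _) v))))
  refine ⟨c', fun u v e => (hc' u v).1 e 0, fun u v e => (hc' _ _).2 fun k => ?_⟩
  exact (hc' u v).1 e (k + 1)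

theorem fin_sys {S : Type} {σ : S → List S} {U : S → ℕ → List E}
    (h : ∀ s n, U s (n + 1) = (σ s).flatMap fun b => U b n) (n : ℕ) (l : List S) :
    (l.flatMap fun b => U b n) =
      ((fun u : List S => u.flatMap σ)^[n] l).flatMap fun b => U b 0 := by
  induction n generalizing l with
  | zero => rfl
  | succ n ih =>
    rw [Function.iterate_succ_apply, ← ih, List.flatMap_assoc]
    simp only [h]

theorem HD.fin_inC {W : ℕ → List E} (h : HD W) {F : List E → ℂ} (hF : Test F) :
    InC fun n => F (W n) := by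
  obtain ⟨S, _, σ, U, s, rfl, hU⟩ := h.exists_sys
  obtain ⟨c, d, hF⟩ := hF
  obtain ⟨c₁, h₁⟩ := c.exists_comap fun b => U b 0
  obtain ⟨c', h2, h3⟩ := fc_inv σ c₁
  have hG : Deg c' d fun w : List S => F (w.flatMap fun b => U b 0) :=
    hF.comap _ fun u v e => (h₁ u v).1 (h2 u v e)
  have := finV_finite ℂ c' d
  let T : Module.End ℂ (finV ℂ c' d) :=
    (LinearMap.funLeft ℂ ℂ fun u : List S => u.flatMap σ).restrict
      fun _ hx => Deg.comap hx σ h3
  have hT : ∀ (i : ℕ) (x : finV ℂ c' d) (w : List S),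
      ((T ^ i) x).1 w = x.1 ((fun u : List S => u.flatMap σ)^[i] w) := by
    intro i x
    induction i with
    | zero => intro w; rfl
    | succ i ih =>
      intro w
      rw [pow_succ', Function.iterate_succ_apply, ← ih]
      rfl
  obtain ⟨P, hP, h0⟩ := LinearMap.exists_monic_and_aeval_eq_zero ℂ T
  refine inC_of_rec hP fun n => ?_
  rw [Polynomial.aeval_eq_sum_range] at h0
  have e := congrFun (congrArg (fun L : Module.End ℂ (finV ℂ c' d) => (L ⟨_, hG⟩).1) h0)
    ((fun u : List S => u.flatMap σ)^[n] [s])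
  simp only [LinearMap.sum_apply, LinearMap.smul_apply, Submodule.coe_sum, Submodule.coe_smul,
    Finset.sum_apply, Pi.smul_apply, smul_eq_mul, hT, LinearMap.zero_apply, Submodule.coe_zero,
    Pi.zero_apply] at e
  rw [← e]
  refine Finset.sum_congr rfl fun i _ => ?_
  rw [← Function.iterate_add_apply, ← fin_sys hU, add_comm]
  simp

theorem HH.inC {W : ℕ → List E} (h : HH W) {F : List E → ℂ} (hF : Test F) :
    InC fun n => F (W n) := by
  obtain ⟨p, q, hp, h⟩ := h
  exact inR_interleave (q := q) hp fun a _ => (h (q + a) (Nat.le_add_right _ _)).fin_inC hF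

theorem fin_vals [Finite E] (c : FC E) (d : ℕ) (F : List E → ℂ) (hF : Deg c d F) :
    ∃ M : Submodule ℤ ℂ, M.FG ∧ ∀ w, F w ∈ M := by
  obtain ⟨ρ, hfin, h1, -⟩ := c.exists_rep
  have := hfin.to_subtype
  induction d generalizing F with
  | zero => exact ⟨⊥, Submodule.fg_bot, fun w => hF w⟩
  | succ d ih =>
    obtain ⟨M₀, f₀, m₀⟩ := ih _ (hF _ _ (h1 []))
    choose M f m using fun p : Set.range ρ × E => ih _ (hF _ _ (h1 (p.1.1 ++ [p.2])))
    refine ⟨Submodule.span ℤ (F '' Set.range ρ) ⊔ (M₀ ⊔ ⨆ p, M p),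
      (Submodule.fg_span (hfin.image F)).sup (f₀.sup (Submodule.fg_iSup M f)), fun w => ?_⟩
    refine fin_tele (ρ := ρ)
      (Submodule.span ℤ (F '' Set.range ρ) ⊔ (M₀ ⊔ ⨆ p, M p)).toAddSubgroup
      (fun x => ?_) (fun w => ?_) (fun x a w => ?_) w
    · exact Submodule.mem_sup_left (Submodule.subset_span ⟨_, ⟨x, rfl⟩, rfl⟩)
    · exact Submodule.mem_sup_right (Submodule.mem_sup_left (m₀ w))
    · exact Submodule.mem_sup_right (Submodule.mem_sup_right
        (Submodule.mem_iSup_of_mem (⟨ρ x, x, rfl⟩, a) (m (⟨ρ x, x, rfl⟩, a) w)))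

theorem fin_sq_inj {z z' : ℤ} (h : 2 * z ^ 2 - z = 2 * z' ^ 2 - z') : z = z' := by
  have : (z - z') * (2 * (z + z') - 1) = 0 := by linear_combination h
  rcases mul_eq_zero.1 this with e | e <;> omega

theorem fin_sq_nonneg (z : ℤ) : 0 ≤ 2 * z ^ 2 - z := by
  rcases le_or_gt z 0 with h | h <;> nlinarith

theorem fin_pair_inj {a b a' b' : ℤ} (ha : 0 ≤ a) (hb : 0 ≤ b) (ha' : 0 ≤ a') (hb' : 0 ≤ b')
    (h : (a + b) ^ 2 + a = (a' + b') ^ 2 + a') : a = a' ∧ b = b' := by
  have e : a + b = a' + b' := by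
    rcases lt_trichotomy (a + b) (a' + b') with l | e | l
    · have : a + b + 1 ≤ a' + b' := l
      nlinarith
    · exact e
    · have : a' + b' + 1 ≤ a + b := l
      nlinarith
  rw [e] at h
  omega

theorem fin_two {G G' : List E → ℤ} (h : Test G) (h' : Test G') :
    ∃ H : List E → ℤ, Test H ∧ ∀ u v, H u = H v → G u = G v ∧ G' u = G' v := by
  have t : ∀ {G : List E → ℤ}, Test G → Test fun w => 2 * G w ^ 2 - G w :=
    fun h => ((test_const 2).mul (h.pow 2)).sub h
  refine ⟨_, (((t h).add (t h')).pow 2).add (t h), fun u v e => ?_⟩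
  obtain ⟨e1, e2⟩ := fin_pair_inj (fin_sq_nonneg _) (fin_sq_nonneg _) (fin_sq_nonneg _)
    (fin_sq_nonneg _) e
  exact ⟨fin_sq_inj e1, fin_sq_inj e2⟩

theorem fin_comb {I : Type} [Finite I] (G : I → List E → ℤ) (h : ∀ i, Test (G i)) :
    ∃ H : List E → ℤ, Test H ∧ ∀ u v, H u = H v → ∀ i, G i u = G i v := by
  have := Fintype.ofFinite I
  suffices ∀ s : Finset I, ∃ H : List E → ℤ, Test H ∧
      ∀ u v, H u = H v → ∀ i ∈ s, G i u = G i v by
    obtain ⟨H, t, e⟩ := this Finset.univ
    exact ⟨H, t, fun u v x i => e u v x i (Finset.mem_univ i)⟩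
  intro s
  induction s using Finset.induction_on with
  | empty => exact ⟨fun _ => 0, test_const 0, fun _ _ _ i hi => absurd hi (by simp)⟩
  | insert j s _ ih =>
    obtain ⟨H, t, e⟩ := ih
    obtain ⟨H', t', e'⟩ := fin_two (h j) t
    refine ⟨H', t', fun u v x i hi => ?_⟩
    rcases Finset.mem_insert.1 hi with rfl | hi
    · exact (e' u v x).1
    · exact e u v (e' u v x).2 i hi

theorem fin_one [Finite E] {F : List E → ℂ} (hF : Test F) :
    ∃ H : List E → ℤ, Test H ∧ ∀ u v, H u = H v → F u = F v := by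
  obtain ⟨c, d, hF⟩ := hF
  obtain ⟨M, f, m⟩ := fin_vals c d F hF
  have : Module.Finite ℤ M := Module.Finite.iff_fg.2 f
  have : Module.Free ℤ M := Module.free_of_finite_type_torsion_free'
  let b := Module.Free.chooseBasis ℤ M
  have hF' : Deg c d fun w => (⟨F w, m w⟩ : M) :=
    Deg.of_map M.subtype.toAddMonoidHom Subtype.val_injective hF
  obtain ⟨H, t, e⟩ := fin_comb (fun i w => b.coord i ⟨F w, m w⟩)
    fun i => ⟨c, d, hF'.map (b.coord i).toAddMonoidHom⟩
  exact ⟨H, t, fun u v x => congrArg Subtype.val (b.ext_elem (e u v x))⟩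

theorem Sep.int [Finite E] {S : Set (List E)} (h : Sep S) :
    ∃ G : List E → ℤ, Test G ∧ Set.InjOn G S := by
  obtain ⟨Φ, hfin, ht, hs⟩ := h
  have := hfin.to_subtype
  choose H t e using fun F : Φ => fin_one (ht F.1 F.2)
  obtain ⟨G, tG, eG⟩ := fin_comb H t
  exact ⟨G, tG, fun u hu v hv x => hs u hu v hv fun F hF => e ⟨F, hF⟩ u v (eG u v x _)⟩

end Pool.Agent.P.MP_406085_lc
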