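import Pool.Agent.P.MP_406085_lc.Sound
import Pool.Agent.P.MP_406085_lc.Fin

/-!
Existence of certificates.
-/

namespace Pool.Agent.P.MP_406085_lc

open Filter PowerSeries
open scoped Classical

namespace CertE

/-- Matrices of the endomorphisms that preserve a finitely generated lattice. -/
theorem exists_mat {K M : Type} [CommRing K] [IsDomain K] [IsPrincipalIdealRing K]
    [AddCommGroup M] [Module K M] [Module.IsTorsionFree K M]
    (W : Submodule K M) (hW : W.FG) (ε : M →ₗ[K] K) (x0 : M) (hx : x0 ∈ W) :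
    ∃ (m : ℕ) (μ : Module.End K M → Matrix (Fin m) (Fin m) K) (E Ψ : Matrix (Fin m) (Fin m) K),
      μ 1 = 1 ∧
      (∀ S T : Module.End K M, (∀ x ∈ W, S x ∈ W) → (∀ x ∈ W, T x ∈ W) → μ (S * T) = μ S * μ T) ∧
      (∀ T : Module.End K M, (∀ x ∈ W, T x ∈ W) → ∀ i j, (E * μ T * Ψ) i j = ε (T x0)) ∧
      (∀ S T : Module.End K M, (∀ x ∈ W, S x ∈ W) → (∀ x ∈ W, T x ∈ W) →
        (∀ x, ε (S x) = ε (T x)) → E * μ S = E * μ T) ∧
      (m = 0 → x0 = 0) := by
  have : Module.Finite K W := Module.Finite.iff_fg.mpr hW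
  have : Module.Free K W := Module.free_of_finite_type_torsion_free'
  let b := Module.finBasis K W
  let μ : Module.End K M → Matrix (Fin (Module.finrank K W)) (Fin (Module.finrank K W)) K :=
    fun T => if h : ∀ x ∈ W, T x ∈ W then LinearMap.toMatrix b b (T.restrict h) else 0
  have hμ : ∀ (T : Module.End K M) (h : ∀ x ∈ W, T x ∈ W),
      μ T = LinearMap.toMatrix b b (T.restrict h) := fun T h => dif_pos h
  have rep : ∀ y : W, (y : M) = ∑ k, b.repr y k • (b k : M) := by
    intro y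
    have := congrArg W.subtype (b.sum_repr y)
    rw [map_sum] at this
    exact this.symm
  have key : ∀ y : W, ∑ k, ε (b k) * b.repr y k = ε y := by
    intro y
    rw [rep y, map_sum]
    exact Finset.sum_congr rfl fun k _ => by rw [map_smul, smul_eq_mul, mul_comm]
  have hE : ∀ (T : Module.End K M) (h : ∀ x ∈ W, T x ∈ W) i j,
      ((Matrix.of fun _ j => ε (b j) : Matrix (Fin (Module.finrank K W)) _ K) * μ T) i j =
        ε (T (b j)) := by
    intro T h i j
    rw [hμ T h, Matrix.mul_apply]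
    simp only [Matrix.of_apply, LinearMap.toMatrix_apply]
    rw [key]
    rfl
  refine ⟨_, μ, Matrix.of fun _ j => ε (b j), Matrix.of fun i _ => b.repr ⟨x0, hx⟩ i, ?_, ?_, ?_,
    ?_, ?_⟩
  · rw [hμ 1 fun x h => h]
    rw [← LinearMap.toMatrix_one b]
    rfl
  · intro S T hS hT
    rw [hμ S hS, hμ T hT, hμ (S * T) fun x h => hS _ (hT x h), ← LinearMap.toMatrix_mul]
    rfl
  · intro T h i j
    rw [Matrix.mul_apply]
    simp only [hE T h, Matrix.of_apply]
    have : x0 = ∑ k, b.repr ⟨x0, hx⟩ k • (b k : M) := rep ⟨x0, hx⟩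
    conv_rhs => rw [this, map_sum, map_sum]
    exact Finset.sum_congr rfl fun k _ => by rw [map_smul, map_smul, smul_eq_mul, mul_comm]
  · intro S T hS hT h
    ext i j
    rw [hE S hS, hE T hT, h]
  · intro h0
    have h1 : x0 = ∑ k, b.repr ⟨x0, hx⟩ k • (b k : M) := rep ⟨x0, hx⟩
    have : IsEmpty (Fin (Module.finrank K W)) := by rw [h0]; infer_instance
    rw [h1, Finset.univ_eq_empty, Finset.sum_empty]

variable {A : Type}

/-- Pairs of functions on words. -/
abbrev MM (A : Type) := (List A → ℤ) × (List A → ℤ)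

/-- Substitution in the first component. -/
def s11 (t : List A → List A) : Module.End ℤ (MM A) :=
  (LinearMap.inl ℤ _ _).comp ((LinearMap.funLeft ℤ ℤ t).comp (LinearMap.fst ℤ _ _))

/-- Substitution in the second component. -/
def s22 (t : List A → List A) : Module.End ℤ (MM A) :=
  (LinearMap.inr ℤ _ _).comp ((LinearMap.funLeft ℤ ℤ t).comp (LinearMap.snd ℤ _ _))

/-- Substitution from the second to the first component. -/
def s12 (t : List A → List A) : Module.End ℤ (MM A) :=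
  (LinearMap.inl ℤ _ _).comp ((LinearMap.funLeft ℤ ℤ t).comp (LinearMap.snd ℤ _ _))

theorem s11_apply (t : List A → List A) (x : MM A) : s11 t x = (fun y => x.1 (t y), 0) := rfl

theorem s22_apply (t : List A → List A) (x : MM A) : s22 t x = (0, fun y => x.2 (t y)) := rfl

theorem s12_apply (t : List A → List A) (x : MM A) : s12 t x = (fun y => x.2 (t y), 0) := rfl

theorem prod11 (u : List A) (x : MM A) :
    ((u.map fun a => s11 (· ++ [a])).prod x).1 = fun y => x.1 (y ++ u) := by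
  induction u with
  | nil => simp
  | cons a u ih =>
    rw [List.map_cons, List.prod_cons, Module.End.mul_apply, s11_apply, ih]
    simp

theorem prod22 (u : List A) (x : MM A) :
    ((u.map fun a => s22 (· ++ [a])).prod x).2 = fun y => x.2 (y ++ u) := by
  induction u with
  | nil => simp
  | cons a u ih =>
    rw [List.map_cons, List.prod_cons, Module.End.mul_apply, s22_apply, ih]
    simp

theorem rel11 (h : A → List A) (a : A) :
    s11 (·.flatMap h) * ((h a).map fun a => s11 (· ++ [a])).prod =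
      s11 (· ++ [a]) * s11 (·.flatMap h) := by
  refine LinearMap.ext fun x => ?_
  rw [Module.End.mul_apply, Module.End.mul_apply, s11_apply, prod11, s11_apply, s11_apply]
  simp

theorem rel12 (g : A → List A) (a : A) :
    s12 (·.flatMap g) * ((g a).map fun a => s22 (· ++ [a])).prod =
      s11 (· ++ [a]) * s12 (·.flatMap g) := by
  refine LinearMap.ext fun x => ?_
  rw [Module.End.mul_apply, Module.End.mul_apply, s12_apply, prod22, s11_apply, s12_apply]
  simp

theorem pres_prod {M : Type} [AddCommGroup M] [Module ℤ M] {W : Submodule ℤ M}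
    (R : A → Module.End ℤ M) (hR : ∀ a, ∀ x ∈ W, R a x ∈ W) (u : List A) :
    ∀ x ∈ W, (u.map R).prod x ∈ W := by
  induction u with
  | nil => simp
  | cons a u ih =>
    intro x hx
    rw [List.map_cons, List.prod_cons, Module.End.mul_apply]
    exact hR a _ (ih x hx)

theorem mat_prod {M : Type} [AddCommGroup M] [Module ℤ M] {W : Submodule ℤ M} {m : ℕ}
    {μ : Module.End ℤ M → Matrix (Fin m) (Fin m) ℤ} (h1 : μ 1 = 1)
    (hmul : ∀ S T : Module.End ℤ M, (∀ x ∈ W, S x ∈ W) → (∀ x ∈ W, T x ∈ W) →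
      μ (S * T) = μ S * μ T)
    (R : A → Module.End ℤ M) (hR : ∀ a, ∀ x ∈ W, R a x ∈ W) (u : List A) :
    (u.map fun a => μ (R a)).prod = μ (u.map R).prod := by
  induction u with
  | nil => simp [h1]
  | cons a u ih =>
    rw [List.map_cons, List.prod_cons, List.map_cons, List.prod_cons, ih,
      hmul _ _ (hR a) (pres_prod R hR u)]

/-- The abstract certificate over a finite alphabet. -/
theorem exists_abs [Finite A] (h g f : A → List A) {G : List A → ℤ} (hG : Test G) :
    ∃ (m : ℕ) (R R' : A → Matrix (Fin m) (Fin m) ℤ) (H Γ Γ' E Ψ : Matrix (Fin m) (Fin m) ℤ),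
      (∀ a, H * ((h a).map R).prod = R a * H) ∧ (∀ a, Γ * ((g a).map R').prod = R a * Γ) ∧
      (∀ a, Γ' * ((f a).map R').prod = R a * Γ') ∧ E * H = E * 1 ∧ E * Γ = E * Γ' ∧
      (∀ u i j, (E * Γ * (u.map R').prod * Ψ) i j = G u) ∧ (m = 0 → G = 0) := by
  obtain ⟨c, d, hG⟩ := hG
  obtain ⟨c1, hc1⟩ := c.exists_comap g
  obtain ⟨c2, hc2⟩ := c.exists_comap f
  obtain ⟨c3, hc3⟩ := c1.exists_inter c2
  obtain ⟨c', hc4, hc5⟩ := fc_inv h c3
  obtain ⟨V, hV, mV⟩ := deg_fg ℤ c' d
  obtain ⟨V', hV', mV'⟩ := deg_fg ℤ c d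
  let ε : MM A →ₗ[ℤ] ℤ := (LinearMap.proj []).comp (LinearMap.fst ℤ _ _)
  have hε : ∀ x : MM A, ε x = x.1 [] := fun _ => rfl
  obtain ⟨m, μ, E, Ψ, h1, hmul, hval, hE, h0⟩ := exists_mat (V.prod V') (hV.prod hV') ε (0, G)
    ⟨V.zero_mem, (mV' G).mpr hG⟩
  have pR : ∀ a : A, ∀ x ∈ V.prod V', s11 (· ++ [a]) x ∈ V.prod V' := fun a x hx =>
    ⟨(mV _).mpr (((mV _).mp hx.1).right [a]), V'.zero_mem⟩
  have pR' : ∀ a : A, ∀ x ∈ V.prod V', s22 (· ++ [a]) x ∈ V.prod V' := fun a x hx =>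
    ⟨V.zero_mem, (mV' _).mpr (((mV' _).mp hx.2).right [a])⟩
  have pH : ∀ x ∈ V.prod V', s11 (·.flatMap h) x ∈ V.prod V' := fun x hx =>
    ⟨(mV _).mpr (((mV _).mp hx.1).comap h hc5), V'.zero_mem⟩
  have pG : ∀ x ∈ V.prod V', s12 (·.flatMap g) x ∈ V.prod V' := fun x hx =>
    ⟨(mV _).mpr (((mV' _).mp hx.2).comap g fun u v e =>
      (hc1 u v).mp ((hc3 u v).mp (hc4 u v e)).1), V'.zero_mem⟩
  have pF : ∀ x ∈ V.prod V', s12 (·.flatMap f) x ∈ V.prod V' := fun x hx =>
    ⟨(mV _).mpr (((mV' _).mp hx.2).comap f fun u v e =>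
      (hc2 u v).mp ((hc3 u v).mp (hc4 u v e)).2), V'.zero_mem⟩
  refine ⟨m, fun a => μ (s11 (· ++ [a])), fun a => μ (s22 (· ++ [a])), μ (s11 (·.flatMap h)),
    μ (s12 (·.flatMap g)), μ (s12 (·.flatMap f)), E, Ψ, fun a => ?_, fun a => ?_, fun a => ?_,
    ?_, ?_, fun u i j => ?_, fun e => ?_⟩
  · rw [mat_prod h1 hmul _ pR, ← hmul _ _ pH (pres_prod _ pR _), rel11, hmul _ _ (pR a) pH]
  · rw [mat_prod h1 hmul _ pR', ← hmul _ _ pG (pres_prod _ pR' _), rel12, hmul _ _ (pR a) pG]
  · rw [mat_prod h1 hmul _ pR', ← hmul _ _ pF (pres_prod _ pR' _), rel12, hmul _ _ (pR a) pF]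
  · rw [← h1]
    exact hE _ _ pH (fun _ hx => hx) fun x => rfl
  · exact hE _ _ pG pF fun x => rfl
  · rw [mat_prod h1 hmul _ pR', Matrix.mul_assoc E, ← hmul _ _ pG (pres_prod _ pR' _),
      hval (_ * _) fun x hx => pG _ (pres_prod _ pR' u x hx), Module.End.mul_apply, hε,
      s12_apply, prod22]
    simp
  · exact congrArg Prod.snd (h0 e)

theorem exists_bound (l : List ℕ) : ∃ s, ∀ a ∈ l, a < s + 1 :=
  ⟨l.sum, fun _ ha => Nat.lt_succ_of_le (List.single_le_sum (fun _ _ => Nat.zero_le _) _ ha)⟩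

theorem getD_lt {s : ℕ} {h : List (List ℕ)} (hh : ∀ a ∈ h.flatten, a < s) (c : ℕ) :
    ∀ a ∈ h.getD c [], a < s := by
  intro a ha
  refine hh a ?_
  rw [List.getD_eq_getElem?_getD] at ha
  cases e : h[c]? with
  | none => simp [e] at ha
  | some u =>
    rw [e] at ha
    exact List.mem_flatten.mpr ⟨u, List.mem_of_getElem? e, ha⟩

theorem mor_lt {s : ℕ} {h : List (List ℕ)} (hh : ∀ a ∈ h.flatten, a < s) (u : List ℕ) :
    ∀ a ∈ mor h u, a < s := by
  intro a ha
  obtain ⟨c, -, hc⟩ := List.mem_flatMap.mp ha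
  exact getD_lt hh c a hc

/-- A morphism, lifted to the alphabet `Fin (s + 1)`. -/
def lf (s : ℕ) (h : List (List ℕ)) (a : Fin (s + 1)) : List (Fin (s + 1)) :=
  (h.getD a []).map (Fin.ofNat (s + 1))

theorem val_ofNat {s a : ℕ} (h : a < s + 1) : (Fin.ofNat (s + 1) a : ℕ) = a := Nat.mod_eq_of_lt h

theorem map_mor {s : ℕ} (h : List (List ℕ)) {u : List ℕ} (hu : ∀ a ∈ u, a < s + 1) :
    (mor h u).map (Fin.ofNat (s + 1)) = (u.map (Fin.ofNat (s + 1))).flatMap (lf s h) := by
  rw [mor, List.map_flatMap, List.flatMap_map]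
  refine List.flatMap_congr fun a ha => ?_
  rw [lf, val_ofNat (hu a ha)]

theorem map_inj {s : ℕ} {u v : List ℕ} (hu : ∀ a ∈ u, a < s + 1) (hv : ∀ a ∈ v, a < s + 1)
    (e : u.map (Fin.ofNat (s + 1)) = v.map (Fin.ofNat (s + 1))) : u = v := by
  have key : ∀ u : List ℕ, (∀ a ∈ u, a < s + 1) →
      (u.map (Fin.ofNat (s + 1))).map Fin.val = u := by
    intro u hu
    rw [List.map_map]
    conv_rhs => rw [← List.map_id u]
    exact List.map_congr_left fun a ha => val_ofNat (hu a ha)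
  rw [← key u hu, e, key v hv]

theorem iter_lt {s : ℕ} {h : List (List ℕ)} (hh : ∀ a ∈ h.flatten, a < s) {w : List ℕ}
    (hw : ∀ a ∈ w, a < s) (n : ℕ) : ∀ a ∈ (mor h)^[n] w, a < s := by
  cases n with
  | zero => exact hw
  | succ n => rw [Function.iterate_succ_apply']; exact mor_lt hh _

theorem map_iter {s : ℕ} {h : List (List ℕ)} (hh : ∀ a ∈ h.flatten, a < s + 1) {w : List ℕ}
    (hw : ∀ a ∈ w, a < s + 1) (n : ℕ) :
    ((mor h)^[n] w).map (Fin.ofNat (s + 1)) =
      (fun v : List (Fin (s + 1)) => v.flatMap (lf s h))^[n] (w.map (Fin.ofNat (s + 1))) := by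
  induction n with
  | zero => rfl
  | succ n ih =>
    rw [Function.iterate_succ_apply', Function.iterate_succ_apply', map_mor h (iter_lt hh hw n),
      ih]

theorem iter_tag (h : A → List A) (w : List A) (y : Bool) (n : ℕ) :
    (fun v : List (A × Bool) => v.flatMap fun e => (h e.1).map fun a => (a, e.2))^[n]
      (w.map fun a => (a, y)) =
      ((fun v : List A => v.flatMap h)^[n] w).map fun a => (a, y) := by
  induction n with
  | zero => rfl
  | succ n ih =>
    rw [Function.iterate_succ_apply', Function.iterate_succ_apply', ih, List.flatMap_map,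
      List.map_flatMap]

theorem toM_getD {m s : ℕ} (R : Fin (s + 1) → Matrix (Fin m) (Fin m) ℤ) {c : ℕ} (hc : c < s + 1) :
    toM m (((List.range (s + 1)).map fun c => ofM (R (Fin.ofNat (s + 1) c))).getD c []) =
      R (Fin.ofNat (s + 1) c) := by
  rw [List.getD_eq_getElem?_getD, List.getElem?_map, List.getElem?_range hc]
  exact toM_ofM _

theorem toM_prod {m s : ℕ} (R : Fin (s + 1) → Matrix (Fin m) (Fin m) ℤ) {u : List ℕ}
    (hu : ∀ a ∈ u, a < s + 1) :
    toM m (prodm m ((List.range (s + 1)).map fun c => ofM (R (Fin.ofNat (s + 1) c))) u) =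
      ((u.map (Fin.ofNat (s + 1))).map R).prod := by
  rw [toM_prodm, List.map_map]
  exact congrArg List.prod (List.map_congr_left fun a ha => toM_getD R (hu a ha))

end CertE

open CertE in
theorem exists_cert (p : Inst)
    (hsep : ∀ (S D Y : Type) [Finite S] [Finite D] [Finite Y] (h : S → List S) (g : S → List D)
      (u : Y → List S),
      Sep {w | ∃ y n, w = ((fun v : List S => v.flatMap h)^[n] (u y)).flatMap g}) :
    ∃ k : Cert, ∀ n, val (ins p k) n = 0 ↔ Eqn p n := by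
  obtain ⟨w, h, g, f⟩ := p
  obtain ⟨s, hs⟩ := exists_bound (w ++ h.flatten ++ g.flatten ++ f.flatten)
  have hw : ∀ a ∈ w, a < s + 1 := fun a ha => hs a (by simp [ha])
  have hh : ∀ a ∈ h.flatten, a < s + 1 := fun a ha =>
    hs a (by simp only [List.mem_append, ha, true_or, or_true])
  have hg : ∀ a ∈ g.flatten, a < s + 1 := fun a ha =>
    hs a (by simp only [List.mem_append, ha, true_or, or_true])
  have hf : ∀ a ∈ f.flatten, a < s + 1 := fun a ha =>
    hs a (by simp only [List.mem_append, ha, or_true])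
  obtain ⟨G, hG, hinj⟩ := (hsep (Fin (s + 1) × Bool) (Fin (s + 1)) Bool
    (fun e => (lf s h e.1).map fun a => (a, e.2)) (fun e => bif e.2 then lf s g e.1 else lf s f e.1)
    fun y => (w.map (Fin.ofNat (s + 1))).map fun a => (a, y)).int
  obtain ⟨m, R, R', H, Γ, Γ', E, Ψ, r1, r2, r3, r4, r5, hval, h0⟩ :=
    exists_abs (lf s h) (lf s g) (lf s f) hG
  have hiff : ∀ n, G ((mor g ((mor h)^[n] w)).map (Fin.ofNat (s + 1))) =
      G ((mor f ((mor h)^[n] w)).map (Fin.ofNat (s + 1))) ↔ Eqn (w, h, g, f) n := by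
    intro n
    refine ⟨fun e => map_inj (mor_lt hg _) (mor_lt hf _) (hinj ⟨true, n, ?_⟩ ⟨false, n, ?_⟩ e),
      fun e => ?_⟩
    · rw [iter_tag, List.flatMap_map, map_mor g (iter_lt hh hw n), map_iter hh hw]
      rfl
    · rw [iter_tag, List.flatMap_map, map_mor f (iter_lt hh hw n), map_iter hh hw]
      rfl
    · have e' : mor g ((mor h)^[n] w) = mor f ((mor h)^[n] w) := e
      rw [e']
  let k : Cert := ((m, s + 1), ((List.range (s + 1)).map fun c => ofM (R (Fin.ofNat (s + 1) c)),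
    (List.range (s + 1)).map fun c => ofM (R' (Fin.ofNat (s + 1) c))), ofM H, ofM Γ, ofM Γ',
    ofM E, ofM Ψ)
  have hk : chk (w, h, g, f) k = true := by
    simp only [chk, k, Bool.and_eq_true, List.all_eq_true, decide_eq_true_eq, mm_eq_iff, toM_ofM,
      toM_idm, List.mem_range]
    refine ⟨⟨⟨⟨hw, fun u hu a ha => hh a (List.mem_flatten.mpr ⟨u, hu, ha⟩)⟩, fun c hc => ?_⟩,
      r4⟩, r5⟩
    rw [toM_prod R (getD_lt hh c), toM_prod R' (getD_lt hg c), toM_prod R' (getD_lt hf c),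
      toM_getD R hc]
    have e1 := r1 (Fin.ofNat (s + 1) c)
    have e2 := r2 (Fin.ofNat (s + 1) c)
    have e3 := r3 (Fin.ofNat (s + 1) c)
    rw [lf, val_ofNat hc] at e1 e2 e3
    exact ⟨⟨e1, e2⟩, e3⟩
  refine ⟨k, fun n => ?_⟩
  rw [val_ins hk, ← hiff]
  split_ifs with hm
  · simp only [k, toM_ofM]
    rw [toM_prod R' (mor_lt hg _), toM_prod R' (mor_lt hf _), Matrix.mul_sub, Matrix.sub_mul,
      Matrix.sub_apply, hval, hval, sub_eq_zero]
  · have : G = 0 := h0 (Nat.eq_zero_of_not_pos hm)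
    simp [this]

end Pool.Agent.P.MP_406085_lc
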