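import Pool.Agent.P.MP_406085_lc.Basic

/-!
Words with linear recurrence and a special factor.
-/

namespace Pool.Agent.P.MP_406085_lc

open Filter PowerSeries
open scoped Classical

variable {α : Type}

theorem stt_append (π u v w : List α) :
    stt π (u ++ v) w = stt π u (v ++ w) + stt π v w := by
  unfold stt
  simp only [Finset.card_filter, List.length_append, Finset.sum_range_add, List.append_assoc]
  congr 1
  refine Finset.sum_congr rfl fun i _ => ?_
  have : (u ++ (v ++ w)).drop (u.length + i) = (v ++ w).drop i := by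
    rw [← List.drop_drop, List.drop_left]
  rw [this]

theorem stt_long {π v : List α} (h : π.length ≤ v.length) (u w : List α) :
    stt π u (v ++ w) = stt π u v := by
  unfold stt
  congr 1
  refine Finset.filter_congr fun i hi => ?_
  have hi' : i < u.length := Finset.mem_range.mp hi
  have e : (u ++ (v ++ w)).drop i = (u ++ v).drop i ++ w := by
    rw [← List.append_assoc, List.drop_append_of_le_length]
    rw [List.length_append]; omega
  rw [e]
  constructor
  · intro h1
    refine List.prefix_of_prefix_length_le h1 (List.prefix_append _ _) ?_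
    rw [List.length_drop, List.length_append]; omega
  · intro h1
    exact h1.trans (List.prefix_append _ _)

theorem stt_nil (u v : List α) : stt [] u v = u.length := by
  unfold stt
  simp

theorem wd_period {u : List α} {δ : ℕ} (h : u.drop δ <+: u) {i : ℕ} (hi : i + δ < u.length) :
    u[i + δ]? = u[i]? := by
  obtain ⟨t, ht⟩ := h
  have h1 : i < (u.drop δ).length := by rw [List.length_drop]; omega
  have h2 : u[i]? = (u.drop δ)[i]? := by
    conv_lhs => rw [← ht]
    exact List.getElem?_append_left h1
  rw [h2, List.getElem?_drop, add_comm]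

theorem wd_next {u z : List α} {a : α} {δ : ℕ} (h : u.drop δ <+: u) (h1 : 0 < δ)
    (h2 : δ ≤ z.length) (hz : z ++ [a] <:+: u) : z[z.length - δ]? = some a := by
  obtain ⟨s, t, e⟩ := hz
  have hlen : s.length + z.length + 1 + t.length = u.length := by
    rw [← e]; simp only [List.length_append, List.length_singleton]; omega
  have h3 := wd_period h (i := s.length + (z.length - δ)) (by omega)
  have h4 : s.length + (z.length - δ) + δ = s.length + z.length := by omega
  rw [h4] at h3
  have h5 : u[s.length + z.length]? = some a := by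
    rw [← e, List.append_assoc, List.getElem?_append_right (by omega), Nat.add_sub_cancel_left,
      List.append_assoc, List.getElem?_append_right le_rfl]
    simp
  have h6 : u[s.length + (z.length - δ)]? = z[z.length - δ]? := by
    rw [← e, List.append_assoc, List.getElem?_append_right (by omega), Nat.add_sub_cancel_left,
      List.append_assoc, List.getElem?_append_left (by omega)]
  rw [← h6, ← h3, h5]

theorem wd_two {u W : List α} {i δ : ℕ} (h1 : u <+: W.drop i) (h2 : u <+: W.drop (i + δ)) :
    u.drop δ <+: u := by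
  obtain ⟨t, ht⟩ := h1
  by_cases hd : δ ≤ u.length
  · have e : W.drop (i + δ) = u.drop δ ++ t := by
      rw [← List.drop_drop, ← ht, List.drop_append_of_le_length hd]
    rw [e] at h2
    refine List.prefix_of_prefix_length_le (List.prefix_append _ _) h2 ?_
    rw [List.length_drop]; omega
  · rw [List.drop_eq_nil_of_le (by omega)]
    exact List.nil_prefix

theorem wd_take {γ : Type} {π W : List γ} {i j r : ℕ} (h : j + π.length ≤ r) :
    π <+: ((W.drop i).take r).drop j ↔ π <+: W.drop (i + j) := by
  rw [List.drop_take, List.drop_drop, List.prefix_take_iff]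
  constructor
  · exact fun h => h.1
  · exact fun h' => ⟨h', by omega⟩

theorem wd_take' {γ : Type} {π W : List γ} {i j r : ℕ}
    (h : π <+: ((W.drop i).take r).drop j) : π <+: W.drop (i + j) := by
  rw [List.drop_take, List.drop_drop, List.prefix_take_iff] at h
  exact h.1

section

variable {Λ : Set (List α)} {C K L : ℕ} (hf : ∀ z ∈ Λ, ∀ z', z' <:+: z → z' ∈ Λ)
  (hLR : LRs Λ C L) (hSP : SPs Λ K L) (hL : 0 < L) {u : List α} (hu : u ∈ Λ)
  (hl : C * (L + 1) ≤ u.length)
include hf hLR hSP hL hu hl

theorem wd_gap : ∃ m : ℕ, L ≤ K * m ∧ ∀ δ, 0 < δ → δ ≤ m → ¬ u.drop δ <+: u := by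
  obtain ⟨z, a, b, hab, ha, hb, h1, h2⟩ := hSP
  refine ⟨z.length, h1, fun δ hδ hδ' h => hab ?_⟩
  have ha' := hLR (L + 1) (by omega) _ ha u hu (by simp; omega) hl
  have hb' := hLR (L + 1) (by omega) _ hb u hu (by simp; omega) hl
  have e1 := wd_next h hδ hδ' ha'
  have e2 := wd_next h hδ hδ' hb'
  rw [e1] at e2
  exact Option.some.inj e2

/-- Long words have no short period. -/
theorem no_period {δ : ℕ} (h1 : 0 < δ) (h2 : K * δ ≤ L) : ¬ u.drop δ <+: u := by
  obtain ⟨m, hm, h⟩ := wd_gap hf hLR hSP hL hu hl
  refine h δ h1 ?_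
  have hK : 0 < K := by
    rcases Nat.eq_zero_or_pos K with h0 | h0
    · rw [h0] at hm; omega
    · exact h0
  exact Nat.le_of_mul_le_mul_left (h2.trans hm) hK

/-- Occurrences of a long word are sparse. -/
theorem occ_count (v w : List α) : stt u v w * L ≤ K * v.length + L := by
  obtain ⟨m, hm, h⟩ := wd_gap hf hLR hSP hL hu hl
  have key : ∀ i j, i < j → u <+: (v ++ w).drop i → u <+: (v ++ w).drop j →
      i / (m + 1) ≠ j / (m + 1) := by
    intro i j hij hi hj e
    obtain ⟨δ, rfl⟩ := Nat.exists_eq_add_of_le hij.le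
    refine h δ (by omega) ?_ (wd_two hi hj)
    have a1 := Nat.div_add_mod i (m + 1)
    have a2 := Nat.div_add_mod (i + δ) (m + 1)
    have a3 := Nat.mod_lt (i + δ) (show 0 < m + 1 by omega)
    rw [← e] at a2
    omega
  have hc : stt u v w ≤ v.length / (m + 1) + 1 := by
    unfold stt
    rw [← Finset.card_range (v.length / (m + 1) + 1)]
    refine Finset.card_le_card_of_injOn (fun i => i / (m + 1)) ?_ ?_
    · intro i hi
      have hi' : i < v.length := Finset.mem_range.mp (Finset.mem_filter.mp hi).1
      have : i / (m + 1) ≤ v.length / (m + 1) := Nat.div_le_div_right hi'.le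
      simp only [Finset.coe_range, Set.mem_Iio]
      omega
    · intro i hi j hj e
      have hi' := (Finset.mem_filter.mp hi).2
      have hj' := (Finset.mem_filter.mp hj).2
      rcases lt_trichotomy i j with h1 | h1 | h1
      · exact absurd e (key i j h1 hi' hj')
      · exact h1
      · exact absurd e.symm (key j i h1 hj' hi')
  have h3 : v.length / (m + 1) * m ≤ v.length :=
    (Nat.mul_le_mul_left _ (Nat.le_succ m)).trans (Nat.div_mul_le_self _ _)
  calc stt u v w * L ≤ (v.length / (m + 1) + 1) * L := Nat.mul_le_mul_right _ hc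
    _ = v.length / (m + 1) * L + L := by ring
    _ ≤ v.length / (m + 1) * (K * m) + L := by gcongr
    _ = K * (v.length / (m + 1) * m) + L := by ring
    _ ≤ K * v.length + L := by gcongr

/-- A long word has boundedly many extensions. -/
theorem ext_card {r : ℕ} (hr : L ≤ r) (hW : ∃ W ∈ Λ, W.length = C * r) :
    {y | y ∈ Λ ∧ y.length = r ∧ u <+: y}.Finite ∧
      {y | y ∈ Λ ∧ y.length = r ∧ u <+: y}.ncard * L ≤ K * (C * r) + L := by
  obtain ⟨W, hW, hWl⟩ := hW
  have hsub : {y | y ∈ Λ ∧ y.length = r ∧ u <+: y} ⊆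
      ((((Finset.range W.length).filter fun i => u <+: (W ++ []).drop i).image
        fun i => (W.drop i).take r : Finset (List α)) : Set (List α)) := by
    rintro y ⟨hy, hyl, huy⟩
    obtain ⟨s, t, e⟩ := hLR r hr y hy W hW hyl.le hWl.ge
    have hlen : s.length + r + t.length = W.length := by
      rw [← e, ← hyl]; simp only [List.length_append]
    have e1 : W.drop s.length = y ++ t := by
      rw [← e, List.append_assoc, List.drop_left]
    simp only [Finset.coe_image, Set.mem_image, Finset.mem_coe, Finset.mem_filter,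
      Finset.mem_range, List.append_nil]
    refine ⟨s.length, ⟨by omega, ?_⟩, ?_⟩
    · rw [e1]; exact huy.trans (List.prefix_append _ _)
    · rw [e1, ← hyl, List.take_left]
  refine ⟨(Finset.finite_toSet _).subset hsub, ?_⟩
  have h1 := Set.ncard_le_ncard hsub (Finset.finite_toSet _)
  rw [Set.ncard_coe_finset] at h1
  have h2 : {y | y ∈ Λ ∧ y.length = r ∧ u <+: y}.ncard ≤ stt u W [] :=
    h1.trans Finset.card_image_le
  have h3 := occ_count hf hLR hSP hL hu hl W []
  rw [hWl] at h3
  exact (Nat.mul_le_mul_right _ h2).trans h3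

end

/-- Counting occurrences of `π` through the extensions of `u`. The word `W` is cut at two
occurrences `p ≤ p'` of `u`. -/
theorem ret_sum {β : Type} (φ : α → β) (u : List α) (r : ℕ) (π : List β)
    (hπ : π.length ≤ u.length) : ∃ θ : List α → ℕ, ∀ (W : List α) (p p' : ℕ), p ≤ p' →
      u <+: W.drop p → u <+: W.drop p' → p' + r ≤ W.length →
      (∀ i, i < p' → u <+: W.drop i →
        ∃ j, 0 < j ∧ j + u.length ≤ r ∧ u <+: W.drop (i + j)) →
      ((Finset.Ico p p').filter fun i => π <+: (W.map φ).drop i).card =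
        ∑ i ∈ (Finset.Ico p p').filter fun i => u <+: W.drop i, θ ((W.drop i).take r) := by
  refine ⟨fun y => ((Finset.range (sInf {j | 0 < j ∧ u <+: y.drop j})).filter
    fun i => π <+: (y.map φ).drop i).card, ?_⟩
  intro W p p' hpp hp hp' _ hret
  obtain ⟨d, hd⟩ : ∃ d, p' - p = d := ⟨_, rfl⟩
  induction d using Nat.strong_induction_on generalizing p with
  | _ d ih =>
  rcases hpp.eq_or_lt with rfl | hlt
  · simp
  obtain ⟨j, hj0, hjr, hju⟩ := hret p hlt hp
  have hex : ∃ j, 0 < j ∧ u <+: W.drop (p + j) := ⟨j, hj0, hju⟩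
  obtain ⟨j0, ⟨h0, hu0⟩, hmin⟩ : ∃ j0, (0 < j0 ∧ u <+: W.drop (p + j0)) ∧
      ∀ j', 0 < j' → u <+: W.drop (p + j') → j0 ≤ j' :=
    ⟨Nat.find hex, Nat.find_spec hex, fun j' h1 h2 => Nat.find_min' hex ⟨h1, h2⟩⟩
  have hj : j0 ≤ j := hmin j hj0 hju
  have hle : p + j0 ≤ p' := by
    have := hmin (p' - p) (by omega) (by rwa [Nat.add_sub_cancel' hpp])
    omega
  have hinf : sInf {j | 0 < j ∧ u <+: ((W.drop p).take r).drop j} = j0 := by
    refine le_antisymm (Nat.sInf_le ⟨h0, (wd_take (by omega)).mpr hu0⟩) ?_
    refine le_csInf ⟨j0, h0, (wd_take (by omega)).mpr hu0⟩ ?_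
    rintro j' ⟨h1, h2⟩
    exact hmin j' h1 (wd_take' h2)
  have ih' := ih (p' - (p + j0)) (by omega) (p + j0) hle hu0 rfl
  rw [← Finset.Ico_union_Ico_eq_Ico (Nat.le_add_right p j0) hle, Finset.filter_union,
    Finset.filter_union,
    Finset.card_union_of_disjoint (Finset.disjoint_filter_filter
      (Finset.Ico_disjoint_Ico_consecutive _ _ _)),
    Finset.sum_union (Finset.disjoint_filter_filter
      (Finset.Ico_disjoint_Ico_consecutive _ _ _)), ih']
  congr 1
  have hs : (Finset.Ico p (p + j0)).filter (fun i => u <+: W.drop i) = {p} := by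
    ext i
    simp only [Finset.mem_filter, Finset.mem_Ico, Finset.mem_singleton]
    constructor
    · rintro ⟨⟨h1, h2⟩, h3⟩
      by_contra hne
      have := hmin (i - p) (by omega) (by rwa [Nat.add_sub_cancel' h1])
      omega
    · rintro rfl
      exact ⟨⟨le_rfl, by omega⟩, hp⟩
  rw [hs, Finset.sum_singleton]
  beta_reduce
  rw [hinf, Finset.card_filter, Finset.card_filter,
    Finset.sum_Ico_eq_sum_range, Nat.add_sub_cancel_left]
  refine Finset.sum_congr rfl fun i hi => ?_
  have hi' : i < j0 := Finset.mem_range.mp hi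
  have : π <+: (((W.drop p).take r).map φ).drop i ↔ π <+: (W.map φ).drop (p + i) := by
    rw [List.map_take, List.map_drop]
    exact wd_take (by omega)
  simp only [this]

end Pool.Agent.P.MP_406085_lc
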