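import Pool.Agent.P.MP_406085_lc.Spg
import Pool.Agent.P.MP_406085_lc.Word

/-!
All letters below a letter of the class have comparable lengths.
-/

namespace Pool.Agent.P.MP_406085_lc

open Filter PowerSeries
open scoped Classical

namespace CmpA

variable {N D : Type} (P : PS N D) (a : N) (U : Ultrafilter ℕ)

/-- Letters whose blocks are comparable with the block of `a` along `U`. -/
def Fast (x : N) : Prop := ∃ C, ∀ᶠ k in (U : Filter ℕ), P.len a k ≤ C * P.len x k

/-- Sequences that are negligible with respect to the block of `a` along `U`. -/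
def Slow (s : Sq D) : Prop :=
  (Monotone fun k => (s k).length) ∧
    ∀ j C, ∀ᶠ k in (U : Filter ℕ), C * (s (k + j)).length < P.len a k

/-- Sequences ending with a fast block and a negligible part. -/
def EndS (w : Sq D) : Prop :=
  ∃ x, Fast P a U x ∧ ∃ p r : Sq D, Slow P a U r ∧ ∀ k, w k = p k ++ P.T x k ++ r k

/-- Sequences starting with a negligible part and a fast block. -/
def BegS (w : Sq D) : Prop :=
  ∃ y, Fast P a U y ∧ ∃ l q : Sq D, Slow P a U l ∧ ∀ k, w k = l k ++ P.T y k ++ q k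

def Nice (w : Sq D) : Prop := Slow P a U w ∨ (EndS P a U w ∧ BegS P a U w)

/-- The concatenation of gaps and blocks along a list. -/
def tl (l : List (List (ℕ → List D) × N)) : Sq D :=
  fun k => l.flatMap fun e => e.1.map (· k) ++ P.T e.2 k

variable {P a U}

theorem Slow.append {s s' : Sq D} (h : Slow P a U s) (h' : Slow P a U s') :
    Slow P a U fun k => s k ++ s' k := by
  refine ⟨fun k k' hk => ?_, fun j C => ?_⟩
  · simp only [List.length_append]
    exact Nat.add_le_add (h.1 hk) (h'.1 hk)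
  · filter_upwards [h.2 j (2 * C), h'.2 j (2 * C)] with k h1 h2
    rw [List.length_append, mul_add]
    rw [mul_assoc] at h1 h2
    omega

theorem Slow.shift {s : Sq D} (h : Slow P a U s) : Slow P a U fun k => s (k + 1) :=
  ⟨fun _ _ hk => h.1 (Nat.succ_le_succ hk), fun j C => h.2 (j + 1) C⟩

theorem slow_const (hU : ∀ C, ∀ᶠ k in (U : Filter ℕ), C < P.len a k) {s : Sq D} {B : ℕ}
    (hs : ∀ k, (s k).length = B) : Slow P a U s := by
  refine ⟨fun k k' _ => ?_, fun j C => ?_⟩
  · simp only [hs, le_refl]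
  · simpa only [hs] using hU (C * B)

theorem slow_T [Finite N] {x : N} (hx : ¬ Fast P a U x) : Slow P a U (P.T x) := by
  refine ⟨fun k k' hk => P.len_mono x hk, fun j C => ?_⟩
  obtain ⟨C0, _, hC0⟩ := P.len_succ_le
  have hj : ∀ j k, P.len x (k + j) ≤ C0 ^ j * P.len x k := by
    intro j k
    induction j with
    | zero => simp
    | succ j ih =>
      calc P.len x (k + (j + 1)) ≤ C0 * P.len x (k + j) := hC0 x (k + j)
        _ ≤ C0 * (C0 ^ j * P.len x k) := Nat.mul_le_mul_left _ ih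
        _ = C0 ^ (j + 1) * P.len x k := by ring
  have h1 : ∀ᶠ k in (U : Filter ℕ), ¬ P.len a k ≤ C * C0 ^ j * P.len x k :=
    Ultrafilter.eventually_not.mpr fun h => hx ⟨_, h⟩
  filter_upwards [h1] with k hk
  calc C * (P.T x (k + j)).length ≤ C * (C0 ^ j * P.len x k) := Nat.mul_le_mul_left _ (hj j k)
    _ = C * C0 ^ j * P.len x k := by ring
    _ < P.len a k := not_le.mp hk

theorem not_slow {x : N} (hx : Fast P a U x) : ¬ Slow P a U fun k => P.T x (k + 1) := by
  rintro ⟨_, h⟩
  obtain ⟨C, hC⟩ := hx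
  obtain ⟨k, h1, h2⟩ := ((h 0 C).and hC).exists
  have h3 : C * P.len x k ≤ C * P.len x (k + 1) :=
    Nat.mul_le_mul_left _ (P.len_mono x (Nat.le_succ k))
  have h4 : C * P.len x (k + 1) < P.len a k := h1
  omega

theorem EndS.left {w : Sq D} (h : EndS P a U w) (v : Sq D) : EndS P a U fun k => v k ++ w k := by
  obtain ⟨x, hx, p, r, hr, hw⟩ := h
  exact ⟨x, hx, fun k => v k ++ p k, r, hr, fun k => by simp [hw k]⟩

theorem BegS.right {w : Sq D} (h : BegS P a U w) (v : Sq D) : BegS P a U fun k => w k ++ v k := by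
  obtain ⟨x, hx, l, q, hl, hw⟩ := h
  exact ⟨x, hx, l, fun k => q k ++ v k, hl, fun k => by simp [hw k]⟩

theorem EndS.right {w v : Sq D} (h : EndS P a U w) (hv : Nice P a U v) :
    EndS P a U fun k => w k ++ v k := by
  rcases hv with hv | hv
  · obtain ⟨x, hx, p, r, hr, hw⟩ := h
    exact ⟨x, hx, p, fun k => r k ++ v k, hr.append hv, fun k => by simp [hw k]⟩
  · exact hv.1.left w

theorem BegS.left {w v : Sq D} (h : BegS P a U w) (hv : Nice P a U v) :
    BegS P a U fun k => v k ++ w k := by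
  rcases hv with hv | hv
  · obtain ⟨x, hx, l, q, hl, hw⟩ := h
    exact ⟨x, hx, fun k => v k ++ l k, q, hv.append hl, fun k => by simp [hw k]⟩
  · exact hv.2.right w

theorem Nice.append {w v : Sq D} (hw : Nice P a U w) (hv : Nice P a U v) :
    Nice P a U fun k => w k ++ v k := by
  rcases hw with hw | hw
  · rcases hv with hv | hv
    · exact Or.inl (hw.append hv)
    · exact Or.inr ⟨hv.1.left w, hv.2.left (Or.inl hw)⟩
  · exact Or.inr ⟨hw.1.right hv, hw.2.right v⟩

theorem nice_T [Finite N] (hU : ∀ C, ∀ᶠ k in (U : Filter ℕ), C < P.len a k) (x : N) :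
    Nice P a U (P.T x) := by
  by_cases hx : Fast P a U x
  · have h0 : Slow P a U fun _ => ([] : List (List D)) := slow_const hU (B := 0) fun _ => rfl
    exact Or.inr ⟨⟨x, hx, fun _ => [], fun _ => [], h0, fun k => by simp⟩,
      ⟨x, hx, fun _ => [], fun _ => [], h0, fun k => by simp⟩⟩
  · exact Or.inl (slow_T hx)

theorem nice_gap (hU : ∀ C, ∀ᶠ k in (U : Filter ℕ), C < P.len a k) (g : List (ℕ → List D)) :
    Nice P a U fun k => g.map (· k) :=
  Or.inl (slow_const hU (B := g.length) fun _ => by simp)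

theorem nice_tl [Finite N] (hU : ∀ C, ∀ᶠ k in (U : Filter ℕ), C < P.len a k)
    (l : List (List (ℕ → List D) × N)) : Nice P a U (tl P l) := by
  induction l with
  | nil => exact Or.inl (slow_const hU (B := 0) fun _ => rfl)
  | cons e l ih =>
    have := ((nice_gap hU e.1).append (nice_T hU e.2)).append ih
    convert this using 1
    funext k
    simp [tl]

theorem T_succ (x : N) (k : ℕ) : P.T x (k + 1) = tl P (([], P.f x) :: P.rest x) k := by
  rw [P.step]
  simp [tl]

theorem both_T [Finite N] (hU : ∀ C, ∀ᶠ k in (U : Filter ℕ), C < P.len a k) {x : N}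
    (hx : Fast P a U x) :
    EndS P a U (fun k => P.T x (k + 1)) ∧ BegS P a U fun k => P.T x (k + 1) := by
  have h1 : Nice P a U fun k => P.T x (k + 1) := by
    have : (fun k => P.T x (k + 1)) = tl P (([], P.f x) :: P.rest x) := funext (T_succ x)
    rw [this]
    exact nice_tl hU _
  exact h1.resolve_left (not_slow hx)

theorem Nice.shift [Finite N] (hU : ∀ C, ∀ᶠ k in (U : Filter ℕ), C < P.len a k) {w : Sq D}
    (hw : Nice P a U w) : Nice P a U fun k => w (k + 1) := by
  rcases hw with hw | ⟨⟨x, hx, p, r, hr, h1⟩, ⟨y, hy, l, q, hl, h2⟩⟩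
  · exact Or.inl hw.shift
  · refine Or.inr ⟨?_, ?_⟩
    · have := (((both_T hU hx).1.left fun k => p (k + 1)).right (Or.inl hr.shift))
      convert this using 2 with k
      exact h1 (k + 1)
    · have := (((both_T hU hy).2.left (Or.inl hl.shift)).right fun k => q (k + 1))
      convert this using 2 with k
      exact h2 (k + 1)

theorem split_one {β : Type} {l : List (β × N)} {y : N} (hy : y ∈ l.map Prod.snd) :
    ∃ l1 g l2, l = l1 ++ (g, y) :: l2 := by
  obtain ⟨e, he, rfl⟩ := List.mem_map.mp hy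
  obtain ⟨l1, l2, rfl⟩ := List.append_of_mem he
  exact ⟨l1, e.1, l2, rfl⟩

theorem split_two {β : Type} {l : List (β × N)} {y : N} (hy : 2 ≤ (l.map Prod.snd).count y) :
    ∃ l1 g l2 g' l3, l = l1 ++ (g, y) :: (l2 ++ (g', y) :: l3) := by
  induction l with
  | nil => simp at hy
  | cons e l ih =>
    by_cases he : e.2 = y
    · rw [List.map_cons, he, List.count_cons_self] at hy
      obtain ⟨l2, g', l3, rfl⟩ := split_one (List.count_pos_iff.mp (by omega : 0 < (l.map Prod.snd).count y))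
      exact ⟨[], e.1, l2, g', l3, by rw [← he]; rfl⟩
    · rw [List.map_cons, List.count_cons_of_ne he] at hy
      obtain ⟨l1, g, l2, g', l3, rfl⟩ := ih hy
      exact ⟨e :: l1, g, l2, g', l3, rfl⟩

theorem dec_one [Finite N] (hU : ∀ C, ∀ᶠ k in (U : Filter ℕ), C < P.len a k) {x y : N}
    (hy : y ∈ P.ch x) : ∃ A B : Sq D, Nice P a U A ∧ Nice P a U B ∧
      ∀ k, P.T x (k + 1) = A k ++ P.T y k ++ B k := by
  have hy' : y ∈ ((([] : List (ℕ → List D)), P.f x) :: P.rest x).map Prod.snd := hy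
  obtain ⟨l1, g, l2, h⟩ := split_one hy'
  refine ⟨_, _, (nice_tl hU l1).append (nice_gap hU g), nice_tl hU l2, fun k => ?_⟩
  rw [T_succ, h]
  simp [tl]

theorem dec_two [Finite N] (hU : ∀ C, ∀ᶠ k in (U : Filter ℕ), C < P.len a k) {x y : N}
    (hy : 2 ≤ (P.ch x).count y) : ∃ A M B : Sq D, Nice P a U M ∧
      ∀ k, P.T x (k + 1) = A k ++ (P.T y k ++ M k ++ P.T y k) ++ B k := by
  have hy' : 2 ≤ (((([] : List (ℕ → List D)), P.f x) :: P.rest x).map Prod.snd).count y := hy
  obtain ⟨l1, g, l2, g', l3, h⟩ := split_two hy'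
  refine ⟨fun k => tl P l1 k ++ g.map (· k), _, tl P l3,
    (nice_tl hU l2).append (nice_gap hU g'), fun k => ?_⟩
  rw [T_succ, h]
  simp [tl]

theorem lx_fac {w w' : List (List D)} (h : w ∈ P.Lx a) (h' : w' <:+: w) : w' ∈ P.Lx a := by
  obtain ⟨n, hn⟩ := h
  exact ⟨n, h'.trans hn⟩

variable (P a U) in
/-- Two fast blocks with a growing negligible part between them. -/
def Cfg (c : N × N × Sq D) : Prop :=
  Fast P a U c.1 ∧ Fast P a U c.2.1 ∧ Slow P a U c.2.2 ∧
    (StrictMono fun k => (c.2.2 k).length) ∧ ∀ k, P.T c.1 k ++ c.2.2 k ++ P.T c.2.1 k ∈ P.Lx a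

theorem cfg_of {u s v : Sq D} (hu : EndS P a U u) (hs : Slow P a U s)
    (hm : StrictMono fun k => (s k).length) (hv : BegS P a U v)
    (hL : ∀ k, u k ++ s k ++ v k ∈ P.Lx a) :
    ∃ c, Cfg P a U c ∧ ∀ k, (s k).length ≤ (c.2.2 k).length := by
  obtain ⟨x, hx, p, r, hr, h1⟩ := hu
  obtain ⟨y, hy, l, q, hl, h2⟩ := hv
  refine ⟨(x, y, fun k => r k ++ s k ++ l k), ⟨hx, hy, (hr.append hs).append hl,
    fun k k' hk => ?_, fun k => lx_fac (hL k) ⟨p k, q k, ?_⟩⟩, fun k => ?_⟩
  · have e1 := hr.1 hk.le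
    have e2 := hl.1 hk.le
    have e3 := hm hk
    simp only [List.length_append] at e1 e2 e3 ⊢
    omega
  · simp [h1 k, h2 k]
  · simp only [List.length_append]
    omega

theorem cfg_step [Finite N] (hU : ∀ C, ∀ᶠ k in (U : Filter ℕ), C < P.len a k)
    {c : N × N × Sq D} (hc : Cfg P a U c) :
    ∃ c', Cfg P a U c' ∧ ∀ k, (c.2.2 k).length < (c'.2.2 k).length := by
  obtain ⟨hx, hy, hs, hm, hL⟩ := hc
  obtain ⟨c', hc', h⟩ := cfg_of (both_T hU hx).1 hs.shift
    (fun _ _ hk => hm (Nat.succ_lt_succ hk)) (both_T hU hy).2 fun k => hL (k + 1)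
  exact ⟨c', hc', fun k => lt_of_lt_of_le (hm (Nat.lt_succ_self k)) (h k)⟩

theorem cfg_init [Finite N] (hU : ∀ C, ∀ᶠ k in (U : Filter ℕ), C < P.len a k)
    (ha : 2 ≤ (P.ch a).count a) {y : N} (hy : y ∈ P.ch a) (hys : ¬ Fast P a U y) :
    ∃ c, Cfg P a U c := by
  have hfa : Fast P a U a := ⟨1, Eventually.of_forall fun k => by simp⟩
  obtain ⟨A, B, hA, hB, h1⟩ := dec_one hU hy
  obtain ⟨A', M, B', hM, h2⟩ := dec_two hU ha
  have hM' := hM.shift hU
  have hL : ∀ k, P.T a (k + 1) ++ M (k + 1) ++ P.T a (k + 1) ∈ P.Lx a := fun k =>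
    ⟨k + 1 + 1, A' (k + 1), B' (k + 1), (h2 (k + 1)).symm⟩
  rcases hA with hA | hA
  · have hB' : BegS P a U B := by
      rcases hB with hB | hB
      · exfalso
        apply not_slow hfa
        have := (hA.append (slow_T hys)).append hB
        convert this using 2 with k
        exact h1 k
      · exact hB.2
    obtain ⟨c, hc, _⟩ := cfg_of (((both_T hU hfa).1.right hM').right (Or.inl hA)) (slow_T hys)
      (P.mono y) hB' fun k => by
        have := hL k
        rw [h1 k] at this ⊢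
        simpa only [List.append_assoc] using this
    exact ⟨c, hc⟩
  · obtain ⟨c, hc, _⟩ := cfg_of hA.1 (slow_T hys) (P.mono y)
      (((both_T hU hfa).2.left hM').left hB) fun k => by
        have := hL k
        rw [h1 k] at this ⊢
        simpa only [List.append_assoc] using this
    exact ⟨c, hc⟩

theorem cfg_seq [Finite N] (hU : ∀ C, ∀ᶠ k in (U : Filter ℕ), C < P.len a k)
    (h0 : ∃ c, Cfg P a U c) : ∃ c : ℕ → N × N × Sq D, (∀ i, Cfg P a U (c i)) ∧
      ∀ k, StrictMono fun i => ((c i).2.2 k).length := by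
  obtain ⟨c0, hc0⟩ := h0
  choose F hF hF' using fun c : {c // Cfg P a U c} => cfg_step hU c.2
  let G : {c // Cfg P a U c} → {c // Cfg P a U c} := fun c => ⟨F c, hF c⟩
  refine ⟨fun i => (G^[i] ⟨c0, hc0⟩).1, fun i => (G^[i] ⟨c0, hc0⟩).2, fun k =>
    strictMono_nat_of_lt_succ fun i => ?_⟩
  simp only [Function.iterate_succ_apply']
  exact hF' _ k

theorem period_of {α : Type} {σ σ' Y : List α} {R m δ : ℕ} (hδ : σ'.length = σ.length + δ)
    (hR : σ'.length + m ≤ R) (h : (σ ++ Y).take R = (σ' ++ Y).take R) :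
    (Y.take m).drop δ <+: Y.take m := by
  have h1 := congrArg (List.drop σ'.length) h
  rw [List.drop_take, List.drop_take, List.drop_left] at h1
  have h2 : (σ ++ Y).drop σ'.length = Y.drop δ := by
    rw [hδ, ← List.drop_drop, List.drop_left]
  rw [h2] at h1
  have h3 := congrArg (List.take (m - δ)) h1
  rw [List.take_take, List.take_take, min_eq_left (by omega)] at h3
  rw [List.drop_take, h3]
  exact List.take_prefix_take_left (Nat.sub_le m δ)

theorem contra [Finite N] {b : N} (hb : P.Bot b) (hap : P.Ap b) (hab : P.Lx a ⊆ P.Lx b)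
    (hU : ∀ C, ∀ᶠ k in (U : Filter ℕ), C < P.len a k) (h0 : ∃ c, Cfg P a U c) : False := by
  obtain ⟨c, hc, hmono⟩ := cfg_seq hU h0
  obtain ⟨C, K, L₀, hC, hsc⟩ := P.scb hb hap
  obtain ⟨⟨x, y⟩, hxy⟩ := Finite.exists_infinite_fiber fun i => ((c i).1, (c i).2.1)
  obtain ⟨I, hI, hcard⟩ := (Set.infinite_coe_iff.mp hxy).exists_subset_card_eq
    (K * (C * (4 * C + 1)) + 2)
  have hIx : ∀ i ∈ I, (c i).1 = x ∧ (c i).2.1 = y := fun i hi => by
    have := hI (Finset.mem_coe.mpr hi)
    simpa [Prod.ext_iff] using this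
  obtain ⟨i0, hi0⟩ : I.Nonempty := Finset.card_pos.mp (by omega)
  obtain ⟨Cx, hCx⟩ : Fast P a U x := (hIx i0 hi0).1 ▸ (hc i0).1
  obtain ⟨Cy, hCy⟩ : Fast P a U y := (hIx i0 hi0).2 ▸ (hc i0).2.1
  set Q := (Cx + Cy + 1) * (2 * C + 1) with hQ
  have hQ0 : 0 < Q := by positivity
  have hs : ∀ᶠ k in (U : Filter ℕ), ∀ i ∈ I, (K + 1) * Q * ((c i).2.2 (k + 0)).length < P.len a k :=
    (eventually_all_finset I).mpr fun i _ => (hc i).2.2.1.2 0 _
  obtain ⟨k, ⟨⟨h1, h2⟩, h3⟩, h4⟩ := (((hCx.and hCy).and hs).and (hU ((L₀ + 1) * Q))).exists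
  set L := P.len a k / Q with hLdef
  have hL0 : L₀ + 1 ≤ L := (Nat.le_div_iff_mul_le hQ0).mpr h4.le
  have hLpos : 0 < L := by omega
  have hLQ : L * Q ≤ P.len a k := Nat.div_mul_le_self _ _
  have hlen : ∀ (z : N) (Cz : ℕ), Cz ≤ Cx + Cy + 1 → P.len a k ≤ Cz * P.len z k →
      C * (L + 1) + L ≤ P.len z k := by
    intro z Cz hz hz'
    have e1 : (Cx + Cy + 1) * ((2 * C + 1) * L) ≤ (Cx + Cy + 1) * P.len z k :=
      calc (Cx + Cy + 1) * ((2 * C + 1) * L) = L * Q := by rw [hQ]; ring
        _ ≤ Cz * P.len z k := hLQ.trans hz'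
        _ ≤ _ := Nat.mul_le_mul_right _ hz
    have e2 := Nat.le_of_mul_le_mul_left e1 (by omega)
    nlinarith
  have hx := hlen x Cx (by omega) h1
  have hy := hlen y Cy (by omega) h2
  have hsL : ∀ i ∈ I, (K + 1) * ((c i).2.2 k).length ≤ L := fun i hi => by
    refine (Nat.le_div_iff_mul_le hQ0).mpr ?_
    have := h3 i hi
    rw [add_zero] at this
    calc (K + 1) * ((c i).2.2 k).length * Q = (K + 1) * Q * ((c i).2.2 k).length := by ring
      _ ≤ _ := this.le
  obtain ⟨t, hLR, hSP⟩ := hsc L (by omega)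
  have hf : ∀ z ∈ P.LL b t, ∀ z', z' <:+: z → z' ∈ P.LL b t := fun z hz z' h => P.ll_fac hz h
  set m := C * (L + 1) with hm
  set X := P.rT t k x with hX
  set Y := P.rT t k y with hY
  have hXl : X.length = P.len x k := P.length_rT t k x
  have hYl : Y.length = P.len y k := P.length_rT t k y
  set u := X.drop (X.length - m) with hu
  have hul : u.length = m := by
    rw [hu, List.length_drop]
    omega
  have hmem : ∀ i ∈ I, u ++ (((c i).2.2 k).map (res t) ++ Y) ∈ P.LL b t := fun i hi => by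
    have e1 := (hc i).2.2.2.2 k
    rw [(hIx i hi).1, (hIx i hi).2] at e1
    have e2 := P.map_mem_ll (hab e1) t
    refine hf _ e2 _ ⟨X.take (X.length - m), [], ?_⟩
    rw [List.append_nil, ← List.append_assoc, hu, List.take_append_drop, List.map_append,
      List.map_append, List.append_assoc]
    rfl
  have huL : u ∈ P.LL b t := hf _ (hmem i0 hi0) _ (List.prefix_append _ _).isInfix
  obtain ⟨hfin, hcount⟩ := ext_card hf hLR hSP hLpos huL hul.ge (r := m + (m + L)) (by omega)
    (P.ll_long b t _)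
  have hE : hfin.toFinset.card < I.card := by
    rw [← Set.ncard_eq_toFinset_card _ hfin, hcard]
    have e1 : m + (m + L) ≤ (4 * C + 1) * L := by
      rw [hm]
      nlinarith
    have e2 : K * (C * (m + (m + L))) + L ≤ (K * (C * (4 * C + 1)) + 1) * L :=
      calc K * (C * (m + (m + L))) + L ≤ K * (C * ((4 * C + 1) * L)) + L :=
            Nat.add_le_add_right (Nat.mul_le_mul_left _ (Nat.mul_le_mul_left _ e1)) _
        _ = _ := by ring
    have e3 := Nat.le_of_mul_le_mul_right (hcount.trans e2) hLpos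
    omega
  obtain ⟨i, hi, j, hj, hij, heq⟩ := Finset.exists_ne_map_eq_of_card_lt_of_maps_to hE
    (f := fun i => u ++ (((c i).2.2 k).map (res t) ++ Y).take (m + L)) fun i hi => by
      have hi' : i ∈ I := hi
      refine Finset.mem_coe.mpr (hfin.mem_toFinset.mpr ⟨hf _ (hmem i hi') _ ?_, ?_,
        List.prefix_append _ _⟩)
      · exact ((List.prefix_append_right_inj u).mpr (List.take_prefix _ _)).isInfix
      · rw [List.length_append, List.length_take, List.length_append, hul]
        omega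
  have heq' := List.append_cancel_left heq
  have key : ∀ i ∈ I, ∀ j ∈ I, i < j →
      (((c i).2.2 k).map (res t) ++ Y).take (m + L) =
        (((c j).2.2 k).map (res t) ++ Y).take (m + L) → False := by
    intro i _ j hj hlt h
    have e1 : ((c i).2.2 k).length < ((c j).2.2 k).length := hmono k hlt
    have e2 := hsL j hj
    have hv : Y.take m ∈ P.LL b t := by
      refine hf _ (hmem j hj) _ ?_
      exact (List.take_prefix m Y).isInfix.trans
        ((List.suffix_append _ _).trans (List.suffix_append _ _)).isInfix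
    refine no_period hf hLR hSP hLpos hv (by rw [List.length_take]; omega)
      (δ := ((c j).2.2 k).length - ((c i).2.2 k).length) (by omega) ?_
      (period_of (R := m + L) ?_ ?_ h)
    · calc K * (((c j).2.2 k).length - ((c i).2.2 k).length) ≤ (K + 1) * ((c j).2.2 k).length :=
            Nat.mul_le_mul (Nat.le_succ K) (Nat.sub_le _ _)
        _ ≤ L := e2
    · simp only [List.length_map]
      omega
    · simp only [List.length_map]
      nlinarith
  rcases lt_or_gt_of_ne hij with h | h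
  · exact key i hi j hj h heq'
  · exact key j hj i hi h heq'.symm

theorem one [Finite N] {b : N} (hb : P.Bot b) (hap : P.Ap b) (ha : P.Cl b a) {y : N}
    (hy : y ∈ P.ch a) : ∃ C, ∀ k, P.len a k ≤ C * P.len y k := by
  by_contra hne
  push Not at hne
  choose κ hκ using hne
  have h1 : ∀ C, ∀ᶠ k in (Ultrafilter.map κ (hyperfilter ℕ) : Filter ℕ),
      C * P.len y k < P.len a k := by
    intro C
    rw [Ultrafilter.coe_map, eventually_map]
    refine Nat.hyperfilter_le_atTop ?_
    filter_upwards [eventually_ge_atTop C] with n hn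
    exact lt_of_le_of_lt (Nat.mul_le_mul_right _ hn) (hκ n)
  have hU : ∀ C, ∀ᶠ k in (Ultrafilter.map κ (hyperfilter ℕ) : Filter ℕ), C < P.len a k := by
    intro C
    filter_upwards [h1 C] with k hk
    have := P.lt_len y k
    nlinarith
  refine contra hb hap ha.2 hU (cfg_init hU ha.1 hy ?_)
  rintro ⟨C, hC⟩
  obtain ⟨k, e1, e2⟩ := ((h1 C).and hC).exists
  omega

end CmpA

variable {N D : Type} [Finite N] (P : PS N D) {b : N}

theorem PS.cmp (hb : P.Bot b) (hap : P.Ap b) :
    ∃ C, ∀ a, P.Cl b a → ∀ y ∈ P.ch a, ∀ k, P.len a k ≤ C * P.len y k := by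
  have h : ∀ p : N × N, ∃ C, P.Cl b p.1 → p.2 ∈ P.ch p.1 →
      ∀ k, P.len p.1 k ≤ C * P.len p.2 k := by
    intro p
    by_cases h1 : P.Cl b p.1 ∧ p.2 ∈ P.ch p.1
    · obtain ⟨C, hC⟩ := CmpA.one hb hap h1.1 h1.2
      exact ⟨C, fun _ _ => hC⟩
    · exact ⟨0, fun h2 h3 => absurd ⟨h2, h3⟩ h1⟩
  choose C hC using h
  obtain ⟨B, hB⟩ := (Set.finite_range C).bddAbove
  exact ⟨B, fun a ha y hy k => (hC (a, y) ha hy k).trans
    (Nat.mul_le_mul_right _ (hB ⟨(a, y), rfl⟩))⟩

end Pool.Agent.P.MP_406085_lc
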