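import Pool.Agent.P.MP_406085_lc.Tok1
import Pool.Agent.P.MP_406085_lc.Split

/-!
Cutting is a good map.
-/

namespace Pool.Agent.P.MP_406085_lc

open Filter PowerSeries
open scoped Classical

namespace Tok2

variable {D : Type}

/-- The letters before the first separator. -/
def tok : List (Option D) → List D
  | [] => []
  | none :: _ => []
  | some d :: y => d :: tok y

theorem tok_enc (a : List D) (w : List (List D)) : tok (a.map some ++ enc w) = a := by
  induction a with
  | nil => cases w <;> simp [tok]
  | cons d a ih => simp [tok, ih]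

theorem res_cons {t : ℕ} {a b : List D} (h : res t a = res t b) (d : D) :
    res t (d :: a) = res t (d :: b) := by
  unfold res at h ⊢
  by_cases ha : a.length ≤ t <;> by_cases hb : b.length ≤ t
  · rw [if_pos ha, if_pos hb] at h
    rw [Option.some.inj h]
  · rw [if_pos ha, if_neg hb] at h
    exact absurd h (by simp)
  · rw [if_neg ha, if_pos hb] at h
    exact absurd h (by simp)
  · rw [if_neg (by simp; omega), if_neg (by simp; omega)]

theorem rec_tok_right [Finite D] (t : ℕ) : Rec fun y : List (Option D) => res t (tok y) := by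
  refine rec_right _ ((res_finite t).subset ?_) ?_
  · rintro _ ⟨y, rfl⟩
    exact ⟨_, rfl⟩
  · intro u v a h
    cases a with
    | none => rfl
    | some d => exact res_cons h d

/-- The output of one letter. -/
noncomputable def out (ρ : Rule D) (s : List (Option (List D))) :
    Option D → Option (List D) → List (Option (Option D))
  | none, r => if ρ.r ≤ s.length ∧ s ++ [r] ∉ ρ.G then [none, some none] else [some none]
  | some d, _ => [some (some d)]

theorem bad_iff (ρ : Rule D) (u : List (List D)) (a : List D) :
    ρ.bad u a ↔ ρ.r ≤ (ρ.st u).length ∧ ρ.st u ++ [res ρ.t a] ∉ ρ.G := by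
  unfold Rule.bad
  have : ρ.r ≤ (ρ.st u).length ↔ ρ.r ≤ u.length := by
    simp only [Rule.st, List.length_map, List.length_drop]
    omega
  rw [this]

theorem bim_tok (ρ : Rule D) (f : List (Option D) → List (Option (List D)))
    (g : List (Option D) → Option (List D)) (a : List D) (x w y : List (Option D)) :
    bim (fun x a y => out ρ (f x) a (g y)) x (a.map some ++ w) y =
      (a.map some).map some ++ bim (fun x a y => out ρ (f x) a (g y)) (x ++ a.map some) w y := by
  induction a generalizing x with
  | nil => simp
  | cons d a ih =>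
    rw [List.map_cons, List.cons_append, bim, ih, out]
    simp

theorem bim_enc (ρ : Rule D) (v : List (List D)) (f : List (Option D) → List (Option (List D)))
    (hf : ∀ w, f (enc w) = ρ.st (v ++ w)) (x u : List (List D)) :
    bim (fun x a y => out ρ (f x) a (res ρ.t (tok y))) (enc u) (enc x) [] =
      (enc (ρ.sp (v ++ u) x).1).map some ++ enc ((ρ.sp (v ++ u) x).2.map enc) := by
  induction x generalizing u with
  | nil => simp [bim, Rule.sp]
  | cons a w ih =>
    have e : enc u ++ [none] ++ a.map some = enc (u ++ [a]) := by simp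
    rw [enc_cons, bim, bim_tok ρ f (fun y => res ρ.t (tok y)), e, ih, List.append_nil, tok_enc, hf,
      out, Rule.sp, ← List.append_assoc v]
    by_cases hb : ρ.bad (v ++ u) a
    · rw [if_pos hb, if_pos ((bad_iff ρ _ _).mp hb)]
      simp
    · rw [if_neg hb, if_neg (fun h => hb ((bad_iff ρ _ _).mpr h))]
      simp

theorem flat_enc (z : List (List (List D))) :
    (enc (z.map enc)).flatMap Option.toList = enc z.flatten := by
  have h : ∀ y : List (Option D), (y.map some).flatMap Option.toList = y := by
    intro y
    induction y with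
    | nil => rfl
    | cons a y ih => simp [ih]
  induction z with
  | nil => simp
  | cons a z ih =>
    rw [List.map_cons, enc_cons, List.flatMap_cons, List.flatMap_append, h, ih, List.flatten_cons,
      enc_append]
    rfl

theorem getD_enc (z : List (List (List D))) (j : ℕ) :
    (z.map enc).getD j [] = enc (z.getD j []) := by
  induction z generalizing j with
  | nil => simp
  | cons a z ih =>
    cases j with
    | zero => simp
    | succ j => simpa using ih j

theorem getLastD_enc (z : List (List (List D))) :
    (z.map enc).getLastD [] = enc (z.getLastD []) := by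
  rw [List.getLastD_eq_getLast?, List.getLastD_eq_getLast?, List.getLast?_map]
  cases z.getLast? <;> simp

end Tok2

variable {D : Type} [Finite D] (ρ : Rule D) {u w : Sq D}

theorem gm_spl (v : List (List D)) : ∃ φ : List (Option D) → List (Option (Option D)), GM φ ∧
    ∀ x, φ (enc x) = enc ((ρ.spl v x).map enc) := by
  obtain ⟨f, hf, e⟩ := rec_tok ρ.t (fun x => ρ.st (v ++ x))
    (ρ.st_finite.subset (by rintro _ ⟨x, rfl⟩; exact ⟨_, rfl⟩))
    (fun x y a b h h' => by
      simp only [← List.append_assoc]
      exact ρ.st_snoc h h')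
  refine ⟨_, (gm_left [none]).comp (gm_bim' hf (Tok2.rec_tok_right ρ.t) (Tok2.out ρ)), fun x => ?_⟩
  have := Tok2.bim_enc ρ v f e x []
  rw [enc_nil, List.append_nil] at this
  rw [this, Rule.spl, List.map_cons, enc_cons]
  rfl

theorem HT.ep_st (hu : HT u) : EP fun n => ρ.st (u n) := by
  obtain ⟨f, hf, e⟩ := rec_tok ρ.t ρ.st ρ.st_finite fun x y a b h h' => ρ.st_snoc h h'
  simpa only [e] using HH.ep hu hf

theorem HT.spl (hu : HT u) (hw : HT w) : HT fun n => (ρ.spl (u n) (w n)).map enc := by
  have h1 : ∀ v, HT fun n => (ρ.spl v (w n)).map enc := fun v => by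
    obtain ⟨φ, hφ, e⟩ := gm_spl ρ v
    have := hφ.2 _ hw
    simp only [e] at this
    exact this
  have h2 := HT.select (hu.ep_st ρ)
    (y := fun s n => (ρ.spl (Function.invFun ρ.st s) (w n)).map enc) fun s => h1 _
  refine h2.congr (Eventually.of_forall fun n => ?_)
  have h3 : ρ.st (Function.invFun ρ.st (ρ.st (u n))) = ρ.st (u n) :=
    Function.invFun_eq ⟨u n, rfl⟩
  simp only [Rule.spl, ρ.sp_congr h3]

omit [Finite D] in
theorem HT.flat {z : ℕ → List (List (List D))} (h : HT fun n => (z n).map enc) :
    HT fun n => (z n).flatten := by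
  have := (gm_flatMap (Option.toList : Option (Option D) → _)).2 _ h
  simp only [Tok2.flat_enc] at this
  exact this

omit [Finite D] in
theorem HT.piece {z : ℕ → List (List (List D))} (h : HT fun n => (z n).map enc) (j : ℕ) :
    HT fun n => (z n).getD j [] := by
  have := h.getD j
  simp only [Tok2.getD_enc] at this
  exact this

theorem HT.ep_cnt (hu : HT u) (hw : HT w) (B : ℕ) : EP fun n => min B (ρ.cnt (u n) (w n)) := by
  refine (((hu.spl ρ hw).ep_len (B + 1)).comp (· - 1)).congr (Eventually.of_forall fun n => ?_)
  simp only [List.length_map, ρ.length_spl]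
  omega

theorem HT.pref (hu : HT u) (hw : HT w) (k : ℕ) : HT fun n => ρ.pref k (u n) (w n) := by
  have := (hu.spl ρ hw).take k
  simp only [← List.map_take] at this
  exact HT.flat this

theorem HT.hd (hw : HT w) : HT fun n => ρ.hd (w n) :=
  HT.piece ((ht_const []).spl ρ hw) 0

theorem HT.lastp (hw : HT w) : HT fun n => ρ.lastp (w n) := by
  have := ((ht_const []).spl ρ hw).getLastD
  simp only [Tok2.getLastD_enc] at this
  exact this

theorem HT.mid (hw : HT w) : HT fun n => (ρ.mid (w n)).map enc := by
  refine ((ht_const []).spl ρ hw).tail.dropLast.congr (Eventually.of_forall fun n => ?_)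
  simp [Rule.spl, Rule.mid, List.map_dropLast]

theorem HT.gap (hu : HT u) (hw : HT w) : HT fun n => (ρ.gap (u n) (w n)).map enc := by
  have h1 : HT fun n => ρ.lastp (u n) ++ (ρ.sp (u n) (w n)).1 :=
    (hu.lastp ρ).append (HT.piece (hu.spl ρ hw) 0)
  refine ((HH.single h1).append (hu.spl ρ hw).tail).congr (Eventually.of_forall fun n => ?_)
  simp [Rule.spl, ρ.gap_eq]

end Pool.Agent.P.MP_406085_lc
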