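import Pool.Agent.P.MP_406085_lc.Ext
import Pool.Agent.P.MP_406085_lc.Tok2

/-!
Collapsing a token system along a cutting rule.
-/

namespace Pool.Agent.P.MP_406085_lc

open Filter PowerSeries
open scoped Classical

namespace ColA

variable {N Y D : Type} {sk : N → List N}

/-- Drop the last entry or not. -/
def fin {α : Type} (c : Bool) (L : List α) : List α := if c then L.dropLast else L

theorem fin_append {α : Type} (c : Bool) (L : List α) {L' : List α} (h : L' ≠ []) :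
    fin c (L ++ L') = L ++ fin c L' := by
  cases c
  · rfl
  · exact List.dropLast_append_of_ne_nil h

theorem fin_map {α β : Type} (c : Bool) (L : List α) (f : α → β) :
    (fin c L).map f = fin c (L.map f) := by
  cases c
  · rfl
  · exact List.map_dropLast

theorem mem_fin {α : Type} {c : Bool} {L : List α} {a : α} (h : a ∈ fin c L) : a ∈ L := by
  cases c
  · exact h
  · exact List.mem_of_mem_dropLast h

theorem length_fin {α : Type} (c : Bool) (L : List α) : (fin c L).length ≤ L.length := by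
  cases c
  · exact le_rfl
  · simp [fin]

theorem gap_ne (ρ : Rule D) (u w : List (List D)) : ρ.gap u w ≠ [] := by
  rw [ρ.gap_eq]; simp

theorem length_gap (ρ : Rule D) (u w : List (List D)) : (ρ.gap u w).length = ρ.cnt u w + 1 := by
  rw [ρ.gap_eq]; simp [Rule.cnt]

theorem gap_infix (ρ : Rule D) {u w z : List (List D)} (h : z ∈ ρ.gap u w) : z <:+: u ++ w :=
  ρ.mem_spl (List.mem_of_mem_drop h)

/-- The new rule. -/
noncomputable def nr (ρ : Rule D) (T : N → Sq D) (q : ℕ) (c : Bool) :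
    Sq D → Sq D → List (N × Sq D) → Rl N (Option D)
  | u, w, [] => ⟨fun n => (fin c (ρ.gap (u (q + n)) (w (q + n)))).map enc, []⟩
  | u, w, e :: l => ⟨fun n => (ρ.gap (u (q + n)) (w (q + n) ++ ρ.hd (T e.1 (q + n)))).map enc,
      (e.1, (nr ρ T q c (T e.1) e.2 l).g0) :: (nr ρ T q c (T e.1) e.2 l).l⟩

/-- The new blocks. -/
noncomputable def nT (ρ : Rule D) (T : N → Sq D) (q : ℕ) (x : N) : Sq (Option D) :=
  fun n => (ρ.mid (T x (q + n))).map enc

theorem nr_fst (ρ : Rule D) (T : N → Sq D) (q : ℕ) (c : Bool) (l : List (N × Sq D)) :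
    ∀ u w, (nr ρ T q c u w l).l.map Prod.fst = l.map Prod.fst := by
  induction l with
  | nil => exact fun _ _ => rfl
  | cons e l ih => intro u w; simp only [nr, List.map_cons, ih]

theorem nr_ev (ρ : Rule D) (T : N → Sq D) (q : ℕ) (c : Bool) (n : ℕ) (l : List (N × Sq D))
    (hl : ∀ e ∈ l, 1 ≤ ρ.cnt [] (T e.1 (q + n))) : ∀ u w,
    (nr ρ T q c u w l).ev (nT ρ T q) n =
      (fin c (ρ.gap (u (q + n)) ((⟨w, l⟩ : Rl N D).ev T (q + n)))).map enc := by
  induction l with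
  | nil => intro u w; simp [nr, Rl.ev]
  | cons e l ih =>
    intro u w
    have h := ih (fun e' he' => hl e' (List.mem_cons_of_mem _ he')) (T e.1) e.2
    have h2 := ρ.gap_step (hl e List.mem_cons_self) (u (q + n)) (w (q + n))
      ((⟨e.2, l⟩ : Rl N D).ev T (q + n))
    simp only [Rl.ev] at h h2 ⊢
    simp only [nr, List.flatMap_cons, List.append_assoc] at h2 ⊢
    rw [h, h2, ← List.append_assoc (ρ.gap _ _), fin_append _ _ (gap_ne _ _ _)]
    simp only [List.map_append, List.append_assoc, nT]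

theorem ht_sh {z : Sq D} (h : HT z) (q : ℕ) : HT fun n => z (q + n) := by
  simpa using h.sub q 1

theorem nr_last (ρ : Rule D) (T : N → Sq D) (q : ℕ) (c : Bool) (l : List (N × Sq D)) :
    ∀ u w y γ', (nr ρ T q c u w l).l.getLast? = some (y, γ') → ∃ γ, l.getLast? = some (y, γ) ∧
      γ' = fun n => (fin c (ρ.gap (T y (q + n)) (γ (q + n)))).map enc := by
  induction l with
  | nil => intro u w y γ' h; simp [nr] at h
  | cons e l ih =>
    intro u w y γ' h
    cases l with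
    | nil =>
      simp only [nr, List.getLast?_singleton, Option.some.injEq, Prod.mk.injEq] at h
      obtain ⟨h1, h2⟩ := h
      subst h1
      exact ⟨e.2, by simp, h2.symm⟩
    | cons e' l =>
      have h' : (nr ρ T q c (T e.1) e.2 (e' :: l)).l.getLast? = some (y, γ') := by
        rw [nr] at h
        rw [nr] at h ⊢
        simpa only [List.getLast?_cons_cons] using h
      obtain ⟨γ, h1, h2⟩ := ih _ _ _ _ h'
      exact ⟨γ, by rw [List.getLast?_cons_cons]; exact h1, h2⟩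

variable [Finite D] (A : ATS sk Y D) (ρ : Rule D) (q : ℕ)

theorem nr_ok (c : Bool) (l : List (N × Sq D))
    (hl : ∀ e ∈ l, e.1 ∈ A.wild ρ ∧ A.Gen (A.act \ A.wild ρ) e.2) :
    ∀ u w, HT u → A.Gen (A.act \ A.wild ρ) w → (nr ρ A.T q c u w l).OK (A.wild ρ) := by
  induction l with
  | nil =>
    intro u w hu hw
    obtain ⟨B, hB⟩ := hw.bdd A ρ
    refine ⟨⟨?_, B + 1, fun n => ?_⟩, by simp [nr]⟩
    · have h := (ht_sh hu q).gap ρ (ht_sh (hw.ht A Set.sdiff_subset) q)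
      simp only [nr, fin_map]
      cases c
      · exact h
      · exact h.dropLast
    · simp only [nr, List.length_map]
      refine (length_fin _ _).trans ?_
      rw [length_gap]
      exact Nat.succ_le_succ (hB _ _)
  | cons e l ih =>
    intro u w hu hw
    obtain ⟨B, hB⟩ := hw.bdd A ρ
    obtain ⟨h1, h2⟩ := hl e List.mem_cons_self
    have hT := A.hT _ h1.1
    have h := ih (fun e' he' => hl e' (List.mem_cons_of_mem _ he')) (A.T e.1) e.2 hT h2
    refine ⟨⟨?_, B + ρ.r + 1, fun n => ?_⟩, ?_⟩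
    · exact (ht_sh hu q).gap ρ ((ht_sh (hw.ht A Set.sdiff_subset) q).append ((ht_sh hT q).hd ρ))
    · simp only [nr, List.length_map]
      rw [length_gap]
      have := ρ.cnt_hd (u (q + n)) (w (q + n)) (A.T e.1 (q + n))
      have := hB (u (q + n)) (q + n)
      omega
    · intro e' he'
      simp only [nr, List.mem_cons] at he'
      rcases he' with rfl | he'
      · exact ⟨h1, h.1⟩
      · exact h.2 e' he'

/-- All tokens of the sequence are tokens of the system. -/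
def TK (w : Sq D) : Prop := ∀ n, ∀ τ ∈ w n, τ ∈ A.Tok

/-- The tokens of the gaps of a rule come from finitely many sequences of pieces. -/
def QZ (R : Rl N (Option D)) : Prop := ∃ Z : Set (Sq D), Z.Finite ∧ (∀ z ∈ Z, A.Pc ρ z) ∧
  ∀ n τ, (τ ∈ R.g0 n ∨ ∃ e ∈ R.l, τ ∈ e.2 n) → ∃ z ∈ Z, τ = enc (z n)

omit [Finite D] in
theorem tk_T {x : N} (hx : x ∈ A.act) : TK A (A.T x) := fun n _ h => Or.inl ⟨x, hx, n, h⟩

omit [Finite D] in
theorem pc_fam {u w : Sq D} (hu : u = (fun _ => []) ∨ ∃ x ∈ A.wild ρ, u = A.T x)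
    (hw : A.Gen A.act w) (hk : TK A w) (B : ℕ) : ∃ Z : Set (Sq D), Z.Finite ∧
      (∀ z ∈ Z, A.Pc ρ z) ∧ ∀ n L L', L.length ≤ B → ρ.gap (u (q + n)) (w (q + n)) = L ++ L' →
        ∀ a ∈ L, ∃ z ∈ Z, a = z n := by
  refine ⟨(fun j n => (ρ.gap (u (q + n)) (w (q + n))).getD j []) '' Set.Iio B,
    (Set.finite_Iio B).image _, ?_, ?_⟩
  · rintro z ⟨j, -, rfl⟩
    refine ⟨fun n τ hτ => ?_, j, q, u, w, hu, hw, fun _ => rfl⟩
    by_cases hj : j < (ρ.gap (u (q + n)) (w (q + n))).length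
    · simp only [List.getD_eq_getElem _ _ hj] at hτ
      have h := (gap_infix ρ (List.getElem_mem hj)).subset hτ
      rcases List.mem_append.1 h with h | h
      · rcases hu with rfl | ⟨x, hx, rfl⟩
        · simp at h
        · exact tk_T A hx.1 _ _ h
      · exact hk _ _ h
    · simp only [List.getD_eq_default _ _ (not_lt.1 hj)] at hτ
      simp at hτ
  · intro n L L' hL e a ha
    obtain ⟨j, hj, rfl⟩ := List.getElem_of_mem ha
    refine ⟨_, ⟨j, lt_of_lt_of_le hj hL, rfl⟩, ?_⟩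
    simp only [e]
    rw [List.getD_append _ _ _ _ hj, List.getD_eq_getElem _ _ hj]

omit [Finite D] in
theorem nr_qz (hq : ∀ x ∈ A.wild ρ, ∀ n, 1 ≤ ρ.cnt [] (A.T x (q + n))) (c : Bool)
    (l : List (N × Sq D))
    (hl : ∀ e ∈ l, e.1 ∈ A.wild ρ ∧ A.Gen (A.act \ A.wild ρ) e.2 ∧ TK A e.2) :
    ∀ u w, (u = (fun _ => []) ∨ ∃ x ∈ A.wild ρ, u = A.T x) → A.Gen (A.act \ A.wild ρ) w →
      TK A w → QZ A ρ (nr ρ A.T q c u w l) := by
  induction l with
  | nil =>
    intro u w hu hw hk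
    obtain ⟨B, hB⟩ := hw.bdd A ρ
    obtain ⟨Z, h1, h2, h3⟩ := pc_fam A ρ q hu (hw.mono A Set.sdiff_subset) hk (B + 1)
    refine ⟨Z, h1, h2, fun n τ hτ => ?_⟩
    simp only [nr, List.not_mem_nil, false_and, exists_false, or_false, List.mem_map] at hτ
    obtain ⟨a, ha, rfl⟩ := hτ
    obtain ⟨z, hz, rfl⟩ := h3 n _ [] (by rw [length_gap]; exact Nat.succ_le_succ (hB _ _))
      (List.append_nil _).symm a (mem_fin ha)
    exact ⟨z, hz, rfl⟩
  | cons e l ih =>
    intro u w hu hw hk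
    obtain ⟨B, hB⟩ := hw.bdd A ρ
    obtain ⟨g1, g2, g3⟩ := hl e List.mem_cons_self
    obtain ⟨Z', h1', h2', h3'⟩ := ih (fun e' he' => hl e' (List.mem_cons_of_mem _ he'))
      (A.T e.1) e.2 (Or.inr ⟨_, g1, rfl⟩) g2 g3
    have hw' : A.Gen A.act fun n => w n ++ A.T e.1 n := fun Q q1 q2 q3 =>
      q3 _ _ (hw.mono A Set.sdiff_subset Q q1 q2 q3) (q2 _ g1.1)
    have hk' : TK A fun n => w n ++ A.T e.1 n := fun n τ hτ =>
      (List.mem_append.1 hτ).elim (hk n τ) (tk_T A g1.1 n τ)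
    obtain ⟨Z, h1, h2, h3⟩ := pc_fam A ρ q hu hw' hk' (B + ρ.r + 1)
    refine ⟨Z ∪ Z', h1.union h1', fun z hz => hz.elim (h2 z) (h2' z), fun n τ hτ => ?_⟩
    simp only [nr, List.mem_cons, List.mem_map, exists_eq_or_imp] at hτ
    rcases hτ with ⟨a, ha, rfl⟩ | hτ
    · have e1 := ρ.gap_step (hq _ g1 n) (u (q + n)) (w (q + n)) []
      rw [List.append_nil, List.append_assoc] at e1
      obtain ⟨z, hz, rfl⟩ := h3 n _ _ (by
        rw [length_gap]
        have := ρ.cnt_hd (u (q + n)) (w (q + n)) (A.T e.1 (q + n))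
        have := hB (u (q + n)) (q + n)
        omega) e1 a ha
      exact ⟨z, Or.inl hz, rfl⟩
    · obtain ⟨z, hz, e1⟩ := h3' n τ hτ
      exact ⟨z, Or.inr hz, e1⟩

/-- The regrouped rule. -/
noncomputable def r1 (R : Rl N D) : Rl N D := rg A.T (A.wild ρ) R.g0 R.l

/-- The new rule for a rule of the system. -/
noncomputable def nR (c : Bool) (R : Rl N D) : Rl N (Option D) :=
  nr ρ A.T q c (fun _ => []) (r1 A ρ R).g0 (r1 A ρ R).l

theorem nR_ok (c : Bool) {R : Rl N D} (hR : R.OK A.act) : (nR A ρ q c R).OK (A.wild ρ) :=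
  nr_ok A ρ q c _ (fun e he => ((A.gen_rg hR _).2 e he).2) _ _ (ht_const []) (A.gen_rg hR _).1

omit [Finite D] in
theorem nR_ev (hq : ∀ x ∈ A.wild ρ, ∀ n, 1 ≤ ρ.cnt [] (A.T x (q + n))) (c : Bool) {R : Rl N D}
    (hR : R.OK A.act) (n : ℕ) : (nR A ρ q c R).ev (nT ρ A.T q) n =
      (fin c (ρ.spl [] (R.ev A.T (q + n)))).map enc := by
  rw [nR, nr_ev ρ A.T q c n (r1 A ρ R).l fun e he => hq _ ((A.gen_rg hR _).2 e he).2.1 n,
    ρ.gap_nil]
  exact congrArg (fun w => (fin c (ρ.spl [] w)).map enc) (rg_ev A.T (A.wild ρ) R.g0 R.l (q + n))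

omit [Finite D] in
theorem nR_qz (hq : ∀ x ∈ A.wild ρ, ∀ n, 1 ≤ ρ.cnt [] (A.T x (q + n))) (c : Bool) {R : Rl N D}
    (hR : R.OK A.act) (hk : TK A (R.ev A.T)) : QZ A ρ (nR A ρ q c R) := by
  have hk' : TK A ((r1 A ρ R).ev A.T) := fun n τ hτ =>
    hk n τ (by rw [r1, rg_ev] at hτ; exact hτ)
  refine nr_qz A ρ q hq c _ (fun e he => ⟨((A.gen_rg hR _).2 e he).2.1,
    ((A.gen_rg hR _).2 e he).2.2, fun n τ hτ => hk' n τ ?_⟩) _ _ (Or.inl rfl) (A.gen_rg hR _).1
    fun n τ hτ => hk' n τ (List.mem_append_left _ hτ)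
  exact List.mem_append_right _ (List.mem_flatMap.2 ⟨e, he, List.mem_append_right _ hτ⟩)

omit [Finite D] in
theorem nR_fst (c : Bool) (R : Rl N D) :
    (nR A ρ q c R).l.map Prod.fst = (R.l.map Prod.fst).filter (· ∈ A.wild ρ) := by
  rw [nR, nr_fst, r1, rg_fst]

/-- The new rules of the letters. -/
noncomputable def nH (x : N) : Rl N (Option D) :=
  ⟨fun n => ((nR A ρ q true (A.H x)).g0 n).tail, (nR A ρ q true (A.H x)).l⟩

omit [Finite D] in
theorem g0_ne {u w : Sq D} {l : List (N × Sq D)} (hl : l ≠ []) (c : Bool) (n : ℕ) :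
    (nr ρ A.T q c u w l).g0 n ≠ [] := by
  cases l with
  | nil => exact absurd rfl hl
  | cons e l => simpa [nr] using gap_ne ρ _ _

omit [Finite D] in
theorem nH_step [Finite N] (hs : Sk sk) (hq : ∀ x ∈ A.wild ρ, ∀ n, 1 ≤ ρ.cnt [] (A.T x (q + n)))
    {x : N} (hx : x ∈ A.wild ρ) (n : ℕ) :
    nT ρ A.T q x (n + 1) = (nH A ρ q x).ev (nT ρ A.T q) n := by
  have hl : (r1 A ρ (A.H x)).l ≠ [] := by
    obtain ⟨y, h1, h2⟩ := (A.wild_tendsto hs ρ hx).2
    intro h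
    have h3 : y ∈ (r1 A ρ (A.H x)).l.map Prod.fst := by
      rw [r1, rg_fst]
      exact List.mem_filter.2 ⟨h1, by simpa using h2⟩
    simp [h] at h3
  have h := nR_ev A ρ q hq true (A.ok x hx.1) n
  rw [← A.step x hx.1] at h
  have h2 : (nH A ρ q x).ev (nT ρ A.T q) n = ((nR A ρ q true (A.H x)).ev (nT ρ A.T q) n).tail :=
    (List.tail_append_of_ne_nil (g0_ne A ρ q hl true n)).symm
  rw [h2, h, ← List.map_tail, nT, Rule.mid, Rule.spl, fin, if_pos rfl, ← add_assoc]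
  congr 1
  cases (ρ.sp [] (A.T x (q + n + 1))).2 <;> simp

/-- The collapsed system. -/
noncomputable def col [Finite N] (hs : Sk sk)
    (hq : ∀ x ∈ A.wild ρ, ∀ n, 1 ≤ ρ.cnt [] (A.T x (q + n))) : ATS sk Y (Option D) where
  act := A.wild ρ
  T := nT ρ A.T q
  H := nH A ρ q
  top y := nR A ρ q false (A.top y)
  up _ _ h hy := A.wild_up ρ h hy
  hT x hx := (ht_sh (A.hT x hx.1) q).mid ρ
  ok x hx := by
    obtain ⟨⟨h1, B, hB⟩, h2⟩ := nR_ok A ρ q true (A.ok x hx.1)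
    exact ⟨⟨h1.tail, B, fun n => by
      have := hB n
      simp only [nH, List.length_tail] at this ⊢
      omega⟩, h2⟩
  skel x hx := by
    rw [nH, nR_fst, A.skel x hx.1, List.filter_filter]
    refine List.filter_congr fun y _ => ?_
    by_cases h : y ∈ A.wild ρ
    · simp [h, h.1]
    · simp [h]
  step x hx n := nH_step A ρ q hs hq hx n
  topok y := nR_ok A ρ q false (A.topok y)

end ColA

variable {N Y D : Type} [Finite N] [Finite Y] [Finite D] {sk : N → List N}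

open ColA in
theorem ATS.collapse (hs : Sk sk) (A : ATS sk Y D) (ρ : Rule D) :
    ∃ (q : ℕ) (A' : ATS sk Y (Option D)), A'.act = A.wild ρ ∧
      (∀ y n, A'.W y n = (ρ.spl [] (A.W y (q + n))).map enc) ∧
      (∀ τ ∈ A'.Tok, ∃ z v, τ = enc z ∧ z ∈ ρ.spl [] v ∧ ∀ σ ∈ z, σ ∈ A.Tok) ∧
      (∃ (Z : Set (Sq D)) (Φ : Set (List (Option D))), Z.Finite ∧ Φ.Finite ∧
        (∀ z ∈ Z, A.Pc ρ z) ∧ ∀ τ ∈ A'.Tok, τ ∈ Φ ∨ ∃ z ∈ Z, ∃ n, τ = enc (z n)) ∧
      (A.wild ρ = A.act → (∀ x ∈ A'.pushL, x ∈ A.pushL ∧ ¬ A.KillL ρ x) ∧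
        ∀ x ∈ A'.pushR, x ∈ A.pushR ∧ ¬ A.KillR ρ x) := by
  obtain ⟨q, hq⟩ : ∃ q, ∀ x ∈ A.wild ρ, ∀ n, 1 ≤ ρ.cnt [] (A.T x (q + n)) := by
    have h : ∀ᶠ n in atTop, ∀ x, x ∈ A.wild ρ → 1 ≤ ρ.cnt [] (A.T x n) :=
      eventually_all.2 fun x => by
        by_cases hx : x ∈ A.wild ρ
        · exact ((A.wild_tendsto hs ρ hx).1.eventually_ge_atTop 1).mono fun _ h _ => h
        · exact Eventually.of_forall fun _ h => absurd h hx
    obtain ⟨q, hq⟩ := eventually_atTop.1 h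
    exact ⟨q, fun x hx n => hq _ (Nat.le_add_right _ _) x hx⟩
  have hW : ∀ y n, (col A ρ q hs hq).W y n = (ρ.spl [] (A.W y (q + n))).map enc := fun y n =>
    nR_ev A ρ q hq false (A.topok y) n
  have hsh : Tendsto (fun n => q + n) atTop atTop := 
    tendsto_atTop_mono (fun n => Nat.le_add_left n q) tendsto_id
  refine ⟨q, col A ρ q hs hq, rfl, hW, ?_, ?_, fun hw => ⟨?_, ?_⟩⟩
  · rintro τ (⟨x, hx, n, hτ⟩ | ⟨y, n, hτ⟩)
    · obtain ⟨z, hz, rfl⟩ := List.mem_map.1 hτ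
      have hz' : z ∈ ρ.spl [] (A.T x (q + n)) :=
        List.mem_cons_of_mem _ (List.mem_of_mem_dropLast hz)
      exact ⟨z, _, rfl, hz', fun σ hσ => Or.inl ⟨x, hx.1, _, (ρ.mem_spl hz').subset hσ⟩⟩
    · rw [hW] at hτ
      obtain ⟨z, hz, rfl⟩ := List.mem_map.1 hτ
      exact ⟨z, _, rfl, hz, fun σ hσ => Or.inr ⟨y, _, (ρ.mem_spl hz).subset hσ⟩⟩
  · have h1 : ∀ x : A.wild ρ, QZ A ρ (nR A ρ q true (A.H x)) := fun x =>
      nR_qz A ρ q hq true (A.ok x x.2.1) fun n τ hτ =>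
        Or.inl ⟨x, x.2.1, n + 1, by rw [A.step x x.2.1]; exact hτ⟩
    have h2 : ∀ y, QZ A ρ (nR A ρ q false (A.top y)) := fun y =>
      nR_qz A ρ q hq false (A.topok y) fun n τ hτ => Or.inr ⟨y, n, hτ⟩
    choose Z1 a1 a2 a3 using h1
    choose Z2 b1 b2 b3 using h2
    have key : ∀ n, ∀ x ∈ A.wild ρ, ∀ τ ∈ nT ρ A.T q x n, τ ∈ (⋃ x, {τ | τ ∈ nT ρ A.T q x 0}) ∨
        ∃ z ∈ (⋃ x, Z1 x) ∪ ⋃ y, Z2 y, ∃ n, τ = enc (z n) := by
      intro n
      induction n with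
      | zero => exact fun x _ τ hτ => Or.inl (Set.mem_iUnion.2 ⟨x, hτ⟩)
      | succ n ih =>
        intro x hx τ hτ
        rw [nH_step A ρ q hs hq hx n] at hτ
        have hz : ∀ h : τ ∈ (nR A ρ q true (A.H x)).g0 n ∨
            ∃ e ∈ (nR A ρ q true (A.H x)).l, τ ∈ e.2 n,
            ∃ z ∈ (⋃ x, Z1 x) ∪ ⋃ y, Z2 y, ∃ n, τ = enc (z n) := fun h => by
          obtain ⟨z, hz, e⟩ := a3 ⟨x, hx⟩ n τ h
          exact ⟨z, Or.inl (Set.mem_iUnion.2 ⟨_, hz⟩), n, e⟩
        rcases List.mem_append.1 hτ with h | h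
        · exact Or.inr (hz (Or.inl (List.mem_of_mem_tail h)))
        · obtain ⟨e, he, h⟩ := List.mem_flatMap.1 h
          rcases List.mem_append.1 h with h | h
          · exact ih e.1 ((nR_ok A ρ q true (A.ok x hx.1)).2 e he).1 τ h
          · exact Or.inr (hz (Or.inr ⟨e, he, h⟩))
    refine ⟨(⋃ x, Z1 x) ∪ ⋃ y, Z2 y, ⋃ x, {τ | τ ∈ nT ρ A.T q x 0},
      (Set.finite_iUnion a1).union (Set.finite_iUnion b1),
      Set.finite_iUnion fun x => List.finite_toSet _, ?_, ?_⟩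
    · rintro z (hz | hz)
      · obtain ⟨x, hx⟩ := Set.mem_iUnion.1 hz
        exact a2 x z hx
      · obtain ⟨y, hy⟩ := Set.mem_iUnion.1 hz
        exact b2 y z hy
    · rintro τ (⟨x, hx, n, hτ⟩ | ⟨y, n, hτ⟩)
      · exact key n x hx τ hτ
      · have hz : ∀ h : τ ∈ (nR A ρ q false (A.top y)).g0 n ∨
            ∃ e ∈ (nR A ρ q false (A.top y)).l, τ ∈ e.2 n,
            ∃ z ∈ (⋃ x, Z1 x) ∪ ⋃ y, Z2 y, ∃ n, τ = enc (z n) := fun h => by
          obtain ⟨z, hz, e⟩ := b3 y n τ h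
          exact ⟨z, Or.inr (Set.mem_iUnion.2 ⟨_, hz⟩), n, e⟩
        rcases List.mem_append.1 hτ with h | h
        · exact Or.inr (hz (Or.inl h))
        · obtain ⟨e, he, h⟩ := List.mem_flatMap.1 h
          rcases List.mem_append.1 h with h | h
          · exact key n e.1 ((nR_ok A ρ q false (A.topok y)).2 e he).1 τ h
          · exact Or.inr (hz (Or.inr ⟨e, he, h⟩))
  · rintro x ⟨hx, h1, h2⟩
    have hx' : x ∈ A.wild ρ := hx
    have hr : r1 A ρ (A.H x) = A.H x :=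
      rg_self _ _ _ _ fun e he => hw ▸ ((A.ok x hx'.1).2 e he).1
    have hc : (col A ρ q hs hq).ch x = A.ch x := by
      change (nR A ρ q true (A.H x)).l.map Prod.fst = _
      rw [nR, nr_fst, hr]; rfl
    rw [hc] at h1
    have h3 : ∃ᶠ n in atTop, ρ.cnt [] ((A.H x).g0 n ++ ρ.hd (A.T x n)) ≠ 0 := by
      refine hsh.frequently (h2.mono fun n hn => ?_)
      change ((nR A ρ q true (A.H x)).g0 n).tail ≠ [] at hn
      rw [nR, hr] at hn
      obtain ⟨e, l, hl⟩ : ∃ e l, (A.H x).l = e :: l := by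
        cases h : (A.H x).l with
        | nil => simp [ATS.ch, h] at h1
        | cons e l => exact ⟨e, l, rfl⟩
      have he : e.1 = x := by simpa [ATS.ch, hl] using h1
      rw [hl, nr, he] at hn
      intro h0
      apply hn
      apply List.eq_nil_of_length_eq_zero
      rw [List.length_tail, List.length_map, length_gap, h0]
    refine ⟨⟨hx'.1, h1, h3.mono fun n hn h0 => hn ?_⟩, fun hk => h3 (hk.mono fun n hn h => h hn)⟩
    rw [h0, List.nil_append, ρ.cnt_nil_hd]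
  · rintro x ⟨hx, γ', h1, h2⟩
    have hx' : x ∈ A.wild ρ := hx
    have hr : r1 A ρ (A.H x) = A.H x :=
      rg_self _ _ _ _ fun e he => hw ▸ ((A.ok x hx'.1).2 e he).1
    change (nR A ρ q true (A.H x)).l.getLast? = _ at h1
    rw [nR, hr] at h1
    obtain ⟨γ, h3, rfl⟩ := nr_last _ _ _ _ _ _ _ _ _ h1
    have h4 : ∃ᶠ n in atTop, ρ.cnt (A.T x n) (γ n) ≠ 0 := by
      refine hsh.frequently (h2.mono fun n hn h0 => hn ?_)
      apply List.eq_nil_of_length_eq_zero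
      rw [List.length_map, fin, if_pos rfl, List.length_dropLast, length_gap, h0]
    refine ⟨⟨hx'.1, γ, h3, h4.mono fun n hn h0 => hn ?_⟩,
      fun hk => h4 ((hk γ h3).mono fun n hn h => h hn)⟩
    rw [h0, ρ.cnt_nil]

end Pool.Agent.P.MP_406085_lc
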