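import Pool.Agent.Lib.Helper43.CompFP

/-!
Integer arithmetic is primitive recursive; `fun_prop` lemmas for `Computable`.
-/

namespace Pool.Agent.P.MP_406085_lc.CZ

theorem encode_ofNat (n : ℕ) : Encodable.encode (Int.ofNat n) = 2 * n := by
  change Equiv.natSumNatEquivNat (Sum.inl n) = _
  simp

theorem encode_negSucc (n : ℕ) : Encodable.encode (Int.negSucc n) = 2 * n + 1 := by
  change Equiv.intEquivNat _ = _
  simp [Equiv.intEquivNat, Equiv.intEquivNatSumNat]

theorem primrec_int_toNat : Primrec (fun a : ℤ => a.toNat) := by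
  have h : Primrec (fun n : ℕ => if n % 2 = 0 then n / 2 else 0) :=
    Primrec.ite (Primrec.eq.comp (Primrec.nat_mod.comp Primrec.id (Primrec.const 2))
      (Primrec.const 0)) (Primrec.nat_div.comp Primrec.id (Primrec.const 2)) (Primrec.const 0)
  refine (h.comp Primrec.encode).of_eq fun k => ?_
  rcases k with n | n
  · rw [encode_ofNat, if_pos (by omega)]
    simp
  · rw [encode_negSucc, if_neg (by omega)]
    simp

theorem primrec_int_negToNat : Primrec (fun a : ℤ => (-a).toNat) := by
  have h : Primrec (fun n : ℕ => if n % 2 = 0 then 0 else n / 2 + 1) :=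
    Primrec.ite (Primrec.eq.comp (Primrec.nat_mod.comp Primrec.id (Primrec.const 2))
      (Primrec.const 0)) (Primrec.const 0)
      (Primrec.succ.comp (Primrec.nat_div.comp Primrec.id (Primrec.const 2)))
  refine (h.comp Primrec.encode).of_eq fun k => ?_
  rcases k with n | n
  · rw [encode_ofNat, if_pos (by omega)]
    simp
  · rw [encode_negSucc, if_neg (by omega)]
    have : -Int.negSucc n = ((n + 1 : ℕ) : ℤ) := rfl
    rw [this, Int.toNat_natCast]
    omega

theorem primrec_int_subNat : Primrec₂ (fun a b : ℕ => (a : ℤ) - b) := by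
  have h : Primrec (fun p : ℕ × ℕ => if p.2 ≤ p.1 then 2 * (p.1 - p.2) else 2 * (p.2 - p.1) - 1) :=
    Primrec.ite (Primrec.nat_le.comp Primrec.snd Primrec.fst)
      (Primrec.nat_mul.comp (Primrec.const 2) (Primrec.nat_sub.comp Primrec.fst Primrec.snd))
      (Primrec.nat_sub.comp (Primrec.nat_mul.comp (Primrec.const 2)
        (Primrec.nat_sub.comp Primrec.snd Primrec.fst)) (Primrec.const 1))
  refine Primrec.encode_iff.1 (h.of_eq fun p => ?_)
  obtain ⟨a, b⟩ := p
  simp only
  split_ifs with hab
  · have : (a : ℤ) - b = Int.ofNat (a - b) := by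
      simp only [Int.ofNat_eq_natCast]; omega
    rw [this, encode_ofNat]
  · have : (a : ℤ) - b = Int.negSucc (b - a - 1) := by
      rw [Int.negSucc_eq]; omega
    rw [this, encode_negSucc]; omega

theorem primrec_int_cast : Primrec (fun a : ℕ => (a : ℤ)) :=
  (primrec_int_subNat.comp Primrec.id (Primrec.const 0)).of_eq fun a => by simp

theorem primrec_int_neg : Primrec (fun a : ℤ => -a) :=
  (primrec_int_subNat.comp primrec_int_negToNat primrec_int_toNat).of_eq fun a => by omega

theorem primrec_int_add : Primrec₂ (fun a b : ℤ => a + b) :=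
  (primrec_int_subNat.comp
    (Primrec.nat_add.comp (primrec_int_toNat.comp Primrec.fst) (primrec_int_toNat.comp Primrec.snd))
    (Primrec.nat_add.comp (primrec_int_negToNat.comp Primrec.fst)
      (primrec_int_negToNat.comp Primrec.snd))).of_eq fun p => by
    push_cast; omega

theorem primrec_int_sub : Primrec₂ (fun a b : ℤ => a - b) :=
  (primrec_int_add.comp Primrec.fst (primrec_int_neg.comp Primrec.snd)).of_eq fun p => by
    simp only [sub_eq_add_neg]

theorem primrec_int_mul : Primrec₂ (fun a b : ℤ => a * b) :=
  (primrec_int_subNat.comp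
    (Primrec.nat_add.comp
      (Primrec.nat_mul.comp (primrec_int_toNat.comp Primrec.fst)
        (primrec_int_toNat.comp Primrec.snd))
      (Primrec.nat_mul.comp (primrec_int_negToNat.comp Primrec.fst)
        (primrec_int_negToNat.comp Primrec.snd)))
    (Primrec.nat_add.comp
      (Primrec.nat_mul.comp (primrec_int_toNat.comp Primrec.fst)
        (primrec_int_negToNat.comp Primrec.snd))
      (Primrec.nat_mul.comp (primrec_int_negToNat.comp Primrec.fst)
        (primrec_int_toNat.comp Primrec.snd)))).of_eq fun p => by
    have h1 := Int.toNat_sub_toNat_neg p.1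
    have h2 := Int.toNat_sub_toNat_neg p.2
    push_cast
    conv_rhs => rw [← h1, ← h2]
    ring

theorem primrec_int_le : PrimrecRel (fun a b : ℤ => a ≤ b) :=
  (Primrec.eq.comp (primrec_int_toNat.comp (primrec_int_sub.comp Primrec.fst Primrec.snd))
    (Primrec.const 0)).of_eq fun p => by omega

theorem primrec_int_lt : PrimrecRel (fun a b : ℤ => a < b) :=
  (primrec_int_le.comp (primrec_int_add.comp Primrec.fst (Primrec.const 1)) Primrec.snd).of_eq
    fun p => by omega

open Pool.Agent.Lib.Helper43

variable {α β σ : Type} [Primcodable α] [Primcodable β] [Primcodable σ]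

@[fun_prop] theorem zadd {f g : α → ℤ} (hf : Computable f) (hg : Computable g) :
    Computable (fun a => f a + g a) := (primrec_int_add.to_comp).comp hf hg

@[fun_prop] theorem zsub {f g : α → ℤ} (hf : Computable f) (hg : Computable g) :
    Computable (fun a => f a - g a) := (primrec_int_sub.to_comp).comp hf hg

@[fun_prop] theorem zmul {f g : α → ℤ} (hf : Computable f) (hg : Computable g) :
    Computable (fun a => f a * g a) := (primrec_int_mul.to_comp).comp hf hg

@[fun_prop] theorem zneg {f : α → ℤ} (hf : Computable f) :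
    Computable (fun a => -f a) := (primrec_int_neg.to_comp).comp hf

@[fun_prop] theorem zcast {f : α → ℕ} (hf : Computable f) :
    Computable (fun a => ((f a : ℕ) : ℤ)) := (primrec_int_cast.to_comp).comp hf

@[fun_prop] theorem ztoNat {f : α → ℤ} (hf : Computable f) :
    Computable (fun a => (f a).toNat) := (primrec_int_toNat.to_comp).comp hf

@[fun_prop] theorem foldr {l : α → List β} {s : α → σ} {h : α → β → σ → σ}
    (hh : Computable (fun p : α × β × σ => h p.1 p.2.1 p.2.2)) (hs : Computable s)
    (hl : Computable l) : Computable (fun a => (l a).foldr (h a) (s a)) := by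
  have h1 : Computable (fun a => (l a).reverse.foldl (fun x y => h a y x) (s a)) :=
    CFP.foldl (h := fun a x y => h a y x)
      (hh.comp (g := fun q : α × σ × β => (q.1, q.2.2, q.2.1)) (by fun_prop)) hs (CFP.reverse hl)
  exact h1.of_eq (fun a => by rw [List.foldl_reverse])

@[fun_prop] theorem zsum {l : α → List ℤ} (hl : Computable l) :
    Computable (fun a => (l a).sum) :=
  (foldr (h := fun _ x y => x + y) (by fun_prop) (CFP.const 0) hl).of_eq (fun _ => rfl)

@[fun_prop] theorem iterate {f : α → ℕ} {g : α → σ} {h : α → σ → σ} (hf : Computable f)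
    (hg : Computable g) (hh : Computable (fun p : α × σ => h p.1 p.2)) :
    Computable (fun a => (h a)^[f a] (g a)) := by
  have h1 := CFP.natRec (h := fun a _ ih => h a ih) hf hg
    (hh.comp (g := fun q : α × ℕ × σ => (q.1, q.2.2)) (by fun_prop))
  refine h1.of_eq (fun a => ?_)
  induction f a with
  | zero => rfl
  | succ n ih => rw [Function.iterate_succ_apply', ← ih]

end Pool.Agent.P.MP_406085_lc.CZ
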