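import Pool.Agent.P.MP_406085_lc.CDefs
import Pool.Agent.P.MP_406085_lc.CompZ

/-!
Computability of the reduction.
-/

namespace Pool.Agent.P.MP_406085_lc

open Filter PowerSeries
open scoped Classical
open Pool.Agent.Lib.Helper43

variable {α : Type} [Primcodable α]

@[fun_prop] theorem cp_ent {A : α → Mat} {i j : α → ℕ} (hA : Computable A) (hi : Computable i)
    (hj : Computable j) : Computable (fun a => ent (A a) (i a) (j a)) :=
  CFP.listGetD (CFP.listGetD hA hi (CFP.const _)) hj (CFP.const _)

theorem cp_mm0 : Computable (fun q : ℕ × Mat × Mat => mm q.1 q.2.1 q.2.2) := by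
  unfold mm
  fun_prop

attribute [local irreducible] mm ent

@[fun_prop] theorem cp_mm {m : α → ℕ} {A B : α → Mat} (hm : Computable m) (hA : Computable A)
    (hB : Computable B) : Computable (fun a => mm (m a) (A a) (B a)) :=
  Computable.comp (g := fun a => (m a, A a, B a)) cp_mm0 (hm.pair (hA.pair hB))

theorem cp_idm0 : Computable idm := by
  unfold idm
  refine CFP.map (CFP.map (CFP.ite ?_ (CFP.const _) (CFP.const _)) (by fun_prop)) (by fun_prop)
  exact CFP.decEq (by fun_prop) (by fun_prop)

attribute [local irreducible] idm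

@[fun_prop] theorem cp_idm {m : α → ℕ} (hm : Computable m) : Computable (fun a => idm (m a)) :=
  cp_idm0.comp hm

theorem cp_prodm0 : Computable (fun q : ℕ × List Mat × List ℕ => prodm q.1 q.2.1 q.2.2) := by
  unfold prodm
  refine CZ.foldr (h := fun (q : ℕ × List Mat × List ℕ) c X => mm q.1 (q.2.1.getD c []) X) ?_
    (by fun_prop) (by fun_prop)
  exact cp_mm (by fun_prop) (CFP.listGetD (by fun_prop) (by fun_prop) (CFP.const _)) (by fun_prop)

attribute [local irreducible] prodm

@[fun_prop] theorem cp_prodm {m : α → ℕ} {R : α → List Mat} {w : α → List ℕ} (hm : Computable m)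
    (hR : Computable R) (hw : Computable w) : Computable (fun a => prodm (m a) (R a) (w a)) :=
  Computable.comp (g := fun a => (m a, R a, w a)) cp_prodm0 (hm.pair (hR.pair hw))

theorem cp_mor0 : Computable (fun q : List (List ℕ) × List ℕ => mor q.1 q.2) := by
  unfold mor
  exact CFP.flatMap (g := fun (q : List (List ℕ) × List ℕ) a => q.1.getD a [])
    (CFP.listGetD (by fun_prop) (by fun_prop) (CFP.const _)) (by fun_prop)

attribute [local irreducible] mor

@[fun_prop] theorem cp_mor {h : α → List (List ℕ)} {u : α → List ℕ} (hh : Computable h)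
    (hu : Computable u) : Computable (fun a => mor (h a) (u a)) :=
  Computable.comp (g := fun a => (h a, u a)) cp_mor0 (hh.pair hu)

/-- one intertwining relation -/
theorem cp_rel {m c : α → ℕ} {G : α → Mat} {R R' : α → List Mat} {h : α → List (List ℕ)}
    {inst : ∀ a, Decidable (mm (m a) (G a) (prodm (m a) (R' a) ((h a).getD (c a) [])) =
      mm (m a) ((R a).getD (c a) []) (G a))}
    (hm : Computable m) (hc : Computable c) (hG : Computable G) (hR : Computable R)
    (hR' : Computable R') (hh : Computable h) :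
    Computable (fun a => @decide (mm (m a) (G a) (prodm (m a) (R' a) ((h a).getD (c a) [])) =
      mm (m a) ((R a).getD (c a) []) (G a)) (inst a)) :=
  CFP.decEq (cp_mm hm hG (cp_prodm hm hR' (CFP.listGetD hh hc (CFP.const _))))
    (cp_mm hm (CFP.listGetD hR hc (CFP.const _)) hG)

theorem cp_chk : Computable fun x : Inst × Cert => chk x.1 x.2 := by
  unfold chk
  refine CFP.and (CFP.and (CFP.and (CFP.and ?_ ?_) ?_) ?_) ?_
  · exact CFP.all (g := fun (x : Inst × Cert) a => decide (a < x.2.1.2))
      (CFP.decLt (by fun_prop) (by fun_prop)) (by fun_prop)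
  · refine CFP.all (g := fun (x : Inst × Cert) (u : List ℕ) => u.all fun a => decide (a < x.2.1.2)) ?_
      (by fun_prop)
    exact CFP.all (g := fun (y : (Inst × Cert) × List ℕ) a => decide (a < y.1.2.1.2))
      (CFP.decLt (by fun_prop) (by fun_prop)) (by fun_prop)
  · refine CFP.all ?_ (by fun_prop)
    refine CFP.and (CFP.and ?_ ?_) ?_ <;>
      exact cp_rel (by fun_prop) (by fun_prop) (by fun_prop) (by fun_prop) (by fun_prop)
        (by fun_prop)
  · exact CFP.decEq (by fun_prop) (by fun_prop)
  · exact CFP.decEq (by fun_prop) (by fun_prop)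

theorem computable_ins : Computable fun x : Inst × Cert => ins x.1 x.2 := by
  unfold ins
  refine CFP.cond cp_chk (CFP.prodMk ?_ (CFP.prodMk (by fun_prop) ?_)) (CFP.const _)
  · exact CFP.listGetD (by fun_prop) (CFP.const _) (CFP.const _)
  · refine CFP.map (g := fun (x : Inst × Cert) i =>
      ent (mm x.2.1.1 x.2.2.2.2.1 x.2.2.2.2.2.2.2) i 0 -
        ent (mm x.2.1.1 x.2.2.2.2.2.1 x.2.2.2.2.2.2.2) i 0) ?_ (by fun_prop)
    exact CZ.zsub (cp_ent (by fun_prop) (by fun_prop) (CFP.const _))
      (cp_ent (by fun_prop) (by fun_prop) (CFP.const _))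

theorem computable_eqn : ∃ A : Inst × ℕ → Bool, Computable A ∧
    ∀ p n, A (p, n) = true ↔ Eqn p n := by
  have h1 : Computable fun x : Inst × ℕ => (mor x.1.2.1)^[x.2] x.1.1 :=
    CZ.iterate (h := fun (x : Inst × ℕ) u => mor x.1.2.1 u) (by fun_prop) (by fun_prop)
      (cp_mor (by fun_prop) (by fun_prop))
  refine ⟨fun x => decide (mor x.1.2.2.1 ((mor x.1.2.1)^[x.2] x.1.1) =
    mor x.1.2.2.2 ((mor x.1.2.1)^[x.2] x.1.1)), ?_, fun p n => ?_⟩
  · exact CFP.decEq (cp_mor (by fun_prop) h1) (cp_mor (by fun_prop) h1)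
  · simp [Eqn]

end Pool.Agent.P.MP_406085_lc
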