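import Pool.Agent.P.MP_406085_lc.CDefs
import Pool.Agent.Lib.Helper43.CompFP

/-!
The Skolem problem reduces to compatibility.
-/

namespace Pool.Agent.P.MP_406085_lc

open Filter PowerSeries
open scoped Classical

namespace Conv

open Pool.Agent.Lib.Helper43

theorem enc_ofNat (n : ℕ) : Encodable.encode (Int.ofNat n) = 2 * n := by
  change Equiv.natSumNatEquivNat (Sum.inl n) = _
  simp

theorem enc_negSucc (n : ℕ) : Encodable.encode (Int.negSucc n) = 2 * n + 1 := by
  change Equiv.intEquivNat _ = _
  simp [Equiv.intEquivNat, Equiv.intEquivNatSumNat]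

/-- Positive part. -/
def pp (z : ℤ) : ℕ := z.toNat

/-- Negative part. -/
def np (z : ℤ) : ℕ := (-z).toNat

theorem pp_sub_np (z : ℤ) : (pp z : ℤ) - np z = z := by
  unfold pp np; omega

theorem comp_pp0 : Computable pp := by
  have h : Computable (fun z : ℤ =>
      Encodable.encode z / 2 * (1 - Encodable.encode z % 2)) := by fun_prop
  refine h.of_eq fun z => ?_
  rcases z with n | n
  · rw [enc_ofNat]
    have h1 : 2 * n / 2 = n := by omega
    have h2 : 2 * n % 2 = 0 := by omega
    rw [h1, h2]; simp [pp]
  · rw [enc_negSucc]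
    have h2 : (2 * n + 1) % 2 = 1 := by omega
    rw [h2]; simp [pp]

theorem comp_np0 : Computable np := by
  have h : Computable (fun z : ℤ =>
      (Encodable.encode z / 2 + 1) * (Encodable.encode z % 2)) := by fun_prop
  refine h.of_eq fun z => ?_
  rcases z with n | n
  · rw [enc_ofNat]
    have h2 : 2 * n % 2 = 0 := by omega
    rw [h2]; simp [np]
  · rw [enc_negSucc]
    have h1 : (2 * n + 1) / 2 = n := by omega
    have h2 : (2 * n + 1) % 2 = 1 := by omega
    rw [h1, h2]
    simp only [np, mul_one]
    rw [Int.neg_negSucc]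
    simp

@[fun_prop] theorem comp_pp {α : Type} [Primcodable α] {f : α → ℤ} (hf : Computable f) :
    Computable (fun a => pp (f a)) := comp_pp0.comp hf

@[fun_prop] theorem comp_np {α : Type} [Primcodable α] {f : α → ℤ} (hf : Computable f) :
    Computable (fun a => np (f a)) := comp_np0.comp hf

/-- `n` copies of the letter `c`. -/
def rep (n c : ℕ) : List ℕ := (List.range n).map fun _ => c

theorem rep_eq (n c : ℕ) : rep n c = List.replicate n c := by
  simp [rep]

@[fun_prop] theorem comp_rep {α : Type} [Primcodable α] {f g : α → ℕ} (hf : Computable f)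
    (hg : Computable g) : Computable (fun a => rep (f a) (g a)) := by
  unfold rep
  refine CFP.map (g := fun a _ => g a) ?_ (CFP.range hf)
  exact hg.comp Computable.fst

/-- The word for the integer `± z` at index `i`. -/
def encZ (s i : ℕ) (z : ℤ) : List ℕ :=
  rep (pp z) (2 * i + s % 2) ++ rep (np z) (2 * i + (s + 1) % 2)

@[fun_prop] theorem comp_encZ {α : Type} [Primcodable α] {f g : α → ℕ} {k : α → ℤ}
    (hf : Computable f) (hg : Computable g) (hk : Computable k) :
    Computable (fun a => encZ (f a) (g a) (k a)) := by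
  unfold encZ
  fun_prop

/-- The positive part of `± z`. -/
def lenZ (s : ℕ) (z : ℤ) : ℕ := pp z * ((s + 1) % 2) + np z * (s % 2)

@[fun_prop] theorem comp_lenZ {α : Type} [Primcodable α] {f : α → ℕ} {k : α → ℤ}
    (hf : Computable f) (hk : Computable k) : Computable (fun a => lenZ (f a) (k a)) := by
  unfold lenZ
  fun_prop

@[fun_prop] theorem comp_ent {α : Type} [Primcodable α] {A : α → Mat} {f g : α → ℕ}
    (hA : Computable A) (hf : Computable f) (hg : Computable g) :
    Computable (fun a => ent (A a) (f a) (g a)) := by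
  unfold ent
  fun_prop

def wv (b : List ℤ) : List ℕ := (List.range b.length).flatMap fun i => encZ 0 i (b.getD i 0)

def hA (A : Mat) : List (List ℕ) := (List.range (2 * A.flatten.length)).map fun a =>
  (List.range A.length).flatMap fun i => encZ a i (ent A i (a / 2))

def gA (e : ℕ) (al : List ℤ) : List (List ℕ) := (List.range (2 * al.length)).map fun a =>
  rep (lenZ (a + e) (al.getD (a / 2) 0)) 0

theorem comp_wv : Computable wv := by
  unfold wv
  fun_prop

theorem comp_hA : Computable hA := by
  unfold hA
  refine CFP.map (g := fun (A : Mat) (a : ℕ) =>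
    (List.range A.length).flatMap fun i => encZ a i (ent A i (a / 2))) ?_ (by fun_prop)
  refine CFP.flatMap (g := fun (p : Mat × ℕ) (i : ℕ) => encZ p.2 i (ent p.1 i (p.2 / 2)))
    (by fun_prop) (by fun_prop)

theorem comp_gA (e : ℕ) : Computable (gA e) := by
  unfold gA
  fun_prop

def phi (q : SkI) : Inst := (wv q.2.2, hA q.2.1, gA 0 q.1, gA 1 q.1)

theorem comp_phi : Computable phi := by
  unfold phi
  exact (comp_wv.comp (Computable.snd.comp Computable.snd)).pair
    ((comp_hA.comp (Computable.fst.comp Computable.snd)).pair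
      (((comp_gA 0).comp Computable.fst).pair ((comp_gA 1).comp Computable.fst)))

/-- The sign given by the parity of `a`. -/
def sg (a : ℕ) (z : ℤ) : ℤ := if a % 2 = 0 then z else -z

/-- The signed weight of a word. -/
def S (x : ℕ → ℤ) (u : List ℕ) : ℤ := (u.map fun a => sg a (x (a / 2))).sum

theorem S_append (x : ℕ → ℤ) (u v : List ℕ) : S x (u ++ v) = S x u + S x v := by
  simp [S]

theorem S_rep (x : ℕ → ℤ) (n c : ℕ) : S x (rep n c) = n * sg c (x (c / 2)) := by
  simp [S, rep_eq]

theorem S_flatMap {β : Type} (x : ℕ → ℤ) (l : List β) (F : β → List ℕ) :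
    S x (l.flatMap F) = (l.map fun b => S x (F b)).sum := by
  induction l with
  | nil => simp [S]
  | cons b l ih => rw [List.flatMap_cons, S_append, ih]; simp

theorem S_encZ (x : ℕ → ℤ) (s i : ℕ) (z : ℤ) : S x (encZ s i z) = sg s (x i * z) := by
  unfold encZ
  rw [S_append, S_rep, S_rep]
  have h1 : (2 * i + s % 2) / 2 = i := by omega
  have h2 : (2 * i + (s + 1) % 2) / 2 = i := by omega
  rw [h1, h2]
  have hz := pp_sub_np z
  unfold sg
  by_cases hs : s % 2 = 0
  · rw [if_pos (by omega), if_neg (by omega), if_pos hs]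
    linear_combination (x i) * hz
  · rw [if_neg (by omega), if_pos (by omega), if_neg hs]
    linear_combination (-x i) * hz

theorem sg_sum (s n : ℕ) (F : ℕ → ℤ) :
    ∑ i ∈ Finset.range n, sg s (F i) = sg s (∑ i ∈ Finset.range n, F i) := by
  unfold sg
  split_ifs <;> simp

/-- The value of a functional on a vector. -/
def D (x : ℕ → ℤ) (v : List ℤ) : ℤ := ∑ j ∈ Finset.range v.length, x j * v.getD j 0

theorem dot_eq (a v : List ℤ) : dot a v = D (fun j => a.getD j 0) v := by
  unfold dot D
  induction a generalizing v with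
  | nil => simp
  | cons c a ih =>
    cases v with
    | nil => simp
    | cons d v =>
      rw [List.zipWith_cons_cons, List.sum_cons, ih, List.length_cons, Finset.sum_range_succ']
      simp [add_comm]

theorem sum_map_range (n : ℕ) (F : ℕ → ℤ) :
    ((List.range n).map F).sum = ∑ i ∈ Finset.range n, F i := by
  induction n with
  | zero => simp
  | succ n ih => rw [List.range_succ, List.map_append, List.sum_append, ih, Finset.sum_range_succ]; simp

theorem S_wv (x : ℕ → ℤ) (b : List ℤ) : S x (wv b) = D x b := by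
  unfold wv D
  rw [S_flatMap, sum_map_range]
  refine Finset.sum_congr rfl fun i _ => ?_
  rw [S_encZ]; simp [sg]

theorem getD_tab (n a : ℕ) (F : ℕ → List ℕ) :
    ((List.range n).map F).getD a [] = if a < n then F a else [] := by
  rw [List.getD_eq_getElem?_getD]
  split_ifs with h
  · simp [h]
  · rw [List.getElem?_eq_none (by simpa using h)]; rfl

theorem ent_eq_zero (A : Mat) (i j : ℕ) (hj : A.flatten.length ≤ j) : ent A i j = 0 := by
  unfold ent
  have h : (A.getD i []).length ≤ A.flatten.length := by
    by_cases hi : i < A.length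
    · rw [List.getD_eq_getElem _ _ hi]
      exact (List.sublist_flatten_of_mem (List.getElem_mem hi)).length_le
    · rw [List.getD_eq_default _ _ (by omega)]; simp
  exact List.getD_eq_default _ _ (by omega)

theorem S_hA (x : ℕ → ℤ) (A : Mat) (a : ℕ) : S x ((hA A).getD a []) =
    sg a (∑ i ∈ Finset.range A.length, x i * ent A i (a / 2)) := by
  unfold hA
  rw [getD_tab]
  split_ifs with h
  · rw [S_flatMap, sum_map_range, ← sg_sum]
    exact Finset.sum_congr rfl fun i _ => S_encZ _ _ _ _
  · rw [Finset.sum_eq_zero fun i _ => by rw [ent_eq_zero A i _ (by omega), mul_zero]]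
    simp [S, sg]

theorem S_mor (x : ℕ → ℤ) (A : Mat) (u : List ℕ) : S x (mor (hA A) u) =
    S (fun j => ∑ i ∈ Finset.range A.length, x i * ent A i j) u := by
  unfold mor
  rw [S_flatMap]
  simp only [S_hA]
  rfl

theorem D_mulV (x : ℕ → ℤ) (A : Mat) (v : List ℤ) : D x (mulV A v) =
    D (fun j => ∑ i ∈ Finset.range A.length, x i * ent A i j) v := by
  have h : D x (mulV A v) = ∑ i ∈ Finset.range A.length, x i * dot (A.getD i []) v := by
    unfold D mulV
    rw [List.length_map]
    refine Finset.sum_congr rfl fun i hi => ?_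
    have hi' : i < A.length := Finset.mem_range.1 hi
    rw [List.getD_eq_getElem _ _ (by simpa using hi'), List.getD_eq_getElem _ _ hi']
    simp
  rw [h]
  simp only [dot_eq, D, Finset.mul_sum, Finset.sum_mul]
  rw [Finset.sum_comm]
  refine Finset.sum_congr rfl fun j _ => Finset.sum_congr rfl fun i _ => ?_
  unfold ent
  ring

theorem S_iter (A : Mat) (b : List ℤ) (n : ℕ) (x : ℕ → ℤ) :
    S x ((mor (hA A))^[n] (wv b)) = D x ((mulV A)^[n] b) := by
  induction n generalizing x with
  | zero => exact S_wv x b
  | succ n ih =>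
    rw [Function.iterate_succ_apply', Function.iterate_succ_apply', S_mor, ih, D_mulV]

theorem getD_gA (e : ℕ) (al : List ℤ) (a : ℕ) :
    (gA e al).getD a [] = List.replicate (lenZ (a + e) (al.getD (a / 2) 0)) 0 := by
  unfold gA
  rw [getD_tab]
  split_ifs with h
  · exact rep_eq _ _
  · rw [List.getD_eq_default _ _ (by omega)]
    simp [lenZ, pp, np]

theorem mor_gA (e : ℕ) (al : List ℤ) (u : List ℕ) : mor (gA e al) u =
    List.replicate (u.map fun a => lenZ (a + e) (al.getD (a / 2) 0)).sum 0 := by
  unfold mor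
  induction u with
  | nil => simp
  | cons a u ih =>
    rw [List.flatMap_cons, ih, getD_gA, List.map_cons, List.sum_cons, List.replicate_add]

theorem lenZ_sub (a : ℕ) (z : ℤ) : (lenZ (a + 0) z : ℤ) - lenZ (a + 1) z = sg a z := by
  have hz := pp_sub_np z
  unfold lenZ sg
  by_cases h : a % 2 = 0
  · have h1 : (a + 0 + 1) % 2 = 1 := by omega
    have h2 : (a + 0) % 2 = 0 := by omega
    have h3 : (a + 1 + 1) % 2 = 0 := by omega
    have h4 : (a + 1) % 2 = 1 := by omega
    rw [h1, h2, h3, if_pos h]
    push_cast
    linarith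
  · have h1 : (a + 0 + 1) % 2 = 0 := by omega
    have h2 : (a + 0) % 2 = 1 := by omega
    have h3 : (a + 1 + 1) % 2 = 1 := by omega
    have h4 : (a + 1) % 2 = 0 := by omega
    rw [h1, h2, h3, if_neg h]
    push_cast
    linarith

theorem len_sub (al : List ℤ) (u : List ℕ) :
    ((u.map fun a => lenZ (a + 0) (al.getD (a / 2) 0)).sum : ℕ) -
      (((u.map fun a => lenZ (a + 1) (al.getD (a / 2) 0)).sum : ℕ) : ℤ) =
      S (fun j => al.getD j 0) u := by
  unfold S
  induction u with
  | nil => simp
  | cons a u ih =>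
    simp only [List.map_cons, List.sum_cons]
    rw [← ih, ← lenZ_sub]
    push_cast
    ring

theorem mor_eq_iff (al : List ℤ) (u : List ℕ) :
    mor (gA 0 al) u = mor (gA 1 al) u ↔ S (fun j => al.getD j 0) u = 0 := by
  rw [mor_gA, mor_gA, ← len_sub, List.replicate_left_inj]
  omega

end Conv

theorem exists_conv : ∃ φ : SkI → Inst, Computable φ ∧ ∀ q, Skolem q ↔ Compat (φ q) := by
  refine ⟨Conv.phi, Conv.comp_phi, fun q => ?_⟩
  unfold Skolem Compat Conv.phi
  refine exists_congr fun n => ?_
  simp only
  rw [Conv.mor_eq_iff, Conv.S_iter, Conv.dot_eq]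

end Pool.Agent.P.MP_406085_lc
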