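import Mathlib

/-!
Definitions for the reduction of D0L compatibility to the Skolem problem.
-/

namespace Pool.Agent.P.MP_406085_lc

open Filter PowerSeries
open scoped Classical

/-! Words, tests, sequences of words. -/

/-- A congruence of finite index on words. -/
structure FC (E : Type) where
  r : List E → List E → Prop
  refl : ∀ u, r u u
  symm : ∀ {u v}, r u v → r v u
  trans : ∀ {u v w}, r u v → r v w → r u w
  app : ∀ {u v u' v'}, r u v → r u' v' → r (u ++ u') (v ++ v')
  fin : ∃ R : Set (List E), R.Finite ∧ ∀ u, ∃ v ∈ R, r u v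

/-- `Deg c d F`: all discrete derivatives of order `d` of `F` along `c` vanish. -/
def Deg {E A : Type} [AddCommGroup A] (c : FC E) : ℕ → (List E → A) → Prop
  | 0, F => ∀ w, F w = 0
  | d + 1, F => ∀ u v, c.r u v → Deg c d fun w => F (u ++ w) - F (v ++ w)

/-- Tests: functions of finite degree along a congruence of finite index. -/
def Test {E A : Type} [AddCommGroup A] (F : List E → A) : Prop := ∃ c d, Deg c d F

/-- Recognizable functions. -/
def Rec {E K : Type} (f : List E → K) : Prop := ∃ c : FC E, ∀ u v, c.r u v → f u = f v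

/-- A set of words is separated by finitely many tests. -/
def Sep {E : Type} (S : Set (List E)) : Prop :=
  ∃ Φ : Set (List E → ℂ), Φ.Finite ∧ (∀ F ∈ Φ, Test F) ∧
    ∀ u ∈ S, ∀ v ∈ S, (∀ F ∈ Φ, F u = F v) → u = v

/-- HD0L sequences of words. -/
def HD {E : Type} (W : ℕ → List E) : Prop :=
  ∃ S : Set (ℕ → List E), S.Finite ∧ W ∈ S ∧ ∀ V ∈ S, ∃ l : List (ℕ → List E),
    (∀ U ∈ l, U ∈ S) ∧ ∀ n, V (n + 1) = l.flatMap fun U => U n

/-- Sequences that are HD0L along all late progressions of some modulus. -/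
def HH {E : Type} (W : ℕ → List E) : Prop :=
  ∃ p q, 0 < p ∧ ∀ a, q ≤ a → HD fun n => W (a + p * n)

/-- Eventually periodic sequences. -/
def EP {K : Type} (s : ℕ → K) : Prop := ∃ p q, 0 < p ∧ ∀ n, q ≤ n → s (n + p) = s n

/-- Good maps: tests pull back, sequences push forward. -/
def GM {E E' : Type} (φ : List E → List E') : Prop :=
  (∀ F : List E' → ℂ, Test F → Test fun w => F (φ w)) ∧ ∀ W, HH W → HH fun n => φ (W n)

/-- The output of a letter depends on its left and right context. -/
def bim {E E' : Type} (o : List E → E → List E → List E') : List E → List E → List E → List E'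
  | _, [], _ => []
  | x, a :: w, y => o x a (w ++ y) ++ bim o (x ++ [a]) w y

/-- Constant, or strictly increasing in length. -/
def Cv {E : Type} (W : ℕ → List E) : Prop :=
  (∀ n, W n = W 0) ∨ StrictMono fun n => (W n).length

/-- Bounded sequences of naturals. -/
def Bdd (s : ℕ → ℕ) : Prop := ∃ B, ∀ n, s n ≤ B

/-- A normalized skeleton. -/
structure Sk {N : Type} (sk : N → List N) : Prop where
  trans : ∀ x y z, y ∈ sk x → z ∈ sk y → z ∈ sk x
  dense : ∀ x z, z ∈ sk x → ∃ y ∈ sk x, z ∈ sk y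
  two : ∀ x y, y ∈ sk x → x ∈ sk y → y ≠ x → 2 ≤ (sk x).count x
  fst : ∀ S : Set N, (∀ x y, y ∈ sk x → y ∈ S → x ∈ S) → (∀ x ∈ S, ∃ y ∈ sk x, y ∈ S) → ∀ x y,
    ((sk x).filter (· ∈ S)).head? = some y → ((sk y).filter (· ∈ S)).head? = some y
  lst : ∀ S : Set N, (∀ x y, y ∈ sk x → y ∈ S → x ∈ S) → (∀ x ∈ S, ∃ y ∈ sk x, y ∈ S) → ∀ x y,
    ((sk x).filter (· ∈ S)).getLast? = some y → ((sk y).filter (· ∈ S)).getLast? = some y

/-! Sequences of power series. -/

/-- Exponential polynomials with bases generated by `S`. -/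
def RS (S : Set ℂ) : Subalgebra ℂ (ℕ → ℂ) :=
  Algebra.adjoin ℂ (insert (fun n : ℕ => (n : ℂ)) ((fun (s : ℂ) (n : ℕ) => s ^ n) '' S))

/-- From some index on, all coefficient sequences lie in one finitely generated algebra. -/
def InR (y : ℕ → ℂ⟦X⟧) : Prop :=
  ∃ S : Set ℂ, S.Finite ∧ 0 ∉ S ∧ ∃ q, ∀ d, (fun n => coeff d (y (q + n))) ∈ RS S

/-- The scalar version of `InR`. -/
def InC (s : ℕ → ℂ) : Prop := InR fun n => C (s n)

/-- Units among the sequences in `InR`. -/
def InU (u : ℕ → ℂ⟦X⟧) : Prop :=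
  InR u ∧ (EP fun n => constantCoeff (u n)) ∧ ∀ n, constantCoeff (u n) ≠ 0

/-- The series `exp (z X)`. -/
noncomputable def ex (z : ℂ) : ℂ⟦X⟧ := mk fun d => z ^ d / d.factorial

/-! Lists of tokens. -/

/-- Sequences of lists of tokens; a token is a word over `D`. -/
abbrev Sq (D : Type) := ℕ → List (List D)

/-- A list of tokens as one word, each token preceded by a separator. -/
def enc {D : Type} (z : List (List D)) : List (Option D) := z.flatMap fun τ => none :: τ.map some

/-- A token at resolution `t`. -/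
def res {D : Type} (t : ℕ) (τ : List D) : Option (List D) := if τ.length ≤ t then some τ else none

def HT {D : Type} (z : Sq D) : Prop := HH fun n => enc (z n)

/-- Gap sequences. -/
def Gp {D : Type} (γ : Sq D) : Prop := HT γ ∧ Bdd fun n => (γ n).length

/-- A local cutting rule: radius, resolution and good windows. -/
structure Rule (D : Type) where
  r : ℕ
  t : ℕ
  G : Set (List (Option (List D)))

namespace Rule

variable {D : Type} (ρ : Rule D)

/-- The last `r` tokens at resolution `t`. -/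
def st (u : List (List D)) : List (Option (List D)) := (u.drop (u.length - ρ.r)).map (res ρ.t)

/-- There is a cut between `u` and the token `a`. -/
def bad (u : List (List D)) (a : List D) : Prop := ρ.r ≤ u.length ∧ ρ.st u ++ [res ρ.t a] ∉ ρ.G

/-- Cutting `w` in the left context `u`: the piece before the first cut and the other pieces. -/
noncomputable def sp : List (List D) → List (List D) → List (List D) × List (List (List D))
  | _, [] => ([], [])
  | u, a :: w => if ρ.bad u a then ([], (a :: (sp (u ++ [a]) w).1) :: (sp (u ++ [a]) w).2)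
      else (a :: (sp (u ++ [a]) w).1, (sp (u ++ [a]) w).2)

/-- All pieces. -/
noncomputable def spl (u w : List (List D)) : List (List (List D)) := (ρ.sp u w).1 :: (ρ.sp u w).2

/-- The number of cuts. -/
noncomputable def cnt (u w : List (List D)) : ℕ := (ρ.sp u w).2.length

noncomputable def hd (w : List (List D)) : List (List D) := (ρ.sp [] w).1

noncomputable def mid (w : List (List D)) : List (List (List D)) := (ρ.sp [] w).2.dropLast

noncomputable def lastp (w : List (List D)) : List (List D) := (ρ.spl [] w).getLastD []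

/-- The pieces of `u ++ w` from the last piece of `u` on. -/
noncomputable def gap (u w : List (List D)) : List (List (List D)) :=
  (ρ.spl [] (u ++ w)).drop (ρ.cnt [] u)

/-- The part of `w` before the `k`-th cut. -/
noncomputable def pref (k : ℕ) (u w : List (List D)) : List (List D) :=
  ((ρ.spl u w).take k).flatten

/-- A good window is determined by its first `r` tokens. -/
def Det : Prop := 1 ≤ ρ.r ∧ ∀ (z : List (List D)) (a b : List D), z.length = ρ.r →
  (z ++ [a]).map (res ρ.t) ∈ ρ.G → (z ++ [b]).map (res ρ.t) ∈ ρ.G → a = b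

end Rule

/-- A local cocycle on lists of tokens. -/
structure Coc (D : Type) where
  c : List (List D) → ℂ
  r : ℕ
  ne : ∀ w, c w ≠ 0
  rc : ∃ f : List (Option D) → ℂ, Rec f ∧ ∀ z, f (enc z) = c z
  loc : ∀ z z' z'', r ≤ z'.length → c (z ++ z' ++ z'') * c z' = c (z ++ z') * c (z' ++ z'')

/-- The generating series of a list of tokens. -/
noncomputable def Pz {D : Type} (κ : Coc D) (F : List D → ℂ) (z : List (List D)) : ℂ⟦X⟧ :=
  ∑ i ∈ Finset.range z.length, C (κ.c (z.take i) * F (z.getD i [])) * ex i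

/-- The factor picked up by the series of `z'` inside `z ++ z'`. -/
noncomputable def uu {D : Type} (κ : Coc D) (z z' : List (List D)) : ℂ⟦X⟧ :=
  C (κ.c (z ++ z') / κ.c z') * ex z.length

/-- Sequences whose generating series have no transient. -/
def JJ {D : Type} (κ : Coc D) (F : List D → ℂ) (z : Sq D) : Prop :=
  HT z ∧ InR fun n => Pz κ F (z n)

/-! Token systems. -/

/-- A rule: gaps alternating with letters. -/
structure Rl (N D : Type) where
  g0 : Sq D
  l : List (N × Sq D)

namespace Rl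

variable {N D : Type}

def ev (R : Rl N D) (T : N → Sq D) (n : ℕ) : List (List D) :=
  R.g0 n ++ R.l.flatMap fun e => T e.1 n ++ e.2 n

def OK (R : Rl N D) (S : Set N) : Prop := Gp R.g0 ∧ ∀ e ∈ R.l, e.1 ∈ S ∧ Gp e.2

end Rl

/-- Absorbing the letters outside `S` into the gaps. -/
noncomputable def rg {N D : Type} (T : N → Sq D) (S : Set N) : Sq D → List (N × Sq D) → Rl N D
  | g, [] => ⟨g, []⟩
  | g, e :: l => if e.1 ∈ S then ⟨g, (e.1, (rg T S e.2 l).g0) :: (rg T S e.2 l).l⟩
      else ⟨fun n => g n ++ T e.1 n ++ (rg T S e.2 l).g0 n, (rg T S e.2 l).l⟩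

/-- A token system over the skeleton `sk`, with top words indexed by `Y`. -/
structure ATS {N : Type} (sk : N → List N) (Y D : Type) where
  act : Set N
  T : N → Sq D
  H : N → Rl N D
  top : Y → Rl N D
  up : ∀ x y, y ∈ sk x → y ∈ act → x ∈ act
  hT : ∀ x ∈ act, HT (T x)
  ok : ∀ x ∈ act, (H x).OK act
  skel : ∀ x ∈ act, (H x).l.map Prod.fst = (sk x).filter (· ∈ act)
  step : ∀ x ∈ act, ∀ n, T x (n + 1) = (H x).ev T n
  topok : ∀ y, (top y).OK act

namespace ATS

variable {N Y D : Type} {sk : N → List N} (A : ATS sk Y D)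

/-- The active children of a letter. -/
def ch (x : N) : List N := (A.H x).l.map Prod.fst

def W (y : Y) : Sq D := (A.top y).ev A.T

def Tok : Set (List D) := {τ | (∃ x ∈ A.act, ∃ n, τ ∈ A.T x n) ∨ ∃ y n, τ ∈ A.W y n}

def Grow : Prop := ∀ x ∈ A.act, ¬ Bdd fun n => (A.T x n).length

def pushL : Set N := {x | x ∈ A.act ∧ (A.ch x).head? = some x ∧ ∃ᶠ n in atTop, (A.H x).g0 n ≠ []}

def pushR : Set N :=
  {x | x ∈ A.act ∧ ∃ γ, (A.H x).l.getLast? = some (x, γ) ∧ ∃ᶠ n in atTop, γ n ≠ []}

/-- The letters that survive cutting by `ρ`. -/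
def wild (ρ : Rule D) : Set N := {x | x ∈ A.act ∧ ¬ Bdd fun n => ρ.cnt [] (A.T x n)}

/-- The rule `ρ` removes the left push at `x`. -/
def KillL (ρ : Rule D) (x : N) : Prop :=
  ∀ᶠ n in atTop, ρ.cnt [] ((A.H x).g0 n ++ ρ.hd (A.T x n)) = 0

/-- The rule `ρ` removes the right push at `x`. -/
def KillR (ρ : Rule D) (x : N) : Prop :=
  ∀ γ, (A.H x).l.getLast? = some (x, γ) → ∀ᶠ n in atTop, ρ.cnt (A.T x n) (γ n) = 0

/-- Concatenations of gaps and of blocks of letters in `S`. -/
def Gen (S : Set N) (w : Sq D) : Prop :=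
  ∀ Q : Sq D → Prop, (∀ γ, Gp γ → Q γ) → (∀ y ∈ S, Q (A.T y)) →
    (∀ a b, Q a → Q b → Q fun n => a n ++ b n) → Q w

/-- The sequences of pieces that give the new tokens. -/
def Pc (ρ : Rule D) (z : Sq D) : Prop :=
  (∀ n, ∀ τ ∈ z n, τ ∈ A.Tok) ∧ ∃ (j q : ℕ) (u w : Sq D),
    (u = (fun _ => []) ∨ ∃ x ∈ A.wild ρ, u = A.T x) ∧ A.Gen A.act w ∧
      ∀ n, z n = (ρ.gap (u (q + n)) (w (q + n))).getD j []

end ATS

/-- A proper system: rules begin and end with a letter and tokens converge. -/
structure PS (N D : Type) where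
  f : N → N
  rest : N → List (List (ℕ → List D) × N)
  T : N → Sq D
  step : ∀ x n, T x (n + 1) = T (f x) n ++ (rest x).flatMap fun e => e.1.map (· n) ++ T e.2 n
  hT : ∀ x, HT (T x)
  hh : ∀ x, ∀ e ∈ rest x, ∀ γ ∈ e.1, HH γ
  cv : ∀ x, ∀ e ∈ rest x, ∀ γ ∈ e.1, Cv γ
  mono : ∀ x, StrictMono fun n => (T x n).length
  pos : ∀ x, T x 0 ≠ []
  trans : ∀ x y z, y ∈ f x :: (rest x).map Prod.snd → z ∈ f y :: (rest y).map Prod.snd →
    z ∈ f x :: (rest x).map Prod.snd
  dense : ∀ x z, z ∈ f x :: (rest x).map Prod.snd →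
    ∃ y ∈ f x :: (rest x).map Prod.snd, z ∈ f y :: (rest y).map Prod.snd
  two : ∀ x y, y ∈ f x :: (rest x).map Prod.snd → x ∈ f y :: (rest y).map Prod.snd → y ≠ x →
    2 ≤ (f x :: (rest x).map Prod.snd).count x
  ff : ∀ x, f (f x) = f x
  ll : ∀ x y, (f x :: (rest x).map Prod.snd).getLast? = some y →
    (f y :: (rest y).map Prod.snd).getLast? = some y

/-- Paths: a letter followed by gaps and letters. -/
abbrev Pth (N D : Type) := N × List (List (Option (List D)) × N)

/-- Edges: two letters with the gap between them. -/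
abbrev Edge (N D : Type) := N × List (Option (List D)) × N

/-- The limit of a converging token. -/
noncomputable def lim {D : Type} (γ : ℕ → List D) : Option (List D) :=
  if ∀ n, γ n = γ 0 then some (γ 0) else none

def edges {N D : Type} : N → List (List (Option (List D)) × N) → List (Edge N D)
  | _, [] => []
  | x, e :: l => (x, e.1, e.2) :: edges e.2 l

def lastL {N D : Type} (π : Pth N D) : N := (π.2.map Prod.snd).getLastD π.1

/-- The number of occurrences of `π` in `u ++ v` that start inside `u`. -/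
noncomputable def stt {α : Type} (π u v : List α) : ℕ :=
  ((Finset.range u.length).filter fun i => π <+: (u ++ v).drop i).card

namespace PS

variable {N D : Type} (P : PS N D)

def ch (x : N) : List N := P.f x :: (P.rest x).map Prod.snd

def len (x : N) (k : ℕ) : ℕ := (P.T x k).length

noncomputable def bar (x : N) : List (List (Option (List D)) × N) :=
  (P.rest x).map fun e => (e.1.map lim, e.2)

/-- The image of a path, up to the first letter of the image of its last letter. -/
noncomputable def sub' : N → List (List (Option (List D)) × N) → List (List (Option (List D)) × N)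
  | _, [] => []
  | x, e :: l => P.bar x ++ (e.1, P.f e.2) :: sub' e.2 l

noncomputable def subP (π : Pth N D) : Pth N D := (P.f π.1, P.sub' π.1 π.2)

/-- The full image of a path. -/
noncomputable def subB (π : Pth N D) : Pth N D := (P.f π.1, P.sub' π.1 π.2 ++ P.bar (lastL π))

def rT (t k : ℕ) (x : N) : List (Option (List D)) := (P.T x k).map (res t)

/-- The word of a path at level `k` and resolution `t`, without its last block. -/
def pre (t k : ℕ) : N → List (List (Option (List D)) × N) → List (Option (List D))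
  | _, [] => []
  | x, e :: l => P.rT t k x ++ e.1.map (·.bind (res t)) ++ pre t k e.2 l

/-- The word of a path. -/
def gb (t k : ℕ) (π : Pth N D) : List (Option (List D)) :=
  P.pre t k π.1 π.2 ++ P.rT t k (lastL π)

/-- The edges that occur below `a`. -/
def EE (a : N) : Set (Edge N D) :=
  {e | ∃ j, e ∈ edges (P.subB^[j] (a, [])).1 (P.subB^[j] (a, [])).2}

/-- Paths below `a`. -/
def Adm (a : N) (π : Pth N D) : Prop := π.1 ∈ P.ch a ∧ ∀ e ∈ edges π.1 π.2, e ∈ P.EE a

/-- All growing tokens below `a` are long at level `k`. -/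
def Big (a : N) (t k : ℕ) : Prop :=
  ∀ y ∈ P.ch a, ∀ e ∈ P.rest y, ∀ γ ∈ e.1, lim γ = none → t < (γ k).length

/-- The factors below `a`. -/
def Lx (a : N) : Set (List (List D)) := {z | ∃ n, z <:+: P.T a n}

/-- The factors below `a` at resolution `t`. -/
def LL (a : N) (t : ℕ) : Set (List (Option (List D))) := {z | ∃ n, z <:+: P.rT t n a}

/-- A letter of a bottom class. -/
def Bot (b : N) : Prop := b ∈ P.ch b ∧ ∀ y ∈ P.ch b, b ∈ P.ch y

/-- Branching letters whose factors occur below `b`. -/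
def Cl (b a : N) : Prop := 2 ≤ (P.ch a).count a ∧ P.Lx a ⊆ P.Lx b

/-- The aperiodic case. -/
def Ap (b : N) : Prop :=
  (∃ y ∈ P.ch b, ∃ e ∈ P.rest y, ∃ γ ∈ e.1, lim γ = none) ∨
    ∀ L, ∃ z α β, z.length = L ∧ α ≠ β ∧ z ++ [α] ∈ P.Lx b ∧ z ++ [β] ∈ P.Lx b

/-- Occurrences of `π` starting before the last block of a path. -/
noncomputable def om (π : List (Option (List D))) (t k : ℕ) (p : Pth N D) : ℕ :=
  stt π (P.pre t k p.1 p.2) (P.rT t k (lastL p))

end PS

/-- Linear recurrence from scale `L` on. -/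
def LRs {α : Type} (Λ : Set (List α)) (C L : ℕ) : Prop :=
  ∀ L', L ≤ L' → ∀ z ∈ Λ, ∀ y ∈ Λ, z.length ≤ L' → C * L' ≤ y.length → z <:+: y

/-- A right special word of length about `L`. -/
def SPs {α : Type} (Λ : Set (List α)) (K L : ℕ) : Prop :=
  ∃ (z : List α) (a b : α), a ≠ b ∧ z ++ [a] ∈ Λ ∧ z ++ [b] ∈ Λ ∧ L ≤ K * z.length ∧ z.length ≤ L

/-- The data describing all classes at one scale. -/
structure Desc {N D : Type} (P : PS N D) (b : N) where
  c : ℕ
  t : ℕ
  r : ℕ
  pat : Fin c → List (Option (List D))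
  Θ : (Fin c → ℤ) →ₗ[ℤ] (Fin c → ℤ)
  lam : (Fin c → ℤ) →ₗ[ℤ] ℤ
  k : N → ℕ
  Δ : N → ℕ
  β : N → N → Fin c → ℤ
  β' : N → N → ℤ
  hpat : ∀ j, (pat j).length = r
  hΔ : ∀ a, 0 < Δ a
  big : ∀ a, P.Cl b a → P.Big a t (k a)
  long : ∀ a, P.Cl b a → ∀ y ∈ P.ch a, r ≤ P.len y (k a)
  hΘ : ∀ a, P.Cl b a → ∀ π, P.Adm a π →
    (fun j => (P.om (pat j) t (k a + Δ a) π : ℤ)) =
      Θ (fun j => (P.om (pat j) t (k a) π : ℤ)) + β a π.1 - β a (lastL π)
  hlam : ∀ a, P.Cl b a → ∀ π, P.Adm a π → ((P.pre t (k a) π.1 π.2).length : ℤ) =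
      lam (fun j => (P.om (pat j) t (k a) π : ℤ)) + β' a π.1 - β' a (lastL π)

end Pool.Agent.P.MP_406085_lc
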