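import Pool.Agent.P.MP_406085_lc.PS0
import Pool.Agent.P.MP_406085_lc.Word

/-!
Counting occurrences along paths.
-/

namespace Pool.Agent.P.MP_406085_lc

open Filter PowerSeries
open scoped Classical

namespace OmA

variable {α β : Type}

theorem occ_left {w X : List α} (Z : List α) {i : ℕ} (h : i + w.length ≤ X.length) :
    w <+: (X ++ Z).drop i ↔ w <+: X.drop i := by
  rw [List.drop_append_of_le_length (by omega)]
  constructor
  · intro h1
    exact List.prefix_of_prefix_length_le h1 (List.prefix_append _ _)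
      (by rw [List.length_drop]; omega)
  · intro h1
    exact h1.trans (List.prefix_append _ _)

theorem occ_right (w A Y : List α) (i : ℕ) :
    w <+: (A ++ Y).drop (A.length + i) ↔ w <+: Y.drop i := by
  rw [List.drop_length_add_append]

theorem first {Λ : Set (List α)} {C L : ℕ} (hf : ∀ z ∈ Λ, ∀ z', z' <:+: z → z' ∈ Λ)
    (hLR : LRs Λ C L) {u : List α} (hu : u ∈ Λ) (hl : L ≤ u.length) {W : List α} (hW : W ∈ Λ)
    {i : ℕ} (hi : i + C * u.length ≤ W.length) :
    ∃ p, p + u.length ≤ C * u.length ∧ u <+: W.drop (i + p) := by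
  have h1 : ((W.drop i).take (C * u.length)).length = C * u.length := by
    rw [List.length_take, List.length_drop]; omega
  obtain ⟨s, s', h2⟩ := hLR u.length hl u hu ((W.drop i).take (C * u.length))
    (hf W hW _ ((List.take_prefix _ _).isInfix.trans (List.drop_suffix _ _).isInfix)) le_rfl h1.ge
  have h3 := congrArg List.length h2
  rw [h1, List.length_append, List.length_append] at h3
  refine ⟨s.length, by omega, ?_⟩
  have h4 : W.drop i = s ++ (u ++ (s' ++ (W.drop i).drop (C * u.length))) := by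
    rw [← List.append_assoc, ← List.append_assoc, h2, List.take_append_drop]
  rw [← List.drop_drop, h4, List.drop_left]
  exact List.prefix_append _ _

/-- first occurrence -/
noncomputable def p0 (u X : List α) : ℕ := sInf {p | u <+: X.drop p}

/-- occurrences before a position -/
noncomputable def cn (π X : List α) (p : ℕ) : ℕ :=
  ((Finset.range p).filter fun i => π <+: X.drop i).card

theorem p0_spec {Λ : Set (List α)} {C L : ℕ} (hf : ∀ z ∈ Λ, ∀ z', z' <:+: z → z' ∈ Λ)
    (hLR : LRs Λ C L) {u : List α} (hu : u ∈ Λ) (hl : L ≤ u.length) {X : List α} (hX : X ∈ Λ)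
    (hlen : C * u.length ≤ X.length) :
    u <+: X.drop (p0 u X) ∧ p0 u X + u.length ≤ C * u.length ∧
      ∀ i < p0 u X, ¬ u <+: X.drop i := by
  obtain ⟨p, h1, h2⟩ := first hf hLR hu hl hX (i := 0) (by omega)
  rw [zero_add] at h2
  have h3 : p0 u X ≤ p := Nat.sInf_le h2
  exact ⟨Nat.sInf_mem (s := {p | u <+: X.drop p}) ⟨p, h2⟩, by omega,
    fun i hi => Nat.notMem_of_lt_sInf hi⟩

theorem card_split (Q : ℕ → Prop) [DecidablePred Q] {p p' : ℕ} (h : p ≤ p') :
    ((Finset.range p').filter Q).card =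
      ((Finset.range p).filter Q).card + ((Finset.Ico p p').filter Q).card := by
  rw [Finset.card_filter, Finset.card_filter, Finset.card_filter,
    Finset.sum_range_add_sum_Ico _ h]

theorem card_shift (Q : ℕ → Prop) [DecidablePred Q] (E q : ℕ) :
    ((Finset.Ico E (E + q)).filter Q).card = ((Finset.range q).filter fun i => Q (E + i)).card := by
  rw [Finset.card_filter, Finset.card_filter, Finset.sum_Ico_eq_sum_range, add_tsub_cancel_left]

/-- the indices of the patterns that are used -/
noncomputable def J {c : ℕ} (u : List α) (r : ℕ) (pat : Fin c → List α) :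
    Finset (Fin c) :=
  Finset.univ.filter fun j => (pat j).length = r ∧ u <+: pat j ∧ ∀ j', pat j' = pat j → j ≤ j'

theorem len_J {c : ℕ} {u : List α} {r : ℕ} {pat : Fin c → List α} {j : Fin c}
    (h : j ∈ J u r pat) : (pat j).length = r := (Finset.mem_filter.1 h).2.1

theorem sum_J {Λ : Set (List α)} (hf : ∀ z ∈ Λ, ∀ z', z' <:+: z → z' ∈ Λ) {u : List α} {r c : ℕ}
    (hr : u.length ≤ r) (pat : Fin c → List α)
    (hpat : ∀ y ∈ Λ, y.length = r → u <+: y → ∃ j, pat j = y) (θ : List α → ℕ) {A Y : List α}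
    (hW : A ++ Y ∈ Λ) (hY : r ≤ Y.length) :
    ∑ j ∈ J u r pat, θ (pat j) * stt (pat j) A Y =
      ∑ i ∈ (Finset.range A.length).filter fun i => u <+: (A ++ Y).drop i,
        θ (((A ++ Y).drop i).take r) := by
  simp only [stt, Finset.card_filter, Finset.mul_sum]
  rw [Finset.sum_comm, Finset.sum_filter]
  refine Finset.sum_congr rfl fun i hi => ?_
  rw [Finset.mem_range] at hi
  have h1 : (((A ++ Y).drop i).take r).length = r := by
    rw [List.length_take, List.length_drop, List.length_append]; omega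
  split_ifs with h
  · obtain ⟨j0, hj0⟩ := hpat _
      (hf _ hW _ ((List.take_prefix _ _).isInfix.trans (List.drop_suffix _ _).isInfix)) h1
      (List.prefix_of_prefix_length_le h (List.take_prefix _ _) (by rw [h1]; exact hr))
    obtain ⟨j, hj, hmin⟩ := Finset.exists_min_image
      (Finset.univ.filter fun j => pat j = ((A ++ Y).drop i).take r) id
      ⟨j0, Finset.mem_filter.2 ⟨Finset.mem_univ _, hj0⟩⟩
    have hj' := (Finset.mem_filter.1 hj).2
    rw [Finset.sum_eq_single j]
    · rw [if_pos (by rw [hj']; exact List.take_prefix _ _), mul_one, hj']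
    · intro j' hj1 hne
      rw [if_neg, mul_zero]
      intro h2
      obtain ⟨h3, -, h4⟩ := (Finset.mem_filter.1 hj1).2
      have h5 : pat j' = ((A ++ Y).drop i).take r := by
        rw [← h3]; exact List.prefix_iff_eq_take.1 h2
      exact hne (le_antisymm (h4 j (hj'.trans h5.symm))
        (hmin j' (Finset.mem_filter.2 ⟨Finset.mem_univ _, h5⟩)))
    · intro hj1
      refine absurd (Finset.mem_filter.2 ⟨Finset.mem_univ _, by rw [hj', h1], ?_, fun j' h2 =>
        hmin j' (Finset.mem_filter.2 ⟨Finset.mem_univ _, h2.trans hj'⟩)⟩) hj1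
      rw [hj']
      exact List.prefix_of_prefix_length_le h (List.take_prefix _ _) (by rw [h1]; exact hr)
  · refine Finset.sum_eq_zero fun j hj => ?_
    rw [if_neg, mul_zero]
    intro h2
    exact h ((Finset.mem_filter.1 hj).2.2.1.trans h2)

theorem edge {Λ : Set (List α)} {C L : ℕ} (hf : ∀ z ∈ Λ, ∀ z', z' <:+: z → z' ∈ Λ)
    (hLR : LRs Λ C L) (hC : 0 < C) {u : List α} (hu : u ∈ Λ) (hl : L ≤ u.length) {c : ℕ}
    (pat : Fin c → List α)
    (hpat : ∀ y ∈ Λ, y.length = C * u.length + 1 → u <+: y → ∃ j, pat j = y)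
    (φ : α → β) {π : List β} (hπ : π.length ≤ u.length) (θ : List α → ℕ)
    (hθ : ∀ (W : List α) (p p' : ℕ), p ≤ p' →
      u <+: W.drop p → u <+: W.drop p' → p' + (C * u.length + 1) ≤ W.length →
      (∀ i, i < p' → u <+: W.drop i →
        ∃ j, 0 < j ∧ j + u.length ≤ C * u.length + 1 ∧ u <+: W.drop (i + j)) →
      ((Finset.Ico p p').filter fun i => π <+: (W.map φ).drop i).card =
        ∑ i ∈ (Finset.Ico p p').filter fun i => u <+: W.drop i,
          θ ((W.drop i).take (C * u.length + 1)))
    {X S Y : List α} (hW : X ++ S ++ Y ∈ Λ) (hX : 2 * (C * u.length + 1) ≤ X.length)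
    (hY : 2 * (C * u.length + 1) ≤ Y.length) :
    stt π ((X ++ S).map φ) (Y.map φ) + cn π (Y.map φ) (p0 u Y) =
      ∑ j ∈ J u (C * u.length + 1) pat, θ (pat j) * stt (pat j) (X ++ S) Y +
        cn π (X.map φ) (p0 u X) := by
  have hXΛ : X ∈ Λ := hf _ hW _ ⟨[], S ++ Y, by simp⟩
  have hYΛ : Y ∈ Λ := hf _ hW _ (List.suffix_append _ _).isInfix
  obtain ⟨x1, x2, x3⟩ := p0_spec hf hLR hu hl hXΛ (by omega)
  obtain ⟨y1, y2, y3⟩ := p0_spec hf hLR hu hl hYΛ (by omega)
  have hul : u.length ≤ C * u.length := Nat.le_mul_of_pos_left _ hC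
  have hE : X.length ≤ (X ++ S).length := by rw [List.length_append]; omega
  have hWl : (X ++ S ++ Y).length = (X ++ S).length + Y.length := List.length_append
  have hp : p0 u X ≤ (X ++ S).length + p0 u Y := by omega
  have hL : ∀ i, i ≤ p0 u X → (u <+: (X ++ S ++ Y).drop i ↔ u <+: X.drop i) := fun i hi => by
    rw [List.append_assoc]; exact occ_left _ (by omega)
  have h1 := hθ (X ++ S ++ Y) (p0 u X) ((X ++ S).length + p0 u Y) hp ((hL _ le_rfl).2 x1)
    ((occ_right _ _ _ _).2 y1) (by omega) (fun i hi _ => by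
      obtain ⟨p, h2, h3⟩ := first hf hLR hu hl hW (i := i + 1) (by omega)
      exact ⟨1 + p, by omega, by omega, by rwa [← add_assoc]⟩)
  have h2 : ((Finset.Ico (p0 u X) ((X ++ S).length + p0 u Y)).filter
      fun i => u <+: (X ++ S ++ Y).drop i) =
      (Finset.range (X ++ S).length).filter fun i => u <+: (X ++ S ++ Y).drop i := by
    ext i
    simp only [Finset.mem_filter, Finset.mem_Ico, Finset.mem_range]
    constructor
    · rintro ⟨⟨h3, h4⟩, h5⟩
      refine ⟨?_, h5⟩
      by_contra h6
      obtain ⟨d, rfl⟩ := Nat.exists_eq_add_of_le (not_lt.1 h6)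
      exact y3 d (by omega) ((occ_right _ _ _ _).1 h5)
    · rintro ⟨h3, h5⟩
      refine ⟨⟨?_, by omega⟩, h5⟩
      by_contra h6
      exact x3 i (by omega) ((hL i (by omega)).1 h5)
  rw [h2, ← sum_J hf (by omega) pat hpat θ hW (by omega)] at h1
  rw [← h1]
  have h3 := card_split (fun i => π <+: ((X ++ S ++ Y).map φ).drop i) hp
  have h4 := card_split (fun i => π <+: ((X ++ S ++ Y).map φ).drop i)
    (Nat.le_add_right (X ++ S).length (p0 u Y))
  rw [card_shift] at h4
  have h5 : stt π ((X ++ S).map φ) (Y.map φ) = ((Finset.range (X ++ S).length).filter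
      fun i => π <+: ((X ++ S ++ Y).map φ).drop i).card := by
    rw [stt, List.length_map, ← List.map_append]
  have h6 : cn π (Y.map φ) (p0 u Y) = ((Finset.range (p0 u Y)).filter
      fun i => π <+: ((X ++ S ++ Y).map φ).drop ((X ++ S).length + i)).card := by
    rw [cn]
    congr 1
    refine Finset.filter_congr fun i _ => ?_
    rw [List.map_append (l₂ := Y), ← List.length_map (as := X ++ S) φ, occ_right]
  have h7 : cn π (X.map φ) (p0 u X) = ((Finset.range (p0 u X)).filter
      fun i => π <+: ((X ++ S ++ Y).map φ).drop i).card := by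
    rw [cn]
    congr 1
    refine Finset.filter_congr fun i hi => ?_
    rw [Finset.mem_range] at hi
    rw [List.append_assoc, List.map_append, occ_left]
    rw [List.length_map]; omega
  rw [h5, h6, h7]
  omega

end OmA

namespace PS

variable {N D : Type} (P : PS N D) {a x : N} {t k : ℕ} {π : List (Option (List D))}

theorem om_append {l l' : List (List (Option (List D)) × N)}
    (h : π.length ≤ P.len (lastL (x, l)) k) :
    P.om π t k (x, l ++ l') = P.om π t k (x, l) + P.om π t k (lastL (x, l), l') := by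
  have h1 := P.ps0_gb_eq t k (lastL (x, l)) l'
  rw [gb] at h1
  simp only [om, pre_append, lastL_append, stt_append]
  rw [h1, stt_long (by rwa [length_rT])]

theorem om_succ (h : P.Big a t k) {p : Pth N D} (hp : P.Adm a p)
    (hl : ∀ y ∈ P.ch a, π.length ≤ P.len y k) :
    P.om π t (k + 1) p = P.om π t k (P.subP p) := by
  obtain ⟨w, hw⟩ := (P.first_step (lastL p) k).map (res t)
  rw [om, om, P.pre_succ h hp, P.lastL_subP, rT, ← hw, stt_long]
  · rfl
  · rw [List.length_map]
    exact hl _ (P.ch_trans (Adm.last P hp) (P.f_mem _))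

/-- One scale: all short patterns are counted through boundedly many long patterns, up to a
coboundary. -/
theorem scale_desc {Λ : Set (List (Option (List D)))} {C K L : ℕ}
    (hf : ∀ z ∈ Λ, ∀ z', z' <:+: z → z' ∈ Λ) (hLR : LRs Λ C L) (hC : 0 < C)
    {u : List (Option (List D))} (hu : u ∈ Λ) (hl : L ≤ u.length) {c : ℕ}
    (pat : Fin c → List (Option (List D)))
    (hpat : ∀ y ∈ Λ, y.length = C * u.length + 1 → u <+: y → ∃ j, pat j = y)
    {t₀ : ℕ} (ht : t₀ ≤ t) (hπ : π.length ≤ u.length) :
    ∃ θ : (Fin c → ℤ) →ₗ[ℤ] ℤ, ∀ a k, a ∈ P.ch a → P.LL a t ⊆ Λ → P.Big a t k →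
      (∀ y ∈ P.ch a, 2 * (C * u.length + 1) ≤ P.len y k) → ∃ β : N → ℤ, ∀ p, P.Adm a p →
        (P.om π t₀ k p : ℤ) = θ (fun j => (P.om (pat j) t k p : ℤ)) + β p.1 - β (lastL p) := by
  obtain ⟨θ, hθ⟩ := ret_sum (fun z : Option (List D) => z.bind (res t₀)) u (C * u.length + 1) π hπ
  refine ⟨∑ j ∈ OmA.J u (C * u.length + 1) pat, (θ (pat j) : ℤ) • LinearMap.proj j,
    fun a k ha hΛ hb hlen => ⟨fun x => OmA.cn π (P.rT t₀ k x) (OmA.p0 u (P.rT t k x)), ?_⟩⟩
  have hul : u.length ≤ C * u.length := Nat.le_mul_of_pos_left _ hC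
  have key : ∀ (l : List (List (Option (List D)) × N)) (x : N), P.Adm a (x, l) →
      P.om π t₀ k (x, l) + OmA.cn π (P.rT t₀ k (lastL (x, l))) (OmA.p0 u (P.rT t k (lastL (x, l)))) =
        ∑ j ∈ OmA.J u (C * u.length + 1) pat, θ (pat j) * P.om (pat j) t k (x, l) +
          OmA.cn π (P.rT t₀ k x) (OmA.p0 u (P.rT t k x)) := by
    intro l
    induction l with
    | nil => intro x _; simp [om, pre, stt, ps0_lastL_nil]
    | cons e l ih =>
      intro x hx
      obtain ⟨h1, h2⟩ := (P.adm_append (l := [e])).1 hx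
      have h3 := ih e.2 h2
      have h4 := hlen e.2 h2.1
      have h5 := hΛ (P.edge_ll ha hb (h1.2 (x, e.1, e.2) List.mem_cons_self))
      simp only [gb, pre, List.append_nil] at h5
      have h6 := OmA.edge hf hLR hC hu hl pat hpat (fun z : Option (List D) => z.bind (res t₀)) hπ
        θ hθ h5 (by rw [length_rT]; exact hlen x hx.1) (by rw [length_rT]; exact h4)
      have h7 : P.om π t₀ k (x, e :: l) = P.om π t₀ k (x, [e]) + P.om π t₀ k (e.2, l) :=
        P.om_append (l := [e]) (show π.length ≤ P.len e.2 k by omega)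
      have h8 : ∑ j ∈ OmA.J u (C * u.length + 1) pat, θ (pat j) * P.om (pat j) t k (x, e :: l) =
          ∑ j ∈ OmA.J u (C * u.length + 1) pat, θ (pat j) * P.om (pat j) t k (x, [e]) +
          ∑ j ∈ OmA.J u (C * u.length + 1) pat, θ (pat j) * P.om (pat j) t k (e.2, l) := by
        rw [← Finset.sum_add_distrib]
        refine Finset.sum_congr rfl fun j hj => ?_
        have h9 := OmA.len_J hj
        rw [← mul_add]
        congr 1
        exact P.om_append (l := [e]) (show (pat j).length ≤ P.len e.2 k by omega)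
      have h9 : P.om π t₀ k (x, [e]) = stt π ((P.rT t k x ++ e.1.map (·.bind (res t))).map
          fun z => z.bind (res t₀)) ((P.rT t k e.2).map fun z => z.bind (res t₀)) := by
        rw [om, P.pre_res ht, P.rT_res ht]
        simp only [pre, List.append_nil]
        rfl
      have h10 : ∀ j, P.om (pat j) t k (x, [e]) =
          stt (pat j) (P.rT t k x ++ e.1.map (·.bind (res t))) (P.rT t k e.2) := fun j => by
        simp only [om, pre, List.append_nil]
        rfl
      rw [← P.rT_res ht, ← P.rT_res ht] at h6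
      rw [← P.rT_res ht] at h9
      simp only [h10] at h8
      rw [ps0_lastL_cons, h7, h8, h9]
      change stt π _ (P.rT t₀ k e.2) + OmA.cn π (P.rT t₀ k e.2) (OmA.p0 u (P.rT t k e.2)) =
        ∑ j ∈ _, θ (pat j) * stt (pat j) _ (P.rT t k e.2) + _ at h6
      omega
  rintro ⟨x, l⟩ hp
  have h1 := congrArg (Nat.cast : ℕ → ℤ) (key l x hp)
  push_cast at h1
  simp only [LinearMap.sum_apply, LinearMap.smul_apply, LinearMap.proj_apply, smul_eq_mul]
  linarith

end PS

end Pool.Agent.P.MP_406085_lc
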