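import Pool.Agent.P.MP_406085_lc.Cmp
import Pool.Agent.P.MP_406085_lc.Om

/-!
Existence of a common description of all classes.
-/

namespace Pool.Agent.P.MP_406085_lc

open Filter PowerSeries
open scoped Classical

namespace DescA

theorem stt_mono {α : Type} {u π : List α} (h : u <+: π) (v w : List α) :
    stt π v w ≤ stt u v w := by
  unfold stt
  refine Finset.card_le_card fun i hi => ?_
  rw [Finset.mem_filter] at hi ⊢
  exact ⟨hi.1, h.trans hi.2⟩

theorem enum {α : Type} {S : Set α} (hS : S.Finite) {c : ℕ} (hc : S.ncard ≤ c) (Q : α → Prop)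
    (hQ : ∀ y ∈ S, Q y) (d : α) (hd : Q d) :
    ∃ pat : Fin c → α, (∀ j, Q (pat j)) ∧ ∀ y ∈ S, ∃ j, pat j = y := by
  have hlen : hS.toFinset.toList.length ≤ c := by
    rw [Finset.length_toList, ← Set.ncard_eq_toFinset_card S hS]; exact hc
  refine ⟨fun j => hS.toFinset.toList.getD j d, fun j => ?_, fun y hy => ?_⟩
  · beta_reduce
    by_cases h : (j : ℕ) < hS.toFinset.toList.length
    · rw [List.getD_eq_getElem _ _ h]
      exact hQ _ (hS.mem_toFinset.1 (Finset.mem_toList.1 (List.getElem_mem h)))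
    · rw [List.getD_eq_default _ _ (not_lt.1 h)]; exact hd
  · obtain ⟨i, hi, e⟩ := List.getElem_of_mem (Finset.mem_toList.2 (hS.mem_toFinset.2 hy))
    exact ⟨⟨i, hi.trans_le hlen⟩, (List.getD_eq_getElem _ _ hi).trans e⟩

variable {N D : Type} [Finite N] (P : PS N D) {b : N}

omit [Finite N] in
/-- The level at which all blocks below `a` are long but not too long. -/
theorem level {Cs Cc : ℕ} (hs : ∀ x k, P.len x (k + 1) ≤ Cs * P.len x k) {a : N}
    (hc : ∀ y ∈ P.ch a, ∀ k, P.len a k ≤ Cc * P.len y k) {t L R : ℕ}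
    (h0 : ∃ k, P.Big a t k ∧ P.len a k ≤ L) :
    ∃ k, P.Big a t k ∧ ∀ y ∈ P.ch a, R ≤ P.len y k ∧
      P.len y k ≤ Cs * L + Cs * Cs * Cc * R := by
  obtain ⟨k0, hk0, hL⟩ := h0
  have hex : ∃ k, P.Big a t k ∧ ∀ y ∈ P.ch a, R ≤ P.len y k :=
    ⟨max k0 R, hk0.mono P le_rfl (le_max_left _ _), fun y _ =>
      (le_max_right k0 R).trans (P.lt_len y _).le⟩
  refine ⟨Nat.find hex, (Nat.find_spec hex).1, fun y hy => ⟨(Nat.find_spec hex).2 y hy, ?_⟩⟩
  have h1 := P.len_le_succ hy (Nat.find hex)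
  have h2 := hs a (Nat.find hex)
  by_cases hk : Nat.find hex ≤ k0
  · have h3 := (P.len_mono a hk).trans hL
    have h4 := Nat.mul_le_mul_left Cs h3
    omega
  · obtain ⟨k', hk'⟩ : ∃ k', Nat.find hex = k' + 1 := ⟨Nat.find hex - 1, by omega⟩
    have h3 := Nat.find_min hex (show k' < Nat.find hex by omega)
    rw [not_and] at h3
    have h4 := h3 (hk0.mono P le_rfl (by omega))
    push Not at h4
    obtain ⟨y', hy', h5⟩ := h4
    rw [hk'] at h1 h2 ⊢
    have h6 := hs a k'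
    have h7 := (hc y' hy' k').trans (Nat.mul_le_mul_left Cc h5.le)
    have h8 := Nat.mul_le_mul_left Cs (h6.trans (Nat.mul_le_mul_left Cs h7))
    have h9 : Cs * (Cs * (Cc * R)) = Cs * Cs * Cc * R := by ring
    omega

omit [Finite N] in
/-- Equal counts on edges give equal counts on paths. -/
theorem om_eq {a : N} {π π' : List (Option (List D))} {t t' k k' : ℕ}
    (h : ∀ y ∈ P.ch a, π.length ≤ P.len y k) (h' : ∀ y ∈ P.ch a, π'.length ≤ P.len y k')
    (he : ∀ e ∈ P.EE a, P.om π t k (e.1, [(e.2.1, e.2.2)]) =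
      P.om π' t' k' (e.1, [(e.2.1, e.2.2)])) (l : List (List (Option (List D)) × N)) :
    ∀ x, P.Adm a (x, l) → P.om π t k (x, l) = P.om π' t' k' (x, l) := by
  induction l with
  | nil => intro x _; rfl
  | cons e l ih =>
    intro x hx
    have e1 : e :: l = [e] ++ l := rfl
    rw [e1] at hx ⊢
    obtain ⟨h1, h2⟩ := P.adm_append.1 hx
    have h3 := h1.last P
    rw [P.om_append (h _ h3), P.om_append (h' _ h3), ih _ h2]
    congr 1
    exact he (x, e.1, e.2) (h1.2 _ (by simp [edges]))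

omit [Finite N] in
/-- The data at one scale. -/
theorem scale {C K Cs Cc t L : ℕ} (hC : 0 < C) (hL : 0 < L)
    (hs : ∀ x k, P.len x (k + 1) ≤ Cs * P.len x k)
    (hc : ∀ a, P.Cl b a → ∀ y ∈ P.ch a, ∀ k, P.len a k ≤ Cc * P.len y k)
    (hLR : LRs (P.LL b t) C L) (hSP : SPs (P.LL b t) K L)
    (h0 : ∀ a, P.Cl b a → ∃ k, P.Big a t k ∧ P.len a k ≤ L) :
    ∃ (u : List (Option (List D))) (pat : Fin (K * C * (2 * C * C + 1) + 1) →
      List (Option (List D))) (k : N → ℕ), u ∈ P.LL b t ∧ u.length = C * (L + 1) ∧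
      (∀ j, (pat j).length = C * u.length + 1) ∧
      (∀ y ∈ P.LL b t, y.length = C * u.length + 1 → u <+: y → ∃ j, pat j = y) ∧
      (∀ a, P.Cl b a → P.Big a t (k a) ∧ ∀ y ∈ P.ch a, 2 * (C * u.length + 1) ≤ P.len y (k a) ∧
        P.len y (k a) ≤ (Cs + Cs * Cs * Cc * (2 * (2 * C * C + 1))) * L) ∧
      ∀ a, P.Cl b a → ∀ e ∈ P.EE a, ∀ j, P.om (pat j) t (k a) (e.1, [(e.2.1, e.2.2)]) ≤
        K * (Cs + Cs * Cs * Cc * (2 * (2 * C * C + 1)) + e.2.1.length) + 1 := by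
  obtain ⟨u, hu, hl⟩ := P.ll_long b t (C * (L + 1))
  have hf : ∀ z ∈ P.LL b t, ∀ z', z' <:+: z → z' ∈ P.LL b t := fun z hz z' h => P.ll_fac hz h
  have hr : C * u.length + 1 ≤ (2 * C * C + 1) * L := by
    rw [hl]
    have : C * (C * (L + 1)) ≤ C * (C * (2 * L)) :=
      Nat.mul_le_mul_left _ (Nat.mul_le_mul_left _ (by omega))
    nlinarith
  have hul : u.length ≤ C * u.length := Nat.le_mul_of_pos_left _ hC
  have hLu : L + 1 ≤ u.length := by rw [hl]; exact Nat.le_mul_of_pos_left _ hC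
  obtain ⟨hfin, hcard⟩ := ext_card hf hLR hSP hL hu hl.ge (r := C * u.length + 1) (by omega)
    (P.ll_long b t _)
  obtain ⟨pat, hp1, hp2⟩ := enum hfin (c := K * C * (2 * C * C + 1) + 1) (by
      refine Nat.le_of_mul_le_mul_right (hcard.trans ?_) hL
      have := Nat.mul_le_mul_left (K * C) hr
      nlinarith)
    (fun y => y.length = C * u.length + 1 ∧ u <+: y) (fun y hy => hy.2)
    (u ++ List.replicate (C * u.length + 1 - u.length) none)
    ⟨by rw [List.length_append, List.length_replicate]; omega, List.prefix_append _ _⟩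
  have hk : ∀ a, ∃ k, P.Cl b a → P.Big a t k ∧ ∀ y ∈ P.ch a,
      2 * (C * u.length + 1) ≤ P.len y k ∧
        P.len y k ≤ (Cs + Cs * Cs * Cc * (2 * (2 * C * C + 1))) * L := by
    intro a
    by_cases ha : P.Cl b a
    · obtain ⟨k, h1, h2⟩ := level P hs (hc a ha) (R := 2 * (C * u.length + 1)) (h0 a ha)
      refine ⟨k, fun _ => ⟨h1, fun y hy => ⟨(h2 y hy).1, (h2 y hy).2.trans ?_⟩⟩⟩
      have := Nat.mul_le_mul_left (Cs * Cs * Cc * 2) hr
      nlinarith
    · exact ⟨0, fun h => absurd h ha⟩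
  choose k hk using hk
  refine ⟨u, pat, k, hu, hl, fun j => (hp1 j).1, fun y h1 h2 h3 => hp2 y ⟨h1, h2, h3⟩, hk,
    fun a ha e he j => ?_⟩
  refine (stt_mono (hp1 j).2 _ _).trans (Nat.le_of_mul_le_mul_right
    ((occ_count hf hLR hSP hL hu hl.ge _ _).trans ?_) hL)
  have h1 := ((hk a ha).2 e.1 (P.EE_mem he).1).2
  have h2 : e.2.1.length ≤ e.2.1.length * L := Nat.le_mul_of_pos_right _ hL
  simp only [PS.pre, List.length_append, P.length_rT, List.length_map, List.append_nil]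
  have h3 := Nat.mul_le_mul_left K (add_le_add h1 h2)
  nlinarith

end DescA

variable {N D : Type} [Finite N] (P : PS N D) {b : N}

theorem PS.desc (hb : P.Bot b) (hap : P.Ap b) : Nonempty (Desc P b) := by
  obtain ⟨Cc, hc⟩ := P.cmp hb hap
  obtain ⟨Cs, -, hs⟩ := P.len_succ_le
  obtain ⟨C, K, ts, Ls, hC, hts, hLs, hj⟩ := P.js hb hap ⟨Cc, hc⟩
  obtain ⟨ν0, hν0⟩ := eventually_atTop.1 (hLs.eventually_gt_atTop 0)
  have hsc := fun ν => DescA.scale P hC (hν0 (ν + ν0) (Nat.le_add_left _ _)) hs hc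
    (hj (ν + ν0)).1 (hj (ν + ν0)).2.1 (hj (ν + ν0)).2.2
  choose u pat k hu hl hp1 hp2 hk hB using hsc
  generalize K * C * (2 * C * C + 1) + 1 = c at pat hp1 hp2 hB
  generalize Cs + Cs * Cs * Cc * (2 * (2 * C * C + 1)) = C1 at hk hB
  let I := {q : (N × Edge N D) × Fin c // P.Cl b q.1.1 ∧ q.1.2 ∈ P.EE q.1.1}
  have hI : Finite I := by
    have h1 : ({q : N × Edge N D | q.2 ∈ P.EE q.1}).Finite := by
      refine (Set.finite_iUnion fun a : N => (P.EE_finite a).image fun e => (a, e)).subset ?_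
      rintro ⟨a, e⟩ h
      exact Set.mem_iUnion.2 ⟨a, e, h, rfl⟩
    exact ((h1.prod (Set.finite_univ (α := Fin c))).subset
      fun q (hq : P.Cl b q.1.1 ∧ q.1.2 ∈ P.EE q.1.1) => ⟨hq.2, trivial⟩).to_subtype
  let tab : ℕ → (q : I) → Fin (K * (C1 + q.1.1.2.2.1.length) + 2) := fun ν q =>
    ⟨P.om (pat ν q.1.2) (ts (ν + ν0)) (k ν q.1.1.1)
      (q.1.1.2.1, [(q.1.1.2.2.1, q.1.1.2.2.2)]),
      Nat.lt_succ_of_le (hB ν _ q.2.1 _ q.2.2 _)⟩
  obtain ⟨T, hT⟩ := Finite.exists_infinite_fiber tab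
  have hT' : ∃ᶠ ν in atTop, tab ν = T :=
    Nat.frequently_atTop_iff_infinite.2 (Set.infinite_coe_iff.1 hT)
  obtain ⟨ν, hν⟩ := hT'.exists
  have hLs' : Tendsto (fun ν => Ls (ν + ν0)) atTop atTop := hLs.comp (tendsto_add_atTop_nat ν0)
  obtain ⟨ν', hν', h1, h2, h3⟩ := (hT'.and_eventually ((eventually_ge_atTop ν).and
    ((hLs'.eventually_ge_atTop (C * (u ν).length + 1)).and
      (hLs'.eventually_gt_atTop (C1 * Ls (ν + ν0)))))).exists
  have hLu : ∀ ν, Ls (ν + ν0) + 1 ≤ (u ν).length := fun ν => by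
    rw [hl]; exact Nat.le_mul_of_pos_left _ hC
  have hul : ∀ ν, (u ν).length ≤ C * (u ν).length := fun ν => Nat.le_mul_of_pos_left _ hC
  have hf : ∀ t, ∀ z ∈ P.LL b t, ∀ z', z' <:+: z → z' ∈ P.LL b t :=
    fun t z hz z' h => P.ll_fac hz h
  have hlt : ∀ a, P.Cl b a → k ν a < k ν' a := by
    intro a ha
    by_contra h
    have a1 := P.len_mono a (not_lt.1 h)
    have a2 := ((hk ν a ha).2 a (ha.mem P)).2
    have a3 := ((hk ν' a ha).2 a (ha.mem P)).1
    have a4 := hLu ν'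
    have a5 := hul ν'
    omega
  have heq : ∀ a, P.Cl b a → ∀ p, P.Adm a p → ∀ j,
      P.om (pat ν' j) (ts (ν' + ν0)) (k ν' a) p = P.om (pat ν j) (ts (ν + ν0)) (k ν a) p := by
    intro a ha p hp j
    refine DescA.om_eq P (a := a) (fun y hy => ?_) (fun y hy => ?_) (fun e he => ?_) p.2 p.1 hp
    · have := ((hk ν' a ha).2 y hy).1
      rw [hp1]; omega
    · have := ((hk ν a ha).2 y hy).1
      rw [hp1]; omega
    · exact congrArg Fin.val (congrFun (hν'.trans hν.symm) ⟨((a, e), j), ha, he⟩)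
  have hθ := fun j => P.scale_desc (t := ts (ν' + ν0)) (π := pat ν j) (K := K) (hf _)
    (hj (ν' + ν0)).1 hC (hu ν') (by have := hLu ν'; omega) (pat ν') (hp2 ν')
    (hts (Nat.add_le_add_right h1 ν0)) (by have := hLu ν'; rw [hp1]; omega)
  choose θ hθ using hθ
  have hβ : ∀ j a, ∃ β : N → ℤ, P.Cl b a → ∀ p, P.Adm a p →
      (P.om (pat ν j) (ts (ν + ν0)) (k ν' a) p : ℤ) =
        θ j (fun i => (P.om (pat ν i) (ts (ν + ν0)) (k ν a) p : ℤ)) + β p.1 - β (lastL p) := by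
    intro j a
    by_cases ha : P.Cl b a
    · obtain ⟨β, hβ⟩ := hθ j a (k ν' a) (ha.mem P) (P.ll_sub ha.2 _) (hk ν' a ha).1
        fun y hy => ((hk ν' a ha).2 y hy).1
      refine ⟨β, fun _ p hp => ?_⟩
      rw [hβ p hp]
      simp only [heq a ha p hp]
    · exact ⟨0, fun h => absurd h ha⟩
  choose β hβ using hβ
  obtain ⟨lam, hlam⟩ := P.scale_desc (t := ts (ν + ν0)) (π := []) (K := K) (hf _)
    (hj (ν + ν0)).1 hC (hu ν) (by have := hLu ν; omega) (pat ν) (hp2 ν) le_rfl (by simp)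
  have hβ' : ∀ a, ∃ β : N → ℤ, P.Cl b a → ∀ p, P.Adm a p →
      ((P.pre (ts (ν + ν0)) (k ν a) p.1 p.2).length : ℤ) =
        lam (fun i => (P.om (pat ν i) (ts (ν + ν0)) (k ν a) p : ℤ)) + β p.1 - β (lastL p) := by
    intro a
    by_cases ha : P.Cl b a
    · obtain ⟨β, hβ⟩ := hlam a (k ν a) (ha.mem P) (P.ll_sub ha.2 _) (hk ν a ha).1
        fun y hy => ((hk ν a ha).2 y hy).1
      refine ⟨β, fun _ p hp => ?_⟩
      rw [← hβ p hp, PS.om, stt_nil]
    · exact ⟨0, fun h => absurd h ha⟩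
  choose β' hβ' using hβ'
  refine ⟨{
    c := c
    t := ts (ν + ν0)
    r := C * (u ν).length + 1
    pat := pat ν
    Θ := LinearMap.pi θ
    lam := lam
    k := k ν
    Δ := fun a => if P.Cl b a then k ν' a - k ν a else 1
    β := fun a x j => β j a x
    β' := β'
    hpat := hp1 ν
    hΔ := fun a => ?_
    big := fun a ha => (hk ν a ha).1
    long := fun a ha y hy => ?_
    hΘ := fun a ha p hp => ?_
    hlam := hβ' }⟩
  · split_ifs with ha
    · have := hlt a ha; omega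
    · exact Nat.one_pos
  · have := ((hk ν a ha).2 y hy).1
    omega
  · funext j
    have e : k ν a + (k ν' a - k ν a) = k ν' a := by have := hlt a ha; omega
    simp only [if_pos ha, e, Pi.add_apply, Pi.sub_apply, LinearMap.pi_apply]
    exact hβ j a ha p hp

end Pool.Agent.P.MP_406085_lc
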