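import Pool.Agent.P.MP_406085_lc.Basic

/-!
The theorem of Skolem, Mahler and Lech for integer matrices, by the argument of Hansel.
-/

namespace Pool.Agent.P.MP_406085_lc

open Filter Polynomial
open scoped Classical

namespace Sml

variable {p : ℕ} [Fact p.Prime]

theorem coeff_le {P : ℚ_[p][X]} {m : ℚ_[p]} (hm : ‖m‖ ≤ 1) {c : ℝ} (hc : 0 ≤ c) {k : ℕ}
    (h : ∀ i, k + 1 ≤ i → ‖((X - C m) * P).coeff i‖ ≤ c) : ∀ i, k ≤ i → ‖P.coeff i‖ ≤ c := by
  suffices H : ∀ t i, k ≤ i → P.natDegree < i + t → ‖P.coeff i‖ ≤ c from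
    fun i hi => H (P.natDegree + 1) i hi (by omega)
  intro t
  induction t with
  | zero =>
    intro i _ hi
    rw [coeff_eq_zero_of_natDegree_lt (by omega), norm_zero]
    exact hc
  | succ t ih =>
    intro i hk hi
    have h1 := h (i + 1) (by omega)
    have h2 := ih (i + 1) (by omega) (by omega)
    have e : P.coeff i = ((X - C m) * P).coeff (i + 1) + m * P.coeff (i + 1) := by
      rw [sub_mul, coeff_sub, coeff_X_mul, coeff_C_mul]
      ring
    rw [e]
    refine (IsUltrametricDist.norm_add_le_max _ _).trans (max_le h1 ?_)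
    rw [norm_mul]
    exact (mul_le_of_le_one_left (norm_nonneg _) hm).trans h2

theorem eval_le {c : ℝ} (hc : 0 ≤ c) (Z : Finset ℕ) : ∀ Q : ℚ_[p][X],
    (∀ z ∈ Z, Q.eval (z : ℚ_[p]) = 0) → (∀ i, Z.card ≤ i → ‖Q.coeff i‖ ≤ c) →
      ∀ q : ℕ, ‖Q.eval (q : ℚ_[p])‖ ≤ c := by
  induction Z using Finset.induction_on with
  | empty =>
    intro Q _ h q
    rw [eval_eq_sum_range]
    refine IsUltrametricDist.norm_sum_le_of_forall_le_of_nonneg hc fun i _ => ?_
    rw [norm_mul, norm_pow]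
    exact (mul_le_of_le_one_right (norm_nonneg _) (pow_le_one₀ (norm_nonneg _)
      (IsUltrametricDist.norm_natCast_le_one _ q))).trans (h i (by simp))
  | insert z Z hz ih =>
    intro Q h0 h q
    obtain ⟨P, rfl⟩ := dvd_iff_isRoot.mpr (h0 z (Finset.mem_insert_self _ _))
    rw [Finset.card_insert_of_notMem hz] at h
    have h1 := ih P (fun z' hz' => by
      have := h0 z' (Finset.mem_insert_of_mem hz')
      rw [eval_mul, eval_sub, eval_X, eval_C, mul_eq_zero, sub_eq_zero, Nat.cast_inj] at this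
      exact this.resolve_left fun e => hz (e ▸ hz'))
      (coeff_le (IsUltrametricDist.norm_natCast_le_one _ z) hc h) q
    rw [eval_mul, eval_sub, eval_X, eval_C, norm_mul]
    refine (mul_le_of_le_one_left (norm_nonneg _) ?_).trans h1
    exact_mod_cast IsUltrametricDist.norm_intCast_le_one ℚ_[p] ((q : ℤ) - z)

theorem norm_div_le (k : ℕ) : ‖(p : ℚ_[p]) ^ k / k.factorial‖ ≤ 1 := by
  have hp : (1 : ℝ) < p := by exact_mod_cast (Fact.out : p.Prime).one_lt
  have hk : (k.factorial : ℚ_[p]) ≠ 0 := by exact_mod_cast k.factorial_ne_zero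
  rw [norm_div, div_le_one (norm_pos_iff.mpr hk), Padic.norm_p_pow,
    Padic.norm_eq_zpow_neg_valuation hk, Padic.valuation_natCast]
  exact zpow_le_zpow_right₀ hp.le (by have := padicValNat_factorial_le p k; omega)

theorem hansel (p : ℕ) [Fact p.Prime] (d : ℕ → ℤ) (b : ℕ → ℤ)
    (hb : ∀ n, b n = ∑ k ∈ Finset.range (n + 1), ((p : ℤ) ^ 2) ^ k * n.choose k * d k)
    (h : {n | b n = 0}.Infinite) (q : ℕ) : b q = 0 := by
  have hp : (1 : ℝ) < p := by exact_mod_cast (Fact.out : p.Prime).one_lt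
  have key : ∀ j : ℕ, ‖(b q : ℚ_[p])‖ ≤ ((p : ℝ)⁻¹) ^ j := by
    intro j
    obtain ⟨Z, hZ, hc⟩ := h.exists_subset_card_eq j
    obtain ⟨n, hn⟩ := (insert q Z).exists_le
    let R : ℚ_[p][X] := ∑ k ∈ Finset.range (n + 1),
      C ((d k : ℚ_[p]) * (p : ℚ_[p]) ^ k * ((p : ℚ_[p]) ^ k / k.factorial)) * descPochhammer ℚ_[p] k
    have hR : ∀ t : ℕ, t ≤ n → R.eval (t : ℚ_[p]) = b t := by
      intro t ht
      rw [hb, eval_finsetSum, Int.cast_sum]
      symm
      refine Finset.sum_subset_zero_on_sdiff (Finset.range_subset_range.mpr (by omega))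
        (fun k hk => ?_) fun k _ => ?_
      · simp only [Finset.mem_sdiff, Finset.mem_range] at hk
        rw [eval_mul, descPochhammer_eval_eq_descFactorial,
          Nat.descFactorial_eq_zero_iff_lt.mpr (by omega), Nat.cast_zero, mul_zero]
      · have hk : (k.factorial : ℚ_[p]) ≠ 0 := by exact_mod_cast k.factorial_ne_zero
        rw [eval_mul, eval_C, descPochhammer_eval_eq_descFactorial,
          Nat.descFactorial_eq_factorial_mul_choose]
        push_cast
        field_simp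
        ring
    rw [← hR q (hn q (by simp))]
    refine eval_le (by positivity) Z R (fun z hz => ?_) (fun i hi => ?_) q
    · rw [hR z (hn z (by simp [hz])), show b z = 0 from hZ hz, Int.cast_zero]
    · rw [finsetSum_coeff]
      refine IsUltrametricDist.norm_sum_le_of_forall_le_of_nonneg (by positivity) fun k _ => ?_
      rw [coeff_C_mul]
      by_cases hk : k < i
      · rw [coeff_eq_zero_of_natDegree_lt (by rwa [descPochhammer_natDegree]), mul_zero, norm_zero]
        positivity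
      have h1 : ‖(descPochhammer ℚ_[p] k).coeff i‖ ≤ 1 := by
        rw [← descPochhammer_map (Int.castRingHom ℚ_[p]), coeff_map]
        exact Padic.norm_int_le_one _
      have h2 : ‖(p : ℚ_[p]) ^ k‖ ≤ ((p : ℝ)⁻¹) ^ j := by
        rw [norm_pow, Padic.norm_p]
        exact pow_le_pow_of_le_one (by positivity) (inv_le_one_of_one_le₀ hp.le) (by omega)
      rw [norm_mul, norm_mul, norm_mul]
      calc _ ≤ 1 * ((p : ℝ)⁻¹) ^ j * 1 * 1 := by
            gcongr
            exacts [Padic.norm_int_le_one _, norm_div_le k]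
        _ = _ := by ring
  have h0 : ‖(b q : ℚ_[p])‖ ≤ 0 :=
    ge_of_tendsto' (tendsto_pow_atTop_nhds_zero_of_lt_one (by positivity)
      (inv_lt_one_of_one_lt₀ hp)) key
  exact_mod_cast norm_le_zero_iff.mp h0

theorem exists_order {Q : ℤ[X]} (hQ : Q.Monic) {M : ℕ} (hM : 0 < M)
    (hc : IsCoprime (M : ℤ) (Q.coeff 0)) :
    ∃ N, 0 < N ∧ ∃ Y : ℤ[X], Q ∣ X ^ N - (C (M : ℤ) * Y + 1) := by
  have : NeZero M := ⟨hM.ne'⟩
  let f := Int.castRingHom (ZMod M)
  have hm : (Q.map f).Monic := hQ.map f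
  have : Module.Finite (ZMod M) (AdjoinRoot (Q.map f)) := (AdjoinRoot.powerBasis' hm).finite
  have : Finite (AdjoinRoot (Q.map f)) := Module.finite_of_finite (ZMod M)
  have hu : IsUnit (AdjoinRoot.root (Q.map f)) := by
    have h1 : IsUnit ((Q.map f).coeff 0) := by
      rw [coeff_map]
      exact (ZMod.coe_int_isUnit_iff_isCoprime _ _).mpr hc
    have h2 := congrArg (AdjoinRoot.mk (Q.map f)) (X_mul_divX_add (Q.map f))
    rw [AdjoinRoot.mk_self, map_add, map_mul, AdjoinRoot.mk_X, AdjoinRoot.mk_C,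
      add_eq_zero_iff_eq_neg] at h2
    exact isUnit_of_mul_isUnit_left (h2 ▸ (h1.map _).neg)
  obtain ⟨u, hu⟩ := hu
  obtain ⟨N, hN, e⟩ := (isOfFinOrder_of_finite u).exists_pow_eq_one
  have e' : AdjoinRoot.mk (Q.map f) (X ^ N - 1) = 0 := by
    rw [map_sub, map_pow, AdjoinRoot.mk_X, ← hu, ← Units.val_pow_eq_pow_val, e, map_one,
      Units.val_one, sub_self]
  obtain ⟨Z, hZ⟩ := AdjoinRoot.mk_eq_zero.mp e'
  obtain ⟨Z, rfl⟩ := map_surjective f (ZMod.ringHom_surjective f) Z
  obtain ⟨Y, hY⟩ : C (M : ℤ) ∣ X ^ N - 1 - Q * Z := by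
    refine (C_dvd_iff_dvd_coeff _ _).mpr fun i => (ZMod.intCast_zmod_eq_zero_iff_dvd _ _).mp ?_
    have : (X ^ N - 1 - Q * Z).map f = 0 := by
      rw [Polynomial.map_sub, Polynomial.map_mul, ← hZ]
      simp
    have := congrArg (coeff · i) this
    rw [coeff_map, coeff_zero] at this
    exact this
  exact ⟨N, hN, Y, Z, by linear_combination hY⟩

theorem ep_fun {Q : ℤ[X]} (hQ : Q.Monic) (h0 : Q.coeff 0 ≠ 0) (φ : ℤ[X] →ₗ[ℤ] ℤ)
    (hφ : ∀ Z, φ (Q * Z) = 0) : EP fun n => φ (X ^ n) = 0 := by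
  obtain ⟨p, hp, hpp⟩ := Nat.exists_infinite_primes ((Q.coeff 0).natAbs + 1)
  have := Fact.mk hpp
  have hc : IsCoprime ((p ^ 2 : ℕ) : ℤ) (Q.coeff 0) := by
    rw [Int.isCoprime_iff_gcd_eq_one]
    refine Nat.Coprime.pow_left 2 ((Nat.Prime.coprime_iff_not_dvd hpp).mpr fun h => ?_)
    have := Nat.le_of_dvd (Int.natAbs_pos.mpr h0) h
    omega
  obtain ⟨N, hN, Y, hY⟩ := exists_order hQ (pow_pos hpp.pos 2) hc
  refine ep_interleave (q := 0) hN fun a _ => ?_
  have hb : ∀ n, φ (X ^ (0 + a + N * n)) = ∑ k ∈ Finset.range (n + 1),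
      ((p : ℤ) ^ 2) ^ k * n.choose k * φ (X ^ a * Y ^ k) := by
    intro n
    obtain ⟨Z, hZ⟩ := hY.trans (sub_dvd_pow_sub_pow _ _ n)
    rw [zero_add, pow_add, pow_mul, eq_add_of_sub_eq hZ, mul_add, map_add, mul_left_comm, hφ,
      zero_add, add_pow, Finset.mul_sum, map_sum]
    refine Finset.sum_congr rfl fun k _ => ?_
    rw [← smul_eq_mul _ (φ _), ← map_smul]
    congr 1
    rw [smul_eq_C_mul]
    simp only [map_mul, map_pow, map_natCast, Nat.cast_pow]
    ring
  by_cases h : {n | φ (X ^ (0 + a + N * n)) = 0}.Infinite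
  · exact ep_of_eventually (a := True) (Eventually.of_forall fun n =>
      eq_true (hansel p _ _ hb h n))
  · obtain ⟨B, hB⟩ := (Set.not_infinite.mp h).bddAbove
    refine ep_of_eventually (a := False) ((eventually_gt_atTop B).mono fun n hn => eq_false ?_)
    exact fun e => absurd (hB e) (by omega)

end Sml

/-- The zero set of an integer linear recurrence sequence is eventually periodic. -/
theorem sml {V : Type} [AddCommGroup V] [Module.Finite ℤ V] (T : Module.End ℤ V)
    (ε : V →ₗ[ℤ] ℤ) (x : V) : EP fun n => ε ((T ^ n) x) = 0 := by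
  obtain ⟨P, hP, hT⟩ := LinearMap.exists_monic_and_aeval_eq_zero ℤ T
  obtain ⟨Q, hQ, hX⟩ := exists_eq_pow_rootMultiplicity_mul_and_not_dvd P hP.ne_zero 0
  generalize rootMultiplicity 0 P = k at hQ
  rw [map_zero, sub_zero] at hQ hX
  have hm : Q.Monic := (monic_X_pow k).of_mul_monic_left (hQ ▸ hP)
  let φ : ℤ[X] →ₗ[ℤ] ℤ :=
    { toFun := fun F => ε (aeval T (X ^ k * F) x)
      map_add' := fun F G => by rw [mul_add, map_add, LinearMap.add_apply, map_add]
      map_smul' := fun c F => by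
        rw [mul_smul_comm, map_smul, LinearMap.smul_apply, map_smul, RingHom.id_apply] }
  have := Sml.ep_fun hm (fun h => hX (X_dvd_iff.mpr h)) φ fun Z => by
    show ε (aeval T (X ^ k * (Q * Z)) x) = 0
    rw [← mul_assoc, ← hQ, map_mul, hT, zero_mul, LinearMap.zero_apply, map_zero]
  refine (ep_shift k).mp (this.congr (Eventually.of_forall fun n => ?_))
  show (ε (aeval T (X ^ k * X ^ n) x) = 0) = _
  rw [← pow_add, map_pow, aeval_X, add_comm]

end Pool.Agent.P.MP_406085_lc
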