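import Pool.Agent.P.MP_406085_lc.Main
import Pool.Agent.P.MP_406085_lc.Sml

/-!
Equality sets of HD0L sequences are eventually periodic.
-/

namespace Pool.Agent.P.MP_406085_lc

open Filter
open scoped Classical

theorem eq_ep {S D : Type} [Finite S] [Finite D] (h : S → List S) (g : S → List D)
    (u v : List S) : EP fun n => ((fun w : List S => w.flatMap h)^[n] u).flatMap g =
      ((fun w : List S => w.flatMap h)^[n] v).flatMap g := by
  obtain ⟨G, ⟨c, d, hG⟩, hinj⟩ := (sep_d0l h g fun y : Bool => bif y then u else v).int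
  obtain ⟨c1, hc1⟩ := c.exists_comap g
  obtain ⟨c', hc2, hc3⟩ := fc_inv h c1
  obtain ⟨V, hV, mV⟩ := deg_fg ℤ c' d
  have : Module.Finite ℤ V := Module.Finite.iff_fg.mpr hV
  let T : Module.End ℤ V :=
    { toFun := fun φ => ⟨fun w => φ.1 (w.flatMap h), (mV _).mpr (((mV _).mp φ.2).comap h hc3)⟩
      map_add' := fun _ _ => rfl
      map_smul' := fun _ _ => rfl }
  let ε : V →ₗ[ℤ] ℤ :=
    { toFun := fun φ => φ.1 u - φ.1 v
      map_add' := fun φ ψ => by simp only [Submodule.coe_add, Pi.add_apply]; ring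
      map_smul' := fun a φ => by
        simp only [Submodule.coe_smul, Pi.smul_apply, smul_eq_mul, RingHom.id_apply]; ring }
  have hT : ∀ (n : ℕ) (φ : V) (w : List S),
      ((T ^ n) φ).1 w = φ.1 ((fun w : List S => w.flatMap h)^[n] w) := by
    intro n
    induction n with
    | zero => exact fun _ _ => rfl
    | succ n ih =>
      intro φ w
      rw [pow_succ', Function.iterate_succ_apply, ← ih]
      rfl
  let x : V := ⟨fun w => G (w.flatMap g), (mV _).mpr
    (hG.comap g fun a b e => (hc1 a b).mp (hc2 a b e))⟩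
  refine (sml T ε x).congr (Eventually.of_forall fun n => propext ?_)
  show ((T ^ n) x).1 u - ((T ^ n) x).1 v = 0 ↔ _
  rw [hT, hT, sub_eq_zero]
  exact ⟨fun e => hinj ⟨true, n, rfl⟩ ⟨false, n, rfl⟩ e, fun e => congrArg G e⟩

theorem hom_toList {A B : Type} (g : FreeMonoid A →* FreeMonoid B) (u : FreeMonoid A) :
    (g u).toList = u.toList.flatMap fun a => (g (FreeMonoid.of a)).toList := by
  induction u using FreeMonoid.inductionOn' with
  | one => simp
  | of_mul a u ih => simp [ih]

theorem iter_map {A S : Type} (h : FreeMonoid A →* FreeMonoid A) (H : S → List S) (i : A → S)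
    (e : ∀ a, H (i a) = (h (FreeMonoid.of a)).toList.map i) (u : FreeMonoid A) (n : ℕ) :
    (fun w : List S => w.flatMap H)^[n] (u.toList.map i) = (h^[n] u).toList.map i := by
  induction n with
  | zero => rfl
  | succ n ih =>
    rw [Function.iterate_succ_apply', Function.iterate_succ_apply', ih, hom_toList h,
      List.flatMap_map, List.map_flatMap]
    simp only [e]

theorem hd0l_ep {A B C : Type} [Finite A] [Finite B] [Finite C]
    (g₁ : FreeMonoid A →* FreeMonoid A) (g₂ : FreeMonoid A →* FreeMonoid C)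
    (h₁ : FreeMonoid B →* FreeMonoid B) (h₂ : FreeMonoid B →* FreeMonoid C)
    (u : FreeMonoid A) (v : FreeMonoid B) : EP fun n => g₂ (g₁^[n] u) = h₂ (h₁^[n] v) := by
  let H : A ⊕ B → List (A ⊕ B) := Sum.elim (fun a => (g₁ (.of a)).toList.map .inl)
    fun b => (h₁ (.of b)).toList.map .inr
  let G : A ⊕ B → List C := Sum.elim (fun a => (g₂ (.of a)).toList) fun b => (h₂ (.of b)).toList
  refine (eq_ep H G (u.toList.map .inl) (v.toList.map .inr)).congr
    (Eventually.of_forall fun n => propext ?_)
  rw [iter_map g₁ H .inl fun _ => rfl, iter_map h₁ H .inr fun _ => rfl, List.flatMap_map,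
    List.flatMap_map, ← FreeMonoid.toList.apply_eq_iff_eq, hom_toList g₂, hom_toList h₂]
  rfl

end Pool.Agent.P.MP_406085_lc
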