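import Pool.Agent.P.MP_406085_lc.Tok1
import Pool.Agent.P.MP_406085_lc.Split

/-!
Growth in token systems and absorbing letters into gaps.
-/

namespace Pool.Agent.P.MP_406085_lc

open Filter PowerSeries
open scoped Classical

variable {N Y D : Type} {sk : N → List N}

theorem rg_ev (T : N → Sq D) (S : Set N) (g : Sq D) (l : List (N × Sq D)) (n : ℕ) :
    (rg T S g l).ev T n = (⟨g, l⟩ : Rl N D).ev T n := by
  induction l generalizing g with
  | nil => rfl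
  | cons e l ih =>
    have h := ih e.2
    simp only [Rl.ev] at h
    by_cases he : e.1 ∈ S
    · simp only [rg, if_pos he, Rl.ev, List.flatMap_cons, List.append_assoc, h]
    · simp only [rg, if_neg he, Rl.ev, List.flatMap_cons, List.append_assoc, h]

theorem rg_fst (T : N → Sq D) (S : Set N) (g : Sq D) (l : List (N × Sq D)) :
    (rg T S g l).l.map Prod.fst = (l.map Prod.fst).filter (· ∈ S) := by
  induction l generalizing g with
  | nil => rfl
  | cons e l ih =>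
    by_cases he : e.1 ∈ S
    · simp only [rg, if_pos he, List.map_cons, ih]
      rw [List.filter_cons_of_pos (by simpa using he)]
    · simp only [rg, if_neg he, List.map_cons, ih]
      rw [List.filter_cons_of_neg (by simpa using he)]

theorem rg_ind (T : N → Sq D) (S : Set N) (Q : Sq D → Prop)
    (hQ : ∀ a b, Q a → Q b → Q fun n => a n ++ b n) (g : Sq D) (l : List (N × Sq D)) (hg : Q g)
    (hl : ∀ e ∈ l, Q e.2 ∧ (e.1 ∉ S → Q (T e.1))) :
    Q (rg T S g l).g0 ∧ ∀ e ∈ (rg T S g l).l, Q e.2 := by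
  induction l generalizing g with
  | nil => exact ⟨hg, fun e he => by simp [rg] at he⟩
  | cons e l ih =>
    have h0 := hl e (by simp)
    obtain ⟨h1, h2⟩ := ih e.2 h0.1 fun e' he' => hl e' (by simp [he'])
    by_cases he : e.1 ∈ S
    · simp only [rg, if_pos he]
      refine ⟨hg, fun e' he' => ?_⟩
      rcases List.mem_cons.mp he' with rfl | he'
      · exact h1
      · exact h2 e' he'
    · simp only [rg, if_neg he]
      exact ⟨hQ (fun n => g n ++ T e.1 n) _ (hQ _ _ hg (h0.2 he)) h1, h2⟩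

theorem rg_self (T : N → Sq D) (S : Set N) (g : Sq D) (l : List (N × Sq D))
    (h : ∀ e ∈ l, e.1 ∈ S) : rg T S g l = ⟨g, l⟩ := by
  induction l generalizing g with
  | nil => rfl
  | cons e l ih =>
    have he : e.1 ∈ S := h e (by simp)
    simp only [rg, if_pos he, ih e.2 fun e' he' => h e' (by simp [he'])]

theorem ext_ht_flat {T : N → Sq D} (l : List (N × Sq D))
    (h : ∀ e ∈ l, HT (T e.1) ∧ HT e.2) :
    HT fun n => l.flatMap fun e => T e.1 n ++ e.2 n := by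
  induction l with
  | nil => exact ht_const []
  | cons e l ih =>
    have h0 := h e (by simp)
    have h1 := (h0.1.append h0.2).append (ih fun e' he' => h e' (by simp [he']))
    simpa only [List.flatMap_cons] using h1

theorem Rl.OK.ht {R : Rl N D} {S : Set N} (h : R.OK S) {T : N → Sq D} (hT : ∀ x ∈ S, HT (T x)) :
    HT (R.ev T) :=
  h.1.1.append (ext_ht_flat R.l fun e he => ⟨hT _ (h.2 e he).1, (h.2 e he).2.1⟩)

theorem ext_infix {T : N → Sq D} (R : Rl N D) {y : N} (h : y ∈ R.l.map Prod.fst) (n : ℕ) :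
    T y n <:+: R.ev T n := by
  obtain ⟨e, he, rfl⟩ := List.mem_map.mp h
  obtain ⟨l1, l2, hl⟩ := List.append_of_mem he
  refine ⟨R.g0 n ++ l1.flatMap fun e => T e.1 n ++ e.2 n,
    e.2 n ++ l2.flatMap fun e => T e.1 n ++ e.2 n, ?_⟩
  simp only [Rl.ev, hl, List.flatMap_append, List.flatMap_cons, List.append_assoc]

/-- An upper bound for a contextual additive weight of a concatenation of blocks and gaps. -/
theorem ext_upper {T : N → Sq D} (ψ : List (List D) → List (List D) → ℕ) (r : ℕ)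
    (h1 : ∀ u w w', ψ u (w ++ w') = ψ u w + ψ (u ++ w) w') (h2 : ∀ u w, ψ u w ≤ w.length)
    (h3 : ∀ u w, ψ u w ≤ ψ [] w + r) (l : List (N × Sq D))
    (hl : ∀ e ∈ l, Bdd fun n => (e.2 n).length) :
    ∃ C, ∀ u n, ψ u (l.flatMap fun e => T e.1 n ++ e.2 n) ≤
      ((l.map Prod.fst).map fun y => ψ [] (T y n)).sum + C := by
  induction l with
  | nil => exact ⟨0, fun u n => by simpa using h2 u []⟩
  | cons e l ih =>
    obtain ⟨C, hC⟩ := ih fun e' he' => hl e' (by simp [he'])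
    obtain ⟨B, hB⟩ := hl e (by simp)
    refine ⟨C + B + r, fun u n => ?_⟩
    simp only [List.flatMap_cons, List.map_cons, List.sum_cons, h1]
    have a1 := hC (u ++ (T e.1 n ++ e.2 n)) n
    have a2 := h2 (u ++ T e.1 n) (e.2 n)
    have a3 := h3 u (T e.1 n)
    have a4 := hB n
    beta_reduce at a4
    omega

theorem ext_upper_ev {T : N → Sq D} (ψ : List (List D) → List (List D) → ℕ) (r : ℕ)
    (h1 : ∀ u w w', ψ u (w ++ w') = ψ u w + ψ (u ++ w) w') (h2 : ∀ u w, ψ u w ≤ w.length)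
    (h3 : ∀ u w, ψ u w ≤ ψ [] w + r) {R : Rl N D} {S : Set N} (hR : R.OK S) :
    ∃ C, ∀ n, ψ [] (R.ev T n) ≤ ((R.l.map Prod.fst).map fun y => ψ [] (T y n)).sum + C := by
  obtain ⟨C, hC⟩ := ext_upper (T := T) ψ r h1 h2 h3 R.l fun e he => (hR.2 e he).2.2
  obtain ⟨B, hB⟩ := hR.1.2
  refine ⟨C + B, fun n => ?_⟩
  simp only [Rl.ev, h1]
  have a1 := hC ([] ++ R.g0 n) n
  have a2 := h2 [] (R.g0 n)
  have a3 := hB n
  beta_reduce at a3
  omega

theorem ext_lower {T : N → Sq D} (ρ : Rule D) (l : List (N × Sq D)) (u : List (List D)) (n : ℕ) :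
    ((l.map Prod.fst).map fun y => ρ.cnt [] (T y n)).sum ≤
      ρ.cnt u (l.flatMap fun e => T e.1 n ++ e.2 n) := by
  induction l generalizing u with
  | nil => simp
  | cons e l ih =>
    simp only [List.flatMap_cons, List.map_cons, List.sum_cons, ρ.cnt_append]
    have a1 := ih (u ++ (T e.1 n ++ e.2 n))
    have a2 := ρ.cnt_le_ctx u [] (T e.1 n)
    rw [List.append_nil] at a2
    omega

theorem ext_count (f : N → ℕ) (x : N) (l : List N) : l.count x * f x ≤ (l.map f).sum := by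
  induction l with
  | nil => simp
  | cons a l ih =>
    by_cases h : a = x
    · subst h
      simp only [List.count_cons_self, List.map_cons, List.sum_cons, add_mul]
      omega
    · rw [List.count_cons_of_ne h]
      simp only [List.map_cons, List.sum_cons]
      omega

theorem ext_sum_bdd (φ : N → ℕ → ℕ) (l : List N) (h : ∀ y ∈ l, Bdd (φ y)) :
    Bdd fun n => (l.map fun y => φ y n).sum := by
  induction l with
  | nil => exact ⟨0, fun n => by simp⟩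
  | cons a l ih =>
    obtain ⟨B, hB⟩ := ih fun y hy => h y (by simp [hy])
    obtain ⟨C, hC⟩ := h a (by simp)
    refine ⟨C + B, fun n => ?_⟩
    have a1 := hB n
    have a2 := hC n
    simp only [List.map_cons, List.sum_cons] at a1 ⊢
    omega

theorem ext_unb {s t : ℕ → ℕ} (h : ∀ n, s n ≤ t (n + 1)) (hs : ¬ Bdd s) : ¬ Bdd t :=
  fun ⟨B, hB⟩ => hs ⟨B, fun n => (h n).trans (hB _)⟩

namespace ATS

variable (A : ATS sk Y D) {x y z : N}

theorem ch_eq (hx : x ∈ A.act) : A.ch x = (sk x).filter (· ∈ A.act) := A.skel x hx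

theorem mem_ch (hx : x ∈ A.act) : y ∈ A.ch x ↔ y ∈ sk x ∧ y ∈ A.act := by
  rw [A.ch_eq hx]
  simp

theorem ch_trans (hs : Sk sk) (hx : x ∈ A.act) (h : y ∈ A.ch x) (h' : z ∈ A.ch y) :
    z ∈ A.ch x := by
  obtain ⟨h1, h2⟩ := (A.mem_ch hx).mp h
  obtain ⟨h3, h4⟩ := (A.mem_ch h2).mp h'
  exact (A.mem_ch hx).mpr ⟨hs.trans _ _ _ h1 h3, h4⟩

theorem ch_dense (hs : Sk sk) (hx : x ∈ A.act) (h : z ∈ A.ch x) :
    ∃ y ∈ A.ch x, z ∈ A.ch y := by
  obtain ⟨h1, h2⟩ := (A.mem_ch hx).mp h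
  obtain ⟨y, h3, h4⟩ := hs.dense _ _ h1
  have hy := A.up _ _ h4 h2
  exact ⟨y, (A.mem_ch hx).mpr ⟨h3, hy⟩, (A.mem_ch hy).mpr ⟨h4, h2⟩⟩

theorem ch_two (hs : Sk sk) (hx : x ∈ A.act) (h : y ∈ A.ch x) (h' : x ∈ A.ch y) (hne : y ≠ x) :
    2 ≤ (A.ch x).count x := by
  obtain ⟨h1, h2⟩ := (A.mem_ch hx).mp h
  obtain ⟨h3, -⟩ := (A.mem_ch h2).mp h'
  rw [A.ch_eq hx, List.count_filter (by simpa using hx)]
  exact hs.two _ _ h1 h3 hne

theorem ext_child (hc : ∀ x ∈ A.act, A.ch x ≠ []) : ∀ x ∈ A.act, ∃ y ∈ sk x, y ∈ A.act := by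
  intro x hx
  obtain ⟨y, hy⟩ := List.exists_mem_of_ne_nil _ (hc x hx)
  exact ⟨y, (A.mem_ch hx).mp hy⟩

theorem ch_head (hs : Sk sk) (hc : ∀ x ∈ A.act, A.ch x ≠ []) (hx : x ∈ A.act)
    (h : (A.ch x).head? = some y) : (A.ch y).head? = some y := by
  have hy := ((A.mem_ch hx).mp (List.mem_of_mem_head? h)).2
  rw [A.ch_eq hx] at h
  rw [A.ch_eq hy]
  exact hs.fst A.act A.up (A.ext_child hc) x y h

theorem ch_last (hs : Sk sk) (hc : ∀ x ∈ A.act, A.ch x ≠ []) (hx : x ∈ A.act)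
    (h : (A.ch x).getLast? = some y) : (A.ch y).getLast? = some y := by
  have hy := ((A.mem_ch hx).mp (List.mem_of_mem_getLast? h)).2
  rw [A.ch_eq hx] at h
  rw [A.ch_eq hy]
  exact hs.lst A.act A.up (A.ext_child hc) x y h

theorem sub_step (hx : x ∈ A.act) (h : y ∈ A.ch x) (n : ℕ) : A.T y n <:+: A.T x (n + 1) := by
  rw [A.step x hx]
  exact ext_infix _ h n

theorem sub_mono (hx : x ∈ A.act) (h : x ∈ A.ch x) {n m : ℕ} (hn : n ≤ m) :
    A.T x n <:+: A.T x m := by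
  induction m, hn using Nat.le_induction with
  | base => exact List.infix_refl _
  | succ m _ ih => exact ih.trans (A.sub_step hx h m)

theorem hW (y : Y) : HT (A.W y) := (A.topok y).ht A.hT

theorem base [Finite Y] (h : A.act = ∅) : ∃ B, ∀ y n, (A.W y n).length ≤ B := by
  have h1 : ∀ y, ∃ B, ∀ n, (A.W y n).length ≤ B := by
    intro y
    obtain ⟨B, hB⟩ := (A.topok y).1.2
    have hl : (A.top y).l = [] := by
      refine List.eq_nil_iff_forall_not_mem.mpr fun e he => ?_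
      have := ((A.topok y).2 e he).1
      rw [h] at this
      exact this
    exact ⟨B, fun n => by simpa [W, Rl.ev, hl] using hB n⟩
  choose B hB using h1
  obtain ⟨M, hM⟩ := (Set.finite_range B).bddAbove
  exact ⟨M, fun y n => (hB y n).trans (hM ⟨y, rfl⟩)⟩

/-- The generic growth lemma. -/
theorem ext_growth [Finite N] (hs : Sk sk) (φ : N → ℕ → ℕ)
    (h1 : ∀ x ∈ A.act, ∀ y ∈ A.ch x, ∀ n, φ y n ≤ φ x (n + 1))
    (h2 : ∀ x ∈ A.act, ∃ C, ∀ n, φ x (n + 1) ≤ ((A.ch x).map fun y => φ y n).sum + C)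
    (hx : x ∈ A.act) (h : ¬ Bdd (φ x)) :
    Tendsto (φ x) atTop atTop ∧ ∃ y ∈ A.ch x, ¬ Bdd (φ y) := by
  have hch : ∀ x ∈ A.act, ¬ Bdd (φ x) → ∃ y ∈ A.ch x, ¬ Bdd (φ y) := by
    intro x hx h
    by_contra hc
    push Not at hc
    obtain ⟨B, hB⟩ := ext_sum_bdd φ _ hc
    obtain ⟨C, hC⟩ := h2 x hx
    refine h ⟨φ x 0 + B + C, fun n => ?_⟩
    rcases n with _ | n
    · omega
    · have a1 := hB n
      have a2 := hC n
      beta_reduce at a1
      omega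
  refine ⟨?_, hch x hx h⟩
  have hf : ∀ a : {a // a ∈ A.act ∧ ¬ Bdd (φ a)}, ∃ b : {a // a ∈ A.act ∧ ¬ Bdd (φ a)},
      b.1 ∈ A.ch a.1 := by
    rintro ⟨a, ha, ha'⟩
    obtain ⟨b, hb, hb'⟩ := hch a ha ha'
    exact ⟨⟨b, ((A.mem_ch ha).mp hb).2, hb'⟩, hb⟩
  choose f hf using hf
  have hit : ∀ a k, (f^[k + 1] a).1 ∈ A.ch a.1 := by
    intro a k
    induction k with
    | zero => exact hf a
    | succ k ih =>
      rw [Function.iterate_succ_apply']
      exact A.ch_trans hs a.2.1 ih (hf _)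
  obtain ⟨i, j, hij, e⟩ : ∃ i j, i < j ∧ f^[i + 1] ⟨x, hx, h⟩ = f^[j + 1] ⟨x, hx, h⟩ := by
    obtain ⟨i, j, hij, e⟩ := Finite.exists_ne_map_eq_of_infinite
      fun i : ℕ => f^[i + 1] ⟨x, hx, h⟩
    rcases lt_or_gt_of_ne hij with hlt | hlt
    · exact ⟨i, j, hlt, e⟩
    · exact ⟨j, i, hlt, e.symm⟩
  obtain ⟨z, hz⟩ : ∃ z, z = f^[i + 1] ⟨x, hx, h⟩ := ⟨_, rfl⟩
  have hzx : z.1 ∈ A.ch x := hz ▸ hit ⟨x, hx, h⟩ i
  have hzz : z.1 ∈ A.ch z.1 := by
    have e2 : f^[(j - i - 1) + 1] z = z := by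
      rw [hz, ← Function.iterate_add_apply, show j - i - 1 + 1 + (i + 1) = j + 1 by omega, e]
    have := hit z (j - i - 1)
    rwa [e2] at this
  have hmono : Monotone (φ z.1) := monotone_nat_of_le_succ (h1 _ z.2.1 _ hzz)
  have hzt : Tendsto (φ z.1) atTop atTop := by
    refine tendsto_atTop_atTop_of_monotone hmono fun b => ?_
    by_contra hc
    push Not at hc
    exact z.2.2 ⟨b, fun n => (hc n).le⟩
  rw [← tendsto_add_atTop_iff_nat 1]
  exact tendsto_atTop_mono (h1 _ hx _ hzx) hzt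

theorem len_tendsto [Finite N] (hs : Sk sk) (hx : x ∈ A.act)
    (h : ¬ Bdd fun n => (A.T x n).length) :
    Tendsto (fun n => (A.T x n).length) atTop atTop ∧
      ∃ y ∈ A.ch x, ¬ Bdd fun n => (A.T y n).length := by
  refine A.ext_growth hs (fun x n => (A.T x n).length)
    (fun x hx y hy n => (A.sub_step hx hy n).length_le) (fun x hx => ?_) hx h
  obtain ⟨C, hC⟩ := ext_upper_ev (T := A.T) (fun _ w => w.length) 0
    (fun _ _ _ => List.length_append) (fun _ _ => le_rfl) (fun _ _ => le_rfl) (A.ok x hx)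
  exact ⟨C, fun n => by rw [A.step x hx]; exact hC n⟩

theorem wild_tendsto [Finite N] (hs : Sk sk) (ρ : Rule D) (hx : x ∈ A.wild ρ) :
    Tendsto (fun n => ρ.cnt [] (A.T x n)) atTop atTop ∧ ∃ y ∈ A.ch x, y ∈ A.wild ρ := by
  obtain ⟨h1, y, hy, h2⟩ := A.ext_growth hs (fun x n => ρ.cnt [] (A.T x n))
    (fun x hx y hy n => ρ.cnt_sub (A.sub_step hx hy n)) (fun x hx => by
      obtain ⟨C, hC⟩ := ext_upper_ev (T := A.T) ρ.cnt ρ.r ρ.cnt_append ρ.cnt_le_length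
        ρ.cnt_le_add (A.ok x hx)
      exact ⟨C, fun n => by rw [A.step x hx]; exact hC n⟩) hx.1 hx.2
  exact ⟨h1, y, hy, ((A.mem_ch hx.1).mp hy).2, h2⟩

theorem wild_up (ρ : Rule D) (h : y ∈ sk x) (hy : y ∈ A.wild ρ) : x ∈ A.wild ρ := by
  have hx := A.up _ _ h hy.1
  exact ⟨hx, ext_unb (fun n => ρ.cnt_sub
    (A.sub_step hx ((A.mem_ch hx).mpr ⟨h, hy.1⟩) n)) hy.2⟩

theorem wild_of_two (ρ : Rule D) (hx : x ∈ A.act) (h : 2 ≤ (A.ch x).count x) {n : ℕ}
    (hn : 1 ≤ ρ.cnt [] (A.T x n)) : x ∈ A.wild ρ := by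
  have h1 : ∀ m, 2 * ρ.cnt [] (A.T x m) ≤ ρ.cnt [] (A.T x (m + 1)) := by
    intro m
    have a1 := ext_count (fun y => ρ.cnt [] (A.T y m)) x (A.ch x)
    have a2 := ext_lower (T := A.T) ρ (A.H x).l ([] ++ (A.H x).g0 m) m
    have a3 : 2 * ρ.cnt [] (A.T x m) ≤ (A.ch x).count x * ρ.cnt [] (A.T x m) :=
      Nat.mul_le_mul_right _ h
    rw [A.step x hx, Rl.ev, ρ.cnt_append]
    exact (a3.trans (a1.trans a2)).trans (Nat.le_add_left _ _)
  have h2 : ∀ k, k + 1 ≤ ρ.cnt [] (A.T x (n + k)) := by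
    intro k
    induction k with
    | zero => exact hn
    | succ k ih =>
      have := h1 (n + k)
      rw [← add_assoc n k 1]
      omega
  refine ⟨hx, fun ⟨B, hB⟩ => ?_⟩
  have a1 := h2 B
  have a2 := hB (n + B)
  beta_reduce at a2
  omega

theorem Gen.ht {S : Set N} (hS : S ⊆ A.act) {w : Sq D} (h : A.Gen S w) : HT w :=
  h HT (fun _ hγ => hγ.1) (fun y hy => A.hT y (hS hy)) fun _ _ ha hb => ha.append hb

theorem Gen.mono {S S' : Set N} (hS : S ⊆ S') {w : Sq D} (h : A.Gen S w) : A.Gen S' w :=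
  fun Q h1 h2 h3 => h Q h1 (fun y hy => h2 y (hS hy)) h3

theorem Gen.bdd (ρ : Rule D) {w : Sq D} (h : A.Gen (A.act \ A.wild ρ) w) :
    ∃ B, ∀ u n, ρ.cnt u (w n) ≤ B := by
  refine h (fun w => ∃ B, ∀ u n, ρ.cnt u (w n) ≤ B) ?_ ?_ ?_
  · rintro γ ⟨-, B, hB⟩
    exact ⟨B, fun u n => (ρ.cnt_le_length u _).trans (hB n)⟩
  · rintro y ⟨hy, hy'⟩
    obtain ⟨B, hB⟩ : Bdd fun n => ρ.cnt [] (A.T y n) := by
      by_contra hc
      exact hy' ⟨hy, hc⟩
    exact ⟨B + ρ.r, fun u n => (ρ.cnt_le_add u _).trans (Nat.add_le_add_right (hB n) _)⟩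
  · rintro a b ⟨B, hB⟩ ⟨C, hC⟩
    refine ⟨B + C, fun u n => ?_⟩
    rw [ρ.cnt_append]
    exact Nat.add_le_add (hB _ _) (hC _ _)

theorem ext_mem_rg {T : N → Sq D} {R : Rl N D} {S S' : Set N} (hR : R.OK S')
    {e : N × Sq D} (he : e ∈ (rg T S R.g0 R.l).l) : e.1 ∈ S' ∧ e.1 ∈ S := by
  have h1 : e.1 ∈ (rg T S R.g0 R.l).l.map Prod.fst := List.mem_map_of_mem he
  rw [rg_fst, List.mem_filter] at h1
  obtain ⟨e', he', h2⟩ := List.mem_map.mp h1.1
  exact ⟨h2 ▸ (hR.2 e' he').1, by simpa using h1.2⟩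

/-- The gaps of a regrouped rule are generated by the absorbed letters. -/
theorem gen_rg {R : Rl N D} (hR : R.OK A.act) (S : Set N) :
    A.Gen (A.act \ S) (rg A.T S R.g0 R.l).g0 ∧
      ∀ e ∈ (rg A.T S R.g0 R.l).l, e.1 ∈ A.act ∧ e.1 ∈ S ∧ A.Gen (A.act \ S) e.2 := by
  obtain ⟨h1, h2⟩ := rg_ind A.T S (A.Gen (A.act \ S))
    (fun a b ha hb Q q1 q2 q3 => q3 a b (ha Q q1 q2 q3) (hb Q q1 q2 q3)) R.g0 R.l
    (fun Q q1 _ _ => q1 _ hR.1) fun e he =>
      ⟨fun Q q1 _ _ => q1 _ (hR.2 e he).2, fun hn Q _ q2 _ => q2 _ ⟨(hR.2 e he).1, hn⟩⟩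
  exact ⟨h1, fun e he => ⟨(ext_mem_rg hR he).1, (ext_mem_rg hR he).2, h2 e he⟩⟩

theorem absorb (h : ¬ A.Grow) : ∃ A' : ATS sk Y D, A'.act ⊂ A.act ∧ (∀ y, A'.W y = A.W y) ∧
    A'.Tok ⊆ A.Tok := by
  obtain ⟨S, hS⟩ : ∃ S : Set N, ∀ x, x ∈ S ↔ x ∈ A.act ∧ ¬ Bdd fun n => (A.T x n).length :=
    ⟨{x | x ∈ A.act ∧ ¬ Bdd fun n => (A.T x n).length}, fun _ => Iff.rfl⟩
  have hsub : S ⊆ A.act := fun x hx => ((hS x).mp hx).1
  have hok : ∀ R : Rl N D, R.OK A.act → (rg A.T S R.g0 R.l).OK S := by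
    intro R hR
    obtain ⟨h1, h2⟩ := rg_ind A.T S Gp (fun a b ha hb => ha.append hb) R.g0 R.l hR.1
      fun e he => ⟨(hR.2 e he).2, fun hn => ⟨A.hT _ (hR.2 e he).1, by
        by_contra hc
        exact hn ((hS _).mpr ⟨(hR.2 e he).1, hc⟩)⟩⟩
    exact ⟨h1, fun e he => ⟨(ext_mem_rg hR he).2, h2 e he⟩⟩
  let A' : ATS sk Y D :=
    { act := S
      T := A.T
      H := fun x => rg A.T S (A.H x).g0 (A.H x).l
      top := fun y => rg A.T S (A.top y).g0 (A.top y).l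
      up := fun x y h hy => by
        have hy' := (hS y).mp hy
        have hx := A.up _ _ h hy'.1
        exact (hS x).mpr ⟨hx, ext_unb (fun n =>
          (A.sub_step hx ((A.mem_ch hx).mpr ⟨h, hy'.1⟩) n).length_le) hy'.2⟩
      hT := fun x hx => A.hT x (hsub hx)
      ok := fun x hx => hok _ (A.ok x (hsub hx))
      skel := fun x hx => by
        rw [rg_fst, A.skel x (hsub hx), List.filter_filter]
        refine List.filter_congr fun a _ => ?_
        by_cases ha : a ∈ S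
        · simp [ha, hsub ha]
        · simp [ha]
      step := fun x hx n => by
        rw [rg_ev]
        exact A.step x (hsub hx) n
      topok := fun y => hok _ (A.topok y) }
  have hW : ∀ y, A'.W y = A.W y := fun y => funext fun n => rg_ev _ _ _ _ n
  refine ⟨A', ?_, hW, ?_⟩
  · refine ⟨hsub, fun hc => h fun x hx => ((hS x).mp (hc hx)).2⟩
  · rintro τ (⟨x, hx, n, hn⟩ | ⟨y, n, hn⟩)
    · exact Or.inl ⟨x, hsub hx, n, hn⟩
    · exact Or.inr ⟨y, n, hW y ▸ hn⟩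

end ATS

end Pool.Agent.P.MP_406085_lc
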