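import Pool.Agent.P.MP_406085_lc.SDefs

/-!
Two criteria for Turing reducibility.
-/

namespace Pool.Agent.P.MP_406085_lc

open Filter PowerSeries
open scoped Classical

namespace TurA

theorem of_comp {O : Set (ℕ →. ℕ)} {u : ℕ → ℕ} (hu : Computable u) :
    Nat.RecursiveIn O (fun n => Part.some (u n)) :=
  Nat.Partrec.recursiveIn (Partrec.nat_iff.1 hu.partrec)

/-- Post-processing of the input together with the value of a recursive function. -/
theorem post {O : Set (ℕ →. ℕ)} {f : ℕ →. ℕ} {r : ℕ → ℕ} (hf : Nat.RecursiveIn O f)
    (hr : ∀ n, f n = Part.some (r n)) {v : ℕ × ℕ → ℕ} (hv : Computable v) :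
    Nat.RecursiveIn O (fun n => Part.some (v (n, r n))) := by
  have h1 : Nat.RecursiveIn O (fun n => Part.some n) := of_comp Computable.id
  have h2 := Nat.RecursiveIn.pair h1 hf
  have h3 : Nat.RecursiveIn O (fun n => Part.some (v (Nat.unpair n))) :=
    of_comp (hv.comp Computable.unpair)
  refine (Nat.RecursiveIn.comp h3 h2).of_eq fun n => ?_
  simp [hr n, Seq.seq]

/-- One query to a total oracle. -/
theorem one_query {g : ℕ →. ℕ} {q : ℕ → ℕ} (hg : ∀ n, g n = Part.some (q n)) {u : ℕ → ℕ}
    {v : ℕ × ℕ → ℕ} (hu : Computable u) (hv : Computable v) :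
    Nat.RecursiveIn {g} (fun n => Part.some (v (n, q (u n)))) := by
  have h1 : Nat.RecursiveIn {g} (fun n => Part.some (u n)) := of_comp hu
  have h2 := Nat.RecursiveIn.comp (Nat.RecursiveIn.oracle g (Set.mem_singleton g)) h1
  exact post (r := fun n => q (u n)) h2 (fun n => (Part.bind_some _ _).trans (hg _)) hv

/-- The total function behind `chi`. -/
noncomputable def cv {α : Type} [Primcodable α] (P : α → Prop) (n : ℕ) : ℕ :=
  if ∃ a, Encodable.decode n = some a ∧ P a then 1 else 0

theorem chi_eq {α : Type} [Primcodable α] (P : α → Prop) (n : ℕ) :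
    chi P n = Part.some (cv P n) := rfl

theorem cv_encode {α : Type} [Primcodable α] (P : α → Prop) (a : α) :
    cv P (Encodable.encode a) = if P a then 1 else 0 := by
  simp [cv]

theorem cv_none {α : Type} [Primcodable α] (P : α → Prop) {n : ℕ}
    (h : Encodable.decode (α := α) n = none) : cv P n = 0 := by
  simp [cv, h]

theorem cv_some {α : Type} [Primcodable α] (P : α → Prop) {n : ℕ} {a : α}
    (h : Encodable.decode (α := α) n = some a) : cv P n = if P a then 1 else 0 := by
  simp [cv, h]

end TurA

open TurA

variable {α β γ : Type} [Primcodable α] [Primcodable β] [Primcodable γ] {P : α → Prop}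
  {Q : β → Prop}

theorem tur_of_many_one {φ : α → β} (hφ : Computable φ) (h : ∀ a, P a ↔ Q (φ a)) :
    TuringReducible (chi P) (chi Q) := by
  rw [TuringReducible, RecursiveIn.iff_nat]
  have hu : Computable fun n : ℕ =>
      ((Encodable.decode (α := α) n).map fun a => Encodable.encode (φ a)).getD 0 :=
    Computable.option_getD
      (Computable.option_map Computable.decode
        ((Computable.encode.comp (hφ.comp Computable.snd)).to₂)) (Computable.const 0)
  have hv : Computable fun p : ℕ × ℕ =>
      ((Encodable.decode (α := α) p.1).map fun _ => p.2).getD 0 :=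
    Computable.option_getD
      (Computable.option_map (Computable.decode.comp Computable.fst)
        ((Computable.snd.comp Computable.fst).to₂)) (Computable.const 0)
  refine (one_query (chi_eq Q) hu hv).of_eq fun n => ?_
  rw [chi_eq]
  congr 1
  cases hd : Encodable.decode (α := α) n with
  | none => simp [cv_none P hd]
  | some a => simp [cv_some P hd, cv_encode, h a]

theorem tur_of_search {A : α × ℕ → Bool} {Φ : α × γ → β} (hA : Computable A) (hΦ : Computable Φ)
    (h1 : ∀ a, P a ↔ ∃ n, A (a, n) = true) (h2 : ∀ a, ¬ P a ↔ ∃ k, ¬ Q (Φ (a, k))) :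
    TuringReducible (chi P) (chi Q) := by
  rw [TuringReducible, RecursiveIn.iff_nat]
  -- the pair of decoded values
  let D : ℕ → Option (α × γ) := fun m =>
    (Encodable.decode (α := α) m.unpair.1).bind fun a =>
      (Encodable.decode (α := γ) m.unpair.2).map fun c => (a, c)
  have hD : Computable D :=
    Computable.option_bind (Computable.decode.comp (Computable.fst.comp Computable.unpair))
      (Computable.option_map
        (Computable.decode.comp (Computable.snd.comp (Computable.unpair.comp Computable.fst)))
        ((Computable.pair (Computable.snd.comp Computable.fst) Computable.snd).to₂)).to₂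
  let u : ℕ → ℕ := fun m => ((D m).map fun x => Encodable.encode (Φ x)).getD 0
  have hu : Computable u :=
    Computable.option_getD
      (Computable.option_map hD ((Computable.encode.comp (hΦ.comp Computable.snd)).to₂))
      (Computable.const 0)
  -- the test `A`
  let B : ℕ × ℕ → Option ℕ := fun p =>
    (Encodable.decode (α := α) p.1).map fun a => bif A (a, p.2) then 1 else 0
  have hB : Computable B :=
    Computable.option_map (Computable.decode.comp Computable.fst)
      ((Computable.cond
        (hA.comp (Computable.pair Computable.snd (Computable.snd.comp Computable.fst)))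
        (Computable.const 1) (Computable.const 0)).to₂)
  let v : ℕ × ℕ → ℕ := fun p =>
    (1 - (B p.1.unpair).getD 1) * ((D p.1).map fun _ => p.2).getD 1
  have hv : Computable v :=
    Primrec.nat_mul.to_comp.comp
      (Primrec.nat_sub.to_comp.comp (Computable.const 1)
        (Computable.option_getD (hB.comp (Computable.unpair.comp Computable.fst))
          (Computable.const 1)))
      (Computable.option_getD
        (Computable.option_map (hD.comp Computable.fst)
          ((Computable.snd.comp Computable.fst).to₂)) (Computable.const 1))
  have hq := one_query (chi_eq Q) hu hv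
  let t : ℕ → ℕ → ℕ := fun n k => v (Nat.pair n k, cv Q (u (Nat.pair n k)))
  have hex : ∀ n, ∃ k, t n k = 0 := by
    intro n
    cases hd : Encodable.decode (α := α) n with
    | none => exact ⟨0, by simp [t, v, B, hd]⟩
    | some a =>
      by_cases hp : P a
      · obtain ⟨k, hk⟩ := (h1 a).1 hp
        exact ⟨k, by simp [t, v, B, hd, hk]⟩
      · obtain ⟨c, hc⟩ := (h2 a).1 hp
        exact ⟨Encodable.encode c, by simp [t, v, u, D, hd, cv_encode, hc]⟩
  have hr := Nat.RecursiveIn.rfind hq
  have hval : ∀ n, (Nat.rfind fun k => (fun m => m = 0) <$>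
      (Part.some (v (Nat.pair n k, cv Q (u (Nat.pair n k)))) : Part ℕ)) =
        Part.some (Nat.find (hex n)) := by
    intro n
    refine Part.eq_some_iff.2 (Nat.mem_rfind.2 ⟨?_, fun {m} hm => ?_⟩)
    · have := Nat.find_spec (hex n)
      simp only [t] at this
      simp [this]
    · have := Nat.find_min (hex n) hm
      simp only [t] at this
      simp [this]
  have hw : Computable fun p : ℕ × ℕ => (B p).getD 0 :=
    Computable.option_getD hB (Computable.const 0)
  refine (post hr hval hw).of_eq fun n => ?_
  rw [chi_eq]
  congr 1
  have hs := Nat.find_spec (hex n)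
  generalize Nat.find (hex n) = k at hs
  cases hd : Encodable.decode (α := α) n with
  | none => simp [B, hd, cv_none P hd]
  | some a =>
    rw [cv_some P hd]
    cases hk : A (a, k) with
    | true =>
      have hp : P a := (h1 a).2 ⟨k, hk⟩
      simp [B, hd, hk, hp]
    | false =>
      have hp : ¬ P a := by
        cases hc : Encodable.decode (α := γ) k with
        | none => simp [t, v, B, D, hd, hk, hc] at hs
        | some c =>
          refine (h2 a).2 ⟨c, fun hQ => ?_⟩
          simp [t, v, u, B, D, hd, hk, hc, cv_encode, hQ] at hs
      simp [B, hd, hk, hp]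

end Pool.Agent.P.MP_406085_lc
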