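import Pool.Agent.P.MP_406085_lc.Main
import Pool.Agent.P.MP_406085_lc.CertE
import Pool.Agent.P.MP_406085_lc.Comp
import Pool.Agent.P.MP_406085_lc.Conv
import Pool.Agent.P.MP_406085_lc.Tur

/-!
The final statements.
-/

namespace Pool.Agent.P.MP_406085_lc

open Filter PowerSeries
open scoped Classical

theorem exists_cert' (p : Inst) : ∃ k : Cert, ∀ n, val (ins p k) n = 0 ↔ Eqn p n :=
  exists_cert p fun _ _ _ _ _ _ h g u => sep_d0l h g u

theorem zero_set (p : Inst) : ∃ (m : ℕ) (α β : Fin m → ℤ) (A : Matrix (Fin m) (Fin m) ℤ),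
    ∀ n, Eqn p n ↔ α ⬝ᵥ (A ^ n).mulVec β = 0 := by
  obtain ⟨k, hk⟩ := exists_cert' p
  obtain ⟨m, α, β, A, h⟩ := val_matrix (ins p k)
  exact ⟨m, α, β, A, fun n => by rw [← h, hk]⟩

end Pool.Agent.P.MP_406085_lc
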