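import Pool.Agent.P.MP_406085_lc.Jet1
import Pool.Agent.P.MP_406085_lc.Split

/-!
Three ways to separate lists of tokens.
-/

namespace Pool.Agent.P.MP_406085_lc

open Filter PowerSeries
open scoped Classical

variable {D : Type} {Tk : Set (List D)}

theorem jet2_cuts (z : List (List D)) : ∀ h : List (Option D) → List (Option D) → ℂ,
    (∀ x y, y.head? ≠ some none → h x y = 0) →
    ∑ i ∈ Finset.range ((enc z).length + 1), h ((enc z).take i) ((enc z).drop i) =
      ∑ j ∈ Finset.range z.length, h (enc (z.take j)) (enc (z.drop j)) := by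
  induction z with
  | nil => intro h h0; simp [h0]
  | cons τ z ih =>
    intro h h0
    have e : (enc (τ :: z)).length + 1 = (τ.length + 1) + ((enc z).length + 1) := by
      simp only [enc_cons, List.length_cons, List.length_append, List.length_map]; omega
    have e1 : enc (τ :: z) = (none :: τ.map some) ++ enc z := by simp
    have e2 : (none :: τ.map some).length = τ.length + 1 := by simp
    have e3 : ∑ i ∈ Finset.range τ.length,
        h ((enc (τ :: z)).take (i + 1)) ((enc (τ :: z)).drop (i + 1)) = 0 := by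
      refine Finset.sum_eq_zero fun i hi => h0 _ _ ?_
      have hi' := Finset.mem_range.1 hi
      rw [enc_cons, List.drop_succ_cons, List.drop_append_of_le_length (by simp; omega),
        ← List.map_drop, List.drop_eq_getElem_cons hi', List.map_cons]
      simp only [List.cons_append, List.head?_cons]
      simp
    rw [e, Finset.sum_range_add, Finset.sum_range_succ' _ τ.length, e3, List.length_cons,
      Finset.sum_range_succ' _ z.length, zero_add, add_comm]
    congr 1
    have := ih (fun x y => h ((none :: τ.map some) ++ x) y) fun x y hy => h0 _ _ hy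
    simp only [List.take_succ_cons, List.drop_succ_cons, enc_cons τ (z.take _)]
    refine Eq.trans (Finset.sum_congr rfl fun i _ => ?_) this
    rw [e1, ← e2, List.take_length_add_append, List.drop_length_add_append]

theorem jet2_coeff (κ : Coc D) (F : List D → ℂ) (z : List (List D)) (d : ℕ) :
    coeff d (Pz κ F z) = (∑ i ∈ Finset.range z.length,
      κ.c (z.take i) * F (z.getD i []) * (i : ℂ) ^ d) * ((d.factorial : ℂ))⁻¹ := by
  rw [Pz, map_sum, Finset.sum_mul]
  refine Finset.sum_congr rfl fun i _ => ?_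
  rw [coeff_C_mul, ex, coeff_mk, div_eq_mul_inv]
  ring

theorem jet2_test (κ : Coc D) {F : List D → ℂ} (hF : Test F) (d : ℕ) :
    ∃ G : List (Option D) → ℂ, Test G ∧ ∀ z, G (enc z) = coeff d (Pz κ F z) := by
  obtain ⟨f, hf, hfc⟩ := κ.rc
  obtain ⟨φ, hφ, hφe⟩ := gm_getD (D := D) 0
  have h1 : Rec fun y : List (Option D) => if y.head? = some none then (1 : ℂ) else 0 := by
    refine rec_right _ ((Set.toFinite ({1, 0} : Set ℂ)).subset ?_) fun u v a _ => by simp
    rintro _ ⟨y, rfl⟩
    beta_reduce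
    split_ifs <;> simp
  refine ⟨_, ((hf.test.mul (test_len.pow d)).cauchy (h1.test.mul (hφ.1 F hF))).mul
    (test_const ((d.factorial : ℂ))⁻¹), fun z => ?_⟩
  rw [jet2_coeff]
  congr 1
  refine (jet2_cuts z (fun x y => f x * ((x.countP Option.isNone : ℕ) : ℂ) ^ d *
    ((if y.head? = some none then (1 : ℂ) else 0) * F (φ y))) fun x y hy => by simp [hy]).trans
    (Finset.sum_congr rfl fun i hi => ?_)
  have hi' := Finset.mem_range.1 hi
  rw [hfc, countP_enc, hφe, List.length_take, min_eq_left hi'.le, List.drop_eq_getElem_cons hi',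
    enc_cons]
  simp [List.getD_eq_getElem?_getD, hi']
  ring

theorem jet2_getD {z : List (List D)} (hz : ∀ τ ∈ z, τ ∈ Tk) {i : ℕ} (hi : i < z.length) :
    z.getD i [] ∈ Tk := by
  rw [List.getD_eq_getElem _ _ hi]
  exact hz _ (List.getElem_mem hi)

theorem jet2_take {z : List (List D)} {i : ℕ} (hi : i < z.length) :
    z.take (i + 1) = z.take i ++ [z.getD i []] := by
  rw [List.getD_eq_getElem _ _ hi, List.take_succ_eq_append_getElem hi]

theorem jet2_ext {z z' : List (List D)} (hl : z.length = z'.length)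
    (h : ∀ i < z.length, z.take i = z'.take i → z.getD i [] = z'.getD i []) : z = z' := by
  have : ∀ i ≤ z.length, z.take i = z'.take i := by
    intro i
    induction i with
    | zero => simp
    | succ i ih =>
      intro hi
      rw [jet2_take (by omega), jet2_take (by omega), h i (by omega) (ih (by omega)),
        ih (by omega)]
  have h1 := this _ le_rfl
  rwa [List.take_length, hl, List.take_length] at h1

theorem jet2_vdm (κ : Coc D) (F : List D → ℂ) {z z' : List (List D)} (hl : z.length = z'.length)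
    (h : Pz κ F z = Pz κ F z') {i : ℕ} (hi : i < z.length) :
    κ.c (z.take i) * F (z.getD i []) = κ.c (z'.take i) * F (z'.getD i []) := by
  have := Matrix.eq_zero_of_forall_pow_sum_mul_pow_eq_zero (n := z.length)
    (f := fun j => ((j : ℕ) : ℂ))
    (v := fun j => κ.c (z.take j) * F (z.getD j []) - κ.c (z'.take j) * F (z'.getD j []))
    (fun a b e => Fin.ext (Nat.cast_injective (R := ℂ) e)) fun d => by
      have h1 := congrArg (coeff d) h
      rw [jet2_coeff, jet2_coeff, mul_left_inj' (inv_ne_zero (Nat.cast_ne_zero.2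
        (Nat.factorial_ne_zero _))), ← hl, ← sub_eq_zero, ← Finset.sum_sub_distrib,
        Finset.sum_range] at h1
      simpa only [sub_mul] using h1
  exact sub_eq_zero.1 (congrFun this ⟨i, hi⟩)

theorem sep_jj {I : Type} [Finite I] (κ : Coc D) (hT : Sep Tk) (z : I → Sq D)
    (hz : ∀ F, Test F → ∀ i, JJ κ F (z i)) (hm : ∀ i n, ∀ τ ∈ z i n, τ ∈ Tk) :
    Sep {w | ∃ i n, w = enc (z i n)} := by
  obtain ⟨Φ, hfin, hΦ, hsep⟩ := hT
  have := hfin.to_subtype
  choose q d₀ h using fun p : I × I × Φ =>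
    (hz _ (hΦ _ p.2.2.2) p.1).2.noe (hz _ (hΦ _ p.2.2.2) p.2.1).2
  obtain ⟨Q, hQ⟩ := (Set.finite_range q).bddAbove
  obtain ⟨d₁, hd⟩ := (Set.finite_range d₀).bddAbove
  choose G hG hGe using fun p : Φ × Fin (d₁ + 1) => jet2_test κ (hΦ _ p.1.2) p.2
  have h1 : Sep {w | ∃ i n, Q ≤ n ∧ w = enc (z i n)} := by
    refine ⟨insert (fun w => ((w.countP Option.isNone : ℕ) : ℂ)) (Set.range G),
      (Set.finite_range G).insert _, ?_, ?_⟩
    · rintro F (rfl | ⟨p, rfl⟩)
      exacts [test_len, hG p]
    · rintro _ ⟨i, n, hn, rfl⟩ _ ⟨j, m, hm', rfl⟩ he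
      have hl : (z i n).length = (z j m).length := by
        have := he _ (Set.mem_insert _ _)
        simpa only [countP_enc, Nat.cast_inj] using this
      congr 1
      refine jet2_ext hl fun k hk e => hsep _ (jet2_getD (hm i n) hk) _
        (jet2_getD (hm j m) (hl ▸ hk)) fun F hF => ?_
      have h2 := h (i, j, ⟨F, hF⟩) n m ((hQ ⟨_, rfl⟩).trans hn) ((hQ ⟨_, rfl⟩).trans hm')
        fun d hd' => by
          have := he _ (Set.mem_insert_of_mem _
            ⟨(⟨F, hF⟩, ⟨d, Nat.lt_succ_of_le (hd'.trans (hd ⟨_, rfl⟩))⟩), rfl⟩)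
          rwa [hGe, hGe] at this
      have h3 := jet2_vdm κ F hl h2 hk
      rw [e] at h3
      exact mul_left_cancel₀ (κ.ne _) h3
  refine (h1.union_finite (Set.finite_range fun p : I × Fin Q => enc (z p.1 p.2))).mono ?_
  rintro _ ⟨i, n, rfl⟩
  by_cases hn : Q ≤ n
  · exact Or.inl ⟨i, n, hn, rfl⟩
  · exact Or.inr ⟨(i, ⟨n, by omega⟩), rfl⟩

theorem jet2_first (hT : Sep Tk) (B : ℕ) (P : List (List D) → Prop)
    (hP : ∀ z z', P z → P z' → z.length = z'.length → ∀ i < z.length, B ≤ i →
      z.take i = z'.take i → z.getD i [] = z'.getD i []) :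
    Sep {w | ∃ z, w = enc z ∧ P z ∧ ∀ τ ∈ z, τ ∈ Tk} := by
  obtain ⟨Φ, hfin, hΦ, hsep⟩ := hT
  have := hfin.to_subtype
  choose φ hφ hφe using gm_getD (D := D)
  refine ⟨insert (fun w => ((w.countP Option.isNone : ℕ) : ℂ))
    (Set.range fun p : Φ × Fin B => fun w => p.1.1 (φ p.2 w)),
    (Set.finite_range _).insert _, ?_, ?_⟩
  · rintro F (rfl | ⟨p, rfl⟩)
    exacts [test_len, (hφ _).1 _ (hΦ _ p.1.2)]
  · rintro _ ⟨z, rfl, h1, h2⟩ _ ⟨z', rfl, h1', h2'⟩ he
    have hl : z.length = z'.length := by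
      have := he _ (Set.mem_insert _ _)
      simpa only [countP_enc, Nat.cast_inj] using this
    congr 1
    refine jet2_ext hl fun k hk e => ?_
    by_cases hB : B ≤ k
    · exact hP z z' h1 h1' hl k hk hB e
    · refine hsep _ (jet2_getD h2 hk) _ (jet2_getD h2' (hl ▸ hk)) fun F hF => ?_
      have := he _ (Set.mem_insert_of_mem _ ⟨(⟨F, hF⟩, ⟨k, by omega⟩), rfl⟩)
      simpa only [hφe] using this

theorem sep_bdd (hT : Sep Tk) (B : ℕ) :
    Sep {w | ∃ z, w = enc z ∧ z.length ≤ B ∧ ∀ τ ∈ z, τ ∈ Tk} :=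
  jet2_first hT B (fun z => z.length ≤ B) fun _ _ _ _ _ _ _ _ _ => by omega

theorem sep_det (ρ : Rule D) (hρ : ρ.Det) (hT : Sep Tk) :
    Sep {w | ∃ z v, w = enc z ∧ z ∈ ρ.spl [] v ∧ ∀ τ ∈ z, τ ∈ Tk} := by
  refine (jet2_first hT ρ.r (fun z => ∃ v, z ∈ ρ.spl [] v) ?_).mono ?_
  · rintro z z' ⟨v, hv⟩ ⟨v', hv'⟩ hl i hi hr e
    have key : ∀ (y u : List (List D)), y ∈ ρ.spl [] u → i < y.length →
        ((y.take i).drop (i - ρ.r) ++ [y.getD i []]).map (res ρ.t) ∈ ρ.G := by
      intro y u hy hi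
      have h1 : (y.take i).length = i := by rw [List.length_take]; omega
      have h2 : ((y.take i).drop (i - ρ.r)).length = ρ.r := by rw [List.length_drop]; omega
      have h3 := ρ.mem_spl_good hρ.1 hy (z₁ := y.take i) (a := y.getD i [])
        (z₂ := y.drop (i + 1)) (by
          rw [List.getD_eq_getElem _ _ hi, ← List.drop_eq_getElem_cons hi, List.take_append_drop])
        (by omega)
      rw [← List.take_append_drop (i - ρ.r) (y.take i), ρ.bad_long h2.ge, ρ.bad_window h2] at h3
      exact not_not.1 h3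
    have h1 := key z v hv hi
    have h2 := key z' v' hv' (hl ▸ hi)
    rw [← e] at h2
    exact hρ.2 _ _ _ (by rw [List.length_drop, List.length_take]; omega) h1 h2
  · rintro _ ⟨z, v, rfl, h1, h2⟩
    exact ⟨z, rfl, ⟨v, h1⟩, h2⟩

end Pool.Agent.P.MP_406085_lc
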