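import Pool.Agent.P.MP_406085_lc.PS0

/-!
Linear recurrence below a bottom letter.
-/

namespace Pool.Agent.P.MP_406085_lc

open Filter PowerSeries
open scoped Classical

variable {N D : Type} [Finite N] (P : PS N D) {b : N}

theorem lr_short {α : Type} {z A M R : List α} (h : z <:+: A ++ (M ++ R))
    (hz : z.length ≤ M.length) : z <:+: A ++ M ∨ z <:+: M ++ R := by
  rcases List.infix_append_iff.1 h with h | h | ⟨u, v, rfl, hu, hv⟩
  · exact Or.inl (h.trans (List.prefix_append _ _).isInfix)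
  · exact Or.inr h
  · left
    have h1 : v <+: M := List.prefix_of_prefix_length_le hv (List.prefix_append _ _) (by
      rw [List.length_append] at hz
      omega)
    obtain ⟨s, rfl⟩ := hu
    obtain ⟨s', rfl⟩ := h1
    exact ⟨s, s', by simp only [List.append_assoc]⟩

theorem lr_long {α : Type} {w A M R : List α} (h : w <:+: A ++ (M ++ R))
    (hw : A.length + M.length < w.length) : M <:+: w ∨ w <:+: M ++ R := by
  rcases List.infix_append_iff.1 h with h | h | ⟨u, v, rfl, hu, hv⟩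
  · have := h.length_le
    omega
  · exact Or.inr h
  · left
    have h0 := hu.length_le
    have h1 : M <+: v := List.prefix_of_prefix_length_le (List.prefix_append _ _) hv (by
      rw [List.length_append] at hw
      omega)
    exact h1.isInfix.trans (List.suffix_append _ _).isInfix

omit [Finite N] in
theorem PS.lr_one (t k : ℕ) {z : List (Option (List D))} (x : N)
    (l : List (List (Option (List D)) × N)) (h : z <:+: P.gb t k (x, l))
    (hz : ∀ y ∈ l.map Prod.snd, z.length ≤ P.len y k) :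
    z <:+: P.rT t k x ∨ ∃ e ∈ edges x l, z <:+: P.gb t k (e.1, [(e.2.1, e.2.2)]) := by
  induction l generalizing x with
  | nil =>
    left
    simpa [PS.ps0_gb_eq] using h
  | cons e l ih =>
    right
    have he : P.gb t k (x, [(e.1, e.2)]) =
        P.rT t k x ++ e.1.map (·.bind (res t)) ++ P.rT t k e.2 := by
      simp [PS.ps0_gb_eq]
    rw [P.ps0_gb_cons, P.ps0_gb_eq] at h
    rcases lr_short h (by
      rw [P.length_rT]
      exact hz _ List.mem_cons_self) with h1 | h1
    · exact ⟨(x, e.1, e.2), List.mem_cons_self, he ▸ h1⟩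
    · rw [← P.ps0_gb_eq] at h1
      rcases ih e.2 h1 fun y hy => hz y (List.mem_cons_of_mem _ hy) with h2 | ⟨e', h2, h3⟩
      · refine ⟨(x, e.1, e.2), List.mem_cons_self, ?_⟩
        rw [he]
        exact h2.trans (List.suffix_append _ _).isInfix
      · exact ⟨e', List.mem_cons_of_mem _ h2, h3⟩

omit [Finite N] in
theorem PS.lr_two (t k B G : ℕ) {w : List (Option (List D))} (x : N)
    (l : List (List (Option (List D)) × N)) (h : w <:+: P.gb t k (x, l))
    (hB : ∀ y ∈ x :: l.map Prod.snd, P.len y k ≤ B) (hG : ∀ e ∈ edges x l, e.2.1.length ≤ G)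
    (hw : 2 * B + G < w.length) : ∃ y ∈ x :: l.map Prod.snd, P.rT t k y <:+: w := by
  induction l generalizing x with
  | nil =>
    have h1 : w <:+: P.rT t k x := by simpa [PS.ps0_gb_eq] using h
    have h2 := h1.length_le
    have h3 := hB x List.mem_cons_self
    rw [P.length_rT] at h2
    omega
  | cons e l ih =>
    rw [P.ps0_gb_cons, P.ps0_gb_eq] at h
    have h1 := hB x List.mem_cons_self
    have h2 := hB e.2 (List.mem_cons_of_mem _ List.mem_cons_self)
    have h3 : e.1.length ≤ G := hG (x, e.1, e.2) List.mem_cons_self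
    rcases lr_long h (by
      rw [List.length_append, P.length_rT, P.length_rT, List.length_map]
      omega) with h4 | h4
    · exact ⟨e.2, List.mem_cons_of_mem _ List.mem_cons_self, h4⟩
    · rw [← P.ps0_gb_eq] at h4
      obtain ⟨y, hy, h5⟩ := ih e.2 h4 (fun y hy => hB y (List.mem_cons_of_mem _ hy))
        fun e' he' => hG e' (List.mem_cons_of_mem _ he')
      exact ⟨y, List.mem_cons_of_mem _ hy, h5⟩

omit [Finite N] in
theorem PS.lr_mono {a : N} (h : a ∈ P.ch a) (t : ℕ) {n m : ℕ} (hn : n ≤ m) :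
    P.rT t n a <:+: P.rT t m a := (P.sub_mono h hn).map _

omit [Finite N] in
theorem PS.lr_step {x y : N} (h : y ∈ P.ch x) (t n : ℕ) :
    P.rT t n y <:+: P.rT t (n + 1) x := (P.sub_step h n).map _

theorem PS.lr_edge (hb : b ∈ P.ch b) : ∃ c, ∀ e ∈ P.EE b, ∀ t k, P.Big b t k →
    P.gb t k (e.1, [(e.2.1, e.2.2)]) <:+: P.rT t (k + c) b := by
  have h1 : ∀ e : Edge N D, ∃ j, e ∈ P.EE b → ∀ t k, P.Big b t k →
      P.gb t k (e.1, [(e.2.1, e.2.2)]) <:+: P.rT t (k + j) b := by
    intro e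
    by_cases he : e ∈ P.EE b
    · obtain ⟨j, hj⟩ := he
      refine ⟨j, fun _ t k h => ?_⟩
      rw [P.rT_iter hb h]
      exact P.ps0_edge_infix t k hj
    · exact ⟨0, fun h => absurd h he⟩
  choose j hj using h1
  obtain ⟨c, hc⟩ := ((P.EE_finite b).image j).bddAbove
  refine ⟨c, fun e he t k h => (hj e he t k h).trans (P.lr_mono hb t ?_)⟩
  have : j e ≤ c := hc ⟨e, he, rfl⟩
  omega

theorem PS.lr (hb : P.Bot b) : ∃ C, 0 < C ∧ ∀ t k L, P.Big b t k → P.len b k ≤ L →
    LRs (P.LL b t) C L := by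
  obtain ⟨C0, hC0, hC⟩ := P.len_succ_le
  obtain ⟨c, hc⟩ := P.lr_edge hb.1
  obtain ⟨G, hG⟩ := ((P.EE_finite b).image fun e => e.2.1.length).bddAbove
  have hch : ∀ x ∈ P.ch b, ∀ y ∈ P.ch b, x ∈ P.ch y :=
    fun x hx y hy => P.ch_trans (hb.2 y hy) hx
  have hcmp : ∀ x ∈ P.ch b, ∀ y ∈ P.ch b, ∀ k, P.len x k ≤ C0 * P.len y k :=
    fun x hx y hy k => (P.len_le_succ (hch x hx y hy) k).trans (hC y k)
  have hpow : ∀ y k j, P.len y (k + j) ≤ C0 ^ j * P.len y k := by
    intro y k j
    induction j with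
    | zero => simp
    | succ j ih =>
      rw [← add_assoc, pow_succ', mul_assoc]
      exact (hC y _).trans (Nat.mul_le_mul_left _ ih)
  refine ⟨2 * (C0 ^ (c + 1) * (C0 * C0)) + G + 1, by omega, ?_⟩
  rintro t k L hbig hL L' hL' z ⟨n, hz⟩ w ⟨n', hw⟩ hzl hwl
  have hex : ∃ j, ∀ y ∈ P.ch b, L' ≤ P.len y (k + j) := ⟨L', fun y _ => by
    have := P.lt_len y (k + L')
    omega⟩
  obtain ⟨k', hk, hlo, hhi⟩ : ∃ k', k ≤ k' ∧ (∀ y ∈ P.ch b, L' ≤ P.len y k') ∧
      ∀ y ∈ P.ch b, P.len y k' ≤ C0 * C0 * L' := by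
    refine ⟨k + Nat.find hex, Nat.le_add_right _ _, Nat.find_spec hex, fun y hy => ?_⟩
    rcases h0 : Nat.find hex with _ | j
    · calc P.len y (k + 0) ≤ C0 * P.len b k := hcmp y hy b hb.1 k
        _ ≤ C0 * (C0 * L') := Nat.mul_le_mul_left _
            ((hL.trans hL').trans (Nat.le_mul_of_pos_left _ hC0))
        _ = C0 * C0 * L' := (mul_assoc _ _ _).symm
    · have h1 := Nat.find_min hex (m := j) (by omega)
      simp only [not_forall, not_le] at h1
      obtain ⟨y0, hy0, h1⟩ := h1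
      calc P.len y (k + (j + 1)) ≤ C0 * P.len y0 (k + j + 1) := hcmp y hy y0 hy0 _
        _ ≤ C0 * (C0 * L') := Nat.mul_le_mul_left _
            ((hC y0 _).trans (Nat.mul_le_mul_left _ h1.le))
        _ = C0 * C0 * L' := (mul_assoc _ _ _).symm
  have hbig' : P.Big b t k' := PS.Big.mono P hbig le_rfl hk
  have hz1 : ∀ y ∈ P.ch b, z <:+: P.rT t (k' + (c + 1)) y := by
    intro y hy
    have h1 : z <:+: P.rT t (k' + n) b := hz.trans (P.lr_mono hb.1 t (Nat.le_add_left _ _))
    rw [P.rT_iter hb.1 hbig'] at h1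
    have h2 := P.adm_iter hb.1 n
    rcases P.lr_one t k' _ _ h1 fun y' hy' => hzl.trans (hlo y'
      (PS.Adm.ps0_letter P h2 (List.mem_cons_of_mem _ hy'))) with h3 | ⟨e, he, h3⟩
    · exact (h3.trans (P.lr_step (hch _ h2.1 y hy) t k')).trans
        (P.lr_mono (hch y hy y hy) t (by omega))
    · exact (h3.trans (hc e (h2.2 e he) t k' hbig')).trans (P.lr_step (hb.2 y hy) t _)
  have h1 : w <:+: P.rT t (k' + (c + 1) + n') b :=
    hw.trans (P.lr_mono hb.1 t (Nat.le_add_left _ _))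
  rw [P.rT_iter hb.1 (PS.Big.mono P hbig' le_rfl (Nat.le_add_right _ _))] at h1
  have h2 := P.adm_iter hb.1 n'
  have hpos : 1 ≤ L' := by
    have := P.lt_len b k
    omega
  obtain ⟨y, hy, h3⟩ := P.lr_two t _ (C0 ^ (c + 1) * (C0 * C0 * L')) G _ _ h1
    (fun y hy => (hpow y k' (c + 1)).trans
      (Nat.mul_le_mul_left _ (hhi y (PS.Adm.ps0_letter P h2 hy))))
    (fun e he => hG ⟨e, h2.2 e he, rfl⟩) (by
      have h4 : G ≤ G * L' := Nat.le_mul_of_pos_right _ hpos
      have h5 : (2 * (C0 ^ (c + 1) * (C0 * C0)) + G + 1) * L' =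
          2 * (C0 ^ (c + 1) * (C0 * C0 * L')) + G * L' + L' := by ring
      omega)
  exact (hz1 y (PS.Adm.ps0_letter P h2 hy)).trans h3

end Pool.Agent.P.MP_406085_lc
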