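import Pool.Agent.P.MP_406085_lc.Ext
import Pool.Agent.P.MP_406085_lc.Tok2
import Pool.Agent.P.MP_406085_lc.Jet1

/-!
The new tokens have no transient.
-/

namespace Pool.Agent.P.MP_406085_lc

open Filter PowerSeries
open scoped Classical

namespace Pcs

section Lists

variable {D : Type} (ρ : Rule D)

theorem pref_congr {u u' : List (List D)} (h : ρ.st u = ρ.st u') (k : ℕ) (w : List (List D)) :
    ρ.pref k u w = ρ.pref k u' w := by
  simp only [Rule.pref, Rule.spl, ρ.sp_congr h]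

theorem pref_zero (u w : List (List D)) : ρ.pref 0 u w = [] := by
  simp [Rule.pref]

theorem pref_nil (k : ℕ) (u : List (List D)) : ρ.pref k u [] = [] :=
  List.prefix_nil.1 (ρ.pref_isPrefix k u [])

theorem pref_app (k : ℕ) (u w w' : List (List D)) :
    ρ.pref k u (w ++ w') = ρ.pref k u w ++ ρ.pref (k - ρ.cnt u w) (u ++ w) w' := by
  rw [ρ.pref_append]
  split_ifs with h
  · rw [Nat.sub_eq_zero_of_le h, pref_zero, List.append_nil]
  · rw [ρ.pref_of_lt (not_le.1 h)]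

/-- A word with a given state. -/
noncomputable def rep (s : List (Option (List D))) : List (List D) :=
  if h : ∃ v, ρ.st v = s then h.choose else []

theorem st_rep (u : List (List D)) : ρ.st (rep ρ (ρ.st u)) = ρ.st u := by
  have h : ∃ v, ρ.st v = ρ.st u := ⟨u, rfl⟩
  rw [rep, dif_pos h]
  exact h.choose_spec

theorem last_gap (T w : List (List D)) : (ρ.gap T w).getLastD [] =
    (if ρ.cnt T w = 0 then ρ.lastp T else []) ++ (ρ.spl T w).getD (ρ.cnt T w) [] := by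
  rw [ρ.gap_eq, Rule.spl, Rule.cnt]
  rcases List.eq_nil_or_concat (ρ.sp T w).2 with h | ⟨l, b, h⟩
  · simp [h]
  · rw [h, List.concat_eq_append, if_neg (by simp), ← List.cons_append, ← List.cons_append,
      List.getLastD_concat, List.nil_append]
    simp

end Lists

variable {N Y D : Type} [Finite D] {sk : N → List N} {ρ : Rule D} {κ : Coc D}
  {F : List D → ℂ} {u w w' : Sq D} {k : ℕ → ℕ}

/-- All initial parts of `w` have no transient. -/
def QQ (ρ : Rule D) (κ : Coc D) (F : List D → ℂ) (w : Sq D) : Prop :=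
  HT w ∧ ∀ k v, JJ κ F fun n => ρ.pref k v (w n)

omit [Finite D] in
theorem jj_nil (κ : Coc D) (hF : Test F) : JJ κ F fun _ => [] := (gp_const []).jj κ hF

theorem QQ.ctx (h : QQ ρ κ F w) (hu : HT u) (hk : EP k) :
    JJ κ F fun n => ρ.pref (k n) (u n) (w n) := by
  have := JJ.select ((hu.ep_st ρ).prod hk)
    (y := fun i n => ρ.pref i.2 (rep ρ i.1) (w n)) fun i => h.2 i.2 (rep ρ i.1)
  exact this.congr (Eventually.of_forall fun n => pref_congr ρ (st_rep ρ _) _ _)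

theorem QQ.piece (hF : Test F) (h : QQ ρ κ F w) (hu : HT u) (hk : EP k) :
    JJ κ F fun n => (ρ.spl (u n) (w n)).getD (k n) [] := by
  refine (h.ctx hu hk).cancel_left hF
    (HT.select hk (y := fun j n => (ρ.spl (u n) (w n)).getD j [])
      fun j => (hu.spl ρ h.1).piece j) ?_
  exact (h.ctx hu (hk.comp (· + 1))).congr
    (Eventually.of_forall fun n => ρ.pref_succ _ _ _)

theorem qq_gp (hF : Test F) (h : Gp w) : QQ ρ κ F w := by
  refine ⟨h.1, fun k v => Gp.jj κ hF ⟨HT.pref ρ (ht_const v) h.1 k, ?_⟩⟩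
  obtain ⟨B, hB⟩ := h.2
  exact ⟨B, fun n => (ρ.pref_isPrefix k v (w n)).length_le.trans (hB n)⟩

theorem ep_sub_cnt {K : ℕ} (hu : HT u) (hw : HT w) (hk : EP k) (hK : ∀ n, k n ≤ K) :
    EP fun n => k n - ρ.cnt (u n) (w n) :=
  (hk.comp₂ (hu.ep_cnt ρ hw K) fun a b => a - b).congr (Eventually.of_forall fun n => by
    have := hK n
    omega)

theorem QQ.append (hF : Test F) (h : QQ ρ κ F w) (h' : QQ ρ κ F w') :
    QQ ρ κ F fun n => w n ++ w' n := by
  refine ⟨h.1.append h'.1, fun k v => ?_⟩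
  have := (h.2 k v).append hF (h'.ctx ((ht_const v).append h.1)
    (ep_sub_cnt (ρ := ρ) (ht_const v) h.1 (ep_const k) fun _ => le_rfl))
  exact this.congr (Eventually.of_forall fun n => (pref_app ρ _ _ _ _).symm)

/-- The index set for initial parts of blocks. -/
def Ix (A : ATS sk Y D) (ρ : Rule D) (K : ℕ) : Set (N × ℕ × List (Option (List D))) :=
  {i | i.1 ∈ A.act ∧ i.2.1 ≤ K ∧ i.2.2 ∈ Set.range ρ.st}

theorem ix_finite [Finite N] (A : ATS sk Y D) (ρ : Rule D) (K : ℕ) : (Ix A ρ K).Finite :=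
  (Set.finite_univ.prod ((Set.finite_Iic K).prod ρ.st_finite)).subset
    fun _ h => ⟨trivial, h.2.1, h.2.2⟩

/-- The initial parts of blocks. -/
noncomputable def blk (A : ATS sk Y D) (ρ : Rule D) (K : ℕ) (i : Ix A ρ K) : Sq D :=
  fun n => ρ.pref i.1.2.1 (rep ρ i.1.2.2) (A.T i.1.1 n)

theorem ptr_blk (A : ATS sk Y D) {K : ℕ} {x : N} (hx : x ∈ A.act) (hu : HT u) (hk : EP k)
    (hK : ∀ n, k n ≤ K) : ∃ ψ : ℕ → Option (Ix A ρ K), EP ψ ∧ ∀ n,
      ρ.pref (k n) (u n) (A.T x n) = (ψ n).elim [] fun j => blk A ρ K j n := by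
  refine ⟨fun n => some ⟨(x, k n, ρ.st (u n)), hx, hK n, u n, rfl⟩, ?_, fun n => ?_⟩
  · obtain ⟨p, q, hp, h⟩ := hk.prod (hu.ep_st ρ)
    refine ⟨p, q, hp, fun n hn => congrArg some (Subtype.ext ?_)⟩
    exact congrArg (fun t => (x, t)) (h n hn)
  · exact (pref_congr ρ (st_rep ρ _) _ _).symm

theorem list_ptr [Finite N] (hs : Sk sk) (A : ATS sk Y D) (hF : Test F)
    (h : ∀ x ∈ A.act, x ∉ A.wild ρ → JJ κ F (A.T x)) (K : ℕ) (l : List (N × Sq D))
    (hl : ∀ e ∈ l, e.1 ∈ A.act ∧ Gp e.2) {u : Sq D} {k : ℕ → ℕ} (hu : HT u) (hk : EP k)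
    (hK : ∀ n, k n ≤ K) :
    ∃ (a : Sq D) (ψ : ℕ → Option (Ix A ρ K)), JJ κ F a ∧ EP ψ ∧ ∀ᶠ n in atTop,
      ρ.pref (k n) (u n) (l.flatMap fun e => A.T e.1 n ++ e.2 n) =
        a n ++ (ψ n).elim [] fun j => blk A ρ K j n := by
  induction l generalizing u k with
  | nil =>
    exact ⟨fun _ => [], fun _ => none, jj_nil κ hF, ep_const _,
      Eventually.of_forall fun n => pref_nil ρ _ _⟩
  | cons e l ih =>
    obtain ⟨x, γ⟩ := e
    obtain ⟨hx, hγ⟩ : x ∈ A.act ∧ Gp γ := hl (x, γ) List.mem_cons_self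
    have hT := A.hT x hx
    obtain ⟨ψ, hψ, e1⟩ := ptr_blk (ρ := ρ) A hx hu hk hK
    by_cases hw : x ∈ A.wild ρ
    · refine ⟨fun _ => [], ψ, jj_nil κ hF, hψ, ?_⟩
      filter_upwards [(A.wild_tendsto hs ρ hw).1.eventually_ge_atTop K] with n hn
      have h1 : k n ≤ ρ.cnt (u n) (A.T x n) := by
        have := ρ.cnt_le_ctx (u n) [] (A.T x n)
        rw [List.append_nil] at this
        exact (hK n).trans (hn.trans this)
      rw [List.flatMap_cons, List.append_assoc, ρ.pref_append, if_pos h1, e1, List.nil_append]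
    · have k1 := ep_sub_cnt (ρ := ρ) hu hT hk hK
      have K1 : ∀ n, k n - ρ.cnt (u n) (A.T x n) ≤ K := fun n => (Nat.sub_le _ _).trans (hK n)
      have u1 := hu.append hT
      have k2 := ep_sub_cnt (ρ := ρ) u1 hγ.1 k1 K1
      obtain ⟨a', ψ', ha', hψ', e2⟩ := ih (fun e he => hl e (List.mem_cons_of_mem _ he))
        (u1.append hγ.1) k2 fun n => (Nat.sub_le _ _).trans (K1 n)
      have hb := k1.comp fun m => decide (m = 0)
      have ha := ((h x hx hw).append hF ((qq_gp (ρ := ρ) (κ := κ) hF hγ).ctx u1 k1)).append hF ha'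
      refine ⟨_, _, JJ.select hb (y := fun b => cond b (fun _ => []) fun n =>
          A.T x n ++ ρ.pref (k n - ρ.cnt (u n) (A.T x n)) (u n ++ A.T x n) (γ n) ++ a' n)
          fun b => ?_, hb.select (s := fun b => cond b ψ ψ') fun b => ?_, ?_⟩
      · cases b
        exacts [ha, jj_nil κ hF]
      · cases b
        exacts [hψ', hψ]
      · filter_upwards [e2] with n hn
        rw [List.flatMap_cons, List.append_assoc, ρ.pref_append]
        by_cases h1 : k n ≤ ρ.cnt (u n) (A.T x n)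
        · rw [if_pos h1, e1, decide_eq_true (Nat.sub_eq_zero_of_le h1)]
          rfl
        · rw [if_neg h1, decide_eq_false (by omega), pref_app, hn]
          simp only [cond_false, List.append_assoc]

theorem qq_blk [Finite N] (hs : Sk sk) (A : ATS sk Y D) (hF : Test F)
    (h : ∀ x ∈ A.act, x ∉ A.wild ρ → JJ κ F (A.T x)) {x : N} (hx : x ∈ A.act) :
    QQ ρ κ F (A.T x) := by
  refine ⟨A.hT x hx, fun K v => ?_⟩
  have := (ix_finite A ρ K).to_subtype
  have key : ∀ i : Ix A ρ K, ∃ (a : Sq D) (ψ : ℕ → Option (Ix A ρ K)), JJ κ F a ∧ EP ψ ∧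
      ∀ᶠ n in atTop, blk A ρ K i (n + 1) =
        a n ++ ((ψ n).elim [] fun j => blk A ρ K j n) ++ [] := by
    rintro ⟨⟨y, k, s⟩, hy, hk, hs'⟩
    obtain ⟨g0, g1⟩ := A.ok y hy
    have k1 := ep_sub_cnt (ρ := ρ) (ht_const (rep ρ s)) g0.1 (ep_const k) fun _ => hk
    obtain ⟨a, ψ, ha, hψ, e⟩ := list_ptr hs A hF h K (A.H y).l g1
      ((ht_const (rep ρ s)).append g0.1) k1 fun n => (Nat.sub_le _ _).trans hk
    refine ⟨_, ψ, ((qq_gp (ρ := ρ) hF g0).2 k (rep ρ s)).append hF ha, hψ, ?_⟩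
    filter_upwards [e] with n hn
    simp only [blk] at hn ⊢
    rw [A.step y hy, Rl.ev, pref_app, hn, List.append_nil, List.append_assoc]
  choose a ψ ha hψ e using key
  have := jj_ptr hF (fun n i => ψ i n) (ep_pi hψ) a (fun _ _ => []) (blk A ρ K) ha
    (fun _ => jj_nil κ hF) (fun i => HT.pref ρ (ht_const _) (A.hT _ i.2.1) _)
    (eventually_all.2 e) ⟨(x, K, ρ.st v), hx, le_rfl, v, rfl⟩
  exact this.congr (Eventually.of_forall fun n => pref_congr ρ (st_rep ρ _) _ _)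

theorem qq_gen [Finite N] (hs : Sk sk) (A : ATS sk Y D) (hF : Test F)
    (h : ∀ x ∈ A.act, x ∉ A.wild ρ → JJ κ F (A.T x)) (hw : A.Gen A.act w) : QQ ρ κ F w :=
  hw (QQ ρ κ F) (fun _ => qq_gp hF) (fun _ => qq_blk hs A hF h) fun _ _ => QQ.append hF

theorem jj_lastp [Finite N] (hs : Sk sk) (A : ATS sk Y D) (hF : Test F)
    (h : ∀ x ∈ A.act, x ∉ A.wild ρ → JJ κ F (A.T x)) {x : N} (hx : x ∈ A.wild ρ) :
    JJ κ F fun n => ρ.lastp (A.T x n) := by
  have key : ∀ i : A.wild ρ, ∃ (b : Sq D) (ψ : ℕ → Option (A.wild ρ)), JJ κ F b ∧ EP ψ ∧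
      ∀ᶠ n in atTop, ρ.lastp (A.T i (n + 1)) =
        [] ++ ((ψ n).elim [] fun j => ρ.lastp (A.T j n)) ++ b n := by
    rintro ⟨y, hy⟩
    obtain ⟨z, hz, hz'⟩ := (A.wild_tendsto hs ρ hy).2
    have hg := (A.gen_rg (A.ok y hy.1) (A.wild ρ)).2
    rcases List.eq_nil_or_concat (rg A.T (A.wild ρ) (A.H y).g0 (A.H y).l).l with e | ⟨l, b, e⟩
    · have := rg_fst A.T (A.wild ρ) (A.H y).g0 (A.H y).l
      rw [e] at this
      have h1 : z ∈ ((A.H y).l.map Prod.fst).filter (· ∈ A.wild ρ) :=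
        List.mem_filter.2 ⟨hz, decide_eq_true hz'⟩
      rw [← this] at h1
      simp at h1
    obtain ⟨b1, b2, b3⟩ := hg b (by rw [e]; simp)
    obtain ⟨B, hB⟩ := b3.bdd A ρ
    have hq := qq_gen hs A hF h (b3.mono A Set.sdiff_subset)
    have hc : EP fun n => ρ.cnt (A.T b.1 n) (b.2 n) :=
      ((A.hT _ b1).ep_cnt ρ hq.1 B).congr (Eventually.of_forall fun n => min_eq_right (hB _ n))
    refine ⟨_, fun n => if ρ.cnt (A.T b.1 n) (b.2 n) = 0 then some ⟨b.1, b2⟩ else none,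
      hq.piece hF (A.hT _ b1) hc,
      hc.comp fun m => if m = 0 then some (⟨b.1, b2⟩ : A.wild ρ) else none, ?_⟩
    filter_upwards [(A.wild_tendsto hs ρ b2).1.eventually_ge_atTop 1] with n hn
    have e1 : A.T y (n + 1) = (rg A.T (A.wild ρ) (A.H y).g0 (A.H y).l).ev A.T n := by
      rw [rg_ev, A.step y hy.1]
    rw [e1, Rl.ev, e, List.concat_eq_append, List.flatMap_append, List.flatMap_singleton,
      ← List.append_assoc, ← List.append_assoc, ρ.lastp_append hn, last_gap, List.nil_append]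
    split_ifs <;> rfl
  choose b ψ hb hψ e using key
  exact jj_ptr hF (fun n i => ψ i n) (ep_pi hψ) (fun _ _ => []) b
    (fun i n => ρ.lastp (A.T i n)) (fun _ => jj_nil κ hF) hb
    (fun i => (A.hT _ i.2.1).lastp ρ) (eventually_all.2 e) ⟨x, hx⟩

end Pcs

variable {N Y D : Type} [Finite N] [Finite D] {sk : N → List N}

open Pcs in
theorem ATS.jj_pc (hs : Sk sk) (A : ATS sk Y D) (ρ : Rule D) {κ : Coc D} {F : List D → ℂ}
    (hF : Test F) (h : ∀ x ∈ A.act, x ∉ A.wild ρ → JJ κ F (A.T x)) {z : Sq D} (hz : A.Pc ρ z) :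
    JJ κ F z := by
  obtain ⟨-, j, q, u, w, hu, hw, e⟩ := hz
  have hq := qq_gen hs A hF h hw
  have hu' : HT u ∧ JJ κ F fun n => ρ.lastp (u n) := by
    rcases hu with rfl | ⟨x, hx, rfl⟩
    · exact ⟨ht_const [], by simpa only [ρ.lastp_nil] using jj_nil κ hF⟩
    · exact ⟨A.hT x hx.1, jj_lastp hs A hF h hx⟩
  have key : JJ κ F fun n => (ρ.gap (u n) (w n)).getD j [] := by
    have hp := hq.piece hF hu'.1 (ep_const j)
    cases j with
    | zero =>
      exact (hu'.2.append hF hp).congr (Eventually.of_forall fun n => by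
        rw [ρ.gap_eq]; rfl)
    | succ j =>
      exact hp.congr (Eventually.of_forall fun n => by
        rw [ρ.gap_eq]; rfl)
  exact (key.sub q 1).congr (Eventually.of_forall fun n => by rw [e, one_mul])

end Pool.Agent.P.MP_406085_lc
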