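import Pool.Agent.P.MP_406085_lc.Bim

/-!
Normal forms obtained by passing to a power.
-/

namespace Pool.Agent.P.MP_406085_lc

open Filter PowerSeries
open scoped Classical

variable {N E : Type}

namespace Nrm

/-- The `k`-th power of a substitution. -/
def pw (h : N → List N) (k : ℕ) (x : N) : List N := (fun u : List N => u.flatMap h)^[k] [x]

theorem iter_eq (h : N → List N) (k : ℕ) (u : List N) :
    (fun u : List N => u.flatMap h)^[k] u = u.flatMap (pw h k) := by
  induction k generalizing u with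
  | zero =>
    have : pw h 0 = fun x => [x] := rfl
    simp [this]
  | succ k ih =>
    have : pw h (k + 1) = fun x => (pw h k x).flatMap h := funext fun x => by
      rw [pw, Function.iterate_succ_apply']; rfl
    rw [Function.iterate_succ_apply', ih, this, List.flatMap_assoc]

theorem pw_add (h : N → List N) (j k : ℕ) (x : N) :
    pw h (j + k) x = (pw h j x).flatMap (pw h k) := by
  rw [pw, add_comm, Function.iterate_add_apply, iter_eq]; rfl

theorem pw_succ (h : N → List N) (k : ℕ) (x : N) : pw h (k + 1) x = (h x).flatMap (pw h k) := by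
  rw [add_comm, pw_add]
  simp [pw]

theorem ep_idem {K : Type} {s : ℕ → K} (h : EP s) : ∃ P, 0 < P ∧ ∀ k, 0 < k → s (P * k) = s P := by
  obtain ⟨p, q, hp, h⟩ := h.period
  refine ⟨p * (q + 1), Nat.mul_pos hp q.succ_pos, fun k hk => ?_⟩
  obtain ⟨k, rfl⟩ : ∃ j, k = j + 1 := ⟨k - 1, by omega⟩
  rw [show p * (q + 1) * (k + 1) = p * (q + 1) + p * ((q + 1) * k) by ring]
  exact h _ (by nlinarith) _

theorem head_congr {A : Type} {g g' : N → List A} (e : ∀ y, (g y).head? = (g' y).head?)
    (l : List N) : (l.flatMap g).head? = (l.flatMap g').head? := by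
  induction l with
  | nil => rfl
  | cons a l ih => rw [List.flatMap_cons, List.flatMap_cons, List.head?_append,
      List.head?_append, e, ih]

theorem last_congr {A : Type} {g g' : N → List A} (e : ∀ y, (g y).getLast? = (g' y).getLast?)
    (l : List N) : (l.flatMap g).getLast? = (l.flatMap g').getLast? := by
  induction l with
  | nil => rfl
  | cons a l ih => rw [List.flatMap_cons, List.flatMap_cons, List.getLast?_append,
      List.getLast?_append, e, ih]

theorem head_bind {A : Type} {g : N → List A} {S : Set N} (h0 : ∀ z, z ∉ S → g z = [])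
    (h1 : ∀ z ∈ S, g z ≠ []) {l : List N} {y : N} (hy : (l.filter (· ∈ S)).head? = some y) :
    (l.flatMap g).head? = (g y).head? := by
  induction l with
  | nil => simp at hy
  | cons a l ih =>
    by_cases ha : a ∈ S
    · rw [List.filter_cons_of_pos (by simpa using ha)] at hy
      obtain rfl : a = y := by simpa using hy
      obtain ⟨b, t, e⟩ := List.exists_cons_of_ne_nil (h1 a ha)
      rw [List.flatMap_cons, e]; rfl
    · rw [List.filter_cons_of_neg (by simpa using ha)] at hy
      rw [List.flatMap_cons, h0 a ha, List.nil_append, ih hy]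

theorem last_bind {A : Type} {g : N → List A} {S : Set N} (h0 : ∀ z, z ∉ S → g z = [])
    (h1 : ∀ z ∈ S, g z ≠ []) {l : List N} {y : N} (hy : (l.filter (· ∈ S)).getLast? = some y) :
    (l.flatMap g).getLast? = (g y).getLast? := by
  rw [← List.head?_reverse, ← List.filter_reverse] at hy
  have := head_bind (g := fun z => (g z).reverse) (fun z hz => by simp [h0 z hz])
    (fun z hz => by simpa using h1 z hz) hy
  rw [← List.head?_reverse, ← List.head?_reverse, List.reverse_flatMap]
  exact this

theorem two_le_count {g : N → List N} {l : List N} {a b x : N} (hab : a ≠ b) (ha : a ∈ l)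
    (hb : b ∈ l) (h1 : x ∈ g a) (h2 : x ∈ g b) : 2 ≤ (l.flatMap g).count x := by
  have key : ∀ (t : List N) (c : N), c ∈ t → x ∈ g c → 1 ≤ (t.flatMap g).count x :=
    fun t c hc hx => List.count_pos_iff.mpr (List.mem_flatMap.mpr ⟨c, hc, hx⟩)
  induction l with
  | nil => simp at ha
  | cons c l ih =>
    rw [List.flatMap_cons, List.count_append]
    rcases List.mem_cons.mp ha with rfl | ha'
    · have e1 := List.count_pos_iff.mpr h1
      have e2 := key l b ((List.mem_cons.mp hb).resolve_left hab.symm) h2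
      omega
    · rcases List.mem_cons.mp hb with rfl | hb'
      · have e1 := List.count_pos_iff.mpr h2
        have e2 := key l a ha' h1
        omega
      · have := ih ha' hb'
        omega

theorem ep_inv [Finite N] (h : N → List N) : EP fun n =>
    ((fun x => {y | y ∈ pw h n x} : N → Set N),
      (fun (S : Set N) x => ((pw h n x).filter (· ∈ S)).head?),
      (fun (S : Set N) x => ((pw h n x).filter (· ∈ S)).getLast?)) := by
  refine ep_of_det (Set.toFinite _) fun n m e => ?_
  simp only [Prod.mk.injEq] at e ⊢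
  obtain ⟨e1, e2, e3⟩ := e
  refine ⟨funext fun x => Set.ext fun y => ?_, funext fun S => funext fun x => ?_,
    funext fun S => funext fun x => ?_⟩
  · have : ∀ z, y ∈ pw h n z ↔ y ∈ pw h m z := fun z => Set.ext_iff.mp (congrFun e1 z) y
    simp only [Set.mem_ofPred_eq, pw_succ, List.mem_flatMap, this]
  · rw [pw_succ, pw_succ, List.filter_flatMap, List.filter_flatMap]
    exact head_congr (fun y => congrFun (congrFun e2 S) y) _
  · rw [pw_succ, pw_succ, List.filter_flatMap, List.filter_flatMap]
    exact last_congr (fun y => congrFun (congrFun e3 S) y) _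

theorem filter_nil {sk : N → List N} {S : Set N} (hS : ∀ x y, y ∈ sk x → y ∈ S → x ∈ S) (z : N)
    (hz : z ∉ S) : (sk z).filter (· ∈ S) = [] :=
  List.filter_eq_nil_iff.mpr fun w hw hw' => hz (hS z w hw (by simpa using hw'))

theorem filter_ne_nil {sk : N → List N} {S : Set N} (hS : ∀ x ∈ S, ∃ y ∈ sk x, y ∈ S) (z : N)
    (hz : z ∈ S) : (sk z).filter (· ∈ S) ≠ [] := by
  obtain ⟨y, h1, h2⟩ := hS z hz
  exact List.ne_nil_of_mem (List.mem_filter.mpr ⟨h1, by simpa using h2⟩)

theorem exists_pw [Finite N] (h : N → List N) : ∃ p, 0 < p ∧ Sk (pw h p) := by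
  obtain ⟨P, hP, e⟩ := ep_idem (ep_inv h)
  have e2 := e 2 two_pos
  have e4 := (e 4 (by norm_num)).trans e2.symm
  rw [show P * 4 = P * 2 + P * 2 by ring] at e4
  simp only [Prod.mk.injEq] at e2 e4
  have m2 : ∀ x y, y ∈ pw h (P * 2) x ↔ y ∈ pw h P x :=
    fun x y => Set.ext_iff.mp (congrFun e2.1 x) y
  have m4 : ∀ x y, y ∈ pw h (P * 2 + P * 2) x ↔ y ∈ pw h (P * 2) x :=
    fun x y => Set.ext_iff.mp (congrFun e4.1 x) y
  have tr : ∀ x y z, y ∈ pw h (P * 2) x → z ∈ pw h (P * 2) y → z ∈ pw h (P * 2) x :=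
    fun x y z h1 h2 => (m4 x z).mp (by rw [pw_add]; exact List.mem_flatMap.mpr ⟨y, h1, h2⟩)
  refine ⟨P * 2, by omega, tr, fun x z hz => ?_, fun x y h1 h2 hne => ?_,
    fun S hS1 hS2 x y hy => ?_, fun S hS1 hS2 x y hy => ?_⟩
  · have := (m4 x z).mpr hz
    rw [pw_add] at this
    exact List.mem_flatMap.mp this
  · have h3 := (m2 _ _).mp (tr _ _ _ h1 h2)
    rw [mul_two, pw_add]
    exact two_le_count hne ((m2 _ _).mp h1) h3 ((m2 _ _).mp h2) h3
  · have := congrFun (congrFun e4.2.1 S) x
    beta_reduce at this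
    rw [pw_add, List.filter_flatMap,
      head_bind (filter_nil hS1) (filter_ne_nil hS2) hy] at this
    rw [this, hy]
  · have := congrFun (congrFun e4.2.2 S) x
    beta_reduce at this
    rw [pw_add, List.filter_flatMap,
      last_bind (filter_nil hS1) (filter_ne_nil hS2) hy] at this
    rw [this, hy]

theorem cv_sub {W : ℕ → List E} (h : Cv W) (a : ℕ) {k : ℕ} (hk : 0 < k) :
    Cv fun n => W (a + k * n) := by
  rcases h with h | h
  · exact Or.inl fun n => by beta_reduce; rw [h, h (a + k * 0)]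
  · exact Or.inr fun n m hnm => h (by nlinarith)

theorem cv_mono {W : ℕ → List E} (h : Cv W) : Monotone fun n => (W n).length := by
  rcases h with h | h
  · intro n m _
    beta_reduce
    rw [h n, h m]
  · exact h.monotone

theorem cv_append {W V : ℕ → List E} (h : Cv W) (h' : Cv V) : Cv fun n => W n ++ V n := by
  have m := cv_mono h
  have m' := cv_mono h'
  rcases h with h | h
  · rcases h' with h' | h'
    · exact Or.inl fun n => by beta_reduce; rw [h n, h' n]
    · refine Or.inr fun n k hnk => ?_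
      have a1 := m hnk.le
      have a2 := h' hnk
      simp only [List.length_append] at *
      omega
  · refine Or.inr fun n k hnk => ?_
    have a1 := h hnk
    have a2 := m' hnk.le
    simp only [List.length_append] at *
    omega

/-- Eventually constant or strictly increasing in length. -/
def ECv (W : ℕ → List E) : Prop := ∃ q, ∀ a, q ≤ a → Cv fun n => W (a + n)

theorem ecv_of {W : ℕ → List E} {q : ℕ} (h : Cv fun n => W (q + n)) : ECv W := by
  refine ⟨q, fun a ha => ?_⟩
  have := cv_sub h (a - q) one_pos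
  have e : (fun n => W (a + n)) = fun n => W (q + (a - q + 1 * n)) :=
    funext fun n => congrArg W (by omega)
  rw [e]
  exact this

theorem ecv_flatMap {T : N → ℕ → List E} (l : List N) (h : ∀ y ∈ l, ECv (T y)) :
    ECv fun n => l.flatMap fun y => T y n := by
  induction l with
  | nil => exact ⟨0, fun a _ => Or.inl fun _ => rfl⟩
  | cons b l ih =>
    obtain ⟨q, hq⟩ := h b List.mem_cons_self
    obtain ⟨q', hq'⟩ := ih fun y hy => h y (List.mem_cons_of_mem _ hy)
    exact ⟨max q q', fun a ha =>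
      cv_append (hq a (le_of_max_le_left ha)) (hq' a (le_of_max_le_right ha))⟩

section Sys

variable {sk : N → List N} (hs : Sk sk) {T : N → ℕ → List E}
  (hT : ∀ s n, T s (n + 1) = (sk s).flatMap fun b => T b n)
include hs hT

theorem nil_iff (s : N) (n : ℕ) : T s (n + 1) = [] ↔ T s 1 = [] := by
  induction n with
  | zero => rfl
  | succ n ih =>
    rw [← ih, hT s (n + 1), hT s n, List.flatMap_eq_nil_iff, List.flatMap_eq_nil_iff]
    constructor
    · intro h z hz
      obtain ⟨y, h1, h2⟩ := hs.dense s z hz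
      have := h y h1
      rw [hT, List.flatMap_eq_nil_iff] at this
      exact this z h2
    · intro h y hy
      rw [hT, List.flatMap_eq_nil_iff]
      exact fun z hz => h z (hs.trans _ _ _ hy hz)

theorem ecv_rec {s : N} (h : s ∈ sk s) : ECv (T s) := by
  obtain ⟨l1, l2, e⟩ := List.append_of_mem h
  have st : ∀ n, T s (n + 1) = (l1.flatMap fun b => T b n) ++ (T s n ++
      l2.flatMap fun b => T b n) := fun n => by
    rw [hT, e, List.flatMap_append, List.flatMap_cons]
  refine ecv_of (q := 1) ?_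
  by_cases hc : ∀ y ∈ l1 ++ l2, T y 1 = []
  · refine Or.inl fun n => ?_
    induction n with
    | zero => rfl
    | succ n ih =>
      beta_reduce at ih ⊢
      have a1 : (l1.flatMap fun b => T b (n + 1)) = [] := List.flatMap_eq_nil_iff.mpr fun y hy =>
        (nil_iff hs hT y n).mpr (hc y (List.mem_append_left _ hy))
      have a2 : (l2.flatMap fun b => T b (n + 1)) = [] := List.flatMap_eq_nil_iff.mpr fun y hy =>
        (nil_iff hs hT y n).mpr (hc y (List.mem_append_right _ hy))
      rw [← ih, show 1 + (n + 1) = n + 1 + 1 by ring, st, a1, a2, add_comm 1 n]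
      simp
  · refine Or.inr (strictMono_nat_of_lt_succ fun n => ?_)
    push Not at hc
    obtain ⟨y, hy, hne⟩ := hc
    have hne' : T y (n + 1) ≠ [] := fun e => hne ((nil_iff hs hT y n).mp e)
    have key : ∀ t : List N, y ∈ t → 0 < (t.flatMap fun b => T b (n + 1)).length :=
      fun t ht => List.length_pos_iff.mpr fun e => hne' (List.flatMap_eq_nil_iff.mp e y ht)
    beta_reduce
    rw [show 1 + (n + 1) = n + 1 + 1 by ring, st (n + 1), add_comm 1 n, List.length_append,
      List.length_append]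
    rcases List.mem_append.mp hy with h1 | h1
    · have := key _ h1
      omega
    · have := key _ h1
      omega

theorem ecv_all [Finite N] (s : N) : ECv (T s) := by
  induction hn : {y | y ∈ sk s}.ncard using Nat.strong_induction_on generalizing s with
  | _ n ih =>
    have : ECv fun n => (sk s).flatMap fun y => T y n := by
      refine ecv_flatMap _ fun y hy => ?_
      by_cases hyy : y ∈ sk y
      · exact ecv_rec hs hT hyy
      · refine ih _ ?_ y rfl
        rw [← hn]
        exact Set.ncard_lt_ncard ⟨fun z hz => hs.trans _ _ _ hy hz, fun hsub => hyy (hsub hy)⟩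
          (Set.toFinite _)
    obtain ⟨q, hq⟩ := this
    refine ecv_of (q := q + 1) ?_
    have e : (fun n => T s (q + 1 + n)) = fun n => (sk s).flatMap fun y => T y (q + n) :=
      funext fun n => by rw [add_right_comm, hT]
    rw [e]
    exact hq q le_rfl

end Sys

theorem sys_pw {σ : N → List N} {U : N → ℕ → List E}
    (h : ∀ s n, U s (n + 1) = (σ s).flatMap fun b => U b n) (j : ℕ) (s : N) (n : ℕ) :
    U s (n + j) = (pw σ j s).flatMap fun b => U b n := by
  induction j generalizing s with
  | zero => simp [pw]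
  | succ j ih => rw [← add_assoc, h, pw_succ, List.flatMap_assoc]; simp only [ih]

/-- The conclusion of `HH.cv`. -/
def PCv (W : ℕ → List E) : Prop :=
  ∃ p q, 0 < p ∧ ∀ a k, q ≤ a → 0 < k → Cv fun n => W (a + p * k * n)

theorem pcv_interleave {W : ℕ → List E} {p q : ℕ} (hp : 0 < p)
    (h : ∀ r < p, PCv fun n => W (q + r + p * n)) : PCv W := by
  choose P Q hP h using fun a : Fin p => h a a.2
  refine ⟨p * ∏ i, P i, q + p * ∑ i, Q i, Nat.mul_pos hp (Finset.prod_pos fun i _ => hP i),
    fun b k hb hk => ?_⟩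
  have h1 := Nat.mod_add_div (b - q) p
  have h2 : ∑ i, Q i ≤ (b - q) / p := (Nat.le_div_iff_mul_le hp).mpr (by rw [mul_comm]; omega)
  set r : Fin p := ⟨(b - q) % p, Nat.mod_lt _ hp⟩ with hr
  obtain ⟨c, hc⟩ := Finset.dvd_prod_of_mem P (Finset.mem_univ r)
  have hc0 : 0 < c := Nat.pos_of_ne_zero fun e => by
    have : 0 < ∏ i, P i := Finset.prod_pos fun i _ => hP i
    rw [hc, e] at this
    simp at this
  have := h r ((b - q) / p) (c * k)
    (le_trans (Finset.single_le_sum (fun _ _ => Nat.zero_le _) (Finset.mem_univ r)) h2)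
    (Nat.mul_pos hc0 hk)
  have hb' : b = q + r + p * ((b - q) / p) := by
    simp only [hr]
    omega
  have e : (fun n => W (b + (p * ∏ i, P i) * k * n)) =
      fun n => W (q + r + p * ((b - q) / p + P r * (c * k) * n)) := funext fun n => by
    rw [hc, mul_add, ← add_assoc, ← hb']
    congr 1
    ring
  rw [e]
  exact this

theorem pcv_hd {W : ℕ → List E} (h : HD W) : PCv W := by
  obtain ⟨S, _, σ, U, s, rfl, hU⟩ := h.exists_sys
  obtain ⟨p, hp, hs⟩ := exists_pw σ
  refine pcv_interleave (q := 0) hp fun r _ => ?_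
  obtain ⟨q, hq⟩ := ecv_all hs (T := fun s n => U s (0 + r + p * n)) (fun s n => by
    rw [mul_add, mul_one, ← add_assoc, sys_pw hU]) s
  refine ⟨1, q, one_pos, fun a k ha hk => ?_⟩
  simpa only [zero_add, one_mul] using cv_sub (hq a ha) 0 hk

end Nrm

theorem exists_sk [Finite N] (h : N → List N) :
    ∃ p, 0 < p ∧ Sk fun x => (fun u : List N => u.flatMap h)^[p] [x] := Nrm.exists_pw h

theorem Sk.prod {sk : N → List N} (h : Sk sk) (I : Type) :
    Sk fun x : N × I => (sk x.1).map fun y => (y, x.2) := by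
  have mem : ∀ (x y : N × I), y ∈ (sk x.1).map (fun z => (z, x.2)) ↔ y.1 ∈ sk x.1 ∧ y.2 = x.2 :=
    fun x y => by
      rw [List.mem_map]
      constructor
      · rintro ⟨z, hz, rfl⟩
        exact ⟨hz, rfl⟩
      · rintro ⟨h1, h2⟩
        exact ⟨y.1, h1, by rw [← h2]⟩
  have fil : ∀ (S : Set (N × I)) (i : I) (l : List N),
      (l.map fun z => (z, i)).filter (· ∈ S) =
        (l.filter (· ∈ {z | (z, i) ∈ S})).map fun z => (z, i) := fun S i l => by
    rw [List.filter_map]
    rfl
  have up : ∀ (S : Set (N × I)) (i : I),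
      (∀ x y : N × I, y ∈ (sk x.1).map (fun z => (z, x.2)) → y ∈ S → x ∈ S) →
      ∀ x y, y ∈ sk x → y ∈ {z | (z, i) ∈ S} → x ∈ {z | (z, i) ∈ S} :=
    fun S i hS x y hy hyS => hS (x, i) (y, i) ((mem _ _).mpr ⟨hy, rfl⟩) hyS
  have ch : ∀ (S : Set (N × I)) (i : I),
      (∀ x ∈ S, ∃ y ∈ (sk x.1).map (fun z => (z, x.2)), y ∈ S) →
      ∀ x ∈ {z | (z, i) ∈ S}, ∃ y ∈ sk x, y ∈ {z | (z, i) ∈ S} := fun S i hS x hx => by
    obtain ⟨y, h1, h2⟩ := hS (x, i) hx
    obtain ⟨z, hz, rfl⟩ := List.mem_map.mp h1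
    exact ⟨z, hz, h2⟩
  refine ⟨fun x y z h1 h2 => ?_, fun x z hz => ?_, fun x y h1 h2 hne => ?_,
    fun S hS1 hS2 x y hy => ?_, fun S hS1 hS2 x y hy => ?_⟩
  · rw [mem] at h1 h2 ⊢
    exact ⟨h.trans _ _ _ h1.1 h2.1, h2.2.trans h1.2⟩
  · rw [mem] at hz
    obtain ⟨y, h1, h2⟩ := h.dense _ _ hz.1
    exact ⟨(y, x.2), (mem _ _).mpr ⟨h1, rfl⟩, (mem _ _).mpr ⟨h2, hz.2⟩⟩
  · rw [mem] at h1 h2
    have := h.two x.1 y.1 h1.1 h2.1 fun e => hne (Prod.ext e h1.2)
    refine this.trans (le_of_eq ?_)
    exact (@List.count_map_of_injective N (N × I) _ _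
      (@instBEqOfDecidableEq _ fun a b => Classical.propDecidable (a = b)) _ (sk x.1)
      (fun z => (z, x.2)) (fun a b e => congrArg Prod.fst e) x.1).symm
  · beta_reduce at hy ⊢
    rw [fil, List.head?_map] at hy
    obtain ⟨z, hz, rfl⟩ := Option.map_eq_some_iff.mp hy
    rw [fil, List.head?_map, h.fst _ (up S _ hS1) (ch S _ hS2) _ _ hz]
    rfl
  · beta_reduce at hy ⊢
    rw [fil, List.getLast?_map] at hy
    obtain ⟨z, hz, rfl⟩ := Option.map_eq_some_iff.mp hy
    rw [fil, List.getLast?_map, h.lst _ (up S _ hS1) (ch S _ hS2) _ _ hz]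
    rfl

theorem HH.cv {W : ℕ → List E} (h : HH W) :
    ∃ p q, 0 < p ∧ ∀ a k, q ≤ a → 0 < k → Cv fun n => W (a + p * k * n) := by
  obtain ⟨p, q, hp, h⟩ := h
  exact Nrm.pcv_interleave (q := q) hp fun r _ => Nrm.pcv_hd (h _ (Nat.le_add_right _ _))

theorem cv_common {S : Set (ℕ → List E)} (hS : S.Finite) (h : ∀ W ∈ S, HH W) :
    ∃ p q, 0 < p ∧ ∀ W ∈ S, ∀ a k, q ≤ a → 0 < k → Cv fun n => W (a + p * k * n) := by
  induction S, hS using Set.Finite.induction_on with
  | empty => exact ⟨1, 0, one_pos, fun W hW => hW.elim⟩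
  | @insert V S _ _ ih =>
    obtain ⟨p, q, hp, h1⟩ := (h V (Set.mem_insert _ _)).cv
    obtain ⟨p', q', hp', h2⟩ := ih fun W hW => h W (Set.mem_insert_of_mem _ hW)
    refine ⟨p * p', max q q', Nat.mul_pos hp hp', ?_⟩
    rintro W (rfl | hW) a k ha hk
    · simpa only [mul_assoc] using h1 a (p' * k) (le_of_max_le_left ha) (Nat.mul_pos hp' hk)
    · have := h2 W hW a (p * k) (le_of_max_le_right ha) (Nat.mul_pos hp hk)
      rwa [← mul_assoc, mul_comm p' p] at this

end Pool.Agent.P.MP_406085_lc
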