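import Pool.Agent.P.MP_406085_lc.Ext
import Pool.Agent.P.MP_406085_lc.Norm

/-!
Cutting rules that remove a push.
-/

namespace Pool.Agent.P.MP_406085_lc

open Filter PowerSeries
open scoped Classical

namespace Push

variable {α D : Type}

/-- The product `γ (m + k - 1) ++ … ++ γ m`. -/
def PL (γ : ℕ → List α) (m : ℕ) : ℕ → List α
  | 0 => []
  | k + 1 => γ (m + k) ++ PL γ m k

/-- The product `γ m ++ … ++ γ (m + k - 1)`. -/
def PR (γ : ℕ → List α) (m : ℕ) : ℕ → List α
  | 0 => []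
  | k + 1 => PR γ m k ++ γ (m + k)

theorem PR_eq (γ : ℕ → List α) (m k : ℕ) :
    PR γ m k = (PL (fun n => (γ n).reverse) m k).reverse := by
  induction k with
  | zero => rfl
  | succ k ih => simp [PR, PL, ih]

theorem PL_add (γ : ℕ → List α) (m k j : ℕ) :
    PL γ m (k + j) = PL γ (m + k) j ++ PL γ m k := by
  induction j with
  | zero => rfl
  | succ j ih => rw [← add_assoc, PL, ih, PL, List.append_assoc, add_assoc]

theorem PL_congr {γ : ℕ → List α} {m m' : ℕ} (h : ∀ i, γ (m + i) = γ (m' + i)) (k : ℕ) :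
    PL γ m k = PL γ m' k := by
  induction k with
  | zero => rfl
  | succ k ih => rw [PL, PL, ih, h]

theorem mem_PL {γ : ℕ → List α} {m k : ℕ} {a : α} :
    a ∈ PL γ m k ↔ ∃ i < k, a ∈ γ (m + i) := by
  induction k with
  | zero => simp [PL]
  | succ k ih =>
    rw [PL, List.mem_append, ih]
    constructor
    · rintro (h | ⟨i, hi, h⟩)
      · exact ⟨k, by omega, h⟩
      · exact ⟨i, by omega, h⟩
    · rintro ⟨i, hi, h⟩
      rcases Nat.lt_succ_iff_lt_or_eq.mp hi with hi | rfl
      · exact Or.inr ⟨i, hi, h⟩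
      · exact Or.inl h

theorem PL_le {γ : ℕ → List α} {B : ℕ} (hB : ∀ n, (γ n).length ≤ B) (m k : ℕ) :
    (PL γ m k).length ≤ k * B := by
  induction k with
  | zero => simp [PL]
  | succ k ih => rw [PL, List.length_append, Nat.succ_mul]; have := hB (m + k); omega

theorem PL_long {γ : ℕ → List α} (h : ∃ᶠ n in atTop, γ n ≠ []) (m r : ℕ) :
    ∃ k0, ∀ k, k0 ≤ k → r ≤ (PL γ m k).length := by
  induction r with
  | zero => exact ⟨0, fun _ _ => Nat.zero_le _⟩
  | succ r ih =>
    obtain ⟨k0, ih⟩ := ih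
    obtain ⟨n, hn, hne⟩ := frequently_atTop.mp h (m + k0)
    refine ⟨n - m + 1, fun k hk => ?_⟩
    obtain ⟨j, rfl⟩ := Nat.exists_eq_add_of_le hk
    rw [PL_add, PL, show m + (n - m) = n by omega]
    have h1 := ih (n - m) (by omega)
    have h2 := List.length_pos_iff.mpr hne
    simp only [List.length_append]
    omega

/-- Factors of a product of gaps without long tokens are short. -/
theorem PL_short {γ : ℕ → List α} {Q : α → Prop} {B p m : ℕ} (hB : ∀ n, (γ n).length ≤ B)
    (hl : ∀ a, m ≤ a → ∃ i < p, ∃ τ ∈ γ (a + i), ¬ Q τ) (k : ℕ) {z : List α}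
    (hz : z <:+: PL γ m k) (hQ : ∀ τ ∈ z, Q τ) : z.length ≤ (p + 1) * B := by
  have pre : ∀ k (z : List α), z <+: PL γ m k → (∀ τ ∈ z, Q τ) → z.length ≤ p * B := by
    intro k z hz hQ
    by_cases hk : k ≤ p
    · exact hz.length_le.trans ((PL_le hB m k).trans (Nat.mul_le_mul_right _ hk))
    · by_contra hlt
      obtain ⟨j, rfl⟩ : ∃ j, k = j + p := ⟨k - p, by omega⟩
      rw [PL_add] at hz
      have h1 : PL γ (m + j) p <+: z :=
        List.prefix_of_prefix_length_le (List.prefix_append _ _) hz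
          ((PL_le hB _ _).trans (by omega))
      obtain ⟨i, hi, τ, hτ, hn⟩ := hl (m + j) (by omega)
      exact hn (hQ τ (h1.subset (mem_PL.mpr ⟨i, hi, hτ⟩)))
  induction k with
  | zero =>
    rw [PL, List.infix_nil] at hz
    simp [hz]
  | succ k ih =>
    rw [PL, List.infix_append_iff] at hz
    rcases hz with hz | hz | ⟨l₁, l₂, rfl, h1, h2⟩
    · have := hz.length_le.trans (hB _)
      rw [Nat.succ_mul]; omega
    · exact ih hz
    · have h3 := h1.length_le.trans (hB _)
      have h4 := pre k l₂ h2 fun τ hτ => hQ τ (List.mem_append_right _ hτ)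
      rw [List.length_append, Nat.succ_mul]; omega

theorem PL_per {γ : ℕ → List α} {p m : ℕ} (h : ∀ a, m ≤ a → γ (a + p) = γ a) (k : ℕ) :
    PL γ m (k + p) = PL γ m k ++ PL γ m p := by
  rw [add_comm k p, PL_add]
  congr 1
  exact PL_congr (fun i => by rw [add_right_comm, h _ (by omega)]) k

/-- A word `w` with `w <+: u ++ w` has period `|u|`. -/
theorem window_per {w u z : List α} (h : w <+: u ++ w) (hu : 1 ≤ u.length) (hz : z <:+: w)
    (hl : z.length = u.length + 1) : ∃ τ z', z = τ :: z' ++ [τ] := by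
  obtain ⟨s, s', rfl⟩ := hz
  obtain ⟨τ, z1, rfl⟩ : ∃ τ z1, z = τ :: z1 := by
    cases z with
    | nil => simp at hl
    | cons a z => exact ⟨a, z, rfl⟩
  have hz1 : z1 ≠ [] := by
    rintro rfl
    simp only [List.length_cons, List.length_nil] at hl
    omega
  obtain ⟨z', τ', rfl⟩ : ∃ z' τ', z1 = z' ++ [τ'] :=
    ⟨_, _, (List.dropLast_append_getLast hz1).symm⟩
  refine ⟨τ, z', ?_⟩
  simp only [List.length_cons, List.length_append, List.length_nil] at hl
  obtain ⟨v, hv⟩ := h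
  have e := congrArg (fun l : List α => l[u.length + s.length]?) hv
  have e1 : (s ++ τ :: (z' ++ [τ']) ++ s' ++ v)[u.length + s.length]? = some τ' := by
    have : s ++ τ :: (z' ++ [τ']) ++ s' ++ v = (s ++ τ :: z') ++ τ' :: (s' ++ v) := by simp
    rw [this, List.getElem?_append_right (by simp; omega)]
    have : u.length + s.length - (s ++ τ :: z').length = 0 := by simp; omega
    rw [this]; rfl
  have e2 : (u ++ (s ++ τ :: (z' ++ [τ']) ++ s'))[u.length + s.length]? = some τ := by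
    rw [List.getElem?_append_right (by omega)]
    have : s ++ τ :: (z' ++ [τ']) ++ s' = s ++ τ :: (z' ++ [τ'] ++ s') := by simp
    rw [this, List.getElem?_append_right (by omega)]
    have : u.length + s.length - u.length - s.length = 0 := by omega
    rw [this]; rfl
  beta_reduce at e
  rw [e1, e2, Option.some.injEq] at e
  rw [e]; rfl

theorem res_eq_some {t : ℕ} {a τ : List D} (h : res t a = some τ) : a = τ := by
  unfold res at h
  split_ifs at h
  exact Option.some.inj h

/-- The rule for periodic products. -/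
def ruleA (r t : ℕ) : Rule D := ⟨r, t, {w | ∃ τ z, w = some τ :: z ++ [some τ]}⟩

/-- The rule that cuts in front of windows of short tokens. -/
def ruleB (r t : ℕ) : Rule D := ⟨r, t, {w | none ∈ w}⟩

theorem ruleA_det {r : ℕ} (hr : 1 ≤ r) (t : ℕ) : (ruleA r t : Rule D).Det := by
  refine ⟨hr, fun z a b hz ⟨τ, y, h⟩ ⟨τ', y', h'⟩ => ?_⟩
  obtain ⟨c, z1, rfl⟩ : ∃ c z1, z = c :: z1 := by
    cases z with
    | nil => simp only [ruleA, List.length_nil] at hz; omega
    | cons a z => exact ⟨a, z, rfl⟩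
  simp only [List.cons_append, List.map_cons, List.map_append, List.map_nil, List.cons.injEq]
    at h h'
  have e1 := (List.append_inj' h.2 rfl).2
  have e2 := (List.append_inj' h'.2 rfl).2
  simp only [List.cons.injEq, and_true] at e1 e2
  rw [res_eq_some e1, res_eq_some e2, ← res_eq_some h.1, ← res_eq_some h'.1]

theorem ruleA_cnt {w u : List (List D)} {t : ℕ} (h : w <+: u ++ w) (hu : 1 ≤ u.length)
    (ht : ∀ τ ∈ w, τ.length ≤ t) : (ruleA u.length t : Rule D).cnt [] w = 0 := by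
  rw [Rule.cnt_nil_eq_zero]
  intro z hz hl
  obtain ⟨τ, z', rfl⟩ := window_per h hu hz hl
  have : res t τ = some τ := if_pos (ht τ (hz.subset (by simp)))
  exact ⟨τ, z'.map (res t), by simp [ruleA, this]⟩

theorem ruleB_cnt {w : List (List D)} {r t : ℕ} : (ruleB r t : Rule D).cnt [] w = 0 ↔
    ∀ z, z <:+: w → z.length = r + 1 → ¬ ∀ τ ∈ z, τ.length ≤ t := by
  rw [Rule.cnt_nil_eq_zero]
  refine forall_congr' fun z => forall_congr' fun _ => forall_congr' fun _ => ?_
  simp [ruleB, res]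

/-- A gap sequence is periodic or has long tokens at bounded distances. -/
theorem dichotomy {γ : Sq D} (h : Gp γ) : ∃ p, 0 < p ∧
    ((∃ q, ∀ a, q ≤ a → γ (a + p) = γ a) ∨
      ∀ t, ∃ m, ∀ a, m ≤ a → ∃ i < p, ∃ τ ∈ γ (a + i), ¬ τ.length ≤ t) := by
  obtain ⟨hT, B, hB⟩ := h
  obtain ⟨p1, q1, hp1, h1⟩ := cv_common
    (S := (fun j n => (γ n).getD j []) '' {j | j < B}) ((Set.finite_lt_nat B).image _)
    (by rintro _ ⟨j, -, rfl⟩; exact hT.getD j)
  obtain ⟨p2, q2, hp2, h2⟩ := (hT.ep_len B).period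
  refine ⟨p1 * p2, Nat.mul_pos hp1 hp2, ?_⟩
  by_cases hc : ∀ a, q1 ≤ a → ∀ j < B, (γ (a + p1 * p2)).getD j [] = (γ a).getD j []
  · refine Or.inl ⟨max q1 q2, fun a ha => ?_⟩
    have e := h2 a (le_of_max_le_right ha) p1
    rw [min_eq_right (hB _), min_eq_right (hB _), mul_comm] at e
    refine List.ext_getElem e fun j hj hj' => ?_
    have := hc a (le_of_max_le_left ha) j (hj'.trans_le (hB a))
    rwa [List.getD_eq_getElem _ _ hj, List.getD_eq_getElem _ _ hj'] at this
  · push Not at hc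
    obtain ⟨a0, ha0, j, hj, hne⟩ := hc
    rcases h1 _ ⟨j, hj, rfl⟩ a0 p2 ha0 hp2 with e | e
    · exact absurd (by simpa using e 1) hne
    refine Or.inr fun t => ⟨a0 + p1 * p2 * (t + 1), fun a ha => ?_⟩
    have hp := Nat.mul_pos hp1 hp2
    generalize p1 * p2 = p at *
    obtain ⟨n, hn, hn'⟩ : ∃ n, a ≤ a0 + p * n ∧ a0 + p * n < a + p := by
      refine ⟨(a - a0 + p - 1) / p, ?_, ?_⟩
      · have := Nat.div_add_mod (a - a0 + p - 1) p
        have := Nat.mod_lt (a - a0 + p - 1) hp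
        omega
      · have := Nat.div_add_mod (a - a0 + p - 1) p
        omega
    have h3 : t + 1 ≤ n := Nat.le_of_mul_le_mul_left (by omega) hp
    have h4 : n ≤ ((γ (a0 + p * n)).getD j []).length := e.le_apply (x := n)
    refine ⟨a0 + p * n - a, by omega, (γ (a0 + p * n)).getD j [], ?_, by omega⟩
    rw [show a + (a0 + p * n - a) = a0 + p * n by omega]
    by_cases hlt : j < (γ (a0 + p * n)).length
    · rw [List.getD_eq_getElem _ _ hlt]; exact List.getElem_mem _
    · rw [List.getD_eq_default _ _ (by omega)] at h4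
      simp only [List.length_nil] at h4
      omega

/-- A rule that does not cut late products of gaps. -/
theorem core {γ : Sq D} (h : Gp γ) (hne : ∃ᶠ n in atTop, γ n ≠ []) (t0 : ℕ → ℕ) :
    ∃ (ρ : Rule D) (m : ℕ), (∀ k, ρ.cnt [] (PL γ m k) = 0) ∧ (∀ k, ρ.cnt [] (PR γ m k) = 0) ∧
      (ρ.Det ∨ ∃ r, ρ = ruleB r (t0 r)) := by
  obtain ⟨p, hp, ⟨q, hq⟩ | hl⟩ := dichotomy h
  · obtain ⟨m, hm, hm'⟩ := frequently_atTop.mp hne q
    have hq' : ∀ a, m ≤ a → γ (a + p) = γ a := fun a ha => hq a (hm.trans ha)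
    have hfin := EP.finite_range (s := γ) ⟨p, q, hp, hq⟩
    have := hfin.to_subtype
    obtain ⟨t, ht⟩ := Finite.exists_le fun w : Set.range γ => (w.1.map List.length).sum
    have ht' : ∀ n, ∀ τ ∈ γ n, τ.length ≤ t := fun n τ hτ =>
      (List.single_le_sum (fun _ _ => Nat.zero_le _) _ (List.mem_map_of_mem hτ)).trans
        (ht ⟨γ n, n, rfl⟩)
    have hπ : 1 ≤ (PL γ m p).length := by
      obtain ⟨a, ha⟩ := List.exists_mem_of_ne_nil _ hm'
      exact List.length_pos_of_mem (mem_PL.mpr ⟨0, hp, ha⟩)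
    refine ⟨ruleA (PL γ m p).length t, m, fun k => ?_, fun k => ?_, Or.inl (ruleA_det hπ t)⟩
    · have e := (PL_per hq' k).symm.trans (PL_add γ m k p)
      have e' : (PL γ m p).length = (PL γ (m + k) p).length := by
        have := congrArg List.length e
        simp only [List.length_append] at this
        omega
      rw [e'] at hπ ⊢
      refine ruleA_cnt ⟨_, e⟩ hπ fun τ hτ => ?_
      obtain ⟨i, -, hi⟩ := mem_PL.mp hτ
      exact ht' _ _ hi
    · have e := (PL_per (γ := fun n => (γ n).reverse) (fun a ha => by rw [hq' a ha]) k).symm.trans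
        (PL_add (fun n => (γ n).reverse) m k p)
      have e1 := congrArg List.reverse e
      rw [List.reverse_append, List.reverse_append, ← PR_eq, ← PR_eq] at e1
      have e' : ∀ j, (PL γ m j).length = (PR γ m j).length := by
        intro j
        induction j with
        | zero => rfl
        | succ j ih => simp only [PL, PR, List.length_append]; omega
      rw [e'] at hπ ⊢
      refine ruleA_cnt ⟨_, e1.symm⟩ hπ fun τ hτ => ?_
      rw [PR_eq, List.mem_reverse] at hτ
      obtain ⟨i, -, hi⟩ := mem_PL.mp hτ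
      exact ht' _ _ (List.mem_reverse.mp hi)
  · obtain ⟨-, B, hB⟩ := h
    obtain ⟨m, hm⟩ := hl (t0 ((p + 1) * B))
    refine ⟨ruleB ((p + 1) * B) (t0 ((p + 1) * B)), m, fun k => ?_, fun k => ?_, Or.inr ⟨_, rfl⟩⟩
    · refine ruleB_cnt.mpr fun z hz hl hQ => ?_
      have := PL_short hB hm k hz hQ
      omega
    · refine ruleB_cnt.mpr fun z hz hl hQ => ?_
      rw [PR_eq, ← List.reverse_infix, List.reverse_reverse] at hz
      have := PL_short (γ := fun n => (γ n).reverse) (Q := fun τ => τ.length ≤ t0 ((p + 1) * B))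
        (B := B) (p := p) (m := m) (fun n => by simpa using hB n)
        (fun a ha => by simpa using hm a ha) k hz (by simpa using hQ)
      rw [List.length_reverse] at this
      omega

end Push

open Push

variable {N Y D : Type} [Finite N] {sk : N → List N}

theorem Push.exists_res (hs : Sk sk) (A : ATS sk Y D) (hg : A.Grow) (r : ℕ) :
    ∃ t, ∀ a ∈ A.act, 2 ≤ (A.ch a).count a → a ∈ A.wild (ruleB r t) := by
  have h1 : ∀ a, ∃ n, a ∈ A.act → r + 1 ≤ (A.T a n).length := by
    intro a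
    by_cases ha : a ∈ A.act
    · obtain ⟨n, hn⟩ := ((A.len_tendsto hs ha (hg a ha)).1.eventually_ge_atTop (r + 1)).exists
      exact ⟨n, fun _ => hn⟩
    · exact ⟨0, fun h => absurd h ha⟩
  choose n hn using h1
  obtain ⟨t, ht⟩ := Finite.exists_le fun a => ((A.T a (n a)).map List.length).sum
  refine ⟨t, fun a ha h2 => A.wild_of_two _ ha h2 (n := n a) ?_⟩
  rw [Nat.one_le_iff_ne_zero]
  intro h0
  refine ruleB_cnt.mp h0 _ (List.take_prefix (r + 1) _).isInfix
    (by rw [List.length_take]; exact min_eq_left (hn a ha)) fun τ hτ => ?_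
  exact (List.single_le_sum (fun _ _ => Nat.zero_le _) _
    (List.mem_map_of_mem (List.mem_of_mem_take hτ))).trans (ht a)

theorem Push.core' (hs : Sk sk) (A : ATS sk Y D) (hg : A.Grow) {γ : Sq D} (h : Gp γ)
    (hne : ∃ᶠ n in atTop, γ n ≠ []) :
    ∃ (ρ : Rule D) (m : ℕ), (∀ k, ρ.cnt [] (PL γ m k) = 0) ∧ (∀ k, ρ.cnt [] (PR γ m k) = 0) ∧
      (ρ.Det ∨ ∀ a ∈ A.act, 2 ≤ (A.ch a).count a → a ∈ A.wild ρ) := by
  choose t0 ht0 using Push.exists_res hs A hg
  obtain ⟨ρ, m, h1, h2, h3 | ⟨r, rfl⟩⟩ := core h hne t0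
  · exact ⟨ρ, m, h1, h2, Or.inl h3⟩
  · exact ⟨_, m, h1, h2, Or.inr (ht0 r)⟩

theorem ATS.killL (hs : Sk sk) (A : ATS sk Y D) (hg : A.Grow) {x : N} (hx : x ∈ A.pushL) :
    ∃ ρ : Rule D, A.KillL ρ x ∧
      (ρ.Det ∨ ∀ a ∈ A.act, 2 ≤ (A.ch a).count a → a ∈ A.wild ρ) := by
  obtain ⟨hx, hh, hne⟩ := hx
  obtain ⟨ρ, m, h1, -, h3⟩ := Push.core' hs A hg (A.ok x hx).1 hne
  refine ⟨ρ, ?_, h3⟩
  have step : ∀ n, (A.H x).g0 n ++ A.T x n <+: A.T x (n + 1) := by
    intro n
    rw [A.step x hx, Rl.ev]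
    unfold ATS.ch at hh
    cases hl : (A.H x).l with
    | nil => simp [hl] at hh
    | cons e l =>
      simp only [hl, List.map_cons, List.head?_cons, Option.some.injEq] at hh
      rw [List.prefix_append_right_inj, List.flatMap_cons, hh, List.append_assoc]
      exact List.prefix_append _ _
  have pre : ∀ k, PL (A.H x).g0 m k <+: A.T x (m + k) := by
    intro k
    induction k with
    | zero => exact List.nil_prefix
    | succ k ih => exact ((List.prefix_append_right_inj _).mpr ih).trans (step _)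
  obtain ⟨k0, hk0⟩ := PL_long hne m ρ.r
  refine eventually_atTop.mpr ⟨m + k0, fun n hn => ?_⟩
  obtain ⟨k, rfl⟩ : ∃ k, n = m + k := ⟨n - m, by omega⟩
  rcases List.prefix_or_prefix_of_prefix (ρ.hd_isPrefix _) (pre k) with h | ⟨v, hv⟩
  · exact Nat.eq_zero_of_le_zero ((ρ.cnt_sub
      ((List.prefix_append_right_inj _).mpr h).isInfix).trans (h1 (k + 1)).le)
  · have h0 := ρ.cnt_nil_hd (A.T x (m + k))
    rw [← hv, ρ.cnt_append, List.nil_append] at h0
    have h4 := h1 (k + 1)
    rw [PL] at h4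
    rw [← hv, ← List.append_assoc, ρ.cnt_append, h4, List.nil_append, Rule.cnt,
      ρ.sp_congr (ρ.st_long (hk0 k (by omega)) _), ← Rule.cnt]
    omega

theorem ATS.killR (hs : Sk sk) (A : ATS sk Y D) (hg : A.Grow) {x : N} (hx : x ∈ A.pushR) :
    ∃ ρ : Rule D, A.KillR ρ x ∧
      (ρ.Det ∨ ∀ a ∈ A.act, 2 ≤ (A.ch a).count a → a ∈ A.wild ρ) := by
  obtain ⟨hx, γ, hh, hne⟩ := hx
  obtain ⟨l, hl⟩ := List.getLast?_eq_some_iff.mp hh
  obtain ⟨ρ, m, -, h2, h3⟩ := Push.core' hs A hg
    ((A.ok x hx).2 (x, γ) (by rw [hl]; simp)).2 hne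
  refine ⟨ρ, fun γ' hγ' => ?_, h3⟩
  obtain rfl : γ = γ' := by
    rw [hh] at hγ'
    exact (Prod.mk.inj (Option.some.inj hγ')).2
  have step : ∀ n, A.T x n ++ γ n <:+ A.T x (n + 1) := by
    intro n
    rw [A.step x hx, Rl.ev, hl, List.flatMap_append, List.flatMap_singleton, ← List.append_assoc]
    exact List.suffix_append _ _
  have suf : ∀ k, PR γ m k <:+ A.T x (m + k) := by
    intro k
    induction k with
    | zero => exact List.nil_suffix
    | succ k ih =>
      obtain ⟨v, hv⟩ := ih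
      refine List.IsSuffix.trans ⟨v, ?_⟩ (step (m + k))
      rw [PR, ← List.append_assoc, hv]
  obtain ⟨k0, hk0⟩ := PL_long (γ := fun n => (γ n).reverse) (by simpa using hne) m ρ.r
  refine eventually_atTop.mpr ⟨m + k0, fun n hn => ?_⟩
  obtain ⟨k, rfl⟩ : ∃ k, n = m + k := ⟨n - m, by omega⟩
  obtain ⟨v, hv⟩ := suf k
  have h4 := h2 (k + 1)
  rw [PR, ρ.cnt_append, List.nil_append] at h4
  have h5 : ρ.r ≤ (PR γ m k).length := by
    rw [PR_eq, List.length_reverse]
    exact hk0 k (by omega)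
  rw [← hv, Rule.cnt, ρ.sp_congr (ρ.st_long h5 _)]
  exact Nat.eq_zero_of_add_eq_zero_left h4

end Pool.Agent.P.MP_406085_lc
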