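import Pool.Agent.P.MP_406085_lc.Ext
import Pool.Agent.P.MP_406085_lc.Jet1

/-!
Induction along the classes of the skeleton.
-/

namespace Pool.Agent.P.MP_406085_lc

open Filter PowerSeries
open scoped Classical

variable {N Y D : Type} [Finite N] {sk : N → List N}

omit [Finite N] in
theorem scc_flat {κ : Coc D} {F : List D → ℂ} (hF : Test F) (T : N → Sq D)
    (l : List (N × Sq D)) (h : ∀ e ∈ l, JJ κ F (T e.1) ∧ Gp e.2) :
    JJ κ F fun n => l.flatMap fun e => T e.1 n ++ e.2 n := by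
  induction l with
  | nil => exact Gp.jj κ hF ⟨ht_const [], 0, fun _ => le_rfl⟩
  | cons e l ih =>
    have h1 := h e List.mem_cons_self
    simpa only [List.flatMap_cons] using
      (h1.1.append hF (h1.2.jj κ hF)).append hF (ih fun e' he => h e' (List.mem_cons_of_mem _ he))

theorem ATS.scc (hs : Sk sk) (A : ATS sk Y D) {κ : Coc D} {F : List D → ℂ} (hF : Test F)
    (S : Set N) (hS : S ⊆ A.act) (hd : ∀ x ∈ S, ∀ y ∈ A.ch x, y ∈ S)
    (hb : ∀ a ∈ S, 2 ≤ (A.ch a).count a → (∀ y ∈ A.ch a, a ∉ A.ch y → JJ κ F (A.T y)) →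
      JJ κ F (A.T a)) : ∀ x ∈ S, JJ κ F (A.T x) := by
  intro x
  induction hm : 2 * {y | y ∈ A.ch x}.ncard + (if x ∈ A.ch x then 0 else 1)
    using Nat.strong_induction_on generalizing x with
  | _ m ih =>
  intro hx
  have hxa := hS hx
  have low : ∀ y ∈ A.ch x, x ∉ A.ch y → JJ κ F (A.T y) := by
    intro y hy hxy
    refine ih _ ?_ y rfl (hd x hx y hy)
    have hsub : {z | z ∈ A.ch y} ⊆ {z | z ∈ A.ch x} := fun z hz => A.ch_trans hs hxa hy hz
    have h1 := Set.ncard_le_ncard hsub (Set.toFinite _)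
    have h2 : ∀ z ∈ A.ch x, z ∉ A.ch y → {z | z ∈ A.ch y}.ncard < {z | z ∈ A.ch x}.ncard :=
      fun z hz hz' => Set.ncard_lt_ncard ⟨hsub, fun h => hz' (h hz)⟩ (Set.toFinite _)
    rw [← hm]
    by_cases hxx : x ∈ A.ch x
    · have := h2 x hxx hxy
      split_ifs <;> omega
    · rw [if_neg hxx]
      by_cases hyy : y ∈ A.ch y
      · rw [if_pos hyy]
        omega
      · have := h2 y hy hyy
        rw [if_neg hyy]
        omega
  have hok := A.ok x hxa
  by_cases hxx : x ∈ A.ch x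
  swap
  · rw [← jj_shift 1]
    simp only [A.step x hxa, Rl.ev]
    refine (hok.1.jj κ hF).append hF (scc_flat hF A.T _ fun e he => ⟨?_, (hok.2 e he).2⟩)
    have hy : e.1 ∈ A.ch x := List.mem_map_of_mem he
    exact low _ hy fun h => hxx (A.ch_trans hs hxa hy h)
  by_cases h2 : 2 ≤ (A.ch x).count x
  · exact hb x hx h2 low
  obtain ⟨e, he, rfl⟩ := List.mem_map.mp hxx
  obtain ⟨l1, l2, hl⟩ := List.append_of_mem he
  have hoth : ∀ e' ∈ l1 ++ l2, JJ κ F (A.T e'.1) ∧ Gp e'.2 := by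
    intro e' he'
    have hm' : e' ∈ (A.H e.1).l := by
      rw [hl]
      rcases List.mem_append.mp he' with h | h <;> simp [h]
    have hy : e'.1 ∈ A.ch e.1 := List.mem_map_of_mem hm'
    refine ⟨low _ hy fun h => h2 ?_, (hok.2 e' hm').2⟩
    by_cases hne : e'.1 = e.1
    · have h3 : 0 < ((l1 ++ l2).map Prod.fst).count e.1 :=
        List.count_pos_iff.mpr (hne ▸ List.mem_map_of_mem he')
      rw [ATS.ch, hl]
      simp only [List.map_append, List.map_cons, List.count_append, List.count_cons_self] at h3 ⊢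
      omega
    · exact A.ch_two hs hxa hy h hne
  refine jj_ptr hF (I := Unit) (fun _ _ => some ()) (ep_const _)
    (fun _ n => (A.H e.1).g0 n ++ l1.flatMap fun e => A.T e.1 n ++ e.2 n)
    (fun _ n => e.2 n ++ l2.flatMap fun e => A.T e.1 n ++ e.2 n) (fun _ => A.T e.1)
    (fun _ => (hok.1.jj κ hF).append hF
      (scc_flat hF A.T _ fun e' h => hoth e' (List.mem_append_left _ h)))
    (fun _ => ((hok.2 e he).2.jj κ hF).append hF
      (scc_flat hF A.T _ fun e' h => hoth e' (List.mem_append_right _ h)))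
    (fun _ => A.hT _ hxa) (Eventually.of_forall fun n _ => ?_) ()
  rw [A.step _ hxa, Rl.ev, hl]
  simp

end Pool.Agent.P.MP_406085_lc
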