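import Pool.Agent.P.MP_406085_lc.DescE
import Pool.Agent.P.MP_406085_lc.Br
import Pool.Agent.P.MP_406085_lc.Split

/-!
The cutting rule of a proper system.
-/

namespace Pool.Agent.P.MP_406085_lc

open Filter PowerSeries
open scoped Classical

namespace StA

theorem window {α : Type} {z W : List α} (h : z <:+: W) {m : ℕ} (h1 : z.length ≤ m)
    (h2 : m ≤ W.length) : ∃ w, z <:+: w ∧ w <:+: W ∧ w.length = m := by
  induction m, h1 using Nat.le_induction with
  | base => exact ⟨z, List.infix_rfl, h, rfl⟩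
  | succ m _ ih =>
    obtain ⟨w, k1, ⟨s, t, rfl⟩, k3⟩ := ih (by omega)
    cases t with
    | cons a t =>
      exact ⟨w ++ [a], k1.trans (List.prefix_append _ _).isInfix, ⟨s, t, by simp⟩, by simp [k3]⟩
    | nil =>
      rcases List.eq_nil_or_concat s with rfl | ⟨s', a, rfl⟩
      · simp at h2
        omega
      · exact ⟨a :: w, k1.trans (List.suffix_cons _ _).isInfix, ⟨s', [], by simp⟩, by simp [k3]⟩

theorem exists_bound {N : Type} [Finite N] (g : N → ℕ) : ∃ B, ∀ x, g x ≤ B :=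
  let ⟨B, hB⟩ := (Set.finite_range g).bddAbove
  ⟨B, fun x => hB ⟨x, rfl⟩⟩

theorem mem_le_sum {D : Type} {w : List (List D)} {τ : List D} (h : τ ∈ w) :
    τ.length ≤ (w.map List.length).sum :=
  List.single_le_sum (fun _ _ => Nat.zero_le _) _ (List.mem_map_of_mem h)

variable {N D : Type} (P : PS N D)

theorem cnt_good (r t : ℕ) (b : N) (n : ℕ) :
    (⟨r, t, P.LL b t⟩ : Rule D).cnt [] (P.T b n) = 0 :=
  (Rule.cnt_nil_eq_zero _).2 fun _ hz _ => P.map_mem_ll ⟨n, hz⟩ t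

theorem cnt_flat (ρ : Rule D) (a : N) (n : ℕ) (l : List (List (ℕ → List D) × N)) :
    ∀ u, (l.map Prod.snd).count a * ρ.cnt [] (P.T a n) ≤
      ρ.cnt u (l.flatMap fun e => e.1.map (· n) ++ P.T e.2 n) := by
  induction l with
  | nil => simp
  | cons e l ih =>
    intro u
    rw [List.flatMap_cons, ρ.cnt_append, ρ.cnt_append, List.map_cons, List.count_cons]
    have h1 := ih (u ++ (e.1.map (· n) ++ P.T e.2 n))
    have h2 := ρ.cnt_le_ctx (u ++ e.1.map (· n)) [] (P.T e.2 n)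
    rw [List.append_nil] at h2
    by_cases e' : e.2 = a
    · subst e'
      simp only [beq_self_eq_true, if_true, add_mul, one_mul]
      omega
    · simp only [beq_iff_eq, e', if_false, add_zero]
      omega

theorem cnt_double (ρ : Rule D) {a : N} (ha : 2 ≤ (P.ch a).count a) (n : ℕ) :
    2 * ρ.cnt [] (P.T a n) ≤ ρ.cnt [] (P.T a (n + 1)) := by
  refine (Nat.mul_le_mul_right _ ha).trans ?_
  rw [P.step, ρ.cnt_append, PS.ch, List.count_cons]
  have h1 := cnt_flat P ρ a n (P.rest a) ([] ++ P.T (P.f a) n)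
  by_cases e' : P.f a = a
  · rw [e'] at h1 ⊢
    simp only [beq_self_eq_true, if_true, add_mul, one_mul]
    omega
  · simp only [beq_iff_eq, e', if_false, add_zero]
    omega

theorem not_bdd (ρ : Rule D) {a : N} (ha : 2 ≤ (P.ch a).count a) {n : ℕ}
    (h : ρ.cnt [] (P.T a n) ≠ 0) : ¬ Bdd fun n => ρ.cnt [] (P.T a n) := by
  rintro ⟨B, hB⟩
  have key : ∀ k, k + 1 ≤ ρ.cnt [] (P.T a (n + k)) := by
    intro k
    induction k with
    | zero => exact Nat.pos_of_ne_zero h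
    | succ k ih =>
      have := cnt_double P ρ ha (n + k)
      rw [← add_assoc]
      omega
  have h1 := key B
  have h2 := hB (n + B)
  simp only at h2
  omega

theorem short [Finite N] {b : N}
    (h : ∀ y ∈ P.ch b, ∀ e ∈ P.rest y, ∀ γ ∈ e.1, lim γ ≠ none) :
    ∃ t, ∀ n, ∀ y ∈ P.ch b, ∀ τ ∈ P.T y n, τ.length ≤ t := by
  obtain ⟨t, ht⟩ := exists_bound fun y : N =>
    ((P.T y 0).map List.length).sum + ((P.T y 1).map List.length).sum
  refine ⟨t, fun n => ?_⟩
  induction n with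
  | zero =>
    intro y _ τ hτ
    exact (mem_le_sum hτ).trans ((Nat.le_add_right _ _).trans (ht y))
  | succ n ih =>
    intro y hy τ hτ
    rw [P.step, List.mem_append, List.mem_flatMap] at hτ
    rcases hτ with hτ | ⟨e, he, hτ⟩
    · exact ih _ (P.ch_trans hy (P.f_mem y)) τ hτ
    rcases List.mem_append.1 hτ with hτ | hτ
    · obtain ⟨γ, hγ, rfl⟩ := List.mem_map.1 hτ
      have hc : γ n = γ 0 := by
        by_contra hc
        exact h y hy e he γ hγ (if_neg fun k => hc (k n))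
      have hm : γ 0 ∈ P.T y 1 := by
        rw [P.step, List.mem_append, List.mem_flatMap]
        exact .inr ⟨e, he, List.mem_append_left _ (List.mem_map.2 ⟨γ, hγ, rfl⟩)⟩
      rw [hc]
      exact (mem_le_sum hm).trans ((Nat.le_add_left _ _).trans (ht y))
    · exact ih _ (P.ch_trans hy (List.mem_cons_of_mem _ (List.mem_map_of_mem he))) τ hτ

theorem det {b : N} {t L : ℕ} (ht : ∀ n, ∀ τ ∈ P.T b n, τ.length ≤ t)
    (hL : ∀ z α β, z.length = L → α ≠ β → z ++ [α] ∈ P.Lx b → z ++ [β] ∉ P.Lx b) :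
    (⟨L + 1, t, P.LL b t⟩ : Rule D).Det := by
  have key : ∀ (c : List D) (z : List (List D)), (c :: z).map (res t) ∈ P.LL b t → z ∈ P.Lx b := by
    intro c z hz
    have h1 : c :: z ∈ P.Lx b := by
      refine P.mem_lx_of_map hz fun τ hτ => ?_
      obtain ⟨n, hn⟩ := hz
      obtain ⟨τ', h1, h2⟩ := List.mem_map.1 (hn.subset (List.mem_map_of_mem hτ))
      by_contra hc
      rw [res, res, if_pos (ht n τ' h1), if_neg hc] at h2
      cases h2
    obtain ⟨n, hn⟩ := h1
    exact ⟨n, (List.suffix_cons _ _).isInfix.trans hn⟩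
  refine ⟨Nat.le_add_left _ _, fun z α β hz h1 h2 => ?_⟩
  cases z with
  | nil => simp at hz
  | cons c z =>
    by_contra hne
    exact hL z α β (by simpa using hz) hne (key c _ h1) (key c _ h2)

end StA

variable {N D : Type} [Finite N] [Nonempty N] [Finite D] (P : PS N D)

theorem PS.stage : ∃ (ρ : Rule D) (b : N), b ∈ P.ch b ∧ (∀ n, ρ.cnt [] (P.T b n) = 0) ∧
    (ρ.Det ∨ ∃ κ : Coc D, ∀ F, Test F → ∀ a, 2 ≤ (P.ch a).count a →
      (Bdd fun n => ρ.cnt [] (P.T a n)) →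
      (∀ y ∈ P.ch a, a ∉ P.ch y → JJ κ F (P.T y)) → JJ κ F (P.T a)) := by
  obtain ⟨b, hb⟩ := P.exists_bot
  by_cases hap : P.Ap b
  · obtain ⟨d⟩ := P.desc hb hap
    obtain ⟨κ, hκ⟩ := P.br d
    have hz : ∀ a : N, ∃ z, ¬ P.Lx a ⊆ P.Lx b → z ∈ P.Lx a ∧ z ∉ P.Lx b := by
      intro a
      by_cases e : P.Lx a ⊆ P.Lx b
      · exact ⟨[], fun k => absurd e k⟩
      · obtain ⟨z, h1, h2⟩ := Set.not_subset.1 e
        exact ⟨z, fun _ => ⟨h1, h2⟩⟩
    choose z hz using hz
    obtain ⟨r, hr⟩ := StA.exists_bound fun a => (z a).length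
    obtain ⟨t, ht⟩ := StA.exists_bound fun a => ((z a).map List.length).sum
    refine ⟨⟨r, t, P.LL b t⟩, b, hb.1, StA.cnt_good P r t b, .inr ⟨κ, fun F hF a ha hB => ?_⟩⟩
    refine hκ F hF a ⟨ha, ?_⟩
    by_contra e
    obtain ⟨⟨n, hn⟩, h2⟩ := hz a e
    have haa : a ∈ P.ch a := List.count_pos_iff.1 (by omega)
    obtain ⟨w, k1, k2, k3⟩ := StA.window (hn.trans (P.sub_mono haa (Nat.le_add_right n r)))
      ((hr a).trans (Nat.le_succ r))
      (le_trans (Nat.succ_le_succ (Nat.le_add_left r n)) (P.lt_len a (n + r)))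
    refine StA.not_bdd P _ ha (n := n + r) (fun k => h2 ?_) hB
    exact P.mem_lx_of_map (P.ll_fac ((Rule.cnt_nil_eq_zero _).1 k w k2 k3) (k1.map _))
      fun τ hτ => (StA.mem_le_sum hτ).trans (ht a)
  · rw [PS.Ap] at hap
    push Not at hap
    obtain ⟨h1, L, hL⟩ := hap
    obtain ⟨t, ht⟩ := StA.short P h1
    exact ⟨⟨L + 1, t, P.LL b t⟩, b, hb.1, StA.cnt_good P _ t b,
      .inl (StA.det P (fun n => ht n b hb.1) hL)⟩

end Pool.Agent.P.MP_406085_lc
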