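import Pool.Agent.P.MP_406085_lc.Fin

/-!
Lists of tokens as words.
-/

namespace Pool.Agent.P.MP_406085_lc

open Filter PowerSeries
open scoped Classical

variable {D K : Type} {z z' : Sq D}

@[simp] theorem enc_nil : enc ([] : List (List D)) = [] := rfl

@[simp] theorem enc_cons (τ : List D) (w : List (List D)) :
    enc (τ :: w) = none :: (τ.map some ++ enc w) := by
  simp [enc]

@[simp] theorem enc_append (w w' : List (List D)) : enc (w ++ w') = enc w ++ enc w' := by
  simp [enc]

namespace Tok1

/-- One step of the decoder. -/
def step (w : List (List D)) : Option D → List (List D)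
  | none => w ++ [[]]
  | some d => w.dropLast ++ [w.getLastD [] ++ [d]]

/-- The decoder. -/
def dec (x : List (Option D)) : List (List D) := x.foldl step []

theorem foldl_map_some (w : List (List D)) (a τ : List D) :
    (τ.map some).foldl step (w ++ [a]) = w ++ [a ++ τ] := by
  induction τ generalizing a with
  | nil => simp
  | cons d τ ih =>
    have : step (w ++ [a]) (some d) = w ++ [a ++ [d]] := by simp [step]
    rw [List.map_cons, List.foldl_cons, this, ih]
    simp

theorem foldl_enc (u w : List (List D)) : (enc w).foldl step u = u ++ w := by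
  induction w generalizing u with
  | nil => simp
  | cons τ w ih =>
    have : step u none = u ++ [[]] := rfl
    rw [enc_cons, List.foldl_cons, List.foldl_append, this, foldl_map_some, ih]
    simp

theorem dec_enc (w : List (List D)) : dec (enc w) = w := by
  simp [dec, foldl_enc]

theorem dec_snoc (x : List (Option D)) (a : Option D) : dec (x ++ [a]) = step (dec x) a := by
  simp [dec]

theorem countP_map_some (τ : List D) : (τ.map some).countP Option.isNone = 0 := by
  simp [List.countP_eq_zero]

theorem rec_cnt (B : ℕ) : Rec fun x : List (Option D) => min B (x.countP Option.isNone) := by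
  refine rec_left _ ((Set.finite_le_nat B).subset ?_) fun u v a h => ?_
  · rintro _ ⟨x, rfl⟩
    exact Nat.min_le_left _ _
  · simp only [List.countP_append] at h ⊢
    omega

theorem rec_zero : Rec fun x : List (Option D) => decide (x.countP Option.isNone = 0) := by
  have := (rec_cnt (D := D) 1).comp fun k => decide (k = 0)
  refine (congrArg Rec (funext fun x => ?_)).mp this
  simp

theorem bim_append {E E' : Type} (o : List E → E → List E → List E') (x u w y : List E) :
    bim o x (u ++ w) y = bim o x u (w ++ y) ++ bim o (x ++ u) w y := by
  induction u generalizing x with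
  | nil => simp [bim]
  | cons a u ih => simp [bim, ih]

/-- Output at the level of tokens: it depends on being the first and on being the last token. -/
def tb {E' : Type} (s : Bool → Bool → List E') (l : Bool → Bool → D → List E') :
    Bool → List (List D) → List E'
  | _, [] => []
  | b, τ :: w => s b w.isEmpty ++ τ.flatMap (l b w.isEmpty) ++ tb s l false w

/-- The output function of the machine. -/
def out {E' : Type} (s : Bool → Bool → List E') (l : Bool → Bool → D → List E') :
    ℕ → Option D → Bool → List E'
  | k, none, e => s (decide (k = 0)) e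
  | k, some d, e => l (decide (k ≤ 1)) e d

/-- The machine. -/
def mach {E' : Type} (s : Bool → Bool → List E') (l : Bool → Bool → D → List E') :
    List (Option D) → Option D → List (Option D) → List E' := fun x a y =>
  out s l (min 2 (x.countP Option.isNone)) a (decide (y.countP Option.isNone = 0))

theorem bim_some {E' : Type} (s : Bool → Bool → List E') (l : Bool → Bool → D → List E')
    (x y : List (Option D)) (τ : List D) :
    bim (mach s l) x (τ.map some) y = τ.flatMap
      (l (decide (x.countP Option.isNone ≤ 1)) (decide (y.countP Option.isNone = 0))) := by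
  induction τ generalizing x with
  | nil => simp [bim]
  | cons d τ ih =>
    rw [List.map_cons, bim, ih, List.flatMap_cons]
    simp only [mach, out, List.countP_append, countP_map_some, zero_add]
    have h1 : List.countP Option.isNone [some d] = 0 := by simp
    have h2 : (min 2 (x.countP Option.isNone) ≤ 1) ↔ x.countP Option.isNone ≤ 1 := by omega
    simp only [h1, h2, add_zero]

end Tok1

open Tok1

theorem enc_injective : Function.Injective (enc : List (List D) → List (Option D)) :=
  Function.LeftInverse.injective dec_enc

theorem countP_enc (w : List (List D)) : (enc w).countP Option.isNone = w.length := by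
  induction w with
  | nil => simp
  | cons τ w ih =>
    rw [enc_cons, List.countP_cons, List.countP_append, countP_map_some, ih]
    simp

namespace Tok1

theorem bim_enc {E' : Type} (s : Bool → Bool → List E') (l : Bool → Bool → D → List E')
    (x : List (Option D)) (w : List (List D)) :
    bim (mach s l) x (enc w) [] = tb s l (decide (x.countP Option.isNone = 0)) w := by
  induction w generalizing x with
  | nil => simp [bim, tb]
  | cons τ w ih =>
    rw [enc_cons, bim, bim_append, bim_some, ih, tb]
    have h1 : List.countP (Option.isNone (α := D)) [none] = 1 := by simp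
    have h2 : (min 2 (x.countP Option.isNone) = 0) ↔ x.countP Option.isNone = 0 := by omega
    have h3 : (x.countP Option.isNone + 1 ≤ 1) ↔ x.countP Option.isNone = 0 := by omega
    have h4 : decide (w.length = 0) = w.isEmpty := by cases w <;> simp
    simp only [mach, out, List.countP_append, countP_map_some, zero_add, List.append_nil,
      countP_enc, h1, h2, h3, h4, add_zero, Nat.succ_ne_zero, decide_false, List.append_assoc]

theorem gm_tb {E' : Type} (s : Bool → Bool → List E') (l : Bool → Bool → D → List E') :
    ∃ φ : List (Option D) → List E', GM φ ∧ ∀ w, φ (enc w) = tb s l true w :=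
  ⟨fun w => bim (mach s l) [] w [], gm_bim' (rec_cnt 2) rec_zero (out s l), fun w => by
    simpa using bim_enc s l [] w⟩

theorem flatMap_some (τ : List D) : (τ.flatMap fun d => [some d]) = τ.map some := by
  induction τ <;> simp_all

theorem gm_first : ∃ φ : List (Option D) → List D, GM φ ∧ ∀ w, φ (enc w) = w.getD 0 [] := by
  obtain ⟨φ, hφ, h⟩ := gm_tb (D := D) (fun _ _ => []) fun b _ d => if b then [d] else []
  refine ⟨φ, hφ, fun w => ?_⟩
  have h0 : ∀ w : List (List D),
      tb (fun _ _ => []) (fun b _ d => if b then [d] else []) false w = ([] : List D) := by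
    intro w
    induction w with
    | nil => rfl
    | cons τ w ih => simp [tb, ih]
  rw [h]
  cases w with
  | nil => rfl
  | cons τ w => simp [tb, h0]

theorem gm_last : ∃ φ : List (Option D) → List D, GM φ ∧ ∀ w, φ (enc w) = w.getLastD [] := by
  obtain ⟨φ, hφ, h⟩ := gm_tb (D := D) (fun _ _ => []) fun _ e d => if e then [d] else []
  refine ⟨φ, hφ, fun w => ?_⟩
  have h0 : ∀ (w : List (List D)) (b : Bool),
      tb (fun _ _ => []) (fun _ e d => if e then [d] else []) b w = w.getLastD [] := by
    intro w
    induction w with
    | nil => intro b; rfl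
    | cons τ w ih =>
      intro b
      rw [tb, ih]
      cases w <;> simp
  rw [h, h0]

theorem gm_dropLast : ∃ φ : List (Option D) → List (Option D), GM φ ∧
    ∀ w, φ (enc w) = enc w.dropLast := by
  obtain ⟨φ, hφ, h⟩ := gm_tb (D := D) (fun _ e => if e then [] else [none])
    fun _ e d => if e then [] else [some d]
  refine ⟨φ, hφ, fun w => ?_⟩
  have h0 : ∀ (w : List (List D)) (b : Bool), tb (fun _ e => if e then [] else [none])
      (fun _ e d => if e then [] else [some d]) b w = enc w.dropLast := by
    intro w
    induction w with
    | nil => intro b; rfl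
    | cons τ w ih =>
      intro b
      rw [tb, ih]
      cases w <;> simp [flatMap_some]
  rw [h, h0]

theorem gm_take_one : ∃ φ : List (Option D) → List (Option D), GM φ ∧
    ∀ w, φ (enc w) = enc (w.take 1) := by
  obtain ⟨φ, hφ, h⟩ := gm_tb (D := D) (fun b _ => if b then [none] else [])
    fun b _ d => if b then [some d] else []
  refine ⟨φ, hφ, fun w => ?_⟩
  have h0 : ∀ w : List (List D), tb (fun b _ => if b then [none] else [])
      (fun b _ d => if b then [some d] else []) false w = ([] : List (Option D)) := by
    intro w
    induction w with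
    | nil => rfl
    | cons τ w ih => simp [tb, ih]
  rw [h]
  cases w with
  | nil => rfl
  | cons τ w => simp [tb, h0, flatMap_some]

theorem push {E' : Type} {φ : List (Option D) → List E'} (hφ : GM φ) (h : HT z)
    {y : ℕ → List E'} (e : ∀ n, φ (enc (z n)) = y n) : HH y :=
  (hφ.2 _ h).congr (Eventually.of_forall e)

theorem res_snoc {t : ℕ} {u v : List D} (a : D) (h : res t u = res t v) :
    res t (u ++ [a]) = res t (v ++ [a]) := by
  unfold res at h ⊢
  simp only [List.length_append, List.length_singleton]
  by_cases hu : u.length ≤ t <;> by_cases hv : v.length ≤ t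
  · rw [if_pos hu, if_pos hv] at h
    rw [Option.some.inj h]
  · rw [if_pos hu, if_neg hv] at h
    cases h
  · rw [if_neg hu, if_pos hv] at h
    cases h
  · rw [if_neg (by omega), if_neg (by omega)]

end Tok1

theorem test_len : Test fun w : List (Option D) => ((w.countP Option.isNone : ℕ) : ℂ) :=
  test_additive fun u v => by rw [List.countP_append, Nat.cast_add]

theorem ht_const (w : List (List D)) : HT fun _ => w := hh_const (enc w)

theorem HT.append (h : HT z) (h' : HT z') : HT fun n => z n ++ z' n :=
  (HH.append h h').congr (Eventually.of_forall fun _ => (enc_append _ _).symm)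

theorem HT.congr (h : HT z) (e : ∀ᶠ n in atTop, z n = z' n) : HT z' :=
  HH.congr h (e.mono fun _ hn => congrArg enc hn)

theorem ht_shift (k : ℕ) : (HT fun n => z (n + k)) ↔ HT z :=
  hh_shift (W := fun n => enc (z n)) k

theorem HT.sub (h : HT z) (a k : ℕ) : HT fun n => z (a + k * n) := HH.sub h a k

theorem ht_interleave {p q : ℕ} (hp : 0 < p) (h : ∀ a < p, HT fun n => z (q + a + p * n)) :
    HT z := hh_interleave (W := fun n => enc (z n)) hp h

theorem HT.select {ψ : ℕ → K} (hψ : EP ψ) {y : K → Sq D} (h : ∀ i, HT (y i)) :
    HT fun n => y (ψ n) n := HH.select hψ (U := fun i n => enc (y i n)) h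

theorem gm_tail : ∃ φ : List (Option D) → List (Option D), GM φ ∧
    ∀ w, φ (enc w) = enc w.tail := by
  obtain ⟨φ, hφ, h⟩ := gm_tb (D := D) (fun b _ => if b then [] else [none])
    fun b _ d => if b then [] else [some d]
  refine ⟨φ, hφ, fun w => ?_⟩
  have h0 : ∀ w : List (List D), tb (fun b _ => if b then [] else [none])
      (fun b _ d => if b then [] else [some d]) false w = enc w := by
    intro w
    induction w with
    | nil => rfl
    | cons τ w ih => simp [tb, ih, flatMap_some]
  rw [h]
  cases w with
  | nil => rfl
  | cons τ w => simp [tb, h0]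

theorem gm_getD (i : ℕ) : ∃ φ : List (Option D) → List D, GM φ ∧
    ∀ w, φ (enc w) = w.getD i [] := by
  induction i with
  | zero => exact gm_first
  | succ i ih =>
    obtain ⟨φ, hφ, h⟩ := ih
    obtain ⟨ψ, hψ, h'⟩ := gm_tail (D := D)
    refine ⟨fun w => φ (ψ w), hφ.comp hψ, fun w => ?_⟩
    beta_reduce
    rw [h', h]
    cases w <;> simp

theorem HH.single {τ : ℕ → List D} (h : HH τ) : HT fun n => [τ n] :=
  ((hh_const [none]).append ((gm_flatMap fun d => [some d]).2 _ h)).congr
    (Eventually.of_forall fun n => by simp [flatMap_some])

theorem HT.tail (h : HT z) : HT fun n => (z n).tail := by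
  obtain ⟨φ, hφ, e⟩ := gm_tail (D := D)
  exact push hφ h fun n => e _

theorem HT.drop (h : HT z) (i : ℕ) : HT fun n => (z n).drop i := by
  induction i with
  | zero => simpa using h
  | succ i ih => exact ih.tail.congr (Eventually.of_forall fun n => by simp)

theorem HT.take (h : HT z) (i : ℕ) : HT fun n => (z n).take i := by
  induction i generalizing z with
  | zero => simpa using ht_const []
  | succ i ih =>
    obtain ⟨φ, hφ, e⟩ := gm_take_one (D := D)
    have h1 : HT fun n => (z n).take 1 := push hφ h fun n => e _
    refine (h1.append (ih h.tail)).congr (Eventually.of_forall fun n => ?_)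
    cases z n <;> simp

theorem HT.dropLast (h : HT z) : HT fun n => (z n).dropLast := by
  obtain ⟨φ, hφ, e⟩ := gm_dropLast (D := D)
  exact push hφ h fun n => e _

theorem HT.getD (h : HT z) (i : ℕ) : HH fun n => (z n).getD i [] := by
  obtain ⟨φ, hφ, e⟩ := gm_getD (D := D) i
  exact push hφ h fun n => e _

theorem HT.getLastD (h : HT z) : HH fun n => (z n).getLastD [] := by
  obtain ⟨φ, hφ, e⟩ := gm_last (D := D)
  exact push hφ h fun n => e _

/-- The sequence of words that only records the number of tokens. -/
theorem HT.unary (h : HT z) : HH fun n => List.replicate (z n).length () := by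
  refine push (gm_flatMap fun a : Option D => if a.isNone then [()] else []) h fun n => ?_
  induction z n with
  | nil => rfl
  | cons τ w ih =>
    rw [enc_cons, List.flatMap_cons, List.flatMap_append, ih]
    simp [List.replicate_succ, List.flatMap_map]

theorem HT.ep_len (h : HT z) (B : ℕ) : EP fun n => min B (z n).length := by
  simpa only [countP_enc] using HH.ep h (rec_cnt B)

theorem HT.len (h : HT z) : InC fun n => ((z n).length : ℂ) := by
  simpa only [countP_enc] using HH.inC h test_len

theorem res_finite [Finite D] (t : ℕ) : (Set.range (res t : List D → _)).Finite := by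
  refine (((List.finite_length_le D t).image some).insert none).subset ?_
  rintro _ ⟨τ, rfl⟩
  unfold res
  split_ifs with h
  · exact Or.inr ⟨τ, h, rfl⟩
  · exact Or.inl rfl

theorem rec_res [Finite D] (t : ℕ) : Rec (res t : List D → _) :=
  rec_left _ (res_finite t) fun _ _ a h => res_snoc a h

/-- A left automaton on tokens at resolution `t` gives a recognizable function. -/
theorem rec_tok [Finite D] (t : ℕ) (g : List (List D) → K) (hfin : (Set.range g).Finite)
    (h : ∀ u v a b, g u = g v → res t a = res t b → g (u ++ [a]) = g (v ++ [b])) :
    ∃ f : List (Option D) → K, Rec f ∧ ∀ w, f (enc w) = g w := by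
  have key : Rec fun x : List (Option D) =>
      (g (dec x).dropLast, res t ((dec x).getLastD []), g (dec x)) := by
    refine rec_left _ ((hfin.prod ((res_finite t).prod hfin)).subset ?_) fun u v a e => ?_
    · rintro _ ⟨x, rfl⟩
      exact ⟨⟨_, rfl⟩, ⟨_, rfl⟩, ⟨_, rfl⟩⟩
    · simp only [Prod.mk.injEq] at e
      obtain ⟨e1, e2, e3⟩ := e
      simp only [dec_snoc, Prod.mk.injEq]
      cases a with
      | none =>
        simp only [step, List.dropLast_concat, List.getLastD_concat]
        exact ⟨e3, trivial, h _ _ _ _ e3 rfl⟩
      | some d =>
        simp only [step, List.dropLast_concat, List.getLastD_concat]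
        exact ⟨e1, res_snoc d e2, h _ _ _ _ e1 (res_snoc d e2)⟩
  exact ⟨fun x => g (dec x), key.comp fun s => s.2.2, fun w => by simp only [dec_enc]⟩

theorem gp_const (w : List (List D)) : Gp fun _ => w := ⟨ht_const w, w.length, fun _ => le_rfl⟩

theorem Gp.append (h : Gp z) (h' : Gp z') : Gp fun n => z n ++ z' n := by
  obtain ⟨h1, B, hB⟩ := h
  obtain ⟨h2, B', hB'⟩ := h'
  refine ⟨h1.append h2, B + B', fun n => ?_⟩
  exact List.length_append.trans_le (add_le_add (hB n) (hB' n))

theorem Gp.sub (h : Gp z) (a k : ℕ) : Gp fun n => z (a + k * n) := by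
  obtain ⟨h1, B, hB⟩ := h
  exact ⟨h1.sub a k, B, fun n => hB _⟩

end Pool.Agent.P.MP_406085_lc
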