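import Pool.Agent.P.MP_406085_lc.Norm
import Pool.Agent.P.MP_406085_lc.Tok1

/-!
Systems whose rules begin and end with a letter, and passing to a power.
-/

namespace Pool.Agent.P.MP_406085_lc

open Filter PowerSeries
open scoped Classical

/-- A system whose rules begin and end with a letter. -/
structure PP (N D : Type) where
  f : N → N
  R : N → List (Sq D × N)
  C : N → Sq D
  step : ∀ x n, C x (n + 1) = C (f x) n ++ (R x).flatMap fun b => b.1 n ++ C b.2 n
  hT : ∀ x, HT (C x)
  gp : ∀ x, ∀ b ∈ R x, Gp b.1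
  grow : ∀ x, Tendsto (fun n => (C x n).length) atTop atTop
  trans : ∀ x y z, y ∈ f x :: (R x).map Prod.snd → z ∈ f y :: (R y).map Prod.snd →
    z ∈ f x :: (R x).map Prod.snd
  dense : ∀ x z, z ∈ f x :: (R x).map Prod.snd →
    ∃ y ∈ f x :: (R x).map Prod.snd, z ∈ f y :: (R y).map Prod.snd
  two : ∀ x y, y ∈ f x :: (R x).map Prod.snd → x ∈ f y :: (R y).map Prod.snd → y ≠ x →
    2 ≤ (f x :: (R x).map Prod.snd).count x
  ff : ∀ x, f (f x) = f x
  ll : ∀ x y, (f x :: (R x).map Prod.snd).getLast? = some y →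
    (f y :: (R y).map Prod.snd).getLast? = some y

theorem tp_count_map {α β : Type} {g : α → β} (hg : Function.Injective g) (l : List α) (x : α) :
    (l.map g).count (g x) = l.count x := List.count_map_of_injective l g hg x

theorem tp_count_flatMap {α : Type} (g : α → List α) {x : α} (hx : x ∈ g x) (l : List α) :
    l.count x ≤ (l.flatMap g).count x := by
  induction l with
  | nil => simp
  | cons a l ih =>
    rw [List.flatMap_cons, List.count_append, List.count_cons]
    split_ifs with h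
    · have : a = x := by simpa using h
      subst this
      have := List.count_pos_iff.mpr hx
      omega
    · omega

theorem tp_getLast_flatMap {α : Type} (g : α → List α) (hg : ∀ x, g x ≠ []) (l : List α) {y : α}
    (h : l.getLast? = some y) : (l.flatMap g).getLast? = (g y).getLast? := by
  obtain ⟨l', rfl⟩ : ∃ l', l = l' ++ [y] := ⟨l.dropLast, (List.dropLast_append_getLast? y h).symm⟩
  rw [List.flatMap_append, List.flatMap_singleton, List.getLast?_append]
  cases h' : (g y).getLast? with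
  | none => exact absurd (List.getLast?_eq_none_iff.mp h') (hg y)
  | some z => rfl

theorem tp_toks {D : Type} (w : List (List D)) :
    (List.range w.length).map (fun j => w.getD j []) = w := by
  apply List.ext_getElem
  · simp
  · intro i h1 h2
    simp [List.getD_eq_getElem?_getD, List.getElem?_eq_getElem h2]

theorem cv_fam {I E : Type} [Finite I] (W : I → ℕ → List E) (h : ∀ i, HH (W i)) :
    ∃ p q, 0 < p ∧ ∀ i a k, q ≤ a → 0 < k → Cv fun n => W i (a + p * k * n) := by
  obtain ⟨p, q, hp, H⟩ := cv_common (Set.finite_range W) (by rintro _ ⟨i, rfl⟩; exact h i)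
  exact ⟨p, q, hp, fun i => H _ ⟨i, rfl⟩⟩

namespace PP

variable {N D : Type} (Q : PP N D)

def ch (x : N) : List N := Q.f x :: (Q.R x).map Prod.snd

/-- The rule for `j + 1` steps. -/
def it : ℕ → N → List (Sq D × N)
  | 0, x => Q.R x
  | j + 1, x => Q.R (Q.f x) ++ (it j x).flatMap fun b => (fun n => b.1 (n + 1), Q.f b.2) :: Q.R b.2

def chj (j : ℕ) (x : N) : List N := Q.f x :: (Q.it j x).map Prod.snd

theorem it_step (j : ℕ) (x : N) (n : ℕ) :
    Q.C x (n + j + 1) = Q.C (Q.f x) n ++ (Q.it j x).flatMap fun b => b.1 n ++ Q.C b.2 n := by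
  induction j generalizing n with
  | zero => exact Q.step x n
  | succ j ih =>
    rw [show n + (j + 1) + 1 = n + 1 + j + 1 by omega, ih, Q.step, Q.ff, it, List.flatMap_append,
      List.append_assoc, List.flatMap_assoc]
    congr 3
    funext b
    rw [Q.step, List.flatMap_cons, List.append_assoc]

theorem chj_succ (j : ℕ) (x : N) : Q.chj (j + 1) x = (Q.chj j x).flatMap Q.ch := by
  simp only [chj, it, List.flatMap_cons, List.map_append, List.map_flatMap, List.flatMap_map,
    List.map_cons]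
  rw [ch, Q.ff]
  rfl

theorem mem_chj (j : ℕ) (x y : N) : y ∈ Q.chj j x ↔ y ∈ Q.ch x := by
  induction j generalizing y with
  | zero => rfl
  | succ j ih =>
    rw [chj_succ, List.mem_flatMap]
    constructor
    · rintro ⟨z, hz, hy⟩
      exact Q.trans _ _ _ ((ih z).mp hz) hy
    · intro h
      obtain ⟨z, hz, hy⟩ := Q.dense _ _ h
      exact ⟨z, (ih z).mpr hz, hy⟩

theorem count_chj (j : ℕ) {x : N} (h : 2 ≤ (Q.ch x).count x) : 2 ≤ (Q.chj j x).count x := by
  have hx : x ∈ Q.ch x := List.count_pos_iff.mp (by omega)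
  induction j with
  | zero => exact h
  | succ j ih => rw [chj_succ]; exact ih.trans (tp_count_flatMap _ hx _)

theorem last_chj (j : ℕ) (x : N) : (Q.chj j x).getLast? = (Q.ch x).getLast? := by
  induction j with
  | zero => rfl
  | succ j ih =>
    obtain ⟨y, hy⟩ : ∃ y, (Q.ch x).getLast? = some y :=
      ⟨_, List.getLast?_eq_some_getLast (List.cons_ne_nil _ _)⟩
    rw [chj_succ, tp_getLast_flatMap Q.ch (fun _ => List.cons_ne_nil _ _) _ (ih.trans hy), hy]
    exact Q.ll x y hy

theorem it_gap (j : ℕ) (x : N) : ∀ b ∈ Q.it j x, ∃ y, ∃ c ∈ Q.R y, ∃ o, b.1 = fun n => c.1 (n + o) := by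
  induction j with
  | zero => exact fun b hb => ⟨x, b, hb, 0, rfl⟩
  | succ j ih =>
    intro b hb
    rw [it, List.mem_append, List.mem_flatMap] at hb
    rcases hb with hb | ⟨c, hc, hb⟩
    · exact ⟨_, b, hb, 0, rfl⟩
    rcases List.mem_cons.mp hb with rfl | hb
    · obtain ⟨y, d, hd, o, e⟩ := ih c hc
      refine ⟨y, d, hd, 1 + o, ?_⟩
      funext n
      simp only [e, add_assoc]
    · exact ⟨_, b, hb, 0, rfl⟩

theorem exists_pq [Finite N] : ∃ p q, 0 < p ∧ ∀ a, q ≤ a →
    (∀ x, (StrictMono fun n => (Q.C x (a + p * n)).length) ∧ Q.C x a ≠ []) ∧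
    ∀ x, ∀ b ∈ Q.R x, (∀ n, (b.1 (a + p * n)).length = (b.1 a).length) ∧
      ∀ j < (b.1 a).length, Cv fun n => (b.1 (a + p * n)).getD j [] := by
  let Γ : Set (Sq D) := {g | ∃ x, ∃ b ∈ Q.R x, g = b.1}
  have hΓ : Γ.Finite := by
    refine (Set.finite_iUnion fun x => (List.finite_toSet (Q.R x)).image Prod.fst).subset ?_
    rintro _ ⟨x, b, hb, rfl⟩
    exact Set.mem_iUnion.mpr ⟨x, b, hb, rfl⟩
  have := hΓ.to_subtype
  have hg : ∀ g : Γ, Gp g.1 := by
    rintro ⟨_, x, b, hb, rfl⟩
    exact Q.gp x b hb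
  choose B0 hB0 using fun g : Γ => (hg g).2
  obtain ⟨B, hB⟩ := (Set.finite_range B0).bddAbove
  have hB' : ∀ (g : Γ) n, (g.1 n).length ≤ B := fun g n => (hB0 g n).trans (hB ⟨g, rfl⟩)
  obtain ⟨p1, q1, hp1, h1⟩ := cv_fam (I := Γ × Fin B) (fun i n => (i.1.1 n).getD i.2 [])
    fun i => (hg i.1).1.getD i.2
  obtain ⟨p2, q2, hp2, h2⟩ := cv_fam (I := Γ ⊕ N)
    (fun i n => List.replicate ((Sum.elim (fun g => g.1) Q.C i : Sq D) n).length ())
    (by rintro (g | x); exacts [(hg g).1.unary, (Q.hT x).unary])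
  obtain ⟨q3, h3⟩ : ∃ q, ∀ a, q ≤ a → ∀ x, 1 ≤ (Q.C x a).length :=
    eventually_atTop.mp (eventually_all.mpr fun x => (Q.grow x).eventually_ge_atTop 1)
  refine ⟨p1 * p2, q1 + q2 + q3, Nat.mul_pos hp1 hp2, fun a ha => ⟨fun x => ⟨?_, ?_⟩, ?_⟩⟩
  · rcases h2 (.inr x) a p1 (by omega) hp1 with h | h
    · exfalso
      have ht : Tendsto (fun n => a + p2 * p1 * n) atTop atTop :=
        tendsto_atTop_mono (fun n => by
          have := Nat.le_mul_of_pos_left n (Nat.mul_pos hp2 hp1)
          show n ≤ _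
          omega) tendsto_id
      obtain ⟨n, hn⟩ := (((Q.grow x).comp ht).eventually_gt_atTop (Q.C x a).length).exists
      have := congrArg List.length (h n)
      simp only [Sum.elim_inr, List.length_replicate, mul_zero, add_zero] at this
      simp only [Function.comp] at hn
      omega
    · simpa only [Sum.elim_inr, List.length_replicate, mul_comm p2 p1] using h
  · intro h
    have := h3 a (by omega) x
    simp [h] at this
  · intro x b hb
    let g : Γ := ⟨b.1, x, b, hb, rfl⟩
    refine ⟨fun n => ?_, fun j hj => ?_⟩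
    · rcases h2 (.inl g) a p1 (by omega) hp1 with h | h
      · have := congrArg List.length (h n)
        simpa only [Sum.elim_inl, List.length_replicate, mul_zero, add_zero, mul_comm p2 p1]
          using this
      · exfalso
        have h4 := h.id_le (B + 1)
        have h5 := hB' g (a + p2 * p1 * (B + 1))
        simp only [Sum.elim_inl, List.length_replicate, id] at h4
        omega
    · exact h1 (g, ⟨j, hj.trans_le (hB' g a)⟩) a p2 (by omega) hp2

theorem toPS [Finite N] : ∃ (M : Type) (_ : Finite M) (P : PS M D) (π : M → N) (ι : M → ℕ)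
    (p q : ℕ), 0 < p ∧ (∀ x n, P.T x n = Q.C (π x) (q + ι x + p * n)) ∧
      (∀ a i, i < p → ∃ x, π x = a ∧ ι x = i) ∧
      (∀ x y, y ∈ P.ch x → π y ∈ Q.ch (π x)) ∧
      (∀ x y, y ∈ P.ch x → π x ∈ Q.ch (π y) → x ∈ P.ch y) ∧
      (∀ x, 2 ≤ (Q.ch (π x)).count (π x) → 2 ≤ (P.ch x).count x) := by
  obtain ⟨p, q, hp, H⟩ := Q.exists_pq
  let rest : N × Fin p → List (List (ℕ → List D) × (N × Fin p)) := fun x =>
    (Q.it (p - 1) x.1).map fun b => ((List.range (b.1 (q + x.2)).length).map
      fun j n => (b.1 (q + x.2 + p * n)).getD j [], (b.2, x.2))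
  have hch : ∀ x : N × Fin p, (Q.f x.1, x.2) :: (rest x).map Prod.snd =
      (Q.chj (p - 1) x.1).map fun y => (y, x.2) := by
    intro x
    simp [rest, chj, Function.comp_def]
  have hmem : ∀ x y : N × Fin p, y ∈ (Q.f x.1, x.2) :: (rest x).map Prod.snd ↔
      y.1 ∈ Q.ch x.1 ∧ y.2 = x.2 := by
    intro x y
    rw [hch, List.mem_map]
    constructor
    · rintro ⟨z, hz, rfl⟩
      exact ⟨(Q.mem_chj _ _ _).mp hz, rfl⟩
    · rintro ⟨h1, h2⟩
      exact ⟨y.1, (Q.mem_chj _ _ _).mpr h1, by rw [← h2]⟩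
  have hcnt : ∀ x : N × Fin p, 2 ≤ (Q.ch x.1).count x.1 →
      2 ≤ @List.count _ (@instBEqOfDecidableEq _ fun a b => Classical.propDecidable (a = b)) x
        ((Q.f x.1, x.2) :: (rest x).map Prod.snd) := by
    intro x h
    rw [hch]
    have := tp_count_map (g := fun y : N => (y, x.2)) (fun a b h => (Prod.mk.inj h).1)
      (Q.chj (p - 1) x.1) x.1
    exact (Q.count_chj _ h).trans this.ge
  have hb : ∀ (x : N) (i : ℕ), ∀ b ∈ Q.it (p - 1) x, HT b.1 ∧
      (∀ n, (b.1 (q + i + p * n)).length = (b.1 (q + i)).length) ∧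
      ∀ j < (b.1 (q + i)).length, Cv fun n => (b.1 (q + i + p * n)).getD j [] := by
    intro x i b hb
    obtain ⟨y, c, hc, o, e⟩ := Q.it_gap _ _ b hb
    obtain ⟨h1, h2⟩ := (H (q + i + o) (by omega)).2 y c hc
    rw [e]
    refine ⟨(ht_shift o).mpr (Q.gp y c hc).1, fun n => ?_, fun j hj => ?_⟩
    · simpa only [add_right_comm _ _ o] using h1 n
    · simpa only [add_right_comm _ _ o] using h2 j hj
  let P : PS (N × Fin p) D :=
    { f := fun x => (Q.f x.1, x.2)
      rest := rest
      T := fun x n => Q.C x.1 (q + x.2 + p * n)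
      step := by
        intro x n
        rw [show q + x.2 + p * (n + 1) = q + x.2 + p * n + (p - 1) + 1 by
          rw [mul_add]; omega, Q.it_step]
        congr 1
        simp only [rest, List.flatMap_map, List.map_map, Function.comp_def]
        refine List.flatMap_congr fun b hb' => ?_
        rw [← (hb x.1 x.2 b hb').2.1 n, tp_toks]
      hT := fun x => (Q.hT x.1).sub _ _
      hh := by
        intro x e he γ hγ
        obtain ⟨b, hb', rfl⟩ := List.mem_map.mp he
        obtain ⟨j, -, rfl⟩ := List.mem_map.mp hγ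
        exact (((hb x.1 x.2 b hb').1).sub _ _).getD j
      cv := by
        intro x e he γ hγ
        obtain ⟨b, hb', rfl⟩ := List.mem_map.mp he
        obtain ⟨j, hj, rfl⟩ := List.mem_map.mp hγ
        exact (hb x.1 x.2 b hb').2.2 j (List.mem_range.mp hj)
      mono := fun x => ((H (q + x.2) (by omega)).1 x.1).1
      pos := fun x => by simpa using ((H (q + x.2) (by omega)).1 x.1).2
      trans := by
        intro x y z h1 h2
        rw [hmem] at h1 h2 ⊢
        exact ⟨Q.trans _ _ _ h1.1 h2.1, h2.2.trans h1.2⟩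
      dense := by
        intro x z h
        rw [hmem] at h
        obtain ⟨y, h1, h2⟩ := Q.dense _ _ h.1
        exact ⟨(y, x.2), (hmem _ _).mpr ⟨h1, rfl⟩, (hmem _ _).mpr ⟨h2, h.2⟩⟩
      two := by
        intro x y h1 h2 hne
        rw [hmem] at h1 h2
        exact hcnt x (Q.two _ _ h1.1 h2.1 fun h => hne (Prod.ext h h1.2))
      ff := fun x => by simp only [Q.ff]
      ll := by
        intro x y h
        rw [hch, List.getLast?_map, Q.last_chj] at h ⊢
        obtain ⟨z, hz, rfl⟩ := Option.map_eq_some_iff.mp h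
        rw [show (Q.ch z).getLast? = some z from Q.ll _ _ hz]
        rfl }
  refine ⟨N × Fin p, inferInstance, P, Prod.fst, fun x => x.2, p, q, hp, fun _ _ => rfl,
    fun a i hi => ⟨(a, ⟨i, hi⟩), rfl, rfl⟩, fun x y h => ((hmem x y).mp h).1, fun x y h h' => ?_,
    hcnt⟩
  exact (hmem y x).mpr ⟨h', ((hmem x y).mp h).2.symm⟩

end PP

end Pool.Agent.P.MP_406085_lc
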