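import Pool.Agent.P.MP_406085_lc.Ext
import Pool.Agent.P.MP_406085_lc.Norm
import Pool.Agent.P.MP_406085_lc.Jet1
import Pool.Agent.P.MP_406085_lc.ToPSA

/-!
From a system without push to a proper system.
-/

namespace Pool.Agent.P.MP_406085_lc

open Filter PowerSeries
open scoped Classical

variable {N Y D : Type}

namespace TP

/-- The last gap of a rule. -/
def lastG (l : List (N × Sq D)) : Sq D := (l.getLast?.map Prod.snd).getD fun _ => []

/-- The blocks and the inner gaps of a rule. -/
def core (T : N → Sq D) : List (N × Sq D) → Sq D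
  | [] => fun _ => []
  | [e] => T e.1
  | e :: e' :: l => fun n => T e.1 n ++ e.2 n ++ core T (e' :: l) n

/-- The inner gaps of the rule for the cores. -/
def inner (L R : N → Sq D) : List (N × Sq D) → List (Sq D × N)
  | [] => []
  | [_] => []
  | e :: e' :: l => (fun n => R e.1 n ++ e.2 (n + 1) ++ L e'.1 n, e'.1) :: inner L R (e' :: l)

theorem lastG_cons (e e' : N × Sq D) (l : List (N × Sq D)) :
    lastG (e :: e' :: l) = lastG (e' :: l) := by
  simp [lastG, List.getLast?_cons_cons]

theorem flat_core (T : N → Sq D) (n : ℕ) : ∀ l : List (N × Sq D),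
    (l.flatMap fun e => T e.1 n ++ e.2 n) = core T l n ++ lastG l n
  | [] => rfl
  | [e] => by simp [core, lastG]
  | e :: e' :: l => by
    rw [List.flatMap_cons, flat_core T n (e' :: l), lastG_cons]
    simp [core]

theorem core_infix (T : N → Sq D) (n : ℕ) : ∀ l : List (N × Sq D), ∀ e ∈ l,
    T e.1 n <:+: core T l n
  | [], _, h => by simp at h
  | [e], _, h => by
    rw [List.mem_singleton.mp h]
    exact List.infix_refl _
  | e :: e' :: l, x, h => by
    rcases List.mem_cons.mp h with rfl | h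
    · exact ⟨[], x.2 n ++ core T (e' :: l) n, by simp [core]⟩
    · exact (core_infix T n (e' :: l) x h).trans ⟨T e.1 n ++ e.2 n, [], by simp [core]⟩

theorem core_ht {T : N → Sq D} : ∀ l : List (N × Sq D), (∀ e ∈ l, HT (T e.1) ∧ HT e.2) →
    HT (core T l)
  | [], _ => ht_const []
  | [e], h => (h e (by simp)).1
  | e :: e' :: l, h => ((h e (by simp)).1.append (h e (by simp)).2).append
      (core_ht (e' :: l) fun x hx => h x (List.mem_cons_of_mem _ hx))

theorem lastG_gp {l : List (N × Sq D)} (h : ∀ e ∈ l, Gp e.2) : Gp (lastG l) := by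
  unfold lastG
  cases h' : l.getLast? with
  | none => exact gp_const []
  | some e => exact h e (List.mem_of_getLast? h')

theorem inner_snd (L R : N → Sq D) : ∀ (e : N × Sq D) (l : List (N × Sq D)),
    (inner L R (e :: l)).map Prod.snd = l.map Prod.fst
  | _, [] => rfl
  | e, e' :: l => by simp [inner, inner_snd L R e' l]

theorem gp_succ {γ : Sq D} (h : Gp γ) : Gp fun n => γ (n + 1) := by
  simpa only [one_mul, add_comm 1] using h.sub 1 1

theorem gp_add {γ : Sq D} (h : Gp γ) (q : ℕ) : Gp fun n => γ (q + n) := by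
  simpa only [one_mul] using h.sub q 1

theorem inner_gp {L R : N → Sq D} : ∀ l : List (N × Sq D),
    (∀ e ∈ l, Gp (L e.1) ∧ Gp (R e.1) ∧ Gp e.2) → ∀ b ∈ inner L R l, Gp b.1
  | [], _, _, h => by simp [inner] at h
  | [_], _, _, h => by simp [inner] at h
  | e :: e' :: l, H, b, h => by
    rcases List.mem_cons.mp h with rfl | h
    · exact (((H e (by simp)).2.1).append (gp_succ (H e (by simp)).2.2)).append (H e' (by simp)).1
    · exact inner_gp (e' :: l) (fun x hx => H x (List.mem_cons_of_mem _ hx)) b h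

theorem core_step {T L R Cr : N → Sq D} {n : ℕ} : ∀ (e : N × Sq D) (l : List (N × Sq D)),
    (∀ x ∈ e :: l, T x.1 (n + 1) = L x.1 n ++ Cr x.1 n ++ R x.1 n) →
    core T (e :: l) (n + 1) = L e.1 n ++ (Cr e.1 n ++
      (inner L R (e :: l)).flatMap fun b => b.1 n ++ Cr b.2 n) ++
      R ((e :: l).getLast (List.cons_ne_nil _ _)).1 n
  | e, [], h => by simpa [core, inner] using h e (by simp)
  | e, e' :: l, h => by
    have ih := core_step e' l fun x hx => h x (List.mem_cons_of_mem _ hx)
    have h1 := h e (by simp)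
    simp only [core, inner, ih, h1, List.flatMap_cons, List.append_assoc, List.getLast_cons_cons]

end TP

variable [Finite N] {sk : N → List N}

theorem ATS.toPP (hs : Sk sk) (A : ATS sk Y D) (hg : A.Grow) (hne : A.act.Nonempty)
    (hL : A.pushL = ∅) (hR : A.pushR = ∅) : ∃ (q : ℕ) (Q : PP A.act D) (L R : N → Sq D),
      (∀ x, (Q.ch x).map Subtype.val = A.ch x) ∧ (∀ x ∈ A.act, Gp (L x) ∧ Gp (R x)) ∧
      (∀ (x : A.act) n, A.T x (q + n + 1) = L x n ++ Q.C x n ++ R x n) ∧
      ∀ (x : A.act) n, ∀ y ∈ A.ch x, A.T y (q + n) <:+: Q.C x n := by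
  have hc : ∀ x ∈ A.act, A.ch x ≠ [] := fun x hx => by
    obtain ⟨-, y, hy, -⟩ := A.len_tendsto hs hx (hg x hx)
    exact List.ne_nil_of_mem hy
  have hact : ∀ x ∈ A.act, ∀ y ∈ A.ch x, y ∈ A.act := fun x hx y hy => ((A.mem_ch hx).mp hy).2
  let L : N → Sq D := fun x => (A.H x).g0
  let R : N → Sq D := fun x => TP.lastG (A.H x).l
  let Cr : N → Sq D := fun x => TP.core A.T (A.H x).l
  have hT : ∀ x ∈ A.act, ∀ n, A.T x (n + 1) = L x n ++ Cr x n ++ R x n := by
    intro x hx n
    rw [A.step x hx, Rl.ev, TP.flat_core, List.append_assoc]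
  have hLR : ∀ x ∈ A.act, Gp (L x) ∧ Gp (R x) := fun x hx =>
    ⟨(A.ok x hx).1, TP.lastG_gp fun e he => ((A.ok x hx).2 e he).2⟩
  have hsub : ∀ x n, ∀ y ∈ A.ch x, A.T y n <:+: Cr x n := by
    intro x n y hy
    obtain ⟨e, he, rfl⟩ := List.mem_map.mp hy
    exact TP.core_infix _ _ _ e he
  obtain ⟨q, hq⟩ : ∃ q, ∀ n, q ≤ n → ∀ y, (y ∈ A.act → (A.ch y).head? = some y → L y n = []) ∧
      (y ∈ A.act → (A.ch y).getLast? = some y → R y n = []) := by
    refine eventually_atTop.mp (eventually_all.mpr fun y => Eventually.and ?_ ?_)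
    · refine eventually_imp_distrib_left.mpr fun hy => eventually_imp_distrib_left.mpr fun h => ?_
      by_contra h'
      exact (Set.eq_empty_iff_forall_notMem.mp hL y) ⟨hy, h, not_eventually.mp h'⟩
    · refine eventually_imp_distrib_left.mpr fun hy => eventually_imp_distrib_left.mpr fun h => ?_
      rw [ATS.ch, List.getLast?_map] at h
      obtain ⟨e, he, rfl⟩ := Option.map_eq_some_iff.mp h
      by_contra h'
      refine (Set.eq_empty_iff_forall_notMem.mp hR e.1) ⟨hy, e.2, he, ?_⟩
      simpa only [R, TP.lastG, he, Option.map_some, Option.getD_some] using not_eventually.mp h'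
  obtain ⟨x0, hx0⟩ := hne
  let lift : N → A.act := fun y => if h : y ∈ A.act then ⟨y, h⟩ else ⟨x0, hx0⟩
  have hlift : ∀ y ∈ A.act, (lift y : N) = y := fun y hy => by simp [lift, hy]
  let f : A.act → A.act := fun x => lift ((A.ch x).headD x0)
  let Rr : A.act → List (Sq D × A.act) := fun x =>
    (TP.inner L R (A.H x).l).map fun b => (fun n => b.1 (q + n), lift b.2)
  have hch0 : ∀ x : A.act, f x :: (Rr x).map Prod.snd = (A.ch x).map lift := by
    intro x
    have h := hc x x.2
    simp only [f, Rr, ATS.ch] at h ⊢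
    obtain ⟨e, l, hl⟩ := List.exists_cons_of_ne_nil (l := (A.H x).l) (by simpa using h)
    rw [hl, List.map_map, show (Prod.snd ∘ fun b : Sq D × N => (fun n => b.1 (q + n), lift b.2)) =
      lift ∘ Prod.snd from rfl, ← List.map_map, TP.inner_snd]
    rfl
  have hch : ∀ x : A.act, (f x :: (Rr x).map Prod.snd).map Subtype.val = A.ch x := by
    intro x
    rw [hch0, List.map_map]
    conv_rhs => rw [← List.map_id (A.ch x)]
    exact List.map_congr_left fun y hy => hlift y (hact x x.2 y hy)
  have hmem : ∀ x y : A.act, y ∈ f x :: (Rr x).map Prod.snd ↔ (y : N) ∈ A.ch x := by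
    intro x y
    rw [← hch, List.mem_map_of_injective Subtype.val_injective]
  have hhead : ∀ x : A.act, (A.ch x).head? = some (f x : N) := fun x => by rw [← hch]; rfl
  have hlast : ∀ x y : A.act, (f x :: (Rr x).map Prod.snd).getLast? = some y ↔
      (A.ch x).getLast? = some (y : N) := by
    intro x y
    rw [← hch, List.getLast?_map]
    cases (f x :: (Rr x).map Prod.snd).getLast? <;> simp [Subtype.val_inj]
  let Q : PP A.act D :=
    { f := f
      R := Rr
      C := fun x n => Cr x (q + n)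
      step := by
        intro x n
        have h := hc x x.2
        obtain ⟨e, l, hl⟩ := List.exists_cons_of_ne_nil (l := (A.H x).l)
          (by simpa [ATS.ch] using h)
        have hm : ∀ y ∈ e :: l, y.1 ∈ A.act := fun y hy => ((A.ok x x.2).2 y (hl ▸ hy)).1
        have h1 : (A.ch x).head? = some e.1 := by simp [ATS.ch, hl]
        have h2 : (A.ch x).getLast? = some ((e :: l).getLast (List.cons_ne_nil _ _)).1 := by
          rw [ATS.ch, hl, List.getLast?_map, List.getLast?_eq_some_getLast (List.cons_ne_nil _ _)]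
          rfl
        have h3 : (f x : N) = e.1 := Option.some.inj ((hhead x).symm.trans h1)
        have := TP.core_step (n := q + n) e l fun y hy => hT y.1 (hm y hy) (q + n)
        rw [(hq (q + n) (by omega) _).1 (hm e (by simp)) (A.ch_head hs hc x.2 h1),
          (hq (q + n) (by omega) _).2 (hm _ (List.getLast_mem _)) (A.ch_last hs hc x.2 h2),
          List.nil_append, List.append_nil] at this
        simp only [Cr, Rr, h3, List.flatMap_map] at this ⊢
        rw [hl, ← add_assoc, this]
        congr 1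
        refine List.flatMap_congr fun b hb => ?_
        have hb2 : b.2 ∈ l.map Prod.fst := TP.inner_snd L R e l ▸ List.mem_map_of_mem hb
        obtain ⟨y, hy, e'⟩ := List.mem_map.mp hb2
        rw [hlift b.2 (e' ▸ hm y (List.mem_cons_of_mem _ hy))]
      hT := fun x => by
        simpa only [one_mul] using (TP.core_ht (T := A.T) (A.H x).l fun e he =>
          ⟨A.hT _ ((A.ok x x.2).2 e he).1, ((A.ok x x.2).2 e he).2.1⟩).sub q 1
      gp := by
        intro x b hb
        obtain ⟨c, hc', rfl⟩ := List.mem_map.mp hb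
        refine TP.gp_add (TP.inner_gp _ (fun e he => ?_) c hc') q
        have := (A.ok x x.2).2 e he
        exact ⟨(hLR _ this.1).1, (hLR _ this.1).2, this.2⟩
      grow := by
        intro x
        obtain ⟨y, hy⟩ := List.exists_mem_of_ne_nil _ (hc x x.2)
        have hy' := hact x x.2 y hy
        refine tendsto_atTop_mono (fun n => (hsub x (q + n) y hy).length_le) ?_
        exact (A.len_tendsto hs hy' (hg y hy')).1.comp
          (tendsto_atTop_mono (fun n => Nat.le_add_left n q) tendsto_id)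
      trans := by
        intro x y z h1 h2
        rw [hmem] at h1 h2 ⊢
        exact A.ch_trans hs x.2 h1 h2
      dense := by
        intro x z h
        obtain ⟨y, h1, h2⟩ := A.ch_dense hs x.2 ((hmem _ _).mp h)
        exact ⟨⟨y, hact x x.2 y h1⟩, (hmem _ _).mpr h1, (hmem _ _).mpr h2⟩
      two := by
        intro x y h1 h2 hne
        have := A.ch_two hs x.2 ((hmem _ _).mp h1) ((hmem _ _).mp h2)
          fun h => hne (Subtype.ext h)
        rw [← hch, tp_count_map Subtype.val_injective] at this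
        exact this
      ff := fun x => Subtype.ext (Option.some.inj
        ((hhead (f x)).symm.trans (A.ch_head hs hc x.2 (hhead x))))
      ll := fun x y h => (hlast y y).mpr (A.ch_last hs hc x.2 ((hlast x y).mp h)) }
  exact ⟨q, Q, fun x n => L x (q + n), fun x n => R x (q + n), hch,
    fun x hx => ⟨TP.gp_add (hLR x hx).1 q, TP.gp_add (hLR x hx).2 q⟩,
    fun x n => hT x x.2 (q + n), fun x n y hy => hsub x (q + n) y hy⟩

theorem ATS.toPS (hs : Sk sk) (A : ATS sk Y D) (hg : A.Grow) (hne : A.act.Nonempty)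
    (hL : A.pushL = ∅) (hR : A.pushR = ∅) :
    ∃ (M : Type) (_ : Finite M) (_ : Nonempty M) (P : PS M D) (π : M → N),
      (∀ x, π x ∈ A.act) ∧ (∀ x y, y ∈ P.ch x → π y ∈ A.ch (π x)) ∧
      (∀ x y, y ∈ P.ch x → π x ∈ A.ch (π y) → x ∈ P.ch y) ∧
      (∀ x, 2 ≤ (A.ch (π x)).count (π x) → 2 ≤ (P.ch x).count x) ∧
      (∀ x n, ∃ m, P.T x n <:+: A.T (π x) m) ∧
      (∀ x, x ∈ P.ch x → ∀ m, ∃ n, A.T (π x) m <:+: P.T x n) ∧
      ∀ (κ : Coc D) (F : List D → ℂ), Test F →
        (∀ x, JJ κ F (A.T (π x)) → JJ κ F (P.T x)) ∧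
        ∀ a ∈ A.act, (∀ x, π x = a → JJ κ F (P.T x)) → JJ κ F (A.T a) := by
  obtain ⟨q0, Q, L, R, hch, hLR, hT, hsub⟩ := A.toPP hs hg hne hL hR
  obtain ⟨M, hM, P, π, ι, p, q, hp, hP, hsurj, h1, h2, h3⟩ := Q.toPS
  have hmem : ∀ x y : A.act, y ∈ Q.ch x ↔ (y : N) ∈ A.ch x := by
    intro x y
    rw [← hch, List.mem_map_of_injective Subtype.val_injective]
  obtain ⟨x0, hx0⟩ := hne
  obtain ⟨m0, -⟩ := hsurj ⟨x0, hx0⟩ 0 hp
  refine ⟨M, hM, ⟨m0⟩, P, fun x => π x, fun x => (π x).2, fun x y h => (hmem _ _).mp (h1 x y h),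
    fun x y h h' => h2 x y h ((hmem _ _).mpr h'), fun x h => h3 x ?_, fun x n => ?_,
    fun x hx m => ?_, fun κ F hF => ⟨fun x h => ?_, fun a ha h => ?_⟩⟩
  · rw [← hch, tp_count_map Subtype.val_injective] at h
    exact h
  · exact ⟨_, by rw [hP, hT]; exact ⟨_, _, rfl⟩⟩
  · have hx' := (hmem _ _).mp (h1 x x hx)
    refine ⟨m, (A.sub_mono (π x).2 hx' ?_).trans (by rw [hP]; exact hsub _ _ _ hx')⟩
    have := Nat.le_mul_of_pos_left m hp
    omega
  · have e : P.T x = fun n => Q.C (π x) (q + ι x + p * n) := funext (hP x)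
    rw [e]
    refine JJ.sub ?_ _ _
    have h4 : JJ κ F fun n => L (π x) n ++ Q.C (π x) n ++ R (π x) n := by
      simpa only [← hT, add_comm q0, add_assoc] using (jj_shift (q0 + 1)).mpr h
    have hl := hLR _ (π x).2
    exact (hl.1.jj κ hF).cancel_left hF (Q.hT _)
      (JJ.cancel_right hF (hl.1.1.append (Q.hT _)) (hl.2.jj κ hF) h4)
  · have h4 : JJ κ F (Q.C ⟨a, ha⟩) := by
      refine jj_interleave (q := q) hp fun i hi => ?_
      obtain ⟨x, e1, e2⟩ := hsurj ⟨a, ha⟩ i hi
      have := h x (congrArg Subtype.val e1)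
      rwa [show P.T x = _ from funext (hP x), e1, e2] at this
    have hl := hLR a ha
    refine (jj_shift (q0 + 1)).mp ?_
    have := ((hl.1.jj κ hF).append hF h4).append hF (hl.2.jj κ hF)
    refine this.congr (Eventually.of_forall fun n => ?_)
    rw [show n + (q0 + 1) = q0 + n + 1 by omega]
    exact (hT ⟨a, ha⟩ n).symm

end Pool.Agent.P.MP_406085_lc
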