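import Pool.Agent.P.MP_406085_lc.Col
import Pool.Agent.P.MP_406085_lc.Pieces
import Pool.Agent.P.MP_406085_lc.Scc
import Pool.Agent.P.MP_406085_lc.Push
import Pool.Agent.P.MP_406085_lc.ToPS
import Pool.Agent.P.MP_406085_lc.StageA
import Pool.Agent.P.MP_406085_lc.Jet2

/-!
Finite unions of HD0L sequences are separated by finitely many tests.
-/

namespace Pool.Agent.P.MP_406085_lc

open Filter PowerSeries
open scoped Classical

section

variable {N Y D : Type} [Finite N] [Finite Y] [Finite D] {sk : N → List N}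

/-- A rule whose new tokens can be separated. -/
def ATS.Fine (A : ATS sk Y D) (ρ : Rule D) : Prop :=
  ρ.Det ∨ ∃ κ : Coc D, ∀ F, Test F → ∀ x ∈ A.act, x ∉ A.wild ρ → JJ κ F (A.T x)

omit [Finite N] [Finite Y] [Finite D] in
theorem ATS.tame_down (A : ATS sk Y D) (ρ : Rule D) {x y : N} (hx : x ∈ A.act \ A.wild ρ)
    (hy : y ∈ A.ch x) : y ∈ A.act \ A.wild ρ :=
  ⟨((A.mem_ch hx.1).mp hy).2, fun h => hx.2 (A.wild_up ρ ((A.mem_ch hx.1).mp hy).1 h)⟩

omit [Finite Y] [Finite D] in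
theorem ATS.fine_of_push (hs : Sk sk) (A : ATS sk Y D) {ρ : Rule D}
    (h : ρ.Det ∨ ∀ a ∈ A.act, 2 ≤ (A.ch a).count a → a ∈ A.wild ρ) : A.Fine ρ := by
  refine h.imp id fun h => ?_
  obtain ⟨κ⟩ := exists_coc (D := D)
  exact ⟨κ, fun F hF x hx hx' => A.scc hs hF (A.act \ A.wild ρ) Set.sdiff_subset
    (fun _ h _ => A.tame_down ρ h) (fun a ha h2 _ => (ha.2 (h a ha.1 h2)).elim) x ⟨hx, hx'⟩⟩

omit [Finite Y] in
theorem ATS.exists_rule (hs : Sk sk) (A : ATS sk Y D) (hg : A.Grow) (hne : A.act.Nonempty) :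
    ∃ ρ : Rule D, A.Fine ρ ∧ (A.wild ρ ≠ A.act ∨ (∃ x ∈ A.pushL, A.KillL ρ x) ∨
      ∃ x ∈ A.pushR, A.KillR ρ x) := by
  by_cases hL : A.pushL = ∅
  swap
  · obtain ⟨x, hx⟩ := Set.nonempty_iff_ne_empty.mpr hL
    obtain ⟨ρ, h1, h2⟩ := A.killL hs hg hx
    exact ⟨ρ, A.fine_of_push hs h2, .inr (.inl ⟨x, hx, h1⟩)⟩
  by_cases hR : A.pushR = ∅
  swap
  · obtain ⟨x, hx⟩ := Set.nonempty_iff_ne_empty.mpr hR
    obtain ⟨ρ, h1, h2⟩ := A.killR hs hg hx
    exact ⟨ρ, A.fine_of_push hs h2, .inr (.inr ⟨x, hx, h1⟩)⟩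
  obtain ⟨M, _, _, P, π, h1, h2, h3, h4, h5, h6, h7⟩ := A.toPS hs hg hne hL hR
  obtain ⟨ρ, b, hb, hb0, h⟩ := P.stage
  refine ⟨ρ, h.imp id ?_, .inl fun e => ?_⟩
  · rintro ⟨κ, hκ⟩
    refine ⟨κ, fun F hF x hx hx' => A.scc hs hF (A.act \ A.wild ρ) Set.sdiff_subset
      (fun _ h _ => A.tame_down ρ h) (fun a ha ha2 hlow => ?_) x ⟨hx, hx'⟩⟩
    refine (h7 κ F hF).2 a ha.1 fun x e => ?_
    subst e
    refine hκ F hF x (h4 x ha2) ?_ fun y hy hxy =>
      (h7 κ F hF).1 y (hlow _ (h2 x y hy) fun h => hxy (h3 x y hy h))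
    obtain ⟨B, hB⟩ : Bdd fun n => ρ.cnt [] (A.T (π x) n) := by
      by_contra hc
      exact ha.2 ⟨ha.1, hc⟩
    refine ⟨B, fun n => ?_⟩
    obtain ⟨m, hm⟩ := h5 x n
    exact (ρ.cnt_sub hm).trans (hB m)
  · have : π b ∈ A.wild ρ := e ▸ h1 b
    refine this.2 ⟨0, fun m => ?_⟩
    obtain ⟨n, hn⟩ := h6 b hb m
    exact (ρ.cnt_sub hn).trans (hb0 n).le

theorem ATS.descend (hs : Sk sk) (A : ATS sk Y D) (hT : Sep A.Tok) {ρ : Rule D} (hρ : A.Fine ρ) :
    ∃ A' : ATS sk Y (Option D), A'.act = A.wild ρ ∧ Sep A'.Tok ∧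
      (Sep {w | ∃ y n, w = enc (A'.W y n)} → Sep {w | ∃ y n, w = enc (A.W y n)}) ∧
      (A.wild ρ = A.act → (∀ x ∈ A'.pushL, x ∈ A.pushL ∧ ¬ A.KillL ρ x) ∧
        ∀ x ∈ A'.pushR, x ∈ A.pushR ∧ ¬ A.KillR ρ x) := by
  obtain ⟨q, A', h1, h2, h3, ⟨Z, Φ, hZ, hΦ, h4, h5⟩, h6⟩ := A.collapse hs ρ
  refine ⟨A', h1, ?_, fun h => ?_, h6⟩
  · rcases hρ with hρ | ⟨κ, hκ⟩
    · exact (sep_det ρ hρ hT).mono h3
    · have := hZ.to_subtype
      refine ((sep_jj κ hT (fun z : Z => z.1)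
        (fun F hF z => A.jj_pc hs ρ hF (hκ F hF) (h4 z z.2))
        fun z => (h4 z z.2).1).union_finite hΦ).mono fun τ hτ => ?_
      rcases h5 τ hτ with h | ⟨z, hz, n, e⟩
      · exact .inr h
      · exact .inl ⟨⟨z, hz⟩, n, e⟩
  · obtain ⟨φ, hφ, hφ'⟩ := gm_spl ρ []
    have k1 : Sep {w | ∃ y n, w = enc (A.W y (q + n))} := by
      refine Sep.pull (h.mono ?_) hφ ?_
      · rintro _ ⟨_, ⟨y, n, rfl⟩, rfl⟩
        exact ⟨y, n, by rw [hφ', h2]⟩
      · rintro _ ⟨y, n, rfl⟩ _ ⟨y', n', rfl⟩ e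
        rw [hφ', hφ'] at e
        have := List.map_injective_iff.mpr enc_injective (enc_injective e)
        rw [← ρ.spl_flatten [] (A.W y (q + n)), this, ρ.spl_flatten]
    have k2 : (Set.range fun x : Y × Fin q => enc (A.W x.1 x.2)).Finite := Set.finite_range _
    refine (k1.union_finite k2).mono ?_
    rintro _ ⟨y, n, rfl⟩
    by_cases hn : n < q
    · exact .inr ⟨(y, ⟨n, hn⟩), rfl⟩
    · exact .inl ⟨y, n - q, by rw [show q + (n - q) = n by omega]⟩

end

theorem ATS.sep {N Y : Type} [Finite N] [Finite Y] {sk : N → List N} (hs : Sk sk) (D : Type)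
    [Finite D] (A : ATS sk Y D) (h : Sep A.Tok) : Sep {w | ∃ y n, w = enc (A.W y n)} := by
  generalize ha : A.act.ncard = a
  induction a using Nat.strong_induction_on generalizing D with
  | _ a iha =>
  generalize hb : A.pushL.ncard + A.pushR.ncard = b
  induction b using Nat.strong_induction_on generalizing D with
  | _ b ihb =>
  by_cases hne : A.act = ∅
  · obtain ⟨B, hB⟩ := A.base hne
    refine (sep_bdd h B).mono ?_
    rintro _ ⟨y, n, rfl⟩
    exact ⟨_, rfl, hB y n, fun τ hτ => .inr ⟨y, n, hτ⟩⟩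
  by_cases hg : A.Grow
  swap
  · obtain ⟨A', h1, h2, h3⟩ := A.absorb hg
    have := iha _ (ha ▸ Set.ncard_lt_ncard h1) D A' (h.mono h3) rfl
    simpa only [h2] using this
  obtain ⟨ρ, hρ, hk⟩ := A.exists_rule hs hg (Set.nonempty_iff_ne_empty.mpr hne)
  obtain ⟨A', h1, h2, h3, h4⟩ := A.descend hs h hρ
  refine h3 ?_
  by_cases e : A.wild ρ = A.act
  · obtain ⟨h5, h6⟩ := h4 e
    have k1 : A'.pushL ⊆ A.pushL := fun x hx => (h5 x hx).1
    have k2 : A'.pushR ⊆ A.pushR := fun x hx => (h6 x hx).1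
    have k3 := Set.ncard_le_ncard k1
    have k4 := Set.ncard_le_ncard k2
    refine ihb _ ?_ (Option D) A' h2 (by rw [h1, e, ha]) rfl
    rcases hk with hk | ⟨x, hx, hk⟩ | ⟨x, hx, hk⟩
    · exact (hk e).elim
    · have := Set.ncard_lt_ncard (k1.ssubset_of_mem_notMem hx fun h => (h5 x h).2 hk)
      omega
    · have := Set.ncard_lt_ncard (k2.ssubset_of_mem_notMem hx fun h => (h6 x h).2 hk)
      omega
  · refine iha _ ?_ (Option D) A' h2 rfl
    rw [← ha, h1]
    exact Set.ncard_lt_ncard (ssubset_of_subset_of_ne (fun x hx => hx.1) e)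

theorem flatMap_iterate {S : Type} (h : S → List S) (n : ℕ) (u : List S) :
    (fun v : List S => v.flatMap h)^[n] u =
      u.flatMap fun a => (fun v : List S => v.flatMap h)^[n] [a] := by
  induction n generalizing u with
  | zero => simp
  | succ n ih =>
    simp only [Function.iterate_succ_apply', ih u, List.flatMap_assoc]

theorem ev_nil_gaps {N D : Type} (T : N → Sq D) (l : List N) (n : ℕ) :
    (⟨fun _ => [], l.map fun x => (x, fun _ => [])⟩ : Rl N D).ev T n = l.flatMap (T · n) := by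
  simp [Rl.ev, List.flatMap_map]

theorem sep_d0l {S D Y : Type} [Finite S] [Finite D] [Finite Y] (h : S → List S) (g : S → List D)
    (u : Y → List S) :
    Sep {w | ∃ y n, w = ((fun v : List S => v.flatMap h)^[n] (u y)).flatMap g} := by
  obtain ⟨p, hp, hs⟩ := exists_sk h
  set H := fun v : List S => v.flatMap h with hH
  let T : S × Fin p → Sq D := fun x n => ((H^[x.2 + p * n] [x.1]).flatMap g).map fun d => [d]
  have hstep : ∀ x n, T x (n + 1) = ((H^[p] [x.1]).map fun y => (y, x.2)).flatMap (T · n) := by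
    intro x n
    simp only [T, List.flatMap_map]
    rw [mul_add, mul_one, ← add_assoc, Function.iterate_add_apply, flatMap_iterate,
      List.flatMap_assoc, List.map_flatMap]
  have hok : ∀ l : List (S × Fin p),
      (⟨fun _ => [], l.map fun x => (x, fun _ => [])⟩ : Rl (S × Fin p) D).OK Set.univ := by
    refine fun l => ⟨gp_const _, fun e he => ⟨trivial, ?_⟩⟩
    obtain ⟨x, -, rfl⟩ := List.mem_map.mp he
    exact gp_const _
  let A : ATS (fun x : S × Fin p => (H^[p] [x.1]).map fun y => (y, x.2)) (Y × Fin p) D :=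
    { act := Set.univ
      T := T
      H := fun x => ⟨fun _ => [], ((H^[p] [x.1]).map fun y => (y, x.2)).map fun x => (x, fun _ => [])⟩
      top := fun y => ⟨fun _ => [], ((u y.1).map fun a => (a, y.2)).map fun x => (x, fun _ => [])⟩
      up := fun _ _ _ _ => trivial
      hT := fun x _ => by
        refine (hd_of_sys (fun x : S × Fin p => (H^[p] [x.1]).map fun y => (y, x.2))
          (fun x n => enc (T x n)) (fun s n => ?_) x).hh
        rw [hstep, enc, List.flatMap_assoc]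
        rfl
      ok := fun x _ => hok _
      skel := fun x _ => by simp [Function.comp_def]
      step := fun x _ n => by rw [ev_nil_gaps, hstep]
      topok := fun y => hok _ }
  have hW : ∀ y n, A.W y n = ((H^[y.2 + p * n] (u y.1)).flatMap g).map fun d => [d] := by
    intro y n
    rw [ATS.W, ev_nil_gaps, flatMap_iterate, List.flatMap_assoc, List.map_flatMap,
      List.flatMap_map]
  have hT : Sep A.Tok := by
    refine (sep_finite (Set.finite_range fun d : D => [d])).mono ?_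
    rintro τ (⟨x, -, n, hτ⟩ | ⟨y, n, hτ⟩)
    · obtain ⟨d, -, e⟩ := List.mem_map.mp hτ
      exact ⟨d, e⟩
    · rw [hW] at hτ
      obtain ⟨d, -, e⟩ := List.mem_map.mp hτ
      exact ⟨d, e⟩
  have he : ∀ w : List D, (w.flatMap fun d => [none, some d]) = enc (w.map fun d => [d]) := by
    intro w
    simp [enc, List.flatMap_map]
  refine Sep.pull ((A.sep (hs.prod (Fin p)) D hT).mono ?_) (gm_flatMap fun d => [none, some d]) ?_
  · rintro _ ⟨_, ⟨y, n, rfl⟩, rfl⟩
    refine ⟨(y, ⟨n % p, Nat.mod_lt _ hp⟩), n / p, ?_⟩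
    rw [hW, Nat.mod_add_div]
    exact he _
  · intro w _ w' _ e
    simp only [he] at e
    exact List.map_injective_iff.mpr (fun _ _ h => List.singleton_injective h) (enc_injective e)

end Pool.Agent.P.MP_406085_lc
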