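import Pool.Agent.P.MP_406085_lc.Basic

/-!
Proper systems: lengths, languages, paths.
-/

namespace Pool.Agent.P.MP_406085_lc

open Filter PowerSeries
open scoped Classical

theorem res_bind {D : Type} {t t' : ℕ} (h : t ≤ t') (τ : List D) :
    (res t' τ).bind (res t) = res t τ := by
  unfold res
  by_cases h1 : τ.length ≤ t'
  · simp only [if_pos h1, Option.bind_some]
  · simp only [if_neg h1, Option.bind_none]
    rw [if_neg (by omega)]

theorem ps0_lastL_nil {N D : Type} (x : N) :
    lastL (x, ([] : List (List (Option (List D)) × N))) = x := rfl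

theorem ps0_lastL_cons {N D : Type} (x : N) (e : List (Option (List D)) × N)
    (l : List (List (Option (List D)) × N)) : lastL (x, e :: l) = lastL (e.2, l) := by
  simp only [lastL, List.map_cons, List.getLastD_cons]

theorem edges_append {N D : Type} (x : N) (l l' : List (List (Option (List D)) × N)) :
    edges x (l ++ l') = edges x l ++ edges (lastL (x, l)) l' := by
  induction l generalizing x with
  | nil => rfl
  | cons e l ih => simp only [List.cons_append, edges, ih, ps0_lastL_cons]

theorem lastL_append {N D : Type} (x : N) (l l' : List (List (Option (List D)) × N)) :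
    lastL (x, l ++ l') = lastL (lastL (x, l), l') := by
  induction l generalizing x with
  | nil => rfl
  | cons e l ih => simp only [List.cons_append, ih, ps0_lastL_cons]

theorem ps0_edge_mem {N D : Type} {x : N} {l : List (List (Option (List D)) × N)} {e : Edge N D}
    (h : e ∈ edges x l) :
    e.1 ∈ x :: l.map Prod.snd ∧ e.2 ∈ l := by
  induction l generalizing x with
  | nil => simp [edges] at h
  | cons e' l ih =>
    rcases List.mem_cons.1 h with rfl | h
    · simp
    · exact ⟨List.mem_cons_of_mem _ (ih h).1, List.mem_cons_of_mem _ (ih h).2⟩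

theorem ps0_last_mem {N D : Type} (x : N) (l : List (List (Option (List D)) × N)) :
    lastL (x, l) ∈ x :: l.map Prod.snd := by
  induction l generalizing x with
  | nil => simp [ps0_lastL_nil]
  | cons e l ih =>
    rw [ps0_lastL_cons]
    exact List.mem_cons_of_mem _ (ih e.2)

theorem ps0_snd_edge {N D : Type} {x y : N} {l : List (List (Option (List D)) × N)}
    (h : y ∈ l.map Prod.snd) : ∃ e ∈ edges x l, e.2.2 = y := by
  induction l generalizing x with
  | nil => simp at h
  | cons e' l ih =>
    rcases List.mem_cons.1 h with rfl | h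
    · exact ⟨_, List.mem_cons_self, rfl⟩
    · obtain ⟨e, he, h⟩ := ih (x := e'.2) h
      exact ⟨e, List.mem_cons_of_mem _ he, h⟩

namespace PS

variable {N D : Type} (P : PS N D) {a b x y z : N} {t t' k k' : ℕ} {π : Pth N D}

theorem f_mem (x : N) : P.f x ∈ P.ch x := List.mem_cons_self

theorem ch_trans (h : y ∈ P.ch x) (h' : z ∈ P.ch y) : z ∈ P.ch x := P.trans x y z h h'

theorem sub_step (h : y ∈ P.ch x) (n : ℕ) : P.T y n <:+: P.T x (n + 1) := by
  rw [P.step]
  rcases List.mem_cons.1 h with rfl | h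
  · exact (List.prefix_append _ _).isInfix
  · obtain ⟨e, he, rfl⟩ := List.mem_map.1 h
    obtain ⟨l, l', hl⟩ := List.append_of_mem he
    rw [hl, List.flatMap_append, List.flatMap_cons]
    exact ⟨P.T (P.f x) n ++ (l.flatMap fun e => e.1.map (· n) ++ P.T e.2 n) ++ e.1.map (· n),
      l'.flatMap fun e => e.1.map (· n) ++ P.T e.2 n, by simp only [List.append_assoc]⟩

theorem sub_mono (h : a ∈ P.ch a) {n m : ℕ} (hn : n ≤ m) : P.T a n <:+: P.T a m := by
  induction m, hn using Nat.le_induction with
  | base => exact List.infix_rfl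
  | succ m _ ih => exact ih.trans (P.sub_step h m)

theorem first_step (x : N) (n : ℕ) : P.T (P.f x) n <+: P.T x (n + 1) := by
  rw [P.step]
  exact List.prefix_append _ _

theorem last_step (h : (P.ch x).getLast? = some y) (n : ℕ) : P.T y n <:+ P.T x (n + 1) := by
  rw [P.step]
  unfold ch at h
  rcases List.eq_nil_or_concat (P.rest x) with h1 | ⟨l, e, h1⟩
  · rw [h1] at h ⊢
    simp only [List.map_nil, List.getLast?_singleton, Option.some.injEq] at h
    simp [h]
  · rw [h1, List.concat_eq_append] at h ⊢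
    rw [List.map_append, ← List.cons_append, List.map_singleton, List.getLast?_concat,
      Option.some.injEq] at h
    rw [List.flatMap_append, List.flatMap_singleton, ← List.append_assoc, ← List.append_assoc, h]
    exact List.suffix_append _ _

theorem len_lt (x : N) (h : k < k') : P.len x k < P.len x k' := P.mono x h

theorem len_mono (x : N) (h : k ≤ k') : P.len x k ≤ P.len x k' := (P.mono x).monotone h

theorem lt_len (x : N) (k : ℕ) : k < P.len x k := by
  induction k with
  | zero => exact List.length_pos_iff.2 (P.pos x)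
  | succ k ih => exact lt_of_le_of_lt ih (P.len_lt x k.lt_succ_self)

theorem len_le_succ (h : y ∈ P.ch x) (k : ℕ) : P.len y k ≤ P.len x (k + 1) := 
  (P.sub_step h k).length_le

theorem ps0_len_succ {M : ℕ} (hM : 1 ≤ M) (h : ∀ z ∈ P.ch y, P.len z k ≤ M) :
    P.len y (k + 1) ≤ (1 + ((P.rest y).map fun e => e.1.length + 1).sum) * M := by
  have h1 : ∀ l : List (List (ℕ → List D) × N), (∀ e ∈ l, P.len e.2 k ≤ M) →
      (l.flatMap fun e => e.1.map (· k) ++ P.T e.2 k).length ≤
        (l.map fun e => e.1.length + 1).sum * M := by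
    intro l hl
    induction l with
    | nil => simp
    | cons e l ih =>
      have h2 := ih fun e' he' => hl e' (List.mem_cons_of_mem _ he')
      have h3 : (P.T e.2 k).length ≤ M := hl e List.mem_cons_self
      have h4 : e.1.length ≤ e.1.length * M := Nat.le_mul_of_pos_right _ hM
      simp only [List.flatMap_cons, List.length_append, List.length_map, List.map_cons,
        List.sum_cons, add_mul, one_mul]
      omega
  have h2 := h1 (P.rest y) fun e he => h _ (List.mem_cons_of_mem _ (List.mem_map_of_mem he))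
  have h3 : (P.T (P.f y) k).length ≤ M := h _ (P.f_mem y)
  rw [len, P.step, List.length_append, add_mul, one_mul]
  omega

theorem len_succ_le [Finite N] : ∃ C, 0 < C ∧ ∀ x k, P.len x (k + 1) ≤ C * P.len x k := by
  obtain ⟨B, hB⟩ := (Set.finite_range fun y =>
    1 + ((P.rest y).map fun e => e.1.length + 1).sum + P.len y 0).bddAbove
  have hB' : ∀ y, 1 + ((P.rest y).map fun e => e.1.length + 1).sum + P.len y 0 ≤ B :=
    fun y => hB ⟨y, rfl⟩
  refine ⟨(B + 1) * (B + 1), by positivity, fun x k => ?_⟩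
  have h0 : 1 ≤ P.len x k := by have := P.lt_len x k; omega
  have h1 : ∀ y ∈ P.ch x, P.len y k ≤ (B + 1) * P.len x k := by
    intro y hy
    have h2 := hB' y
    rcases k with _ | k
    · exact le_trans (by omega) (Nat.le_mul_of_pos_right _ h0)
    · exact (P.ps0_len_succ h0 fun z hz => P.len_le_succ (P.ch_trans hy hz) k).trans
        (Nat.mul_le_mul_right _ (by omega))
  have h2 := hB' x
  rw [mul_assoc]
  exact (P.ps0_len_succ (le_trans h0 (Nat.le_mul_of_pos_left _ B.succ_pos)) h1).trans
    (Nat.mul_le_mul_right _ (by omega))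

theorem length_rT (t k : ℕ) (x : N) : (P.rT t k x).length = P.len x k := List.length_map _

theorem lx_sub (h : y ∈ P.ch x) : P.Lx y ⊆ P.Lx x := 
  fun _ ⟨n, hn⟩ => ⟨n + 1, hn.trans (P.sub_step h n)⟩

theorem ll_sub (h : P.Lx a ⊆ P.Lx b) (t : ℕ) : P.LL a t ⊆ P.LL b t := by
  rintro z ⟨n, hn⟩
  obtain ⟨m, hm⟩ := h ⟨n, List.infix_rfl⟩
  exact ⟨m, hn.trans (hm.map _)⟩

theorem map_mem_ll {w : List (List D)} (h : w ∈ P.Lx a) (t : ℕ) : w.map (res t) ∈ P.LL a t := by
  obtain ⟨n, hn⟩ := h
  exact ⟨n, hn.map _⟩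

theorem mem_lx_of_map {w : List (List D)} (h : w.map (res t) ∈ P.LL a t)
    (hw : ∀ τ ∈ w, τ.length ≤ t) : w ∈ P.Lx a := by
  obtain ⟨n, hn⟩ := h
  obtain ⟨w', h1, h2⟩ := List.infix_map_iff.1 hn
  suffices w = w' from ⟨n, this ▸ h1⟩
  clear h1 hn
  induction w generalizing w' with
  | nil => simpa using h2
  | cons τ w ih =>
    rcases w' with _ | ⟨τ', w'⟩
    · simp at h2
    · rw [List.map_cons, List.map_cons, List.cons.injEq] at h2
      have h3 := h2.1
      rw [res, if_pos (hw τ List.mem_cons_self), res] at h3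
      split_ifs at h3
      rw [Option.some.injEq] at h3
      rw [h3, ih (fun σ hσ => hw σ (List.mem_cons_of_mem _ hσ)) w' h2.2]

theorem ll_fac {w w' : List (Option (List D))} (h : w ∈ P.LL a t) (h' : w' <:+: w) :
    w' ∈ P.LL a t := by
  obtain ⟨n, hn⟩ := h
  exact ⟨n, h'.trans hn⟩

theorem ll_long (a : N) (t n : ℕ) : ∃ w ∈ P.LL a t, w.length = n := by
  refine ⟨(P.rT t n a).take n, ⟨n, (List.take_prefix _ _).isInfix⟩, ?_⟩
  have := P.lt_len a n
  rw [List.length_take, length_rT]
  omega

theorem Bot.cl (h : P.Bot b) : P.Cl b b := by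
  refine ⟨?_, subset_rfl⟩
  by_cases h1 : ∃ y ∈ P.ch b, y ≠ b
  · obtain ⟨y, hy, h1⟩ := h1
    exact P.two b y hy (h.2 y hy) h1
  · have h2 : ∀ y ∈ P.ch b, b = y := fun y hy => by
      by_contra hc
      exact h1 ⟨y, hy, fun e => hc e.symm⟩
    rw [List.count_eq_length.2 h2, ch, List.length_cons, List.length_map]
    rcases h3 : P.rest b with _ | ⟨e, l⟩
    · have h4 := P.len_lt b (Nat.zero_lt_one)
      have h5 := P.step b 0
      rw [h3, ← h2 _ (P.f_mem b), List.flatMap_nil, List.append_nil] at h5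
      rw [len, len, ← h5] at h4
      exact absurd h4 (lt_irrefl _)
    · simp

theorem Cl.mem (h : P.Cl b a) : a ∈ P.ch a := 
  List.count_pos_iff.1 (lt_of_lt_of_le two_pos h.1)

theorem exists_bot [Finite N] [Nonempty N] : ∃ b, P.Bot b := by
  obtain ⟨x, hx⟩ := exists_minimalFor_of_wellFoundedLT (fun _ : N => True)
    (fun x => {y | y ∈ P.ch x}.ncard) ⟨Classical.arbitrary N, trivial⟩
  have h1 : ∀ y ∈ P.ch x, ∀ z ∈ P.ch x, z ∈ P.ch y := by
    intro y hy
    have h2 : {z | z ∈ P.ch y} ⊆ {z | z ∈ P.ch x} := fun z hz => P.ch_trans hy hz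
    have h3 := Set.eq_of_subset_of_ncard_le h2
      (hx.2 trivial (Set.ncard_le_ncard h2 (Set.toFinite _))) (Set.toFinite _)
    intro z hz
    have h4 : z ∈ {z | z ∈ P.ch x} := hz
    rwa [← h3] at h4
  exact ⟨P.f x, h1 _ (P.f_mem x) _ (P.f_mem x),
    fun y hy => h1 y (P.ch_trans (P.f_mem x) hy) _ (P.f_mem x)⟩

theorem ps0_grow {e : List (ℕ → List D) × N} (he : e ∈ P.rest y) {γ : ℕ → List D} (hγ : γ ∈ e.1)
    (h : lim γ = none) : StrictMono fun n => (γ n).length := by
  refine (P.cv y e he γ hγ).resolve_left fun hc => ?_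
  rw [lim, if_pos hc] at h
  exact absurd h (Option.some_ne_none _)

theorem Big.mono (h : P.Big a t k) (ht : t' ≤ t) (hk : k ≤ k') : P.Big a t' k' := 
  fun y hy e he γ hγ hl =>
    lt_of_lt_of_le (lt_of_le_of_lt ht (h y hy e he γ hγ hl)) ((P.ps0_grow he hγ hl).monotone hk)

theorem exists_big (a : N) (t : ℕ) : ∃ k, P.Big a t k := 
  ⟨t + 1, fun _ _ _ he _ hγ hl => (P.ps0_grow he hγ hl).le_apply⟩

theorem map_res_gap (h : P.Big a t k) (hx : x ∈ P.ch a) {e : List (ℕ → List D) × N}
    (he : e ∈ P.rest x) :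
    (e.1.map (· k)).map (res t) = (e.1.map lim).map (·.bind (res t)) := by
  rw [List.map_map, List.map_map]
  refine List.map_congr_left fun γ hγ => ?_
  simp only [Function.comp]
  by_cases h1 : ∀ n, γ n = γ 0
  · rw [lim, if_pos h1, Option.bind_some, h1 k]
  · have h2 : lim γ = none := if_neg h1
    rw [h2, Option.bind_none, res, if_neg (not_le.2 (h x hx e he γ hγ h2))]

theorem pre_append (t k : ℕ) (x : N) (l l' : List (List (Option (List D)) × N)) :
    P.pre t k x (l ++ l') = P.pre t k x l ++ P.pre t k (lastL (x, l)) l' := by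
  induction l generalizing x with
  | nil => rfl
  | cons e l ih => simp only [List.cons_append, pre, ih, ps0_lastL_cons, List.append_assoc]

theorem rT_res (h : t ≤ t') (k : ℕ) (x : N) :
    P.rT t k x = (P.rT t' k x).map (·.bind (res t)) := by
  rw [rT, rT, List.map_map]
  exact List.map_congr_left fun τ _ => (res_bind h τ).symm

theorem pre_res (h : t ≤ t') (k : ℕ) (x : N) (l : List (List (Option (List D)) × N)) :
    P.pre t k x l = (P.pre t' k x l).map (·.bind (res t)) := by
  induction l generalizing x with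
  | nil => rfl
  | cons e l ih =>
    rw [pre, pre, List.map_append, List.map_append, ← ih, ← P.rT_res h, List.map_map]
    congr 2
    refine List.map_congr_left fun o _ => ?_
    rcases o with _ | τ
    · rfl
    · exact (res_bind h τ).symm

theorem lastL_subP (π : Pth N D) : lastL (P.subP π) = P.f (lastL π) := by
  obtain ⟨x, l⟩ := π
  induction l generalizing x with
  | nil => rfl
  | cons e l ih =>
    have := ih e.2
    simp only [subP, sub', lastL_append, ps0_lastL_cons] at this ⊢
    exact this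

theorem ps0_bar_snd (x : N) : P.f x :: (P.bar x).map Prod.snd = P.ch x := by
  rw [bar, List.map_map]
  rfl

theorem lastL_bar (x : N) : (P.ch x).getLast? = some (lastL (P.f x, P.bar x)) := by
  rw [← ps0_bar_snd, List.getLast?_cons, lastL, List.getLastD_eq_getLast?]

theorem ps0_subB_cons (x : N) (e : List (Option (List D)) × N)
    (l : List (List (Option (List D)) × N)) :
    (P.subB (x, e :: l)).2 = P.bar x ++ (e.1, P.f e.2) :: (P.subB (e.2, l)).2 := by
  simp only [subB, sub', ps0_lastL_cons, List.append_assoc, List.cons_append]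

theorem ps0_mem_edges {e : Edge N D} :
    e ∈ edges (P.subB π).1 (P.subB π).2 ↔
      (∃ y ∈ π.1 :: π.2.map Prod.snd, e ∈ edges (P.f y) (P.bar y)) ∨
        ∃ e' ∈ edges π.1 π.2, e = (lastL (P.f e'.1, P.bar e'.1), e'.2.1, P.f e'.2.2) := by
  obtain ⟨x, l⟩ := π
  induction l generalizing x with
  | nil => simp [subB, sub', edges, ps0_lastL_nil]
  | cons e' l ih =>
    have h1 := ih e'.2
    rw [ps0_subB_cons, edges_append, List.mem_append, edges, List.mem_cons]
    change _ ∨ _ ∨ e ∈ edges (P.subB (e'.2, l)).1 _ ↔ _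
    rw [h1]
    simp only [List.map_cons, edges, List.mem_cons (b := x), List.mem_cons (b := (x, e'.1, e'.2)),
      exists_eq_or_imp, subB, or_assoc]
    exact or_congr_right or_left_comm

theorem ps0_letter (h : y ∈ (P.subB π).1 :: (P.subB π).2.map Prod.snd) :
    ∃ x ∈ π.1 :: π.2.map Prod.snd, y ∈ P.ch x := by
  obtain ⟨x, l⟩ := π
  induction l generalizing x with
  | nil =>
    refine ⟨x, List.mem_cons_self, ?_⟩
    rw [← ps0_bar_snd]
    exact h
  | cons e l ih =>
    rw [ps0_subB_cons, List.map_append, ← List.cons_append, List.mem_append] at h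
    rcases h with h | h
    · refine ⟨x, List.mem_cons_self, ?_⟩
      rw [← ps0_bar_snd]
      exact h
    · obtain ⟨x', h1, h2⟩ := ih e.2 h
      exact ⟨x', List.mem_cons_of_mem _ h1, h2⟩

theorem ps0_iter_letter (j : ℕ)
    (h : y ∈ (P.subB^[j + 1] (a, [])).1 :: (P.subB^[j + 1] (a, [])).2.map Prod.snd) :
    y ∈ P.ch a := by
  induction j generalizing y with
  | zero =>
    obtain ⟨x, h1, h2⟩ := P.ps0_letter h
    rwa [List.mem_singleton.1 h1] at h2
  | succ j ih =>
    rw [Function.iterate_succ_apply'] at h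
    obtain ⟨x, h1, h2⟩ := P.ps0_letter h
    exact P.ch_trans (ih h1) h2

theorem EE_finite [Finite N] (a : N) : (P.EE a).Finite := by
  have h1 : (⋃ x, {s | s ∈ (P.bar x).map Prod.fst}).Finite :=
    Set.finite_iUnion fun x => List.finite_toSet _
  refine ((Set.finite_univ (α := N)).prod (h1.prod (Set.finite_univ (α := N)))).subset ?_
  rintro e ⟨j, he⟩
  refine ⟨trivial, ?_, trivial⟩
  induction j generalizing e with
  | zero => simp [edges] at he
  | succ j ih =>
    rw [Function.iterate_succ_apply'] at he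
    rcases P.ps0_mem_edges.1 he with ⟨y, -, h⟩ | ⟨e', h, rfl⟩
    · exact Set.mem_iUnion.2 ⟨y, List.mem_map_of_mem (ps0_edge_mem h).2⟩
    · exact ih (e := e') h

theorem EE_mem {e : Edge N D} (h : e ∈ P.EE a) : e.1 ∈ P.ch a ∧ e.2.2 ∈ P.ch a := by
  obtain ⟨j, he⟩ := h
  rcases j with _ | j
  · simp [edges] at he
  · have h1 := ps0_edge_mem he
    exact ⟨P.ps0_iter_letter j h1.1,
      P.ps0_iter_letter j (List.mem_cons_of_mem _ (List.mem_map_of_mem h1.2))⟩

theorem Adm.ps0_letter (h : P.Adm a π) (hy : y ∈ π.1 :: π.2.map Prod.snd) : y ∈ P.ch a := by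
  rcases List.mem_cons.1 hy with rfl | hy
  · exact h.1
  · obtain ⟨e, he, rfl⟩ := ps0_snd_edge (x := π.1) hy
    exact (P.EE_mem (h.2 e he)).2

theorem Adm.last (h : P.Adm a π) : lastL π ∈ P.ch a := 
  Adm.ps0_letter P h (ps0_last_mem π.1 π.2)

theorem ps0_bar_EE (h : x ∈ P.ch a) {e : Edge N D} (he : e ∈ edges (P.f x) (P.bar x)) :
    e ∈ P.EE a := by
  refine ⟨2, ?_⟩
  rw [Function.iterate_succ_apply']
  refine P.ps0_mem_edges.2 (Or.inl ⟨x, ?_, he⟩)
  rw [← ps0_bar_snd] at h
  exact h

theorem Adm.ps0_subB (h : P.Adm a π) : P.Adm a (P.subB π) := by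
  refine ⟨P.ch_trans h.1 (P.f_mem _), fun e he => ?_⟩
  rcases P.ps0_mem_edges.1 he with ⟨y, hy, h1⟩ | ⟨e', h1, rfl⟩
  · exact P.ps0_bar_EE (Adm.ps0_letter P h hy) h1
  · obtain ⟨j, hj⟩ := h.2 e' h1
    refine ⟨j + 1, ?_⟩
    rw [Function.iterate_succ_apply']
    exact P.ps0_mem_edges.2 (Or.inr ⟨e', hj, rfl⟩)

theorem Adm.subP (h : P.Adm a π) : P.Adm a (P.subP π) := by
  have h1 := Adm.ps0_subB P h
  refine ⟨h1.1, fun e he => h1.2 e ?_⟩
  simp only [PS.subB, edges_append]
  exact List.mem_append_left _ he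

theorem Adm.subB (h : P.Adm a π) : P.Adm a (P.subB π) := Adm.ps0_subB P h

theorem adm_iter (h : a ∈ P.ch a) (j : ℕ) : P.Adm a (P.subB^[j] (a, [])) := by
  induction j with
  | zero => exact ⟨h, fun e he => by simp [edges] at he⟩
  | succ j ih =>
    rw [Function.iterate_succ_apply']
    exact Adm.subB P ih

theorem adm_bar (h : x ∈ P.ch a) : P.Adm a (P.f x, P.bar x) := 
  ⟨P.ch_trans h (P.f_mem x), fun _ he => P.ps0_bar_EE h he⟩

theorem adm_append {l l' : List (List (Option (List D)) × N)} :
    P.Adm a (x, l ++ l') ↔ P.Adm a (x, l) ∧ P.Adm a (lastL (x, l), l') := by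
  constructor
  · intro h
    have h1 : P.Adm a (x, l) := ⟨h.1, fun e he => h.2 e (by
      simp only [edges_append]
      exact List.mem_append_left _ he)⟩
    exact ⟨h1, Adm.last P h1, fun e he => h.2 e (by
      simp only [edges_append]
      exact List.mem_append_right _ he)⟩
  · rintro ⟨h1, h2⟩
    refine ⟨h1.1, fun e he => ?_⟩
    simp only [edges_append] at he
    rcases List.mem_append.1 he with he | he
    · exact h1.2 e he
    · exact h2.2 e he

theorem ps0_gb_cons (t k : ℕ) (x : N) (e : List (Option (List D)) × N)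
    (l : List (List (Option (List D)) × N)) :
    P.gb t k (x, e :: l) = P.rT t k x ++ e.1.map (·.bind (res t)) ++ P.gb t k (e.2, l) := by
  simp only [gb, pre, ps0_lastL_cons, List.append_assoc]

theorem ps0_gb_eq (t k : ℕ) (x : N) (l : List (List (Option (List D)) × N)) :
    P.gb t k (x, l) = P.rT t k x ++ l.flatMap fun e => e.1.map (·.bind (res t)) ++ P.rT t k e.2 := by
  induction l generalizing x with
  | nil => simp [gb, pre, ps0_lastL_nil]
  | cons e l ih => simp only [ps0_gb_cons, ih, List.flatMap_cons, List.append_assoc]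

theorem rT_succ (h : P.Big a t k) (hx : x ∈ P.ch a) :
    P.rT t (k + 1) x = P.gb t k (P.f x, P.bar x) := by
  rw [ps0_gb_eq, rT, P.step, List.map_append, bar, List.flatMap_map, List.map_flatMap]
  congr 1
  refine List.flatMap_congr fun e he => ?_
  rw [List.map_append, P.map_res_gap h hx he]
  rfl

theorem pre_succ (h : P.Big a t k) (hπ : P.Adm a π) :
    P.pre t (k + 1) π.1 π.2 = P.pre t k (P.subP π).1 (P.subP π).2 := by
  obtain ⟨x, l⟩ := π
  induction l generalizing x with
  | nil => rfl
  | cons e l ih =>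
    have h1 := ih e.2 (P.adm_append (l := [e]).1 hπ).2
    simp only [subP] at h1
    simp only [subP, sub', pre, pre_append, h1, P.rT_succ h hπ.1, gb, List.append_assoc]

theorem gb_succ (h : P.Big a t k) (hπ : P.Adm a π) :
    P.gb t (k + 1) π = P.gb t k (P.subB π) := by
  have h1 := P.lastL_subP π
  rw [gb, P.pre_succ h hπ, P.rT_succ h (Adm.last P hπ)]
  simp only [subP] at h1
  simp only [gb, subP, subB, pre_append, lastL_append, h1, List.append_assoc]

theorem rT_iter (ha : a ∈ P.ch a) (h : P.Big a t k) (j : ℕ) :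
    P.rT t (k + j) a = P.gb t k (P.subB^[j] (a, [])) := by
  have h1 : ∀ π, P.Adm a π → P.gb t (k + j) π = P.gb t k (P.subB^[j] π) := by
    induction j with
    | zero => exact fun _ _ => rfl
    | succ j ih =>
      intro π hπ
      rw [← add_assoc, P.gb_succ (Big.mono P h le_rfl (Nat.le_add_right k j)) hπ,
        ih _ (Adm.subB P hπ), Function.iterate_succ_apply]
  rw [← h1 (a, []) (P.adm_iter ha 0)]
  rfl

theorem ps0_edge_infix (t k : ℕ) {l : List (List (Option (List D)) × N)} {e : Edge N D}
    (h : e ∈ edges x l) : P.gb t k (e.1, [(e.2.1, e.2.2)]) <:+: P.gb t k (x, l) := by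
  induction l generalizing x with
  | nil => simp [edges] at h
  | cons e' l ih =>
    rcases List.mem_cons.1 h with rfl | h
    · simp only [ps0_gb_eq, List.flatMap_cons, List.flatMap_nil, List.append_nil,
        ← List.append_assoc]
      exact (List.prefix_append _ _).isInfix
    · rw [P.ps0_gb_cons t k x]
      exact (ih h).trans (List.suffix_append _ _).isInfix

theorem edge_ll (ha : a ∈ P.ch a) (h : P.Big a t k) {e : Edge N D} (he : e ∈ P.EE a) :
    P.gb t k (e.1, [(e.2.1, e.2.2)]) ∈ P.LL a t := by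
  obtain ⟨j, hj⟩ := he
  refine ⟨k + j, ?_⟩
  rw [P.rT_iter ha h]
  exact P.ps0_edge_infix t k hj

end PS

end Pool.Agent.P.MP_406085_lc
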