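import Mathlib

/-!
The two decision problems.
-/

namespace Pool.Agent.P.MP_406085_lc

/-- The morphism given by the list of images of the letters `0, 1, …`; other letters are erased. -/
def mor (h : List (List ℕ)) (u : List ℕ) : List ℕ := u.flatMap fun a => h.getD a []

/-- An instance `(w, h, g, f)` is compatible if `g (h ^ n w) = f (h ^ n w)` for some `n`. -/
def Compat (p : List ℕ × List (List ℕ) × List (List ℕ) × List (List ℕ)) : Prop :=
  ∃ n : ℕ, mor p.2.2.1 ((mor p.2.1)^[n] p.1) = mor p.2.2.2 ((mor p.2.1)^[n] p.1)

/-- The scalar product of two integer vectors; missing entries count as zero. -/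
def dot (a b : List ℤ) : ℤ := (List.zipWith (· * ·) a b).sum

/-- A matrix, given by its rows, applied to a vector. -/
def mulV (A : List (List ℤ)) (v : List ℤ) : List ℤ := A.map fun a => dot a v

/-- The Skolem problem: the sequence `α A ^ n β` has a zero. -/
def Skolem (q : List ℤ × List (List ℤ) × List ℤ) : Prop :=
  ∃ n : ℕ, dot q.1 ((mulV q.2.1)^[n] q.2.2) = 0

open Classical in
/-- The characteristic function of the set of codes of elements satisfying `P`. -/
noncomputable def chi {α : Type} [Primcodable α] (P : α → Prop) : ℕ →. ℕ :=
  fun n => Part.some (if ∃ a, Encodable.decode n = some a ∧ P a then 1 else 0)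

end Pool.Agent.P.MP_406085_lc
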