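import Pool.Agent.P.MP_406085_lc.CDefs

/-!
Soundness of certificates, and the passage between lists and matrices.
-/

namespace Pool.Agent.P.MP_406085_lc

open Filter PowerSeries
open scoped Classical

/-- The matrix given by a list of rows. -/
def toM (m : ℕ) (A : Mat) : Matrix (Fin m) (Fin m) ℤ := fun i j => ent A i j

/-- The list of rows of a matrix. -/
def ofM {m : ℕ} (A : Matrix (Fin m) (Fin m) ℤ) : Mat := List.ofFn fun i => List.ofFn fun j => A i j

theorem toM_ofM {m : ℕ} (A : Matrix (Fin m) (Fin m) ℤ) : toM m (ofM A) = A := by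
  ext i j
  simp [toM, ofM, ent, List.getD_eq_getElem?_getD]

theorem snd_ent_range (m : ℕ) (F : ℕ → ℕ → ℤ) {i j : ℕ} (hi : i < m) (hj : j < m) :
    ent ((List.range m).map fun i => (List.range m).map fun j => F i j) i j = F i j := by
  simp [ent, List.getD_eq_getElem?_getD, hi, hj]

theorem snd_sum_range (m : ℕ) (F : ℕ → ℤ) :
    ((List.range m).map F).sum = ∑ k : Fin m, F k := by
  rw [Fin.sum_univ_eq_sum_range F m]
  induction m with
  | zero => simp
  | succ m ih => rw [List.range_succ, List.map_append, List.sum_append, ih, Finset.sum_range_succ]; simp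

theorem toM_mm (m : ℕ) (A B : Mat) : toM m (mm m A B) = toM m A * toM m B := by
  ext i j
  rw [Matrix.mul_apply]
  unfold toM mm
  rw [snd_ent_range m (fun i j => ((List.range m).map fun k => ent A i k * ent B k j).sum) i.2 j.2,
    snd_sum_range]

theorem toM_idm (m : ℕ) : toM m (idm m) = 1 := by
  ext i j
  unfold toM idm
  rw [snd_ent_range m (fun i j => if i = j then 1 else 0) i.2 j.2, Matrix.one_apply]
  simp [Fin.ext_iff]

theorem toM_prodm (m : ℕ) (R : List Mat) (w : List ℕ) :
    toM m (prodm m R w) = (w.map fun c => toM m (R.getD c [])).prod := by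
  induction w with
  | nil => simp [prodm, toM_idm]
  | cons c w ih =>
    rw [List.map_cons, List.prod_cons, ← ih, ← toM_mm]
    rfl

theorem mm_eq_iff {m : ℕ} {A B A' B' : Mat} :
    mm m A B = mm m A' B' ↔ toM m A * toM m B = toM m A' * toM m B' := by
  constructor
  · intro h
    rw [← toM_mm, ← toM_mm, h]
  · intro h
    unfold mm
    refine List.map_congr_left fun i hi => List.map_congr_left fun j hj => ?_
    have hi' := List.mem_range.1 hi
    have hj' := List.mem_range.1 hj
    have := congrFun (congrFun h ⟨i, hi'⟩) ⟨j, hj'⟩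
    rw [Matrix.mul_apply, Matrix.mul_apply] at this
    rw [snd_sum_range, snd_sum_range]
    exact this

/-- The vector given by a list. -/
def snd_vec (m : ℕ) (a : List ℤ) : Fin m → ℤ := fun i => a.getD i 0

theorem snd_dot_range (a : List ℤ) : ∀ (b : List ℤ) (m : ℕ), b.length ≤ m →
    dot a b = ∑ i ∈ Finset.range m, a.getD i 0 * b.getD i 0 := by
  induction a with
  | nil => intro b m _; simp [dot]
  | cons x a ih =>
    intro b m hb
    cases b with
    | nil => simp [dot]
    | cons y b =>
      obtain ⟨m, rfl⟩ : ∃ m', m = m' + 1 := ⟨m - 1, by simp at hb; omega⟩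
      have h := ih b m (by simpa using hb)
      rw [Finset.sum_range_succ']
      simp only [List.getD_cons_succ, List.getD_cons_zero]
      rw [← h]
      simp [dot, add_comm]

theorem snd_dot (m : ℕ) (a b : List ℤ) (hb : b.length ≤ m) :
    dot a b = snd_vec m a ⬝ᵥ snd_vec m b := by
  rw [snd_dot_range a b m hb, dotProduct,
    ← Fin.sum_univ_eq_sum_range (fun i => a.getD i 0 * b.getD i 0) m]
  rfl

theorem snd_mulV (m : ℕ) (A : Mat) (v : List ℤ) (hv : v.length ≤ m) :
    snd_vec m (mulV A v) = (toM m A).mulVec (snd_vec m v) := by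
  ext i
  have h1 : (mulV A v).getD i 0 = dot (A.getD i []) v := by
    unfold mulV
    rw [List.getD_eq_getElem?_getD, List.getD_eq_getElem?_getD, List.getElem?_map]
    cases A[(i : ℕ)]? with
    | none => simp [dot]
    | some a => simp
  show (mulV A v).getD i 0 = _
  rw [h1, snd_dot m _ v hv]
  rfl

theorem snd_iter (m : ℕ) (A : Mat) (v : List ℤ) (hA : A.length ≤ m) (hv : v.length ≤ m) (n : ℕ) :
    ((mulV A)^[n] v).length ≤ m ∧
      snd_vec m ((mulV A)^[n] v) = (toM m A ^ n).mulVec (snd_vec m v) := by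
  induction n with
  | zero => simp [hv]
  | succ n ih =>
    rw [Function.iterate_succ_apply']
    refine ⟨by simpa [mulV] using hA, ?_⟩
    rw [snd_mulV m A _ ih.1, ih.2, Matrix.mulVec_mulVec, pow_succ']

theorem snd_val (m : ℕ) (q : SkI) (hA : q.2.1.length ≤ m) (hv : q.2.2.length ≤ m) (n : ℕ) :
    val q n = snd_vec m q.1 ⬝ᵥ (toM m q.2.1 ^ n).mulVec (snd_vec m q.2.2) := by
  have h := snd_iter m q.2.1 q.2.2 hA hv n
  rw [val, snd_dot m _ _ h.1, h.2]

theorem snd_prodm_append (m : ℕ) (R : List Mat) (u v : List ℕ) :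
    toM m (prodm m R (u ++ v)) = toM m (prodm m R u) * toM m (prodm m R v) := by
  simp only [toM_prodm, List.map_append, List.prod_append]

theorem snd_inter {m s : ℕ} {X : Matrix (Fin m) (Fin m) ℤ} {R R' : List Mat} {h : List (List ℕ)}
    (hc : ∀ c < s, X * toM m (prodm m R' (h.getD c [])) = toM m (R.getD c []) * X)
    (u : List ℕ) (hu : ∀ a ∈ u, a < s) :
    X * toM m (prodm m R' (mor h u)) = toM m (prodm m R u) * X := by
  induction u with
  | nil => simp [mor, prodm, toM_idm]
  | cons c u ih =>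
    have h1 : mor h (c :: u) = h.getD c [] ++ mor h u := by simp [mor]
    have h2 : toM m (prodm m R (c :: u)) = toM m (R.getD c []) * toM m (prodm m R u) := by
      simp only [toM_prodm, List.map_cons, List.prod_cons]
    rw [h1, h2, snd_prodm_append, ← Matrix.mul_assoc, hc c (hu c (by simp)), Matrix.mul_assoc,
      ih fun a ha => hu a (by simp [ha]), Matrix.mul_assoc]

theorem snd_mor_lt {s : ℕ} {h : List (List ℕ)} (hh : ∀ u ∈ h, ∀ a ∈ u, a < s) (w : List ℕ) :
    ∀ a ∈ mor h w, a < s := by
  intro a ha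
  obtain ⟨c, -, hc⟩ := List.mem_flatMap.1 ha
  rw [List.getD_eq_getElem?_getD] at hc
  cases hq : h[c]? with
  | none => simp [hq] at hc
  | some u =>
    rw [hq] at hc
    exact hh u (List.mem_of_getElem? hq) a hc

theorem snd_iter_lt {s : ℕ} {h : List (List ℕ)} (hh : ∀ u ∈ h, ∀ a ∈ u, a < s) {w : List ℕ}
    (hw : ∀ a ∈ w, a < s) (n : ℕ) : ∀ a ∈ (mor h)^[n] w, a < s := by
  cases n with
  | zero => exact hw
  | succ n => rw [Function.iterate_succ_apply']; exact snd_mor_lt hh _

/-- The value of the instance given by a valid certificate. -/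
theorem val_ins {p : Inst} {k : Cert} (h : chk p k = true) (n : ℕ) :
    val (ins p k) n = if h0 : 0 < k.1.1 then
      (toM k.1.1 k.2.2.2.2.2.1 * toM k.1.1 k.2.2.2.1 *
        (toM k.1.1 (prodm k.1.1 k.2.1.2 (mor p.2.2.1 ((mor p.2.1)^[n] p.1))) -
          toM k.1.1 (prodm k.1.1 k.2.1.2 (mor p.2.2.2 ((mor p.2.1)^[n] p.1)))) *
        toM k.1.1 k.2.2.2.2.2.2) ⟨0, h0⟩ ⟨0, h0⟩ else 0 := by
  obtain ⟨w, hh, g, f⟩ := p
  obtain ⟨⟨m, s⟩, ⟨R, R'⟩, H, G, G', E, Ps⟩ := k
  have h' := h
  simp only [chk, Bool.and_eq_true, List.all_eq_true, decide_eq_true_eq, List.mem_range,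
    mm_eq_iff, toM_idm, Matrix.mul_one] at h'
  obtain ⟨⟨⟨⟨hw, hhh⟩, hc⟩, hE⟩, hG⟩ := h'
  have hval := snd_val m (ins (w, hh, g, f) ((m, s), (R, R'), H, G, G', E, Ps))
    (by simp [ins, h, mm]) (by simp [ins, h]) n
  rw [hval]
  simp only [ins, h, cond_true]
  split_ifs with h0
  · have hlt := snd_iter_lt hhh hw
    have key : ∀ n : ℕ, toM m E * toM m (prodm m R w) * toM m H ^ n =
        toM m E * toM m H ^ n * toM m (prodm m R ((mor hh)^[n] w)) := by
      intro n
      induction n with
      | zero => simp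
      | succ n ih =>
        rw [pow_succ, ← Matrix.mul_assoc, ih, Function.iterate_succ_apply', Matrix.mul_assoc,
          ← snd_inter (fun c hc' => (hc c hc').1.1) _ (hlt n)]
        simp only [Matrix.mul_assoc]
    have hEn : ∀ n : ℕ, toM m E * toM m H ^ n = toM m E := by
      intro n
      induction n with
      | zero => simp
      | succ n ih => rw [pow_succ, ← Matrix.mul_assoc, ih, hE]
    have e1 := snd_inter (fun c hc' => (hc c hc').1.2) _ (hlt n)
    have e2 := snd_inter (fun c hc' => (hc c hc').2) _ (hlt n)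
    have e3 : toM m E * toM m G *
        (toM m (prodm m R' (mor g ((mor hh)^[n] w))) - toM m (prodm m R' (mor f ((mor hh)^[n] w)))) *
        toM m Ps = toM m E * toM m (prodm m R w) *
          (toM m H ^ n * (toM m G * toM m Ps - toM m G' * toM m Ps)) := by
      rw [← Matrix.mul_assoc, key, hEn, Matrix.mul_sub]
      nth_rewrite 2 [hG]
      rw [Matrix.mul_assoc (toM m E) (toM m G), Matrix.mul_assoc (toM m E) (toM m G'), e1, e2,
        Matrix.sub_mul, Matrix.mul_sub]
      simp only [Matrix.mul_assoc]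
    rw [e3, toM_mm, toM_idm, Matrix.mul_one]
    have v1 : snd_vec m ((mm m E (prodm m R w)).getD 0 []) =
        (toM m E * toM m (prodm m R w)) ⟨0, h0⟩ := by
      rw [← toM_mm]; rfl
    have v2 : snd_vec m ((List.range m).map fun i => ent (mm m G Ps) i 0 - ent (mm m G' Ps) i 0) =
        fun i => (toM m G * toM m Ps - toM m G' * toM m Ps) i ⟨0, h0⟩ := by
      rw [← toM_mm, ← toM_mm]
      ext i
      simp [snd_vec, toM, List.getD_eq_getElem?_getD]
    rw [v1, v2, Matrix.mul_apply]
    rfl
  · obtain rfl : m = 0 := by omega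
    simp [dotProduct]

theorem ins_sound (p : Inst) (k : Cert) {n : ℕ} (h : Eqn p n) : val (ins p k) n = 0 := by
  cases hc : chk p k with
  | false => simp [ins, hc, val, dot]
  | true =>
    rw [val_ins hc]
    unfold Eqn at h
    rw [h]
    simp

/-- Every instance of the Skolem problem is given by a square matrix. -/
theorem val_matrix (q : SkI) : ∃ (m : ℕ) (α β : Fin m → ℤ) (A : Matrix (Fin m) (Fin m) ℤ),
    ∀ n, val q n = α ⬝ᵥ (A ^ n).mulVec β :=
  ⟨max q.2.1.length q.2.2.length, _, _, _,
    snd_val _ q (le_max_left _ _) (le_max_right _ _)⟩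

end Pool.Agent.P.MP_406085_lc
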