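import Pool.Agent.P.MP_406085_lc.LR

/-!
Special factors and scales below a bottom letter.
-/

namespace Pool.Agent.P.MP_406085_lc

open Filter PowerSeries
open scoped Classical

namespace SpgA

theorem first_diff {α : Type} : ∀ (A B : List α), A.length = B.length → A ≠ B →
    ∃ (p : List α) (x y : α) (u v : List α), x ≠ y ∧ A = p ++ x :: u ∧ B = p ++ y :: v
  | [], [], _, h => absurd rfl h
  | [], _ :: _, h, _ => by simp at h
  | _ :: _, [], h, _ => by simp at h
  | x :: A, y :: B, h, h' => by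
    by_cases e : x = y
    · subst e
      obtain ⟨p, x', y', u, v, h1, h2, h3⟩ :=
        first_diff A B (by simpa using h) fun e => h' (by rw [e])
      exact ⟨x :: p, x', y', u, v, h1, by rw [h2]; rfl, by rw [h3]; rfl⟩
    · exact ⟨[], x, y, A, B, e, rfl, rfl⟩

theorem sps_trim {α : Type} {Λ : Set (List α)} (hf : ∀ z ∈ Λ, ∀ z', z' <:+: z → z' ∈ Λ)
    {z : List α} {x y : α} {K L : ℕ} (hxy : x ≠ y) (hx : z ++ [x] ∈ Λ) (hy : z ++ [y] ∈ Λ)
    (hK : 1 ≤ K) (hL : L ≤ K * z.length) : SPs Λ K L := by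
  have hs : ∀ c : α, z.drop (z.length - L) ++ [c] <:+: z ++ [c] := fun c => by
    refine List.IsSuffix.isInfix ⟨z.take (z.length - L), ?_⟩
    rw [← List.append_assoc, List.take_append_drop]
  refine ⟨z.drop (z.length - L), x, y, hxy, hf _ hx _ (hs x), hf _ hy _ (hs y), ?_, ?_⟩
  · rw [List.length_drop]
    rcases le_total z.length L with h | h
    · rw [Nat.sub_eq_zero_of_le h, Nat.sub_zero]
      exact hL
    · rw [show z.length - (z.length - L) = L by omega]
      exact Nat.le_mul_of_pos_left _ hK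
  · rw [List.length_drop]
    omega

variable {N D : Type} (P : PS N D) {a b : N}

theorem sps_exact {z : List (List D)} {x y : List D} {t K : ℕ} (hxy : x ≠ y)
    (hx : z ++ [x] ∈ P.Lx b) (hy : z ++ [y] ∈ P.Lx b) (h1 : x.length ≤ t) (h2 : y.length ≤ t)
    (hK : 1 ≤ K) : SPs (P.LL b t) K z.length := by
  have e1 := P.map_mem_ll hx t
  have e2 := P.map_mem_ll hy t
  simp only [List.map_append, List.map_cons, List.map_nil, res, if_pos h1, if_pos h2] at e1 e2
  refine ⟨z.map (res t), some x, some y, fun h => hxy (Option.some.inj h), e1, e2, ?_, ?_⟩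
  · rw [List.length_map]
    exact Nat.le_mul_of_pos_left _ hK
  · rw [List.length_map]

/-- Growing tokens below a letter. -/
def Gr (a : N) : Prop := ∃ y ∈ P.ch a, ∃ e ∈ P.rest y, ∃ γ ∈ e.1, lim γ = none

theorem grow_mono {y : N} {e : List (ℕ → List D) × N} (he : e ∈ P.rest y) {γ : ℕ → List D}
    (hγ : γ ∈ e.1) (h : lim γ = none) : StrictMono fun n => (γ n).length := by
  rcases P.cv y e he γ hγ with h' | h'
  · rw [lim, if_pos h'] at h
    exact absurd h (by simp)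
  · exact h'

theorem big_of_not_gr (h : ¬ Gr P a) (t k : ℕ) : P.Big a t k :=
  fun y hy e he γ hγ hl => absurd ⟨y, hy, e, he, γ, hγ, hl⟩ h

theorem big_step (h : Gr P a) (k : ℕ) : ∃ t, P.Big a t (k + 1) ∧ ¬ P.Big a t k := by
  have hex : ∃ t, ¬ P.Big a t (k + 1) := by
    obtain ⟨y, hy, e, he, γ, hγ, hl⟩ := h
    exact ⟨(γ (k + 1)).length, fun hb => lt_irrefl _ (hb y hy e he γ hγ hl)⟩
  have h0 : P.Big a 0 (k + 1) := fun y _ e he γ hγ hl =>
    lt_of_le_of_lt (Nat.zero_le _) (grow_mono P he hγ hl (Nat.succ_pos k))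
  have hs := Nat.find_spec hex
  have hp : Nat.find hex ≠ 0 := fun e => hs (e ▸ h0)
  obtain ⟨t, ht⟩ := Nat.exists_eq_succ_of_ne_zero hp
  refine ⟨t, not_not.mp (Nat.find_min hex (by omega)), fun hb => hs ?_⟩
  intro y hy e he γ hγ hl
  have h1 := hb y hy e he γ hγ hl
  have h2 : (γ k).length < (γ (k + 1)).length := grow_mono P he hγ hl (Nat.lt_succ_self k)
  omega

theorem big_large (h : Gr P a) (n : ℕ) : ∃ t₀, ∀ t, t₀ ≤ t → ∀ k, P.Big a t k → n < k := by
  obtain ⟨y, hy, e, he, γ, hγ, hl⟩ := h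
  refine ⟨(γ n).length, fun t ht k hb => ?_⟩
  by_contra hk
  have h1 := hb y hy e he γ hγ hl
  have h2 : (γ k).length ≤ (γ n).length := (grow_mono P he hγ hl).monotone (by omega)
  omega

theorem suffix_flat (m : ℕ) : ∀ (l : List (List (ℕ → List D) × N)) (x : N),
    P.T ((x :: l.map Prod.snd).getLast (by simp)) m <:+
      P.T x m ++ l.flatMap fun e => e.1.map (· m) ++ P.T e.2 m
  | [], x => by simp
  | e :: l, x => by
    have := suffix_flat m l e.2
    simp only [List.map_cons, List.flatMap_cons, List.getLast_cons_cons]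
    refine this.trans ⟨P.T x m ++ e.1.map (· m), ?_⟩
    simp only [List.append_assoc]

theorem gap_infix {c : N} {e : List (ℕ → List D) × N} (he : e ∈ P.rest c) :
    ∃ x ∈ P.ch c, ∀ m, P.T x m ++ e.1.map (· m) <:+: P.T c (m + 1) := by
  obtain ⟨l₁, l₂, hl⟩ := List.append_of_mem he
  refine ⟨(P.f c :: l₁.map Prod.snd).getLast (by simp), ?_, fun m => ?_⟩
  · have := List.getLast_mem (l := P.f c :: l₁.map Prod.snd) (by simp)
    rw [PS.ch, hl, List.map_append, ← List.cons_append]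
    exact List.mem_append_left _ this
  · obtain ⟨w, hw⟩ := suffix_flat P m l₁ (P.f c)
    refine ⟨w, P.T e.2 m ++ l₂.flatMap fun e => e.1.map (· m) ++ P.T e.2 m, ?_⟩
    rw [P.step, hl, List.flatMap_append, List.flatMap_cons, ← List.append_assoc (P.T (P.f c) m),
      ← hw]
    simp only [List.append_assoc]

theorem len_pow {C : ℕ} (hC : ∀ x k, P.len x (k + 1) ≤ C * P.len x k) (x : N) (k j : ℕ) :
    P.len x (k + j) ≤ C ^ j * P.len x k := by
  induction j with
  | zero => simp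
  | succ j ih =>
    calc P.len x (k + (j + 1)) ≤ C * P.len x (k + j) := hC x (k + j)
      _ ≤ C * (C ^ j * P.len x k) := Nat.mul_le_mul_left _ ih
      _ = C ^ (j + 1) * P.len x k := by ring

end SpgA

open SpgA

variable {N D : Type} [Finite N] (P : PS N D) {a b : N}

omit [Finite N] in
theorem PS.spg (ha : a ∈ P.ch a) {t k : ℕ} (h : P.Big a t (k + 2)) (h' : ¬ P.Big a t (k + 1)) :
    ∃ y ∈ P.ch a, ∃ (z : List (Option (List D))) (α β : Option (List D)), α ≠ β ∧
      z ++ [α] ∈ P.LL a t ∧ z ++ [β] ∈ P.LL a t ∧ P.len y k ≤ z.length := by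
  have _ := ha
  unfold PS.Big at h'
  push Not at h'
  obtain ⟨c, hc, e, he, γ, hγ, hl, h1⟩ := h'
  have h2 := h c hc e he γ hγ hl
  obtain ⟨x, hx, hinf⟩ := gap_infix P he
  have hne : P.ch x ≠ [] := by simp [PS.ch]
  obtain ⟨y, hy⟩ : ∃ y, (P.ch x).getLast? = some y := ⟨_, List.getLast?_eq_some_getLast hne⟩
  have hyx : y ∈ P.ch x := List.mem_of_getLast? hy
  have hyy : (P.ch y).getLast? = some y := P.ll x y hy
  have s1 : P.T y k <:+ P.T x (k + 1) := P.last_step hy k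
  have s2 : P.T y k <:+ P.T x (k + 2) := (P.last_step hyy k).trans (P.last_step hy (k + 1))
  have key : ∀ m, P.T y k <:+ P.T x m →
      P.rT t k y ++ e.1.map (fun g => res t (g m)) ∈ P.LL a t := fun m hm => by
    have h3 : P.T y k ++ e.1.map (· m) ∈ P.Lx c := by
      refine ⟨m + 1, List.IsInfix.trans ?_ (hinf m)⟩
      obtain ⟨w, hw⟩ := hm
      exact List.IsSuffix.isInfix ⟨w, by rw [← hw, List.append_assoc]⟩
    have h4 := P.map_mem_ll (P.lx_sub hc h3) t
    rwa [List.map_append, List.map_map] at h4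
  obtain ⟨p, α, β, u, v, hαβ, e1, e2⟩ := first_diff (e.1.map fun g => res t (g (k + 1)))
    (e.1.map fun g => res t (g (k + 2))) (by simp) (fun hh => by
      have := List.map_inj_left.mp hh γ hγ
      simp only [res, if_pos h1, if_neg (not_le.mpr h2)] at this
      exact absurd this (by simp))
  refine ⟨y, P.ch_trans hc (P.ch_trans hx hyx), P.rT t k y ++ p, α, β, hαβ, ?_, ?_, ?_⟩
  · refine P.ll_fac (key _ s1) (List.IsPrefix.isInfix ⟨u, ?_⟩)
    rw [e1]
    simp only [List.append_assoc, List.cons_append, List.nil_append]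
  · refine P.ll_fac (key _ s2) (List.IsPrefix.isInfix ⟨v, ?_⟩)
    rw [e2]
    simp only [List.append_assoc, List.cons_append, List.nil_append]
  · rw [List.length_append, P.length_rT]
    omega

theorem PS.scb (hb : P.Bot b) (hap : P.Ap b) : ∃ C K L₀, 0 < C ∧ ∀ L, L₀ ≤ L →
    ∃ t, LRs (P.LL b t) C L ∧ SPs (P.LL b t) K L := by
  obtain ⟨C, hC, hlr⟩ := P.lr hb
  obtain ⟨C₁, hC₁, hs⟩ := P.len_succ_le
  by_cases hg : Gr P b
  · refine ⟨C, C₁ ^ 4, P.len b 2, hC, fun L hL => ?_⟩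
    have hex : ∃ k, L < P.len b (k + 3) := ⟨L, lt_trans (by omega) (P.lt_len b (L + 3))⟩
    have h1 := Nat.find_spec hex
    have h2 : P.len b (Nat.find hex + 2) ≤ L := by
      rcases Nat.eq_zero_or_eq_succ_pred (Nat.find hex) with e | e
      · rw [e]
        exact hL
      · have := Nat.find_min hex (m := (Nat.find hex).pred) (by omega)
        rw [e]
        exact not_lt.mp this
    generalize Nat.find hex = k at h1 h2
    obtain ⟨t, ht, ht'⟩ := big_step P hg (k + 1)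
    obtain ⟨y, hy, z, α, β, hαβ, z1, z2, hz⟩ := P.spg hb.1 ht ht'
    refine ⟨t, hlr t _ L ht h2, sps_trim (fun _ h _ h' => P.ll_fac h h') hαβ z1 z2
      (Nat.one_le_pow _ _ hC₁) ?_⟩
    calc L ≤ P.len b (k + 3) := h1.le
      _ ≤ P.len y (k + 4) := P.len_le_succ (hb.2 y hy) _
      _ ≤ C₁ ^ 4 * P.len y k := len_pow P hs y k 4
      _ ≤ C₁ ^ 4 * z.length := Nat.mul_le_mul_left _ hz
  · refine ⟨C, 1, P.len b 0, hC, fun L hL => ?_⟩
    obtain ⟨z, α, β, hz, hαβ, z1, z2⟩ := hap.resolve_left hg L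
    refine ⟨max α.length β.length, hlr _ 0 L (big_of_not_gr P hg _ _) hL, ?_⟩
    rw [← hz]
    exact sps_exact P hαβ z1 z2 (le_max_left _ _) (le_max_right _ _) le_rfl

theorem PS.js (hb : P.Bot b) (hap : P.Ap b)
    (hc : ∃ C, ∀ a, P.Cl b a → ∀ y ∈ P.ch a, ∀ k, P.len a k ≤ C * P.len y k) :
    ∃ (C K : ℕ) (ts Ls : ℕ → ℕ), 0 < C ∧ Monotone ts ∧ Tendsto Ls atTop atTop ∧ ∀ ν,
      LRs (P.LL b (ts ν)) C (Ls ν) ∧ SPs (P.LL b (ts ν)) K (Ls ν) ∧
        ∀ a, P.Cl b a → ∃ k, P.Big a (ts ν) k ∧ P.len a k ≤ Ls ν := by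
  obtain ⟨C, hC, hlr⟩ := P.lr hb
  obtain ⟨C₁, hC₁, hs⟩ := P.len_succ_le
  obtain ⟨C₂, hc⟩ := hc
  have := Fintype.ofFinite N
  have hbb : P.Cl b b := hb.cl
  by_cases hg : ∃ a, P.Cl b a ∧ Gr P a
  · obtain ⟨a₀, ha₀, hg⟩ := hg
    have hk : ∀ a t, ∃ k, P.Big a t k ∧ ∀ j, j < k → ¬ P.Big a t j := fun a t =>
      ⟨Nat.find (P.exists_big a t), Nat.find_spec _, fun j hj => Nat.find_min _ hj⟩
    choose k₀ hk₀ hk₁ using hk
    have hm : ∀ t, ∃ a, P.Cl b a ∧ ∀ a', P.Cl b a' → P.len a' (k₀ a' t) ≤ P.len a (k₀ a t) := by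
      intro t
      obtain ⟨a, h1, h2⟩ := Finset.exists_max_image (Finset.univ.filter fun a => P.Cl b a)
        (fun a => P.len a (k₀ a t)) ⟨b, by simpa using hbb⟩
      exact ⟨a, by simpa using h1, fun a' h => h2 a' (by simpa using h)⟩
    choose am ham hmax using hm
    have hlarge : ∀ n, ∃ t₀, ∀ t, t₀ ≤ t → n < P.len (am t) (k₀ (am t) t) := fun n => by
      obtain ⟨t₀, h⟩ := big_large P hg n
      exact ⟨t₀, fun t ht => lt_of_lt_of_le
        (lt_trans (h t ht _ (hk₀ a₀ t)) (P.lt_len a₀ _)) (hmax t a₀ ha₀)⟩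
    obtain ⟨t₀, ht₀⟩ := hlarge (Finset.univ.sup fun a => P.len a 1)
    refine ⟨C, C₁ ^ 2 * C₂ + 1, fun ν => ν + t₀,
      fun ν => P.len (am (ν + t₀)) (k₀ (am (ν + t₀)) (ν + t₀)), hC,
      fun _ _ h => Nat.add_le_add_right h _, ?_, fun ν => ⟨?_, ?_, ?_⟩⟩
    · refine tendsto_atTop_atTop.mpr fun n => ?_
      obtain ⟨t₁, h⟩ := hlarge n
      exact ⟨t₁, fun ν hν => (h _ (by omega)).le⟩
    · exact hlr _ _ _ (hk₀ b _) (hmax _ b hbb)
    · beta_reduce
      have h1 := ht₀ (ν + t₀) (by omega)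
      generalize ν + t₀ = t at h1 ⊢
      have h2 : 2 ≤ k₀ (am t) t := by
        by_contra h
        have h3 : P.len (am t) (k₀ (am t) t) ≤ P.len (am t) 1 := P.len_mono _ (by omega)
        have h4 : P.len (am t) 1 ≤ Finset.univ.sup fun a => P.len a 1 :=
          Finset.le_sup (f := fun a => P.len a 1) (Finset.mem_univ _)
        omega
      obtain ⟨k, hk⟩ : ∃ k, k₀ (am t) t = k + 2 := ⟨k₀ (am t) t - 2, by omega⟩
      obtain ⟨y, hy, z, α, β, hαβ, z1, z2, hz⟩ := P.spg (ham t).mem (hk ▸ hk₀ (am t) t)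
        (hk₁ (am t) t (k + 1) (by omega))
      refine sps_trim (fun _ h _ h' => P.ll_fac h h') hαβ (P.ll_sub (ham t).2 t z1)
        (P.ll_sub (ham t).2 t z2) (by omega) ?_
      rw [hk]
      calc P.len (am t) (k + 2) ≤ C₁ ^ 2 * P.len (am t) k := len_pow P hs _ k 2
        _ ≤ C₁ ^ 2 * (C₂ * P.len y k) := Nat.mul_le_mul_left _ (hc _ (ham t) y hy k)
        _ ≤ C₁ ^ 2 * (C₂ * z.length) := Nat.mul_le_mul_left _ (Nat.mul_le_mul_left _ hz)
        _ ≤ (C₁ ^ 2 * C₂ + 1) * z.length := by rw [add_mul, mul_assoc]; omega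
    · exact fun a ha => ⟨_, hk₀ a _, hmax _ a ha⟩
  · push Not at hg
    choose z α β hz hαβ z1 z2 using hap.resolve_left (hg b hbb)
    obtain ⟨M, hM⟩ : ∃ M, ∀ a, P.len a 0 ≤ M :=
      ⟨Finset.univ.sup fun a => P.len a 0, fun a =>
        Finset.le_sup (f := fun a => P.len a 0) (Finset.mem_univ _)⟩
    refine ⟨C, 1, fun ν => (Finset.range (ν + 1)).sup fun i =>
      max (α (i + M)).length (β (i + M)).length, fun ν => ν + M, hC,
      fun i j h => Finset.sup_mono (Finset.range_mono (by omega)),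
      tendsto_add_atTop_nat M, fun ν => ⟨?_, ?_, ?_⟩⟩
    · exact hlr _ 0 _ (big_of_not_gr P (hg b hbb) _ _) ((hM b).trans (Nat.le_add_left _ _))
    · have h1 := Finset.le_sup (f := fun i => max (α (i + M)).length (β (i + M)).length)
        (Finset.mem_range.mpr (Nat.lt_succ_self ν))
      have h2 := sps_exact P (hαβ (ν + M)) (z1 _) (z2 _) ((le_max_left _ _).trans h1)
        ((le_max_right _ _).trans h1) le_rfl
      rwa [hz] at h2
    · exact fun a ha => ⟨0, big_of_not_gr P (hg a ha) _ _, (hM a).trans (Nat.le_add_left _ _)⟩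

end Pool.Agent.P.MP_406085_lc
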