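import Pool.Agent.P.MP_406085_lc.Basic

/-!
Congruences of finite index, tests, recognizable functions and separation.
-/

namespace Pool.Agent.P.MP_406085_lc

open Filter PowerSeries
open scoped Classical

variable {E E' K K' A B R : Type}

theorem fc_of_fun (r : List E → List E → Prop) (h1 : ∀ u, r u u) (h2 : ∀ u v, r u v → r v u)
    (h3 : ∀ u v w, r u v → r v w → r u w)
    (h4 : ∀ u v u' v', r u v → r u' v' → r (u ++ u') (v ++ v')) (κ : List E → K)
    (hfin : (Set.range κ).Finite) (h : ∀ u v, κ u = κ v → r u v) :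
    ∃ c : FC E, ∀ u v, c.r u v ↔ r u v := by
  refine ⟨⟨r, h1, fun {u v} => h2 u v, fun {u v w} => h3 u v w,
    fun {u v u' v'} => h4 u v u' v', ?_⟩, fun _ _ => Iff.rfl⟩
  have := hfin.to_subtype
  refine ⟨Set.range fun s : Set.range κ => s.2.choose, Set.finite_range _, fun u => ?_⟩
  refine ⟨_, ⟨⟨κ u, u, rfl⟩, rfl⟩, h _ _ ?_⟩
  exact (Exists.choose_spec (⟨u, rfl⟩ : κ u ∈ Set.range κ)).symm

theorem FC.exists_rep (c : FC E) : ∃ ρ : List E → List E, (Set.range ρ).Finite ∧
    (∀ u, c.r u (ρ u)) ∧ ∀ u v, c.r u v → ρ u = ρ v := by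
  obtain ⟨S, hS, h⟩ := c.fin
  have key : ∀ u, Classical.epsilon (fun v => v ∈ S ∧ c.r u v) ∈ S ∧
      c.r u (Classical.epsilon fun v => v ∈ S ∧ c.r u v) := fun u =>
    Classical.epsilon_spec (p := fun v => v ∈ S ∧ c.r u v) (h u)
  refine ⟨fun u => Classical.epsilon fun v => v ∈ S ∧ c.r u v, hS.subset ?_, fun u => (key u).2,
    fun u v huv => ?_⟩
  · rintro _ ⟨u, rfl⟩
    exact (key u).1
  · have : (fun w => w ∈ S ∧ c.r u w) = fun w => w ∈ S ∧ c.r v w := by
      funext w
      exact propext ⟨fun h => ⟨h.1, c.trans (c.symm huv) h.2⟩, fun h => ⟨h.1, c.trans huv h.2⟩⟩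
    beta_reduce
    rw [this]

theorem FC.exists_inter (c c' : FC E) :
    ∃ c'' : FC E, ∀ u v, c''.r u v ↔ c.r u v ∧ c'.r u v := by
  obtain ⟨ρ, hρ, h1, -⟩ := c.exists_rep
  obtain ⟨ρ', hρ', h1', -⟩ := c'.exists_rep
  refine fc_of_fun (fun u v => c.r u v ∧ c'.r u v) (fun u => ⟨c.refl u, c'.refl u⟩)
    (fun u v h => ⟨c.symm h.1, c'.symm h.2⟩)
    (fun u v w h h' => ⟨c.trans h.1 h'.1, c'.trans h.2 h'.2⟩)
    (fun u v u' v' h h' => ⟨c.app h.1 h'.1, c'.app h.2 h'.2⟩) (fun u => (ρ u, ρ' u))
    ((hρ.prod hρ').subset ?_) fun u v h => ?_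
  · rintro _ ⟨u, rfl⟩
    exact ⟨⟨u, rfl⟩, ⟨u, rfl⟩⟩
  · obtain ⟨e, e'⟩ := Prod.mk.inj h
    exact ⟨c.trans (h1 u) (e ▸ c.symm (h1 v)), c'.trans (h1' u) (e' ▸ c'.symm (h1' v))⟩

theorem FC.exists_iInter {I : Type} [Finite I] (c : I → FC E) :
    ∃ c' : FC E, ∀ u v, c'.r u v ↔ ∀ i, (c i).r u v := by
  choose ρ hρ h1 _h2 using fun i => (c i).exists_rep
  refine fc_of_fun (fun u v => ∀ i, (c i).r u v) (fun u i => (c i).refl u)
    (fun u v h i => (c i).symm (h i)) (fun u v w h h' i => (c i).trans (h i) (h' i))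
    (fun u v u' v' h h' i => (c i).app (h i) (h' i)) (fun u i => ρ i u)
    ((Set.Finite.pi' hρ).subset ?_) fun u v h i => ?_
  · rintro _ ⟨u, rfl⟩ i
    exact ⟨u, rfl⟩
  · have e : ρ i u = ρ i v := congrFun h i
    exact (c i).trans (h1 i u) (e ▸ (c i).symm (h1 i v))

theorem FC.exists_comap (c : FC E') (g : E → List E') :
    ∃ c' : FC E, ∀ u v, c'.r u v ↔ c.r (u.flatMap g) (v.flatMap g) := by
  obtain ⟨ρ, hρ, h1, -⟩ := c.exists_rep
  refine fc_of_fun (fun u v => c.r (u.flatMap g) (v.flatMap g)) (fun u => c.refl _)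
    (fun u v h => c.symm h) (fun u v w h h' => c.trans h h')
    (fun u v u' v' h h' => by
      rw [List.flatMap_append, List.flatMap_append]; exact c.app h h')
    (fun u => ρ (u.flatMap g)) (hρ.subset ?_) fun u v h => ?_
  · rintro _ ⟨u, rfl⟩
    exact ⟨_, rfl⟩
  · have e : ρ (u.flatMap g) = ρ (v.flatMap g) := h
    exact c.trans (h1 _) (e ▸ c.symm (h1 _))

section Group

variable [AddCommGroup A] [AddCommGroup B] {c c' : FC E} {d e : ℕ} {F G : List E → A}

/-- The full relation. -/
def fcTop (E : Type) : FC E where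
  r _ _ := True
  refl _ := trivial
  symm _ := trivial
  trans _ _ := trivial
  app _ _ := trivial
  fin := ⟨{[]}, Set.finite_singleton _, fun _ => ⟨[], rfl, trivial⟩⟩

theorem Deg.congr (hF : Deg c d F) (h : ∀ w, F w = G w) : Deg c d G := by
  have : F = G := funext h
  exact this ▸ hF

theorem Deg.succ (hF : Deg c d F) : Deg c (d + 1) F := by
  induction d generalizing F with
  | zero =>
    intro u v _ w
    beta_reduce
    rw [hF, hF, sub_self]
  | succ d ih => exact fun u v huv => ih (hF u v huv)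

theorem Deg.anti (hF : Deg c d F) (h : ∀ u v, c'.r u v → c.r u v) : Deg c' d F := by
  induction d generalizing F with
  | zero => exact hF
  | succ d ih => exact fun u v huv => ih (hF u v (h u v huv))

theorem Deg.mono (hF : Deg c d F) (h : d ≤ e) : Deg c e F := by
  induction e, h using Nat.le_induction with
  | base => exact hF
  | succ e _ ih => exact ih.succ

theorem deg_zero : Deg c d fun _ => (0 : A) :=   Deg.mono (d := 0) (fun _ => rfl) (Nat.zero_le d)

theorem Deg.add (hF : Deg c d F) (hG : Deg c d G) : Deg c d fun w => F w + G w := by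
  induction d generalizing F G with
  | zero =>
    intro w
    beta_reduce
    rw [hF w, hG w, add_zero]
  | succ d ih =>
    refine fun u v huv => (ih (hF u v huv) (hG u v huv)).congr fun w => ?_
    beta_reduce
    abel

theorem Deg.map (hF : Deg c d F) (φ : A →+ B) : Deg c d fun w => φ (F w) := by
  induction d generalizing F with
  | zero =>
    intro w
    beta_reduce
    rw [hF w, map_zero]
  | succ d ih => exact fun u v huv => (ih (hF u v huv)).congr fun w => map_sub φ _ _

theorem Deg.of_map (φ : A →+ B) (hφ : Function.Injective φ) (hF : Deg c d fun w => φ (F w)) :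
    Deg c d F := by
  induction d generalizing F with
  | zero => exact fun w => hφ ((hF w).trans (map_zero φ).symm)
  | succ d ih => exact fun u v huv => ih ((hF u v huv).congr fun w => (map_sub φ _ _).symm)

theorem Deg.left (hF : Deg c d F) (x : List E) : Deg c d fun w => F (x ++ w) := by
  cases d with
  | zero => exact fun w => hF _
  | succ d =>
    exact fun u v huv => (hF (x ++ u) (x ++ v) (c.app (c.refl x) huv)).congr fun w => by
      simp only [List.append_assoc]

theorem Deg.right (hF : Deg c d F) (x : List E) : Deg c d fun w => F (w ++ x) := by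
  induction d generalizing F with
  | zero => exact fun w => hF _
  | succ d ih =>
    exact fun u v huv => (ih (hF u v huv)).congr fun w => by simp only [List.append_assoc]

theorem Deg.comap {c₁ : FC E'} {F₁ : List E' → A} (hF : Deg c₁ d F₁) (g : E → List E')
    (h : ∀ u v, c.r u v → c₁.r (u.flatMap g) (v.flatMap g)) :
    Deg c d fun w => F₁ (w.flatMap g) := by
  induction d generalizing F₁ with
  | zero => exact fun w => hF _
  | succ d ih =>
    exact fun u v huv => (ih (hF _ _ (h u v huv))).congr fun w => by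
      simp only [List.flatMap_append]

theorem Test.common {G : List E → B} (hF : Test F) (hG : Test G) :
    ∃ c d, Deg c d F ∧ Deg c d G := by
  obtain ⟨c, d, hF⟩ := hF
  obtain ⟨c', e, hG⟩ := hG
  obtain ⟨c'', h⟩ := c.exists_inter c'
  exact ⟨c'', max d e, (hF.anti fun u v huv => ((h u v).1 huv).1).mono (le_max_left _ _),
    (hG.anti fun u v huv => ((h u v).1 huv).2).mono (le_max_right _ _)⟩

theorem deg_sum {I : Type} (s : Finset I) {F : I → List E → A} (h : ∀ i ∈ s, Deg c d (F i)) :
    Deg c d fun w => ∑ i ∈ s, F i w := by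
  induction s using Finset.induction_on with
  | empty => exact deg_zero.congr fun w => by simp
  | insert a s ha ih =>
    exact ((h a (Finset.mem_insert_self _ _)).add
      (ih fun i hi => h i (Finset.mem_insert_of_mem hi))).congr fun w => by
        rw [Finset.sum_insert ha]

theorem Deg.sub (hF : Deg c d F) (hG : Deg c d G) : Deg c d fun w => F w - G w :=
  (hF.add (hG.map (negAddMonoidHom : A →+ A))).congr fun w => by simp [sub_eq_add_neg]

theorem Test.add (hF : Test F) (hG : Test G) : Test fun w => F w + G w := by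
  obtain ⟨c, d, hF, hG⟩ := hF.common hG
  exact ⟨c, d, hF.add hG⟩

theorem Test.sub (hF : Test F) (hG : Test G) : Test fun w => F w - G w := by
  obtain ⟨c, d, hF, hG⟩ := hF.common hG
  exact ⟨c, d, hF.sub hG⟩

theorem Test.map (hF : Test F) (φ : A →+ B) : Test fun w => φ (F w) := by
  obtain ⟨c, d, hF⟩ := hF
  exact ⟨c, d, hF.map φ⟩

theorem Test.left (hF : Test F) (x : List E) : Test fun w => F (x ++ w) := by
  obtain ⟨c, d, hF⟩ := hF
  exact ⟨c, d, hF.left x⟩

theorem Test.right (hF : Test F) (x : List E) : Test fun w => F (w ++ x) := by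
  obtain ⟨c, d, hF⟩ := hF
  exact ⟨c, d, hF.right x⟩

theorem Test.comap {F₁ : List E' → A} (hF : Test F₁) (g : E → List E') :
    Test fun w : List E => F₁ (w.flatMap g) := by
  obtain ⟨c, d, hF⟩ := hF
  obtain ⟨c', h⟩ := c.exists_comap g
  exact ⟨c', d, hF.comap g fun u v huv => (h u v).1 huv⟩

theorem test_const (a : A) : Test fun _ : List E => a :=   ⟨fcTop E, 1, fun _ _ _ _ => sub_self a⟩

theorem test_sum {I : Type} (s : Finset I) {F : I → List E → A} (h : ∀ i ∈ s, Test (F i)) :
    Test fun w => ∑ i ∈ s, F i w := by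
  induction s using Finset.induction_on with
  | empty => simpa using test_const (E := E) (0 : A)
  | insert a s ha ih =>
    have := (h a (Finset.mem_insert_self _ _)).add
      (ih fun i hi => h i (Finset.mem_insert_of_mem hi))
    simpa only [Finset.sum_insert ha] using this

theorem test_additive (h : ∀ u v, F (u ++ v) = F u + F v) : Test F := by
  refine ⟨fcTop E, 2, fun u v _ u' v' _ w => ?_⟩
  simp only [h]
  abel

theorem test_common {Φ : Set (List E → A)} (hfin : Φ.Finite) (h : ∀ F ∈ Φ, Test F) :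
    ∃ c d, ∀ F ∈ Φ, Deg c d F := by
  have := hfin.to_subtype
  have := Fintype.ofFinite Φ
  choose c d hc using fun F : Φ => h F.1 F.2
  obtain ⟨c', hc'⟩ := FC.exists_iInter c
  refine ⟨c', ∑ F, d F, fun F hF => ?_⟩
  exact ((hc ⟨F, hF⟩).anti fun u v huv => (hc' u v).1 huv _).mono
    (Finset.single_le_sum (f := d) (fun _ _ => Nat.zero_le _) (Finset.mem_univ _))

theorem Rec.test (h : Rec F) : Test F := by
  obtain ⟨c, h⟩ := h
  exact ⟨c, 1, fun u v huv w => sub_eq_zero.2 (h _ _ (c.app huv (c.refl w)))⟩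

end Group

section Ring

variable [CommRing R] {c : FC E} {d e : ℕ} {F G : List E → R}

theorem Deg.mul_inv (hF : Deg c d F) (h : ∀ u v, c.r u v → G u = G v) :
    Deg c d fun w => G w * F w := by
  induction d generalizing F G with
  | zero =>
    intro w
    beta_reduce
    rw [hF w, mul_zero]
  | succ d ih =>
    intro u v huv
    refine (ih (G := fun w => G (u ++ w)) (hF u v huv)
      fun a b hab => h _ _ (c.app (c.refl u) hab)).congr fun w => ?_
    beta_reduce
    rw [← h _ _ (c.app huv (c.refl w))]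
    ring

theorem Deg.mul (hF : Deg c d F) (hG : Deg c e G) : Deg c (d + e) fun w => F w * G w := by
  induction d generalizing e F G with
  | zero => exact deg_zero.congr fun w => by rw [hF w, zero_mul]
  | succ d ih =>
    induction e generalizing F G with
    | zero => exact deg_zero.congr fun w => by rw [hG w, mul_zero]
    | succ e ihe =>
      intro u v huv
      have h1 := ih (hF u v huv) (hG.left u)
      have h2 := ihe (hF.left v) (hG u v huv)
      rw [show d + (e + 1) = d + 1 + e by omega] at h1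
      exact (h1.add h2).congr fun w => by ring

theorem Test.mul (hF : Test F) (hG : Test G) : Test fun w => F w * G w := by
  obtain ⟨c, d, hF, hG⟩ := hF.common hG
  exact ⟨c, d + d, hF.mul hG⟩

theorem Test.pow (hF : Test F) (k : ℕ) : Test fun w => F w ^ k := by
  induction k with
  | zero => simpa using test_const (E := E) (1 : R)
  | succ k ih => simpa only [pow_succ] using ih.mul hF

theorem cauchy_append (F G : List E → R) (u w : List E) :
    ∑ i ∈ Finset.range ((u ++ w).length + 1), F ((u ++ w).take i) * G ((u ++ w).drop i) =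
      ∑ i ∈ Finset.range u.length, F (u.take i) * G (u.drop i ++ w) +
        ∑ j ∈ Finset.range (w.length + 1), F (u ++ w.take j) * G (w.drop j) := by
  rw [List.length_append, add_assoc, Finset.sum_range_add]
  congr 1
  · refine Finset.sum_congr rfl fun i hi => ?_
    have hi := (Finset.mem_range.1 hi).le
    rw [List.take_append_of_le_length hi, List.drop_append_of_le_length hi]
  · refine Finset.sum_congr rfl fun j _ => ?_
    rw [List.take_length_add_append, List.drop_length_add_append]

theorem Deg.cauchy (hF : Deg c d F) (hG : Deg c e G) :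
    Deg c (d + e) fun w =>
      ∑ i ∈ Finset.range (w.length + 1), F (w.take i) * G (w.drop i) := by
  induction d generalizing F with
  | zero =>
    exact deg_zero.congr fun w => (Finset.sum_eq_zero fun i _ => by rw [hF, zero_mul]).symm
  | succ d ih =>
    rw [show d + 1 + e = d + e + 1 by omega]
    intro u v huv
    have h1 : ∀ u : List E, Deg c (d + e) fun w =>
        ∑ i ∈ Finset.range u.length, F (u.take i) * G (u.drop i ++ w) := fun u =>
      (deg_sum _ fun i _ => (hG.left (u.drop i)).mul_inv (G := fun _ => F (u.take i))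
        fun _ _ _ => rfl).mono (Nat.le_add_left _ _)
    refine (((h1 u).sub (h1 v)).add (ih (hF u v huv))).congr fun w => ?_
    beta_reduce
    rw [cauchy_append, cauchy_append]
    simp only [sub_mul, Finset.sum_sub_distrib]
    ring

theorem Test.cauchy (hF : Test F) (hG : Test G) :
    Test fun w => ∑ i ∈ Finset.range (w.length + 1), F (w.take i) * G (w.drop i) := by
  obtain ⟨c, d, hF, hG⟩ := hF.common hG
  exact ⟨c, d + d, hF.cauchy hG⟩

end Ring

theorem rec_const (a : K) : Rec fun _ : List E => a := ⟨fcTop E, fun _ _ _ => rfl⟩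

theorem Rec.comp {f : List E → K} (h : Rec f) (g : K → K') : Rec fun w => g (f w) := by
  obtain ⟨c, h⟩ := h
  exact ⟨c, fun u v huv => congrArg g (h u v huv)⟩

theorem Rec.prod {f : List E → K} {g : List E → K'} (h : Rec f) (h' : Rec g) :
    Rec fun w => (f w, g w) := by
  obtain ⟨c, h⟩ := h
  obtain ⟨c', h'⟩ := h'
  obtain ⟨c'', e⟩ := c.exists_inter c'
  exact ⟨c'', fun u v huv => Prod.ext (h u v ((e u v).1 huv).1) (h' u v ((e u v).1 huv).2)⟩

theorem Rec.finite_range {f : List E → K} (h : Rec f) : (Set.range f).Finite := by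
  obtain ⟨c, h⟩ := h
  obtain ⟨S, hS, h'⟩ := c.fin
  refine (hS.image f).subset ?_
  rintro _ ⟨u, rfl⟩
  obtain ⟨v, hv, huv⟩ := h' u
  exact ⟨v, hv, (h u v huv).symm⟩

theorem rec_left (f : List E → K) (hfin : (Set.range f).Finite)
    (h : ∀ u v a, f u = f v → f (u ++ [a]) = f (v ++ [a])) : Rec f := by
  have := hfin.to_subtype
  have ext : ∀ w u v, f u = f v → f (u ++ w) = f (v ++ w) := by
    intro w
    induction w with
    | nil => intro u v e; simpa using e
    | cons a w ih =>
      intro u v e
      have := ih _ _ (h u v a e)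
      simpa using this
  obtain ⟨c, hc⟩ := fc_of_fun (fun u v => ∀ x, f (x ++ u) = f (x ++ v)) (fun _ _ => rfl)
    (fun u v h x => (h x).symm) (fun u v w h h' x => (h x).trans (h' x))
    (fun u v u' v' h h' x => by
      rw [← List.append_assoc, ← List.append_assoc, h' (x ++ u)]
      exact ext _ _ _ (h x))
    (fun u (s : Set.range f) => f (s.2.choose ++ u))
    ((Set.Finite.pi' fun _ => hfin).subset (by
      rintro _ ⟨u, rfl⟩ s
      exact ⟨_, rfl⟩))
    (fun u v e x => by
      have e1 := congrFun e ⟨f x, x, rfl⟩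
      have e2 := Exists.choose_spec (⟨x, rfl⟩ : f x ∈ Set.range f)
      exact (ext u _ _ e2).symm.trans (e1.trans (ext v _ _ e2)))
  exact ⟨c, fun u v huv => by simpa using (hc u v).1 huv []⟩

theorem rec_right (f : List E → K) (hfin : (Set.range f).Finite)
    (h : ∀ u v a, f u = f v → f (a :: u) = f (a :: v)) : Rec f := by
  have := hfin.to_subtype
  have ext : ∀ w u v, f u = f v → f (w ++ u) = f (w ++ v) := by
    intro w
    induction w with
    | nil => intro u v e; simpa using e
    | cons a w ih =>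
      intro u v e
      exact h _ _ a (ih u v e)
  obtain ⟨c, hc⟩ := fc_of_fun (fun u v => ∀ x, f (u ++ x) = f (v ++ x)) (fun _ _ => rfl)
    (fun u v h x => (h x).symm) (fun u v w h h' x => (h x).trans (h' x))
    (fun u v u' v' h h' x => by
      rw [List.append_assoc, List.append_assoc, h (u' ++ x)]
      exact ext _ _ _ (h' x))
    (fun u (s : Set.range f) => f (u ++ s.2.choose))
    ((Set.Finite.pi' fun _ => hfin).subset (by
      rintro _ ⟨u, rfl⟩ s
      exact ⟨_, rfl⟩))
    (fun u v e x => by
      have e1 := congrFun e ⟨f x, x, rfl⟩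
      have e2 := Exists.choose_spec (⟨x, rfl⟩ : f x ∈ Set.range f)
      exact (ext u _ _ e2).symm.trans (e1.trans (ext v _ _ e2)))
  exact ⟨c, fun u v huv => by simpa using (hc u v).1 huv []⟩

theorem rec_eq (w : List E) : Rec fun u => u = w := by
  have h := rec_left (fun u : List E => if u <+: w then some u else none)
    (((w.inits.finite_toSet.image some).insert none).subset (by
      rintro _ ⟨u, rfl⟩
      by_cases hu : u <+: w
      · exact Or.inr ⟨u, (List.mem_inits _ _).2 hu, by simp [hu]⟩
      · exact Or.inl (by simp [hu])))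
    (fun u v a e => by
      by_cases hu : u <+: w <;> by_cases hv : v <+: w
      · simp only [hu, hv, if_true, Option.some.injEq] at e
        rw [e]
      · simp [hu, hv] at e
      · simp [hu, hv] at e
      · rw [if_neg fun h => hu ((List.prefix_append u [a]).trans h),
          if_neg fun h => hv ((List.prefix_append v [a]).trans h)])
  have e : (fun u : List E => u = w) =
      fun u => (if u <+: w then some u else none) = some w := by
    funext u
    refine propext ⟨fun e => by simp [e], fun e => ?_⟩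
    by_cases hu : u <+: w
    · simpa [hu] using e
    · simp [hu] at e
  rw [e]
  exact h.comp fun o => o = some w

theorem Sep.mono {S S' : Set (List E)} (h : Sep S) (hS : S' ⊆ S) : Sep S' := by
  obtain ⟨Φ, h1, h2, h3⟩ := h
  exact ⟨Φ, h1, h2, fun u hu v hv => h3 u (hS hu) v (hS hv)⟩

theorem Sep.union_finite {S S' : Set (List E)} (h : Sep S) (hS : S'.Finite) : Sep (S ∪ S') := by
  obtain ⟨Φ, h1, h2, h3⟩ := h
  refine ⟨Φ ∪ (fun s u => if u = s then (1 : ℂ) else 0) '' S', h1.union (hS.image _), ?_, ?_⟩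
  · rintro F (hF | ⟨s, -, rfl⟩)
    · exact h2 F hF
    · obtain ⟨c, hc⟩ := rec_eq s
      exact Rec.test ⟨c, fun u v huv => if_congr (iff_of_eq (hc u v huv)) rfl rfl⟩
  · intro u hu v hv e
    by_contra hne
    by_cases hu' : u ∈ S'
    · have := e _ (Or.inr ⟨u, hu', rfl⟩)
      simp [Ne.symm hne] at this
    by_cases hv' : v ∈ S'
    · have := e _ (Or.inr ⟨v, hv', rfl⟩)
      simp [hne] at this
    exact hne (h3 u (hu.resolve_right hu') v (hv.resolve_right hv') fun F hF => e F (Or.inl hF))

theorem sep_finite {S : Set (List E)} (hS : S.Finite) : Sep S := by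
  have h : Sep (∅ : Set (List E)) := ⟨∅, Set.finite_empty, by simp, by simp⟩
  simpa using h.union_finite hS

theorem Sep.pull {S : Set (List E)} {φ : List E → List E'} (h : Sep (φ '' S)) (hφ : GM φ)
    (hi : Set.InjOn φ S) : Sep S := by
  obtain ⟨Φ, h1, h2, h3⟩ := h
  refine ⟨(fun F w => F (φ w)) '' Φ, h1.image _, ?_, fun u hu v hv e => hi hu hv ?_⟩
  · rintro _ ⟨F, hF, rfl⟩
    exact hφ.1 F (h2 F hF)
  · exact h3 _ ⟨u, hu, rfl⟩ _ ⟨v, hv, rfl⟩ fun F hF => e _ ⟨F, hF, rfl⟩

theorem sep_of_pairs {I : Type} [Finite I] (S : I → Set (List E))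
    (h : ∀ i j, ∃ Φ : Set (List E → ℂ), Φ.Finite ∧ (∀ F ∈ Φ, Test F) ∧
      ∀ u ∈ S i, ∀ v ∈ S j, (∀ F ∈ Φ, F u = F v) → u = v) : Sep (⋃ i, S i) := by
  choose Φ h1 h2 h3 using h
  refine ⟨⋃ i, ⋃ j, Φ i j, Set.finite_iUnion fun i => Set.finite_iUnion fun j => h1 i j, ?_, ?_⟩
  · intro F hF
    simp only [Set.mem_iUnion] at hF
    obtain ⟨i, j, hF⟩ := hF
    exact h2 i j F hF
  · intro u hu v hv e
    obtain ⟨i, hu⟩ := Set.mem_iUnion.1 hu
    obtain ⟨j, hv⟩ := Set.mem_iUnion.1 hv
    exact h3 i j u hu v hv fun F hF =>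
      e F (Set.mem_iUnion.2 ⟨i, Set.mem_iUnion.2 ⟨j, hF⟩⟩)

end Pool.Agent.P.MP_406085_lc
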